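import Pool.Agent.H243.RL.Stmt5
set_option autoImplicit false

open MeasureTheory Set
open scoped ENNReal

namespace Pool.Agent.H243.RL.ARC

/-- the number of jumps along a monotone sequence -/
theorem jumps (I : Set ℝ) (c : ℂ) (hI : I.OrdConnected) (u : ℕ → ℝ) (hu : Monotone u) (n : ℕ) :
    (∑ i ∈ Finset.range n, edist (I.indicator (fun _ => c) (u (i + 1)))
        (I.indicator (fun _ => c) (u i)) ≤ 2 * ‖c‖ₑ) ∧
    (u n ∈ I → ∑ i ∈ Finset.range n, edist (I.indicator (fun _ => c) (u (i + 1)))
        (I.indicator (fun _ => c) (u i)) ≤ ‖c‖ₑ) ∧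
    ((∀ j ≤ n, u j ∉ I) → ∑ i ∈ Finset.range n, edist (I.indicator (fun _ => c) (u (i + 1)))
        (I.indicator (fun _ => c) (u i)) ≤ 0) := by
  induction n with
  | zero => simp
  | succ n ih =>
    obtain ⟨h1, h2, h3⟩ := ih
    rw [Finset.sum_range_succ]
    by_cases ha : u (n + 1) ∈ I
    · by_cases hb : u n ∈ I
      · have e : edist (I.indicator (fun _ => c) (u (n + 1))) (I.indicator (fun _ => c) (u n)) = 0 := by
          rw [indicator_of_mem ha, indicator_of_mem hb, edist_self]
        rw [e, add_zero]
        exact ⟨h1, fun _ => h2 hb, fun h => absurd ha (h (n + 1) le_rfl)⟩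
      · have hno : ∀ j ≤ n, u j ∉ I := by
          intro j hj hjI
          exact hb (hI.out hjI ha ⟨hu hj, hu (Nat.le_succ n)⟩)
        have e : edist (I.indicator (fun _ => c) (u (n + 1))) (I.indicator (fun _ => c) (u n)) =
            ‖c‖ₑ := by
          rw [indicator_of_mem ha, indicator_of_notMem hb, edist_zero_right]
        have h4 := h3 hno
        rw [e]
        have h5 : (∑ i ∈ Finset.range n, edist (I.indicator (fun _ => c) (u (i + 1)))
            (I.indicator (fun _ => c) (u i))) + ‖c‖ₑ ≤ ‖c‖ₑ := by
          calc _ ≤ 0 + ‖c‖ₑ := add_le_add h4 le_rfl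
            _ = _ := zero_add _
        refine ⟨h5.trans ?_, fun _ => h5, fun h => absurd ha (h (n + 1) le_rfl)⟩
        rw [two_mul]
        exact le_self_add
    · by_cases hb : u n ∈ I
      · have e : edist (I.indicator (fun _ => c) (u (n + 1))) (I.indicator (fun _ => c) (u n)) =
            ‖c‖ₑ := by
          rw [indicator_of_notMem ha, indicator_of_mem hb, edist_comm, edist_zero_right]
        rw [e]
        refine ⟨?_, fun h => absurd h ha, fun h => absurd hb (h n (Nat.le_succ n))⟩
        rw [two_mul]
        exact add_le_add (h2 hb) le_rfl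
      · have e : edist (I.indicator (fun _ => c) (u (n + 1))) (I.indicator (fun _ => c) (u n)) = 0 := by
          rw [indicator_of_notMem ha, indicator_of_notMem hb, edist_self]
        rw [e, add_zero]
        exact ⟨h1, fun h => absurd h ha, fun h => h3 fun j hj => h j (hj.trans (Nat.le_succ n))⟩

end Pool.Agent.H243.RL.ARC

namespace Pool.Agent.H243.RL

theorem t_ARC : S_ARC := by
  intro I c hI
  unfold eVariationOn
  refine iSup_le fun p => ?_
  exact (ARC.jumps I c hI p.2.1 p.2.2.1 p.1).1

end Pool.Agent.H243.RL
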