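import Pool.Agent.H243.RL.Stmt3

set_option autoImplicit false

/-! The `L²` bound for averages. -/

namespace Pool.Agent.H243.RL

open MeasureTheory Set
open scoped ENNReal

namespace AV2

theorem meas_av (δ : ℝ) {F : ℝ → ℂ} (hF : Measurable F) : Measurable (av δ F) := by
  have h1 : StronglyMeasurable (fun p : ℝ × ℝ => F (p.1 - δ * p.2)) :=
    (hF.comp (measurable_fst.sub (measurable_snd.const_mul δ))).stronglyMeasurable
  exact (h1.integral_prod_right' (ν := volume.restrict (Icc (0 : ℝ) 1))).measurable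

theorem supp_av {δ : ℝ} (h0 : 0 < δ) (h1 : δ ≤ 1) {F : ℝ → ℂ}
    (hF : ∀ y, y ∉ Icc (-1 : ℝ) 2 → F y = 0) (y : ℝ) (hy : y ∉ Icc (-1 : ℝ) 3) : av δ F y = 0 := by
  unfold av
  rw [setIntegral_congr_fun (g := fun _ => (0 : ℂ)) measurableSet_Icc]
  · simp
  · intro u hu
    apply hF
    intro h
    apply hy
    have h2 : 0 ≤ δ * u := mul_nonneg h0.le hu.1
    have h3 : δ * u ≤ 1 := by nlinarith [hu.1, hu.2]
    exact ⟨by linarith [h.1], by linarith [h.2]⟩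

theorem jensen {f : ℝ → ℂ} (hf : Measurable f) :
    ‖∫ u in Icc (0 : ℝ) 1, f u‖ₑ ^ 2 ≤ ∫⁻ u in Icc (0 : ℝ) 1, ‖f u‖ₑ ^ 2 := by
  have h1 : ‖∫ u in Icc (0 : ℝ) 1, f u‖ₑ ≤ ∫⁻ u in Icc (0 : ℝ) 1, ‖f u‖ₑ :=
    enorm_integral_le_lintegral_enorm _
  have h2 := ENNReal.lintegral_mul_le_Lp_mul_Lq (volume.restrict (Icc (0 : ℝ) 1))
    (Real.HolderConjugate.two_two) (f := fun u => ‖f u‖ₑ) (g := fun _ => 1)
    hf.enorm.aemeasurable aemeasurable_const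
  simp only [Pi.mul_apply, mul_one, ENNReal.one_rpow, lintegral_const, Measure.restrict_apply_univ,
    Real.volume_Icc, sub_zero, ENNReal.ofReal_one] at h2
  calc ‖∫ u in Icc (0 : ℝ) 1, f u‖ₑ ^ 2
      ≤ ((∫⁻ u in Icc (0 : ℝ) 1, ‖f u‖ₑ ^ (2 : ℝ)) ^ (1 / 2 : ℝ)) ^ 2 :=
        pow_le_pow_left' (h1.trans h2) 2
    _ = ∫⁻ u in Icc (0 : ℝ) 1, ‖f u‖ₑ ^ (2 : ℝ) := by
        rw [← ENNReal.rpow_natCast, ← ENNReal.rpow_mul]
        norm_num
    _ = _ := by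
        refine lintegral_congr fun u => ?_
        exact ENNReal.rpow_two _

theorem l2_av (δ : ℝ) {F : ℝ → ℂ} (hF : Measurable F) :
    ∫⁻ y, ‖av δ F y‖ₑ ^ 2 ≤ ∫⁻ y, ‖F y‖ₑ ^ 2 := by
  have hm : Measurable (fun p : ℝ × ℝ => ‖F (p.1 - δ * p.2)‖ₑ ^ 2) :=
    ((hF.comp (measurable_fst.sub (measurable_snd.const_mul δ))).enorm).pow_const 2
  calc ∫⁻ y, ‖av δ F y‖ₑ ^ 2
      ≤ ∫⁻ y, ∫⁻ u in Icc (0 : ℝ) 1, ‖F (y - δ * u)‖ₑ ^ 2 := by
        refine lintegral_mono fun y => ?_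
        exact jensen (hF.comp (measurable_const.sub (measurable_id.const_mul δ)))
    _ = ∫⁻ u in Icc (0 : ℝ) 1, ∫⁻ y, ‖F (y - δ * u)‖ₑ ^ 2 :=
        lintegral_lintegral_swap hm.aemeasurable
    _ = ∫⁻ _u in Icc (0 : ℝ) 1, ∫⁻ y, ‖F y‖ₑ ^ 2 := by
        refine lintegral_congr fun u => ?_
        exact lintegral_sub_right_eq_self (fun y => ‖F y‖ₑ ^ 2) (δ * u)
    _ = ∫⁻ y, ‖F y‖ₑ ^ 2 := by
        rw [lintegral_const, Measure.restrict_apply_univ, Real.volume_Icc, sub_zero,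
          ENNReal.ofReal_one, mul_one]

end AV2

open AV2 in
theorem t_AV2 (hW : S_W2) : S_AV2 := by
  intro F hF δ h0 h1 t
  obtain ⟨hm, hs, h2⟩ := hF
  have hle := l2_av δ hm
  have hmem : MemLp (av δ F) 2 := by
    refine ⟨(meas_av δ hm).aestronglyMeasurable, ?_⟩
    rw [eLpNorm_lt_top_iff_lintegral_rpow_enorm_lt_top (by norm_num) (by norm_num)]
    refine lt_of_le_of_lt (le_of_eq ?_) (lt_of_le_of_lt hle (lt_top_iff_ne_top.mpr h2))
    refine lintegral_congr fun y => ?_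
    rw [ENNReal.toReal_ofNat, ENNReal.rpow_two]
  have hint : Integrable (av δ F) := by
    have h3 : IntegrableOn (av δ F) (Icc (-1 : ℝ) 3) :=
      (hmem.restrict (Icc (-1 : ℝ) 3)).integrable (by norm_num)
    rwa [integrableOn_iff_integrable_of_support_subset] at h3
    intro y hy
    by_contra h4
    exact hy (supp_av h0 h1 hs y h4)
  rw [hW (av δ F) hint hmem t]
  exact mul_le_mul_right hle _

end Pool.Agent.H243.RL
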