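import Pool.Agent.H243.RL.Stmt

set_option autoImplicit false

/-! RL BASE (by helper612): Fubini and dyadic summation. -/

namespace Pool.Agent.H243.RL

open MeasureTheory Set
open scoped ENNReal

namespace BASE

theorem norm_ph (x t y : ℝ) : ‖ph x t y‖ = 1 := by
  unfold ph
  rw [← Complex.ofReal_neg]
  exact Complex.norm_exp_ofReal_mul_I _

theorem cont_ph {X : Type} [TopologicalSpace X] {f g h : X → ℝ} (hf : Continuous f)
    (hg : Continuous g) (hh : Continuous h) : Continuous (fun z => ph (f z) (g z) (h z)) := by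
  unfold ph
  fun_prop

theorem jensen {p : ℝ} (hp : 1 ≤ p) (g : ℝ → ℝ≥0∞) (hg : Measurable g)
    (hz : ∀ y, y ∉ Icc (0 : ℝ) 1 → g y = 0) : (∫⁻ y, g y) ^ p ≤ ∫⁻ y, g y ^ p := by
  rcases eq_or_lt_of_le hp with rfl | hp1
  · simp
  have hpq := Real.HolderConjugate.conjExponent hp1
  have hm : Measurable (indicator (Icc (0 : ℝ) 1) (fun _ => (1 : ℝ≥0∞))) :=
    measurable_const.indicator measurableSet_Icc
  have h := ENNReal.lintegral_mul_le_Lp_mul_Lq volume hpq hg.aemeasurable hm.aemeasurable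
  have e1 : ∫⁻ a, (g * indicator (Icc (0 : ℝ) 1) (fun _ => (1 : ℝ≥0∞))) a = ∫⁻ y, g y := by
    refine lintegral_congr fun y => ?_
    rw [Pi.mul_apply]
    by_cases hy : y ∈ Icc (0 : ℝ) 1
    · rw [indicator_of_mem hy, mul_one]
    · rw [indicator_of_notMem hy, mul_zero, hz y hy]
  have e2 : ∫⁻ a, (indicator (Icc (0 : ℝ) 1) (fun _ => (1 : ℝ≥0∞)) a) ^ (Real.conjExponent p) =
      1 := by
    have : ∀ a, (indicator (Icc (0 : ℝ) 1) (fun _ => (1 : ℝ≥0∞)) a) ^ (Real.conjExponent p) =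
        indicator (Icc (0 : ℝ) 1) (fun _ => (1 : ℝ≥0∞)) a := by
      intro a
      by_cases ha : a ∈ Icc (0 : ℝ) 1
      · rw [indicator_of_mem ha, ENNReal.one_rpow]
      · rw [indicator_of_notMem ha, ENNReal.zero_rpow_of_pos hpq.symm.pos]
    rw [lintegral_congr this, lintegral_indicator measurableSet_Icc]
    simp
  rw [e1, e2, ENNReal.one_rpow, mul_one] at h
  calc (∫⁻ y, g y) ^ p ≤ ((∫⁻ y, g y ^ p) ^ (1 / p)) ^ p :=
        ENNReal.rpow_le_rpow h (by linarith)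
    _ = ∫⁻ y, g y ^ p := by
        rw [← ENNReal.rpow_mul, one_div_mul_cancel (by linarith), ENNReal.rpow_one]

section
variable {f : ℝ × ℝ → ℂ} {q : ℝ}

theorem slice1 (hz : ∀ y : ℝ × ℝ, y ∉ Icc (0 : ℝ) 1 ×ˢ Icc (0 : ℝ) 1 → f y = 0) (y₂ y₁ : ℝ)
    (hy : y₁ ∉ Icc (0 : ℝ) 1) : f (y₁, y₂) = 0 :=
  hz _ (fun h => hy h.1)

theorem slice2 (hz : ∀ y : ℝ × ℝ, y ∉ Icc (0 : ℝ) 1 ×ˢ Icc (0 : ℝ) 1 → f y = 0) (y₁ y₂ : ℝ)
    (hy : y₂ ∉ Icc (0 : ℝ) 1) : f (y₁, y₂) = 0 :=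
  hz _ (fun h => hy h.2)

theorem int_f (hf : Measurable f)
    (hz : ∀ y : ℝ × ℝ, y ∉ Icc (0 : ℝ) 1 ×ˢ Icc (0 : ℝ) 1 → f y = 0) (hq : 1 ≤ q)
    (hQ : ∫⁻ y₁, ∫⁻ y₂, ‖f (y₁, y₂)‖ₑ ^ q ≠ ⊤) :
    Integrable f ((volume : Measure ℝ).prod (volume : Measure ℝ)) := by
  refine ⟨hf.aestronglyMeasurable, ?_⟩
  have hfe : Measurable (fun z : ℝ × ℝ => ‖f z‖ₑ) := hf.enorm
  rw [hasFiniteIntegral_iff_enorm, lintegral_prod _ hfe.aemeasurable]
  have hm1 : Measurable (fun y₁ : ℝ => ∫⁻ y₂, ‖f (y₁, y₂)‖ₑ) := hfe.lintegral_prod_right'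
  have h1 : (∫⁻ y₁, ∫⁻ y₂, ‖f (y₁, y₂)‖ₑ) ^ q ≤ ∫⁻ y₁, ∫⁻ y₂, ‖f (y₁, y₂)‖ₑ ^ q := by
    refine (jensen hq _ hm1 ?_).trans ?_
    · intro y hy
      have : ∀ y₂, ‖f (y, y₂)‖ₑ = 0 := fun y₂ => by rw [slice1 hz y₂ y hy, enorm_zero]
      simp only [this, lintegral_zero]
    · refine lintegral_mono fun y₁ => ?_
      refine jensen hq _ (hfe.comp measurable_prodMk_left) ?_
      intro y hy
      show ‖f (y₁, y)‖ₑ = 0
      rw [slice2 hz y₁ y hy, enorm_zero]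
  have h2 : (∫⁻ y₁, ∫⁻ y₂, ‖f (y₁, y₂)‖ₑ) ^ q < ⊤ := lt_of_le_of_lt h1 (lt_top_iff_ne_top.2 hQ)
  by_contra h3
  rw [not_lt, top_le_iff] at h3
  rw [h3, ENNReal.top_rpow_of_pos (by linarith)] at h2
  exact lt_irrefl _ h2

theorem meas_W (hf : Measurable f) :
    Measurable (fun p : ℝ × ℝ × ℝ => W (fun y₁ => f (y₁, p.2.2)) p.2.1 p.1) := by
  unfold W
  have hc : Continuous (fun p : (ℝ × ℝ × ℝ) × ℝ => ph p.1.2.1 p.1.1 p.2) :=
    cont_ph (by fun_prop) (by fun_prop) (by fun_prop)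
  have h : Measurable (fun p : (ℝ × ℝ × ℝ) × ℝ => ph p.1.2.1 p.1.1 p.2 * f (p.2, p.1.2.2)) :=
    hc.measurable.mul (hf.comp (by fun_prop))
  exact h.stronglyMeasurable.integral_prod_right'.measurable

theorem enorm_W_le (h : ℝ → ℂ) (x t : ℝ) : ‖W h x t‖ₑ ≤ ∫⁻ y, ‖h y‖ₑ := by
  unfold W
  refine (enorm_integral_le_lintegral_enorm _).trans (le_of_eq ?_)
  refine lintegral_congr fun y => ?_
  rw [enorm_mul, ← ofReal_norm (ph x t y), norm_ph, ENNReal.ofReal_one, one_mul]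

theorem int_ph (hint : Integrable f ((volume : Measure ℝ).prod (volume : Measure ℝ)))
    (hf : Measurable f) (c : ℝ × ℝ → ℂ) (hc : Continuous c) (hn : ∀ z, ‖c z‖ ≤ 1) :
    Integrable (fun z => c z * f z) ((volume : Measure ℝ).prod (volume : Measure ℝ)) := by
  refine hint.mono (hc.measurable.mul hf).aestronglyMeasurable (ae_of_all _ fun z => ?_)
  rw [norm_mul]
  exact mul_le_of_le_one_left (norm_nonneg _) (hn z)

/-- the double integral is an iterated extension -/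
theorem dbl (hint : Integrable f ((volume : Measure ℝ).prod (volume : Measure ℝ)))
    (hf : Measurable f) (x₁ x₂ t : ℝ) :
    ∫ y₁, ∫ y₂, ph x₁ t y₁ * (ph x₂ t y₂ * f (y₁, y₂)) =
      W (fun y₂ => W (fun y₁ => f (y₁, y₂)) x₁ t) x₂ t := by
  have h1 : Integrable (Function.uncurry fun y₁ y₂ : ℝ => ph x₁ t y₁ * (ph x₂ t y₂ * f (y₁, y₂)))
      ((volume : Measure ℝ).prod (volume : Measure ℝ)) := by
    have h2 := int_ph hint hf (fun z => ph x₁ t z.1 * ph x₂ t z.2)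
      ((cont_ph (by fun_prop) (by fun_prop) (by fun_prop)).mul
        (cont_ph (by fun_prop) (by fun_prop) (by fun_prop)))
      (fun z => by rw [norm_mul, norm_ph, norm_ph, one_mul])
    refine h2.congr (ae_of_all _ fun z => ?_)
    show ph x₁ t z.1 * ph x₂ t z.2 * f z = ph x₁ t z.1 * (ph x₂ t z.2 * f (z.1, z.2))
    rw [mul_assoc]
  rw [integral_integral_swap h1]
  unfold W
  refine integral_congr_ae (ae_of_all _ fun y₂ => ?_)
  show ∫ y₁, ph x₁ t y₁ * (ph x₂ t y₂ * f (y₁, y₂)) =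
    ph x₂ t y₂ * ∫ y₁, ph x₁ t y₁ * f (y₁, y₂)
  rw [← integral_const_mul]
  refine integral_congr_ae (ae_of_all _ fun y₁ => ?_)
  show ph x₁ t y₁ * (ph x₂ t y₂ * f (y₁, y₂)) = ph x₂ t y₂ * (ph x₁ t y₁ * f (y₁, y₂))
  ring

theorem norm_ek (k : ℤ) (y : ℝ) : ‖ek k y‖ = 1 := by
  unfold ek
  exact Complex.norm_exp_ofReal_mul_I _

theorem cont_ek (k : ℤ) {X : Type} [TopologicalSpace X] {f : X → ℝ} (hf : Continuous f) :
    Continuous (fun z => ek k (f z)) := by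
  unfold ek
  fun_prop

/-- the coefficients of the inner extension -/
theorem coef (hint : Integrable f ((volume : Measure ℝ).prod (volume : Measure ℝ)))
    (hf : Measurable f) (hz : ∀ y : ℝ × ℝ, y ∉ Icc (0 : ℝ) 1 ×ˢ Icc (0 : ℝ) 1 → f y = 0)
    (x₁ t : ℝ) (k : ℤ) (hk : ∀ᵐ y₁ : ℝ, ∫ y₂ in Icc (0 : ℝ) 1, ek k y₂ * f (y₁, y₂) = 0) :
    ∫ y₂ in Icc (0 : ℝ) 1, ek k y₂ * W (fun y₁ => f (y₁, y₂)) x₁ t = 0 := by
  have e0 : ∀ y₁ : ℝ, ∫ y₂ in Icc (0 : ℝ) 1, ek k y₂ * f (y₁, y₂) =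
      ∫ y₂, ek k y₂ * f (y₁, y₂) := fun y₁ =>
    MeasureTheory.setIntegral_eq_integral_of_forall_compl_eq_zero (fun y hy => by
      rw [slice2 hz y₁ y hy, mul_zero])
  have e1 : ∫ y₂ in Icc (0 : ℝ) 1, ek k y₂ * W (fun y₁ => f (y₁, y₂)) x₁ t =
      ∫ y₂, ek k y₂ * W (fun y₁ => f (y₁, y₂)) x₁ t :=
    MeasureTheory.setIntegral_eq_integral_of_forall_compl_eq_zero (fun y hy => by
      have : W (fun y₁ => f (y₁, y)) x₁ t = 0 := by
        unfold W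
        have h0 : ∀ y₁, ph x₁ t y₁ * f (y₁, y) = 0 := fun y₁ => by
          rw [slice2 hz y₁ y hy, mul_zero]
        simp only [h0, integral_zero]
      rw [this, mul_zero])
  rw [e1]
  have h1 : Integrable (Function.uncurry fun y₁ y₂ : ℝ => ph x₁ t y₁ * (ek k y₂ * f (y₁, y₂)))
      ((volume : Measure ℝ).prod (volume : Measure ℝ)) := by
    have h2 := int_ph hint hf (fun z => ph x₁ t z.1 * ek k z.2)
      ((cont_ph (by fun_prop) (by fun_prop) (by fun_prop)).mul (cont_ek k (by fun_prop)))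
      (fun z => by rw [norm_mul, norm_ph, norm_ek, one_mul])
    refine h2.congr (ae_of_all _ fun z => ?_)
    show ph x₁ t z.1 * ek k z.2 * f z = ph x₁ t z.1 * (ek k z.2 * f (z.1, z.2))
    rw [mul_assoc]
  have e2 : ∫ y₂, ek k y₂ * W (fun y₁ => f (y₁, y₂)) x₁ t =
      ∫ y₂, ∫ y₁, ph x₁ t y₁ * (ek k y₂ * f (y₁, y₂)) := by
    refine integral_congr_ae (ae_of_all _ fun y₂ => ?_)
    show ek k y₂ * ∫ y₁, ph x₁ t y₁ * f (y₁, y₂) = ∫ y₁, ph x₁ t y₁ * (ek k y₂ * f (y₁, y₂))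
    rw [← integral_const_mul]
    refine integral_congr_ae (ae_of_all _ fun y₁ => ?_)
    show ek k y₂ * (ph x₁ t y₁ * f (y₁, y₂)) = ph x₁ t y₁ * (ek k y₂ * f (y₁, y₂))
    ring
  rw [e2, ← integral_integral_swap h1]
  have e3 : ∀ᵐ y₁ : ℝ, ∫ y₂, ph x₁ t y₁ * (ek k y₂ * f (y₁, y₂)) = 0 := by
    filter_upwards [hk] with y₁ hy₁
    rw [integral_const_mul, ← e0, hy₁, mul_zero]
  rw [integral_congr_ae e3, integral_zero]

/-- the inner extension to the power `q` -/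
theorem inner_le (hf : Measurable f)
    (hz : ∀ y : ℝ × ℝ, y ∉ Icc (0 : ℝ) 1 ×ˢ Icc (0 : ℝ) 1 → f y = 0) (hq : 1 ≤ q) (x₁ t : ℝ) :
    ∫⁻ y₂, ‖W (fun y₁ => f (y₁, y₂)) x₁ t‖ₑ ^ q ≤ ∫⁻ y₁, ∫⁻ y₂, ‖f (y₁, y₂)‖ₑ ^ q := by
  have hfe : Measurable (fun z : ℝ × ℝ => ‖f z‖ₑ ^ q) := hf.enorm.pow_const _
  calc ∫⁻ y₂, ‖W (fun y₁ => f (y₁, y₂)) x₁ t‖ₑ ^ q
      ≤ ∫⁻ y₂, ∫⁻ y₁, ‖f (y₁, y₂)‖ₑ ^ q := by
        refine lintegral_mono fun y₂ => ?_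
        refine (ENNReal.rpow_le_rpow (enorm_W_le _ _ _) (by linarith)).trans ?_
        refine jensen hq _ (hf.enorm.comp measurable_prodMk_right) ?_
        intro y hy
        show ‖f (y, y₂)‖ₑ = 0
        rw [slice1 hz y₂ y hy, enorm_zero]
    _ = ∫⁻ y₁, ∫⁻ y₂, ‖f (y₁, y₂)‖ₑ ^ q :=
        (lintegral_lintegral_swap (f := fun y₁ y₂ => ‖f (y₁, y₂)‖ₑ ^ q) hfe.aemeasurable).symm

end

end BASE

open BASE in
theorem t_BASE (h1 : S_FIX) (h2 : S_PLANAR) : S_BASE := by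
  intro q a hq3 hq4 ha0 ha1
  have hq0 : 0 < q := by linarith
  have hqa : q * a < q - 3 := by
    have h3 := mul_lt_mul_of_pos_left ha1 hq0
    have h4 : q * (1 - 3 / q) = q - 3 := by field_simp
    rwa [h4] at h3
  obtain ⟨ε, hεd⟩ : ∃ ε : ℝ, ε = (q - 3 - q * a) / 4 := ⟨_, rfl⟩
  have hε : 0 < ε := by rw [hεd]; linarith
  obtain ⟨K₁, hK₁, hfix⟩ := h1 q ε (by linarith) hε
  obtain ⟨C, hC, hpl⟩ := h2 q ε (by linarith) hq4 hε
  obtain ⟨e, he⟩ : ∃ e : ℝ, e = 1 - q / 2 + q * a + ε := ⟨_, rfl⟩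
  have he0 : e < 0 := by rw [he, hεd]; nlinarith
  obtain ⟨ρ, hρd⟩ : ∃ ρ : ℝ, ρ = (2 : ℝ) ^ (-(2 * ε)) := ⟨_, rfl⟩
  have hρ0 : 0 < ρ := by rw [hρd]; positivity
  have hρ1 : ρ < 1 := by
    rw [hρd]
    exact Real.rpow_lt_one_of_one_lt_of_neg (by norm_num) (by linarith)
  have hρ2 : 0 < (1 - ρ)⁻¹ := inv_pos.2 (by linarith)
  refine ⟨K₁ * C * (1 - ρ)⁻¹, by positivity, ?_⟩
  intro B L hB hL f hf hz hsp
  have hB0 : 0 < B := by linarith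
  have hBq : 0 < B ^ q := Real.rpow_pos_of_pos hB0 q
  obtain ⟨Q, hQ⟩ : ∃ Q, Q = ∫⁻ y₁, ∫⁻ y₂, ‖f (y₁, y₂)‖ₑ ^ q := ⟨_, rfl⟩
  rw [← hQ]
  by_cases hQt : Q = ⊤
  · rw [hQt, ENNReal.mul_top]
    · exact le_top
    · rw [ne_eq, ENNReal.ofReal_eq_zero, not_le]
      positivity
  have hint := int_f hf hz (by linarith : 1 ≤ q) (by rw [← hQ]; exact hQt)
  -- Step 1: at fixed x₁, t
  have step1 : ∀ x₁ t : ℝ,
      ∫⁻ x₂, ‖∫ y₁, ∫ y₂, ph x₁ t y₁ * (ph x₂ t y₂ * f (y₁, y₂))‖ₑ ^ q ≤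
        ENNReal.ofReal (K₁ * B ^ q * (2 * (1 + |t|)) ^ e) *
          ∫⁻ y₂, ‖W (fun y₁ => f (y₁, y₂)) x₁ t‖ₑ ^ q := by
    intro x₁ t
    have hg : Measurable (fun y₂ => W (fun y₁ => f (y₁, y₂)) x₁ t) :=
      (meas_W hf).comp (f := fun y₂ : ℝ => (t, x₁, y₂)) (by fun_prop)
    have hgz : ∀ y, y ∉ Icc (0 : ℝ) 1 → W (fun y₁ => f (y₁, y)) x₁ t = 0 := by
      intro y hy
      unfold W
      have h0 : ∀ y₁, ph x₁ t y₁ * f (y₁, y) = 0 := fun y₁ => by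
        rw [slice2 hz y₁ y hy, mul_zero]
      simp only [h0, integral_zero]
    have hJ : (∫⁻ y, ‖W (fun y₁ => f (y₁, y)) x₁ t‖ₑ ^ (2 : ℝ)) ^ (q / 2) ≤
        ∫⁻ y, ‖W (fun y₁ => f (y₁, y)) x₁ t‖ₑ ^ q := by
      refine (jensen (by linarith : 1 ≤ q / 2) _ (hg.enorm.pow_const _) ?_).trans (le_of_eq ?_)
      · intro y hy
        rw [hgz y hy, enorm_zero, ENNReal.zero_rpow_of_pos (by norm_num)]
      · refine lintegral_congr fun y => ?_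
        rw [← ENNReal.rpow_mul]
        congr 1
        ring
    have e2 : ∫⁻ y, ‖W (fun y₁ => f (y₁, y)) x₁ t‖ₑ ^ 2 =
        ∫⁻ y, ‖W (fun y₁ => f (y₁, y)) x₁ t‖ₑ ^ (2 : ℝ) := by
      refine lintegral_congr fun y => ?_
      rw [ENNReal.rpow_ofNat]
    have hfin : ∫⁻ y, ‖W (fun y₁ => f (y₁, y)) x₁ t‖ₑ ^ 2 ≠ ∞ := by
      rw [e2]
      intro h3
      rw [h3, ENNReal.top_rpow_of_pos (by linarith)] at hJ
      have h4 := hJ.trans (inner_le hf hz (by linarith) x₁ t)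
      rw [← hQ, top_le_iff] at h4
      exact hQt h4
    have h5 := hfix a B L ha0 hB hL t (fun y₂ => W (fun y₁ => f (y₁, y₂)) x₁ t) hg hgz hfin
      (fun k hk => coef hint hf hz x₁ t (-k) (hsp k hk))
    rw [← he, e2] at h5
    have e3 : ∀ x₂, ∫ y₁, ∫ y₂, ph x₁ t y₁ * (ph x₂ t y₂ * f (y₁, y₂)) =
        W (fun y₂ => W (fun y₁ => f (y₁, y₂)) x₁ t) x₂ t := fun x₂ => dbl hint hf x₁ x₂ t
    simp only [e3]
    exact h5.trans (mul_le_mul_right hJ _)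
  -- Step 2: the function H
  obtain ⟨H, hH⟩ : ∃ H : ℝ → ℝ≥0∞, H = fun t =>
      ∫⁻ x₁, ∫⁻ y₂, ‖W (fun y₁ => f (y₁, y₂)) x₁ t‖ₑ ^ q := ⟨_, rfl⟩
  have hmW : Measurable (fun p : ℝ × ℝ × ℝ => ‖W (fun y₁ => f (y₁, p.2.2)) p.2.1 p.1‖ₑ ^ q) :=
    (meas_W hf).enorm.pow_const _
  have hHm : Measurable H := by
    rw [hH]
    have h3 : Measurable (fun p : ℝ × ℝ => ∫⁻ y₂, ‖W (fun y₁ => f (y₁, y₂)) p.2 p.1‖ₑ ^ q) := by
      have h4 : Measurable (fun p : (ℝ × ℝ) × ℝ => ‖W (fun y₁ => f (y₁, p.2)) p.1.2 p.1.1‖ₑ ^ q) :=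
        hmW.comp (f := fun p : (ℝ × ℝ) × ℝ => (p.1.1, p.1.2, p.2)) (by fun_prop)
      exact h4.lintegral_prod_right'
    exact h3.lintegral_prod_right'
  -- Step 3: the planar estimate
  have step3 : ∀ T : ℝ, 1 ≤ T → ∫⁻ t in Icc (-T) T, H t ≤
      ENNReal.ofReal (C * T ^ (2 - q / 2 + ε)) * Q := by
    intro T hT
    rw [hH]
    have s1 : ∀ t : ℝ, ∫⁻ x₁, ∫⁻ y₂, ‖W (fun y₁ => f (y₁, y₂)) x₁ t‖ₑ ^ q =
        ∫⁻ y₂, ∫⁻ x₁, ‖W (fun y₁ => f (y₁, y₂)) x₁ t‖ₑ ^ q := by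
      intro t
      refine lintegral_lintegral_swap
        (f := fun x₁ y₂ => ‖W (fun y₁ => f (y₁, y₂)) x₁ t‖ₑ ^ q) ?_
      exact (hmW.comp (f := fun p : ℝ × ℝ => (t, p.1, p.2)) (by fun_prop)).aemeasurable
    simp only [s1]
    have s2 : Measurable (fun p : ℝ × ℝ => ∫⁻ x₁, ‖W (fun y₁ => f (y₁, p.2)) x₁ p.1‖ₑ ^ q) := by
      have h4 : Measurable (fun p : (ℝ × ℝ) × ℝ => ‖W (fun y₁ => f (y₁, p.1.2)) p.2 p.1.1‖ₑ ^ q) :=
        hmW.comp (f := fun p : (ℝ × ℝ) × ℝ => (p.1.1, p.2, p.1.2)) (by fun_prop)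
      exact h4.lintegral_prod_right'
    rw [lintegral_lintegral_swap
      (f := fun t y₂ => ∫⁻ x₁, ‖W (fun y₁ => f (y₁, y₂)) x₁ t‖ₑ ^ q) s2.aemeasurable]
    calc ∫⁻ y₂, ∫⁻ t in Icc (-T) T, ∫⁻ x₁, ‖W (fun y₁ => f (y₁, y₂)) x₁ t‖ₑ ^ q
        ≤ ∫⁻ y₂, ENNReal.ofReal (C * T ^ (2 - q / 2 + ε)) * ∫⁻ y₁, ‖f (y₁, y₂)‖ₑ ^ q :=
          lintegral_mono fun y₂ => hpl T hT (fun y₁ => f (y₁, y₂))
            (hf.comp measurable_prodMk_right) (fun y hy => slice1 hz y₂ y hy)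
      _ = ENNReal.ofReal (C * T ^ (2 - q / 2 + ε)) * ∫⁻ y₂, ∫⁻ y₁, ‖f (y₁, y₂)‖ₑ ^ q :=
          lintegral_const_mul' _ _ ENNReal.ofReal_ne_top
      _ = ENNReal.ofReal (C * T ^ (2 - q / 2 + ε)) * Q := by
          have hfe : Measurable (fun z : ℝ × ℝ => ‖f z‖ₑ ^ q) := hf.enorm.pow_const _
          rw [hQ, lintegral_lintegral_swap (f := fun y₁ y₂ => ‖f (y₁, y₂)‖ₑ ^ q)
            hfe.aemeasurable]
  -- Step 4: dyadic decomposition of the weight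
  have step4 : ∀ t : ℝ, ENNReal.ofReal (K₁ * B ^ q * (2 * (1 + |t|)) ^ e) ≤
      ∑' m : ℕ, ENNReal.ofReal (K₁ * B ^ q * ((2 : ℝ) ^ m) ^ e) *
        indicator (Icc (-((2 : ℝ) ^ m)) ((2 : ℝ) ^ m)) (fun _ => (1 : ℝ≥0∞)) t := by
    intro t
    obtain ⟨m, hm1, hm2⟩ : ∃ m : ℕ, |t| ≤ 2 ^ m ∧ (2 : ℝ) ^ m ≤ 2 * (1 + |t|) := by
      have hex : ∃ m : ℕ, |t| ≤ (2 : ℝ) ^ m := by
        obtain ⟨m, hm⟩ := pow_unbounded_of_one_lt |t| (by norm_num : (1 : ℝ) < 2)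
        exact ⟨m, hm.le⟩
      classical
      refine ⟨Nat.find hex, Nat.find_spec hex, ?_⟩
      rcases Nat.eq_zero_or_pos (Nat.find hex) with h | h
      · rw [h, pow_zero]
        have := abs_nonneg t
        linarith
      · have h3 := Nat.find_min hex (m := Nat.find hex - 1) (by omega)
        rw [not_le] at h3
        have h4 : (2 : ℝ) ^ (Nat.find hex) = 2 * 2 ^ (Nat.find hex - 1) := by
          rw [← pow_succ']
          congr 1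
          omega
        rw [h4]
        linarith
    refine le_trans ?_ (ENNReal.le_tsum m)
    have hmem : t ∈ Icc (-((2 : ℝ) ^ m)) ((2 : ℝ) ^ m) := abs_le.1 hm1
    rw [indicator_of_mem hmem, mul_one]
    apply ENNReal.ofReal_le_ofReal
    refine mul_le_mul_of_nonneg_left ?_ (by positivity)
    exact Real.rpow_le_rpow_of_nonpos (by positivity) hm2 he0.le
  -- Step 5: summation
  calc ∫⁻ t, ∫⁻ x₁, ∫⁻ x₂, ‖∫ y₁, ∫ y₂, ph x₁ t y₁ * (ph x₂ t y₂ * f (y₁, y₂))‖ₑ ^ q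
      ≤ ∫⁻ t, ENNReal.ofReal (K₁ * B ^ q * (2 * (1 + |t|)) ^ e) * H t := by
        refine lintegral_mono fun t => ?_
        refine (lintegral_mono fun x₁ => step1 x₁ t).trans (le_of_eq ?_)
        rw [lintegral_const_mul' _ _ ENNReal.ofReal_ne_top, hH]
    _ ≤ ∫⁻ t, ∑' m : ℕ, ENNReal.ofReal (K₁ * B ^ q * ((2 : ℝ) ^ m) ^ e) *
          indicator (Icc (-((2 : ℝ) ^ m)) ((2 : ℝ) ^ m)) H t := by
        refine lintegral_mono fun t => ?_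
        refine (mul_le_mul_left (step4 t) (H t)).trans (le_of_eq ?_)
        rw [← ENNReal.tsum_mul_right]
        refine tsum_congr fun m => ?_
        by_cases ht : t ∈ Icc (-((2 : ℝ) ^ m)) ((2 : ℝ) ^ m)
        · rw [indicator_of_mem ht, indicator_of_mem ht, mul_one]
        · rw [indicator_of_notMem ht, indicator_of_notMem ht, mul_zero, zero_mul]
    _ = ∑' m : ℕ, ENNReal.ofReal (K₁ * B ^ q * ((2 : ℝ) ^ m) ^ e) *
          ∫⁻ t in Icc (-((2 : ℝ) ^ m)) ((2 : ℝ) ^ m), H t := by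
        rw [lintegral_tsum (fun m => ((hHm.indicator measurableSet_Icc).const_mul _).aemeasurable)]
        refine tsum_congr fun m => ?_
        rw [lintegral_const_mul' _ _ ENNReal.ofReal_ne_top, lintegral_indicator measurableSet_Icc]
    _ ≤ ∑' m : ℕ, ENNReal.ofReal (K₁ * B ^ q * ((2 : ℝ) ^ m) ^ e) *
          (ENNReal.ofReal (C * ((2 : ℝ) ^ m) ^ (2 - q / 2 + ε)) * Q) := by
        refine ENNReal.tsum_le_tsum fun m => ?_
        exact mul_le_mul_right (step3 _ (one_le_pow₀ (by norm_num))) _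
    _ = ∑' m : ℕ, ENNReal.ofReal (K₁ * C * B ^ q * ρ ^ m) * Q := by
        refine tsum_congr fun m => ?_
        rw [← mul_assoc, ← ENNReal.ofReal_mul (by positivity)]
        congr 2
        have h2m : (0 : ℝ) < 2 ^ m := by positivity
        have e4 : ((2 : ℝ) ^ m) ^ e * ((2 : ℝ) ^ m) ^ (2 - q / 2 + ε) = ρ ^ m := by
          rw [← Real.rpow_add h2m, hρd, ← Real.rpow_natCast, ← Real.rpow_mul (by norm_num),
            ← Real.rpow_natCast, ← Real.rpow_mul (by norm_num)]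
          congr 1
          rw [he, hεd]
          ring
        rw [← e4]
        ring
    _ = ENNReal.ofReal (K₁ * C * (1 - ρ)⁻¹ * B ^ q) * Q := by
        rw [ENNReal.tsum_mul_right]
        congr 1
        rw [← ENNReal.ofReal_tsum_of_nonneg (fun m => by positivity)
          ((summable_geometric_of_lt_one hρ0.le hρ1).mul_left _), tsum_mul_left,
          tsum_geometric_of_lt_one hρ0.le hρ1]
        congr 1
        ring

end Pool.Agent.H243.RL
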