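import Pool.Agent.H243.RL.Stmt3
set_option autoImplicit false

/-! Summation over the dyadic blocks of times. -/

open MeasureTheory Set
open scoped ENNReal

namespace Pool.Agent.H243.RL

namespace BASE3

lemma cover : (univ : Set ℝ) ⊆ Icc (-1 : ℝ) 1 ∪
    ⋃ J : ℕ, {t : ℝ | (2 : ℝ) ^ (J + 1) / 2 ≤ |t| ∧ |t| ≤ 2 ^ (J + 1)} := by
  intro t _
  rcases le_or_gt |t| 1 with h | h
  · exact Or.inl (abs_le.1 h)
  · obtain ⟨n, hn1, hn2⟩ := exists_nat_pow_near h.le (one_lt_two : (1 : ℝ) < 2)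
    refine Or.inr (mem_iUnion.2 ⟨n, ?_, hn2.le⟩)
    rw [pow_succ, mul_div_assoc, div_self two_ne_zero, mul_one]
    exact hn1

lemma pow_eq (η : ℝ) (n : ℕ) : ((2 : ℝ) ^ n) ^ (-η) = ((2 : ℝ) ^ (-η)) ^ n := by
  rw [← Real.rpow_natCast, ← Real.rpow_natCast, ← Real.rpow_mul (by norm_num),
    ← Real.rpow_mul (by norm_num), mul_comm]

lemma tsum_le {K r : ℝ} (hK : 0 < K) (hr0 : 0 < r) (hr1 : r < 1) (X : ℝ≥0∞) :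
    ∑' J : ℕ, ENNReal.ofReal (K * r ^ (J + 1)) * X = ENNReal.ofReal (K * r * (1 - r)⁻¹) * X := by
  rw [ENNReal.tsum_mul_right]
  congr 1
  have hs : Summable fun J : ℕ => K * r ^ (J + 1) := by
    have h := (summable_geometric_of_lt_one hr0.le hr1).mul_left (K * r)
    refine h.congr fun J => ?_
    rw [pow_succ]
    ring
  rw [← ENNReal.ofReal_tsum_of_nonneg (fun J => by positivity) hs]
  congr 1
  have e : (fun J : ℕ => K * r ^ (J + 1)) = fun J : ℕ => K * r * r ^ J := by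
    funext J
    rw [pow_succ]
    ring
  rw [e, tsum_mul_left, tsum_geometric_of_lt_one hr0.le hr1]

end BASE3

theorem t_BASE3 (h1 : S_BLOCK) (h2 : S_LOC0) : S_BASE3 := by
  intro q s hq3 hq4 hs
  obtain ⟨K, η, hK, hη, H1⟩ := h1 q s hq3 hq4 hs
  obtain ⟨C, hC, H2⟩ := h2 q 1 (by linarith) hq4 one_pos
  obtain ⟨r, hr⟩ : ∃ r : ℝ, r = (2 : ℝ) ^ (-η) := ⟨_, rfl⟩
  have hr0 : 0 < r := by
    rw [hr]
    exact Real.rpow_pos_of_pos two_pos _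
  have hr1 : r < 1 := by
    rw [hr]
    exact Real.rpow_lt_one_of_one_lt_of_neg one_lt_two (by linarith)
  have hr2 : 0 < 1 - r := by linarith
  have hK' : 0 < K * r * (1 - r)⁻¹ := by positivity
  refine ⟨C + K * r * (1 - r)⁻¹, by linarith, ?_⟩
  intro A f hA hf hf0 hR
  rcases eq_or_ne (∫⁻ y₁, ∫⁻ y₂, ‖f (y₁, y₂)‖ₑ ^ q) ∞ with hN | hN
  · rw [hN, _root_.top_add, ENNReal.mul_top]
    · exact le_top
    · exact (ENNReal.ofReal_pos.2 (by linarith)).ne'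
  have hadm : Adm2 q f := by
    refine ⟨hf, fun p hp => hf0 p fun hp' => hp ?_, hN⟩
    exact prod_mono le_rfl (Icc_subset_Icc (by norm_num) (by norm_num)) hp'
  have hA1 := H2 1 le_rfl f hadm
  rw [Real.one_rpow, mul_one] at hA1
  have hB1 : ∀ J : ℕ, ∫⁻ t in {t : ℝ | (2 : ℝ) ^ (J + 1) / 2 ≤ |t| ∧ |t| ≤ 2 ^ (J + 1)},
      ∫⁻ x₁, ∫⁻ x₂, ‖EE f x₁ x₂ t‖ₑ ^ q ≤ ENNReal.ofReal (K * r ^ (J + 1)) *
        ((∫⁻ y₁, ∫⁻ y₂, ‖f (y₁, y₂)‖ₑ ^ q) + ENNReal.ofReal (A ^ q)) := by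
    intro J
    have h := H1 A f hA hf hf0 hN hR (J + 1) (Nat.succ_le_succ (Nat.zero_le J))
    rw [BASE3.pow_eq, ← hr] at h
    exact h
  calc ∫⁻ t, ∫⁻ x₁, ∫⁻ x₂, ‖EE f x₁ x₂ t‖ₑ ^ q
      = ∫⁻ t in univ, ∫⁻ x₁, ∫⁻ x₂, ‖EE f x₁ x₂ t‖ₑ ^ q := by rw [Measure.restrict_univ]
    _ ≤ ∫⁻ t in Icc (-1 : ℝ) 1 ∪
        ⋃ J : ℕ, {t : ℝ | (2 : ℝ) ^ (J + 1) / 2 ≤ |t| ∧ |t| ≤ 2 ^ (J + 1)},
        ∫⁻ x₁, ∫⁻ x₂, ‖EE f x₁ x₂ t‖ₑ ^ q := lintegral_mono_set BASE3.cover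
    _ ≤ (∫⁻ t in Icc (-1 : ℝ) 1, ∫⁻ x₁, ∫⁻ x₂, ‖EE f x₁ x₂ t‖ₑ ^ q) +
        ∫⁻ t in ⋃ J : ℕ, {t : ℝ | (2 : ℝ) ^ (J + 1) / 2 ≤ |t| ∧ |t| ≤ 2 ^ (J + 1)},
        ∫⁻ x₁, ∫⁻ x₂, ‖EE f x₁ x₂ t‖ₑ ^ q := lintegral_union_le _ _ _
    _ ≤ ENNReal.ofReal C * ((∫⁻ y₁, ∫⁻ y₂, ‖f (y₁, y₂)‖ₑ ^ q) + ENNReal.ofReal (A ^ q)) +
        ∑' J : ℕ, ENNReal.ofReal (K * r ^ (J + 1)) *
          ((∫⁻ y₁, ∫⁻ y₂, ‖f (y₁, y₂)‖ₑ ^ q) + ENNReal.ofReal (A ^ q)) := by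
        refine add_le_add (hA1.trans (mul_le_mul_right le_self_add _)) ?_
        exact (lintegral_iUnion_le _ _).trans (ENNReal.tsum_le_tsum hB1)
    _ = _ := by
        rw [BASE3.tsum_le hK hr0 hr1, ← add_mul, ← ENNReal.ofReal_add hC.le hK'.le]

end Pool.Agent.H243.RL
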