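import Pool.Agent.H243.RL.ITERB

set_option autoImplicit false

/-! RL BASEN: dyadic summation over the times, `m` thin variables. -/

namespace Pool.Agent.H243.RL

open MeasureTheory Set
open scoped ENNReal

namespace BASEN

theorem cont_ph {X : Type} [TopologicalSpace X] {f g h : X → ℝ} (hf : Continuous f)
    (hg : Continuous g) (hh : Continuous h) : Continuous (fun z => ph (f z) (g z) (h z)) := by
  unfold ph
  fun_prop

theorem meas_W {m : ℕ} {f : ℝ × (Fin m → ℝ) → ℂ} (hf : Measurable f) :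
    Measurable (fun p : ℝ × ℝ × (Fin m → ℝ) => W (fun y₁ => f (y₁, p.2.2)) p.2.1 p.1) := by
  unfold W
  have hc : Continuous (fun p : (ℝ × ℝ × (Fin m → ℝ)) × ℝ => ph p.1.2.1 p.1.1 p.2) :=
    cont_ph (by fun_prop) (by fun_prop) (by fun_prop)
  have hm : Measurable (fun p : (ℝ × ℝ × (Fin m → ℝ)) × ℝ => (p.2, p.1.2.2)) :=
    measurable_snd.prodMk (measurable_snd.comp (measurable_snd.comp measurable_fst))
  have h : Measurable (fun p : (ℝ × ℝ × (Fin m → ℝ)) × ℝ =>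
      ph p.1.2.1 p.1.1 p.2 * f (p.2, p.1.2.2)) :=
    hc.measurable.mul (hf.comp hm)
  exact h.stronglyMeasurable.integral_prod_right'.measurable

end BASEN

/-- the theorem for the unit cube of dimension `m + 1`, bounded functions -/
def S_BASENB : Prop := ∀ (m : ℕ) (q a : ℝ), 1 ≤ m → 2 < q → q < 4 → 0 ≤ a →
  (m : ℝ) * a < ((m : ℝ) + 1) / 2 - ((m : ℝ) + 2) / q → ∃ K : ℝ, 0 < K ∧
  ∀ (B : ℝ) (L : Fin m → Set ℤ), 1 ≤ B → (∀ j, Lam q a B (L j)) →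
  ∀ f : ℝ × (Fin m → ℝ) → ℂ, Spec L f → (∃ A : ℝ, ∀ p, ‖f p‖ ≤ A) →
  ∫⁻ t : ℝ, ∫⁻ x₁ : ℝ, ∫⁻ x' : Fin m → ℝ, ‖EN f x₁ x' t‖ₑ ^ q ≤
    ENNReal.ofReal (K * (B ^ q) ^ m) * ∫⁻ y₁ : ℝ, ∫⁻ y' : Fin m → ℝ, ‖f (y₁, y')‖ₑ ^ q

open BASEN in
theorem t_BASEN (h1 : S_ITERB) (h2 : S_PLANAR) : S_BASENB := by
  intro m q a hm1 hq2 hq4 ha0 ha1
  have hq0 : 0 < q := by linarith
  have hmR : (1 : ℝ) ≤ m := by exact_mod_cast hm1
  obtain ⟨δ, hδd⟩ : ∃ δ : ℝ, δ = -((m : ℝ) * (1 - q / 2 + q * a) + (2 - q / 2)) := ⟨_, rfl⟩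
  have hδ : 0 < δ := by
    have h3 := mul_lt_mul_of_pos_left ha1 hq0
    have h4 : q * (((m : ℝ) + 1) / 2 - ((m : ℝ) + 2) / q) =
        q * (((m : ℝ) + 1) / 2) - ((m : ℝ) + 2) := by field_simp
    rw [h4] at h3
    rw [hδd]
    linarith
  obtain ⟨ε, hεd⟩ : ∃ ε : ℝ, ε = δ / (2 * ((m : ℝ) + 1)) := ⟨_, rfl⟩
  have hε : 0 < ε := by rw [hεd]; positivity
  have hε2 : ((m : ℝ) + 1) * ε = δ / 2 := by
    rw [hεd]
    field_simp
  obtain ⟨K₁, hK₁, hfix⟩ := h1 m q ε hq2 hε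
  obtain ⟨C, hC, hpl⟩ := h2 q ε hq2 hq4 hε
  obtain ⟨e, he⟩ : ∃ e : ℝ, e = 1 - q / 2 + q * a + ε := ⟨_, rfl⟩
  have hsum : (m : ℝ) * e + (2 - q / 2 + ε) = -(δ / 2) := by
    rw [he]
    linarith
  have he0 : e < 0 := by
    by_contra hcon
    rw [not_lt] at hcon
    have h3 : 0 ≤ (m : ℝ) * e := mul_nonneg (by linarith) hcon
    linarith
  obtain ⟨ρ, hρd⟩ : ∃ ρ : ℝ, ρ = (2 : ℝ) ^ (-(δ / 2)) := ⟨_, rfl⟩
  have hρ0 : 0 < ρ := by rw [hρd]; positivity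
  have hρ1 : ρ < 1 := by
    rw [hρd]
    exact Real.rpow_lt_one_of_one_lt_of_neg (by norm_num) (by linarith)
  have hρ2 : 0 < (1 - ρ)⁻¹ := inv_pos.2 (by linarith)
  refine ⟨K₁ * C * (1 - ρ)⁻¹, by positivity, ?_⟩
  intro B L hB hL f hspec hbd
  have hf : Measurable f := hspec.meas
  have hB0 : 0 < B := by linarith
  have hBq : 0 < (B ^ q) ^ m := pow_pos (Real.rpow_pos_of_pos hB0 q) m
  obtain ⟨Q, hQ⟩ : ∃ Q, Q = ∫⁻ y₁ : ℝ, ∫⁻ y' : Fin m → ℝ, ‖f (y₁, y')‖ₑ ^ q := ⟨_, rfl⟩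
  rw [← hQ]
  by_cases hQt : Q = ⊤
  · rw [hQt, ENNReal.mul_top]
    · exact le_top
    · rw [ne_eq, ENNReal.ofReal_eq_zero, not_le]
      positivity
  obtain ⟨b, hb⟩ : ∃ b : ℝ, b = (B ^ q) ^ m := ⟨_, rfl⟩
  rw [← hb] at hBq ⊢
  -- Step 2: the function H
  obtain ⟨H, hH⟩ : ∃ H : ℝ → ℝ≥0∞, H = fun t =>
      ∫⁻ x₁ : ℝ, ∫⁻ y' : Fin m → ℝ, ‖W (fun y₁ => f (y₁, y')) x₁ t‖ₑ ^ q := ⟨_, rfl⟩
  -- Step 1: at fixed t
  have step1 : ∀ t : ℝ, ∫⁻ x₁ : ℝ, ∫⁻ x' : Fin m → ℝ, ‖EN f x₁ x' t‖ₑ ^ q ≤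
      ENNReal.ofReal (K₁ * b * ((2 * (1 + |t|)) ^ e) ^ m) * H t := by
    intro t
    have h3 := hfix a B L ha0 hB hL f hspec hbd t
    rw [← he, ← hb] at h3
    rw [hH]
    exact h3
  have hmW : Measurable (fun p : ℝ × ℝ × (Fin m → ℝ) =>
      ‖W (fun y₁ => f (y₁, p.2.2)) p.2.1 p.1‖ₑ ^ q) :=
    (meas_W hf).enorm.pow_const _
  have hHm : Measurable H := by
    rw [hH]
    have h3 : Measurable (fun p : ℝ × ℝ => ∫⁻ y' : Fin m → ℝ,
        ‖W (fun y₁ => f (y₁, y')) p.2 p.1‖ₑ ^ q) := by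
      have h4 : Measurable (fun p : (ℝ × ℝ) × (Fin m → ℝ) =>
          ‖W (fun y₁ => f (y₁, p.2)) p.1.2 p.1.1‖ₑ ^ q) :=
        hmW.comp (f := fun p : (ℝ × ℝ) × (Fin m → ℝ) => (p.1.1, p.1.2, p.2))
          ((measurable_fst.comp measurable_fst).prodMk
            ((measurable_snd.comp measurable_fst).prodMk measurable_snd))
      exact h4.lintegral_prod_right'
    exact h3.lintegral_prod_right'
  -- Step 3: the planar estimate
  have step3 : ∀ T : ℝ, 1 ≤ T → ∫⁻ t in Icc (-T) T, H t ≤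
      ENNReal.ofReal (C * T ^ (2 - q / 2 + ε)) * Q := by
    intro T hT
    rw [hH]
    have s1 : ∀ t : ℝ, ∫⁻ x₁ : ℝ, ∫⁻ y' : Fin m → ℝ, ‖W (fun y₁ => f (y₁, y')) x₁ t‖ₑ ^ q =
        ∫⁻ y' : Fin m → ℝ, ∫⁻ x₁ : ℝ, ‖W (fun y₁ => f (y₁, y')) x₁ t‖ₑ ^ q := by
      intro t
      refine lintegral_lintegral_swap
        (f := fun (x₁ : ℝ) (y' : Fin m → ℝ) => ‖W (fun y₁ => f (y₁, y')) x₁ t‖ₑ ^ q) ?_
      exact (hmW.comp (f := fun p : ℝ × (Fin m → ℝ) => (t, p.1, p.2))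
        (measurable_const.prodMk (measurable_fst.prodMk measurable_snd))).aemeasurable
    simp only [s1]
    have s2 : Measurable (fun p : ℝ × (Fin m → ℝ) =>
        ∫⁻ x₁ : ℝ, ‖W (fun y₁ => f (y₁, p.2)) x₁ p.1‖ₑ ^ q) := by
      have h4 : Measurable (fun p : (ℝ × (Fin m → ℝ)) × ℝ =>
          ‖W (fun y₁ => f (y₁, p.1.2)) p.2 p.1.1‖ₑ ^ q) :=
        hmW.comp (f := fun p : (ℝ × (Fin m → ℝ)) × ℝ => (p.1.1, p.2, p.1.2))
          ((measurable_fst.comp measurable_fst).prodMk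
            (measurable_snd.prodMk (measurable_snd.comp measurable_fst)))
      exact h4.lintegral_prod_right'
    rw [lintegral_lintegral_swap
      (f := fun (t : ℝ) (y' : Fin m → ℝ) =>
        ∫⁻ x₁ : ℝ, ‖W (fun y₁ => f (y₁, y')) x₁ t‖ₑ ^ q) s2.aemeasurable]
    calc ∫⁻ y' : Fin m → ℝ, ∫⁻ t in Icc (-T) T, ∫⁻ x₁ : ℝ,
          ‖W (fun y₁ => f (y₁, y')) x₁ t‖ₑ ^ q
        ≤ ∫⁻ y' : Fin m → ℝ, ENNReal.ofReal (C * T ^ (2 - q / 2 + ε)) *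
            ∫⁻ y₁ : ℝ, ‖f (y₁, y')‖ₑ ^ q :=
          lintegral_mono fun y' => hpl T hT (fun y₁ => f (y₁, y'))
            (hf.comp measurable_prodMk_right) (fun y hy => hspec.supp y y' (Or.inl hy))
      _ = ENNReal.ofReal (C * T ^ (2 - q / 2 + ε)) *
            ∫⁻ y' : Fin m → ℝ, ∫⁻ y₁ : ℝ, ‖f (y₁, y')‖ₑ ^ q :=
          lintegral_const_mul' _ _ ENNReal.ofReal_ne_top
      _ = ENNReal.ofReal (C * T ^ (2 - q / 2 + ε)) * Q := by
          have hfe : Measurable (fun z : ℝ × (Fin m → ℝ) => ‖f z‖ₑ ^ q) := hf.enorm.pow_const _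
          rw [hQ, lintegral_lintegral_swap
            (f := fun (y₁ : ℝ) (y' : Fin m → ℝ) => ‖f (y₁, y')‖ₑ ^ q) hfe.aemeasurable]
  -- Step 4: dyadic decomposition of the weight
  have step4 : ∀ t : ℝ, ENNReal.ofReal (K₁ * b * ((2 * (1 + |t|)) ^ e) ^ m) ≤
      ∑' i : ℕ, ENNReal.ofReal (K₁ * b * (((2 : ℝ) ^ i) ^ e) ^ m) *
        indicator (Icc (-((2 : ℝ) ^ i)) ((2 : ℝ) ^ i)) (fun _ => (1 : ℝ≥0∞)) t := by
    intro t
    obtain ⟨i, hi1, hi2⟩ : ∃ i : ℕ, |t| ≤ 2 ^ i ∧ (2 : ℝ) ^ i ≤ 2 * (1 + |t|) := by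
      have hex : ∃ i : ℕ, |t| ≤ (2 : ℝ) ^ i := by
        obtain ⟨i, hi⟩ := pow_unbounded_of_one_lt |t| (by norm_num : (1 : ℝ) < 2)
        exact ⟨i, hi.le⟩
      classical
      refine ⟨Nat.find hex, Nat.find_spec hex, ?_⟩
      rcases Nat.eq_zero_or_pos (Nat.find hex) with h | h
      · rw [h, pow_zero]
        have := abs_nonneg t
        linarith
      · have h3 := Nat.find_min hex (m := Nat.find hex - 1) (by omega)
        rw [not_le] at h3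
        have h4 : (2 : ℝ) ^ (Nat.find hex) = 2 * 2 ^ (Nat.find hex - 1) := by
          rw [← pow_succ']
          congr 1
          omega
        rw [h4]
        linarith
    refine le_trans ?_ (ENNReal.le_tsum i)
    have hmem : t ∈ Icc (-((2 : ℝ) ^ i)) ((2 : ℝ) ^ i) := abs_le.1 hi1
    rw [indicator_of_mem hmem, mul_one]
    apply ENNReal.ofReal_le_ofReal
    refine mul_le_mul_of_nonneg_left ?_ (by positivity)
    exact pow_le_pow_left₀ (by positivity)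
      (Real.rpow_le_rpow_of_nonpos (by positivity) hi2 he0.le) m
  -- Step 5: summation
  calc ∫⁻ t : ℝ, ∫⁻ x₁ : ℝ, ∫⁻ x' : Fin m → ℝ, ‖EN f x₁ x' t‖ₑ ^ q
      ≤ ∫⁻ t : ℝ, ENNReal.ofReal (K₁ * b * ((2 * (1 + |t|)) ^ e) ^ m) * H t :=
        lintegral_mono fun t => step1 t
    _ ≤ ∫⁻ t : ℝ, ∑' i : ℕ, ENNReal.ofReal (K₁ * b * (((2 : ℝ) ^ i) ^ e) ^ m) *
          indicator (Icc (-((2 : ℝ) ^ i)) ((2 : ℝ) ^ i)) H t := by
        refine lintegral_mono fun t => ?_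
        refine (mul_le_mul_left (step4 t) (H t)).trans (le_of_eq ?_)
        rw [← ENNReal.tsum_mul_right]
        refine tsum_congr fun i => ?_
        by_cases ht : t ∈ Icc (-((2 : ℝ) ^ i)) ((2 : ℝ) ^ i)
        · rw [indicator_of_mem ht, indicator_of_mem ht, mul_one]
        · rw [indicator_of_notMem ht, indicator_of_notMem ht, mul_zero, zero_mul]
    _ = ∑' i : ℕ, ENNReal.ofReal (K₁ * b * (((2 : ℝ) ^ i) ^ e) ^ m) *
          ∫⁻ t in Icc (-((2 : ℝ) ^ i)) ((2 : ℝ) ^ i), H t := by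
        rw [lintegral_tsum (fun i => ((hHm.indicator measurableSet_Icc).const_mul _).aemeasurable)]
        refine tsum_congr fun i => ?_
        rw [lintegral_const_mul' _ _ ENNReal.ofReal_ne_top, lintegral_indicator measurableSet_Icc]
    _ ≤ ∑' i : ℕ, ENNReal.ofReal (K₁ * b * (((2 : ℝ) ^ i) ^ e) ^ m) *
          (ENNReal.ofReal (C * ((2 : ℝ) ^ i) ^ (2 - q / 2 + ε)) * Q) := by
        refine ENNReal.tsum_le_tsum fun i => ?_
        exact mul_le_mul_right (step3 _ (one_le_pow₀ (by norm_num))) _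
    _ = ∑' i : ℕ, ENNReal.ofReal (K₁ * C * b * ρ ^ i) * Q := by
        refine tsum_congr fun i => ?_
        rw [← mul_assoc, ← ENNReal.ofReal_mul (by positivity)]
        congr 2
        have h2m : (0 : ℝ) < 2 ^ i := by positivity
        have e4 : (((2 : ℝ) ^ i) ^ e) ^ m * ((2 : ℝ) ^ i) ^ (2 - q / 2 + ε) = ρ ^ i := by
          rw [← Real.rpow_natCast (((2 : ℝ) ^ i) ^ e) m, ← Real.rpow_mul h2m.le,
            ← Real.rpow_add h2m, hρd, ← Real.rpow_natCast, ← Real.rpow_mul (by norm_num),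
            ← Real.rpow_natCast, ← Real.rpow_mul (by norm_num)]
          congr 1
          rw [← hsum]
          ring
        rw [← e4]
        ring
    _ = ENNReal.ofReal (K₁ * C * (1 - ρ)⁻¹ * b) * Q := by
        rw [ENNReal.tsum_mul_right]
        congr 1
        rw [← ENNReal.ofReal_tsum_of_nonneg (fun i => by positivity)
          ((summable_geometric_of_lt_one hρ0.le hρ1).mul_left _), tsum_mul_left,
          tsum_geometric_of_lt_one hρ0.le hρ1]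
        congr 1
        ring

end Pool.Agent.H243.RL
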