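import Pool.Agent.H243.RL.Stmt
set_option autoImplicit false

/-! One block of frequencies on one interval. -/

open MeasureTheory Set
open scoped ENNReal

namespace Pool.Agent.H243.RL

namespace BLK

theorem ek_add (k : ℤ) (x y : ℝ) : ek k (x + y) = ek k x * ek k y := by
  unfold ek
  rw [← Complex.exp_add]
  congr 1
  push_cast
  ring

theorem ek_int (k n : ℤ) : ek k (n : ℝ) = 1 := by
  unfold ek
  have h : (((2 * Real.pi * k * (n : ℝ) : ℝ) : ℂ) * Complex.I) =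
      ((k * n : ℤ) : ℂ) * (2 * Real.pi * Complex.I) := by
    push_cast
    ring
  rw [h]
  exact Complex.exp_int_mul_two_pi_mul_I _

@[fun_prop]
theorem ek_cont (k : ℤ) : Continuous (ek k) := by
  unfold ek
  fun_prop

theorem refl_int (j : ℤ) (F : ℝ → ℝ≥0∞) :
    ∫⁻ v in Icc (j : ℝ) (j + 1), F v = ∫⁻ w in Icc (0 : ℝ) 1, F (((j : ℝ) + 1) - w) := by
  rw [← lintegral_indicator measurableSet_Icc, ← lintegral_indicator measurableSet_Icc,
    ← lintegral_sub_left_eq_self _ ((j : ℝ) + 1)]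
  refine lintegral_congr fun w => ?_
  by_cases h : w ∈ Icc (0 : ℝ) 1
  · have h2 : ((j : ℝ) + 1) - w ∈ Icc (j : ℝ) (j + 1) := by
      rw [mem_Icc] at h ⊢
      constructor <;> linarith [h.1, h.2]
    rw [indicator_of_mem h, indicator_of_mem h2]
  · have h2 : ((j : ℝ) + 1) - w ∉ Icc (j : ℝ) (j + 1) := by
      intro h2
      apply h
      rw [mem_Icc] at h2 ⊢
      constructor <;> linarith [h2.1, h2.2]
    rw [indicator_of_notMem h, indicator_of_notMem h2]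

theorem per {q D : ℝ} {S : Finset ℤ}
    (H : ∀ c : ℤ → ℂ, ∫⁻ v in Icc (0 : ℝ) 1, ‖∑ k ∈ S, c k * ek k v‖ₑ ^ q ≤
      ENNReal.ofReal D * (∑ k ∈ S, ‖c k‖ₑ ^ 2) ^ (q / 2)) (j : ℤ) (d : ℤ → ℂ) :
    ∫⁻ v in Icc (j : ℝ) (j + 1), ‖∑ k ∈ S, d k * ek k (-v)‖ₑ ^ q ≤
      ENNReal.ofReal D * (∑ k ∈ S, ‖d k‖ₑ ^ 2) ^ (q / 2) := by
  rw [refl_int]
  refine le_trans (le_of_eq ?_) (H d)
  refine lintegral_congr fun w => ?_
  have h : ∀ k, ek k (-(((j : ℝ) + 1) - w)) = ek k w := by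
    intro k
    have e1 : -(((j : ℝ) + 1) - w) = w + ((-(j + 1) : ℤ) : ℝ) := by
      push_cast
      ring
    rw [e1, ek_add, ek_int, mul_one]
  simp only [h]

theorem coef {q M : ℝ} (hq : 1 ≤ q) (S : Finset ℤ) (c : ℤ → ℂ) (r : ℤ → ℝ)
    (hr : ∀ k ∈ S, |r k| ≤ M) :
    (∑ k ∈ S, ‖c k * (r k : ℂ)‖ₑ ^ 2) ^ (q / 2) ≤
      ENNReal.ofReal M ^ q * (∑ k ∈ S, ‖c k‖ₑ ^ 2) ^ (q / 2) := by
  have hq2 : 0 ≤ q / 2 := by linarith
  have h1 : ∑ k ∈ S, ‖c k * (r k : ℂ)‖ₑ ^ 2 ≤ ENNReal.ofReal M ^ 2 * ∑ k ∈ S, ‖c k‖ₑ ^ 2 := by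
    rw [Finset.mul_sum]
    refine Finset.sum_le_sum fun k hk => ?_
    rw [enorm_mul, mul_pow, mul_comm]
    have h2 : ‖(r k : ℂ)‖ₑ ≤ ENNReal.ofReal M := by
      rw [← ofReal_norm, Complex.norm_real, Real.norm_eq_abs]
      exact ENNReal.ofReal_le_ofReal (hr k hk)
    gcongr
  have h3 : (ENNReal.ofReal M ^ 2 : ℝ≥0∞) ^ (q / 2) = ENNReal.ofReal M ^ q := by
    rw [← ENNReal.rpow_natCast, ← ENNReal.rpow_mul]
    congr 1
    push_cast
    ring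
  refine (ENNReal.rpow_le_rpow h1 hq2).trans (le_of_eq ?_)
  rw [ENNReal.mul_rpow_of_nonneg _ _ hq2, h3]

theorem jensen {q : ℝ} (hq : 1 ≤ q) (j : ℤ) (f : ℝ → ℂ) (hf : Continuous f) :
    (∫⁻ s in Icc (j : ℝ) (j + 1), ‖f s‖ₑ) ^ q ≤ ∫⁻ s in Icc (j : ℝ) (j + 1), ‖f s‖ₑ ^ q := by
  have : IsProbabilityMeasure (volume.restrict (Icc (j : ℝ) (j + 1))) := ⟨by
    rw [Measure.restrict_apply_univ, Real.volume_Icc]
    simp⟩
  have h := eLpNorm'_le_eLpNorm'_of_exponent_le (p := 1) (q := q) zero_lt_one hq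
    (volume.restrict (Icc (j : ℝ) (j + 1))) hf.aestronglyMeasurable
  unfold eLpNorm' at h
  simp only [ENNReal.rpow_one, div_one] at h
  have h2 := ENNReal.rpow_le_rpow h (by linarith : 0 ≤ q)
  rwa [← ENNReal.rpow_mul, one_div, inv_mul_cancel₀ (by positivity), ENNReal.rpow_one] at h2

theorem ptw {κ : ℝ} {j : ℤ} {φ φ' : ℝ → ℝ} (hφ : ∀ u, HasDerivAt φ (φ' u) u)
    (hφ' : Continuous φ') (S : Finset ℤ) (c : ℤ → ℂ) (v : ℝ) (hv : v ∈ Icc (j : ℝ) (j + 1)) :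
    ‖∑ k ∈ S, c k * ek k (-v) * (φ (v - κ * k) : ℂ)‖ₑ ≤
      ‖∑ k ∈ S, c k * (φ (j - κ * k) : ℂ) * ek k (-v)‖ₑ +
      ∫⁻ s in Icc (j : ℝ) (j + 1), ‖∑ k ∈ S, c k * (φ' (s - κ * k) : ℂ) * ek k (-v)‖ₑ := by
  have h1 : ∀ k : ℤ, φ (v - κ * k) = φ (j - κ * k) + ∫ s in (j : ℝ)..v, φ' (s - κ * k) := by
    intro k
    have hd : ∀ s ∈ uIcc (j : ℝ) v, HasDerivAt (fun s => φ (s - κ * k)) (φ' (s - κ * k)) s := by
      intro s _
      exact (hφ (s - κ * k)).comp_sub_const s (κ * k)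
    rw [intervalIntegral.integral_eq_sub_of_hasDerivAt hd
      ((hφ'.comp (continuous_id.sub continuous_const)).intervalIntegrable _ _)]
    ring
  have h2 : ∑ k ∈ S, c k * ek k (-v) * (φ (v - κ * k) : ℂ) =
      ∑ k ∈ S, c k * (φ (j - κ * k) : ℂ) * ek k (-v) +
        ∫ s in (j : ℝ)..v, ∑ k ∈ S, c k * (φ' (s - κ * k) : ℂ) * ek k (-v) := by
    rw [intervalIntegral.integral_finsetSum
      (fun k _ => Continuous.intervalIntegrable (by fun_prop) _ _), ← Finset.sum_add_distrib]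
    refine Finset.sum_congr rfl fun k _ => ?_
    rw [h1 k]
    have h3 : ∫ s in (j : ℝ)..v, c k * (φ' (s - κ * k) : ℂ) * ek k (-v) =
        c k * ek k (-v) * ((∫ s in (j : ℝ)..v, φ' (s - κ * k) : ℝ) : ℂ) := by
      rw [← intervalIntegral.integral_ofReal, ← intervalIntegral.integral_const_mul]
      refine intervalIntegral.integral_congr fun s _ => ?_
      ring
    rw [h3]
    push_cast
    ring
  rw [h2]
  refine (enorm_add_le _ _).trans (add_le_add le_rfl ?_)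
  rw [intervalIntegral.integral_of_le hv.1]
  refine (enorm_integral_le_lintegral_enorm _).trans ?_
  exact lintegral_mono_set (fun s hs => ⟨hs.1.le, hs.2.trans hv.2⟩)

end BLK

open BLK

theorem t_BLK : S_BLK := by
  intro q D M hq hD hM S H κ j φ φ' hφ hφ' hb c
  have hq0 : 0 ≤ q := by linarith
  set X : ℝ≥0∞ := ENNReal.ofReal D * (ENNReal.ofReal M ^ q *
    (∑ k ∈ S, ‖c k‖ₑ ^ 2) ^ (q / 2)) with hX
  have hj : (j : ℝ) ∈ Icc (j : ℝ) (j + 1) := ⟨le_rfl, by linarith⟩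
  have hP : ∀ r : ℤ → ℝ, (∀ k ∈ S, |r k| ≤ M) →
      ∫⁻ v in Icc (j : ℝ) (j + 1), ‖∑ k ∈ S, c k * (r k : ℂ) * ek k (-v)‖ₑ ^ q ≤ X := by
    intro r hr
    refine (per H j fun k => c k * (r k : ℂ)).trans ?_
    exact mul_le_mul' le_rfl (coef hq S c r hr)
  have hjoint : Continuous fun z : ℝ × ℝ =>
      ∑ k ∈ S, c k * (φ' (z.2 - κ * k) : ℂ) * ek k (-z.1) := by fun_prop
  have hmeas : Measurable fun z : ℝ × ℝ =>
      ‖∑ k ∈ S, c k * (φ' (z.2 - κ * k) : ℂ) * ek k (-z.1)‖ₑ ^ q :=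
    (hjoint.measurable.enorm).pow_const q
  have hmeas0 : Measurable fun v : ℝ => ‖∑ k ∈ S, c k * (φ (j - κ * k) : ℂ) * ek k (-v)‖ₑ ^ q := by
    have h : Continuous fun v : ℝ => ∑ k ∈ S, c k * (φ (j - κ * k) : ℂ) * ek k (-v) := by fun_prop
    exact (h.measurable.enorm).pow_const q
  calc ∫⁻ v in Icc (j : ℝ) (j + 1), ‖∑ k ∈ S, c k * ek k (-v) * (φ (v - κ * k) : ℂ)‖ₑ ^ q
      ≤ ∫⁻ v in Icc (j : ℝ) (j + 1), (2 : ℝ≥0∞) ^ (q - 1) *
          (‖∑ k ∈ S, c k * (φ (j - κ * k) : ℂ) * ek k (-v)‖ₑ ^ q +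
            ∫⁻ s in Icc (j : ℝ) (j + 1),
              ‖∑ k ∈ S, c k * (φ' (s - κ * k) : ℂ) * ek k (-v)‖ₑ ^ q) := by
        refine setLIntegral_mono' measurableSet_Icc fun v hv => ?_
        refine (ENNReal.rpow_le_rpow (ptw hφ hφ' S c v hv) hq0).trans ?_
        refine (ENNReal.rpow_add_le_mul_rpow_add_rpow _ _ hq).trans ?_
        refine mul_le_mul' le_rfl (add_le_add le_rfl ?_)
        exact jensen hq j _ (by fun_prop)
    _ = (2 : ℝ≥0∞) ^ (q - 1) *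
          ((∫⁻ v in Icc (j : ℝ) (j + 1), ‖∑ k ∈ S, c k * (φ (j - κ * k) : ℂ) * ek k (-v)‖ₑ ^ q) +
            ∫⁻ v in Icc (j : ℝ) (j + 1), ∫⁻ s in Icc (j : ℝ) (j + 1),
              ‖∑ k ∈ S, c k * (φ' (s - κ * k) : ℂ) * ek k (-v)‖ₑ ^ q) := by
        rw [lintegral_const_mul' _ _ (ENNReal.rpow_ne_top_of_nonneg (by linarith) (by norm_num)),
          lintegral_add_left hmeas0]
    _ ≤ (2 : ℝ≥0∞) ^ (q - 1) * (X + X) := by
        refine mul_le_mul' le_rfl (add_le_add (hP _ fun k hk => (hb _ hj k hk).1) ?_)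
        rw [lintegral_lintegral_swap hmeas.aemeasurable]
        calc ∫⁻ s in Icc (j : ℝ) (j + 1), ∫⁻ v in Icc (j : ℝ) (j + 1),
              ‖∑ k ∈ S, c k * (φ' (s - κ * k) : ℂ) * ek k (-v)‖ₑ ^ q
            ≤ ∫⁻ _ in Icc (j : ℝ) (j + 1), X :=
              setLIntegral_mono' measurableSet_Icc fun s hs => hP _ fun k hk => (hb s hs k hk).2
          _ = X := by
              rw [setLIntegral_const, Real.volume_Icc]
              simp
    _ = ENNReal.ofReal (2 ^ q * D * M ^ q) * (∑ k ∈ S, ‖c k‖ₑ ^ 2) ^ (q / 2) := by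
        have h2 : (2 : ℝ≥0∞) ^ (q - 1) * 2 = ENNReal.ofReal (2 ^ q) := by
          rw [← ENNReal.ofReal_rpow_of_pos (by norm_num : (0 : ℝ) < 2)]
          have h3 : ENNReal.ofReal 2 = 2 := by norm_num
          rw [h3]
          have h4 := ENNReal.rpow_add (q - 1) 1 (x := 2) (by norm_num) (by norm_num)
          rw [sub_add_cancel, ENNReal.rpow_one] at h4
          exact h4.symm
        rw [ENNReal.ofReal_mul (by positivity), ENNReal.ofReal_mul (by positivity), ← h2,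
          ← ENNReal.ofReal_rpow_of_nonneg hM hq0, hX]
        ring

end Pool.Agent.H243.RL
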