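import Pool.Agent.H243.RL.Stmt3
set_option autoImplicit false

open MeasureTheory Set
open scoped ENNReal

namespace Pool.Agent.H243.RL.BLOCK

open Pool.Agent.H243.RL

/-! ### averages of one variable -/

theorem int_shift {F : ℝ → ℂ} (hF : Integrable F) {δ : ℝ} (hδ : 0 < δ) (y : ℝ) :
    Integrable (fun u => F (y - δ * u)) := by
  have h1 : Integrable (fun t => F (y - t)) := hF.comp_sub_left y
  exact h1.comp_mul_left' hδ.ne'

theorem av_sub {F G : ℝ → ℂ} (hF : Integrable F) (hG : Integrable G) {δ : ℝ} (hδ : 0 < δ)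
    (y : ℝ) : av δ (fun x => F x - G x) y = av δ F y - av δ G y := by
  unfold av
  exact integral_sub (int_shift hF hδ y).integrableOn (int_shift hG hδ y).integrableOn

theorem int_two {F : ℝ → ℂ} (hm : Measurable F) (hF : Integrable F) {δ : ℝ} :
    Integrable (fun p : ℝ × ℝ => F (p.2 - δ * p.1))
      ((volume.restrict (Icc (0 : ℝ) 1)).prod volume) := by
  have hmeas : Measurable (fun p : ℝ × ℝ => F (p.2 - δ * p.1)) :=
    hm.comp (measurable_snd.sub (measurable_fst.const_mul δ))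
  rw [integrable_prod_iff hmeas.aestronglyMeasurable]
  constructor
  · exact Filter.Eventually.of_forall fun u => hF.comp_sub_right (δ * u)
  · have h1 : (fun u : ℝ => ∫ y, ‖F (y - δ * u)‖) = fun _ => ∫ y, ‖F y‖ := by
      funext u
      exact integral_sub_right_eq_self (fun y => ‖F y‖) (δ * u)
    rw [h1]
    exact integrable_const _

theorem av_int {F : ℝ → ℂ} (hm : Measurable F) (hF : Integrable F) (δ : ℝ) :
    Integrable (av δ F) :=
  (int_two hm hF (δ := δ)).integral_prod_right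

theorem av_comm {F : ℝ → ℂ} (hm : Measurable F) (hF : Integrable F) {δ ε : ℝ} (hδ : 0 < δ)
    (hε : 0 < ε) (y : ℝ) : av δ (av ε F) y = av ε (av δ F) y := by
  have hint : Integrable (Function.uncurry fun u v : ℝ => F (y - δ * u - ε * v))
      ((volume.restrict (Icc (0 : ℝ) 1)).prod (volume.restrict (Icc (0 : ℝ) 1))) := by
    have hmeas : Measurable (Function.uncurry fun u v : ℝ => F (y - δ * u - ε * v)) := by
      refine hm.comp ?_
      exact ((measurable_const.sub (measurable_fst.const_mul δ))).sub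
        (measurable_snd.const_mul ε)
    rw [integrable_prod_iff hmeas.aestronglyMeasurable]
    constructor
    · exact Filter.Eventually.of_forall fun u => (int_shift hF hε (y - δ * u)).integrableOn
    · have h2 : Integrable (fun x : ℝ => ∫ v in Icc (0 : ℝ) 1, ‖F (x - ε * v)‖) :=
        (int_two hm hF (δ := ε)).norm.integral_prod_right
      have h3 : Integrable (fun t => (fun x : ℝ => ∫ v in Icc (0 : ℝ) 1, ‖F (x - ε * v)‖) (y - t)) :=
        h2.comp_sub_left y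
      exact (h3.comp_mul_left' hδ.ne').integrableOn
  have h := integral_integral_swap hint
  unfold av
  rw [h]
  refine integral_congr_ae (Filter.Eventually.of_forall fun v => ?_)
  refine integral_congr_ae (Filter.Eventually.of_forall fun u => ?_)
  show F (y - δ * u - ε * v) = F (y - ε * v - δ * u)
  congr 1
  ring


/-! ### dyadic scales -/

/-- the dyadic length -/
noncomputable def dl (i : ℕ) : ℝ := (1 / 2 : ℝ) ^ i

theorem dl_pos (i : ℕ) : 0 < dl i := by unfold dl; positivity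

theorem dl_le (i : ℕ) : dl i ≤ 1 := by
  unfold dl
  exact pow_le_one₀ (by norm_num) (by norm_num)

/-- the functions which are averaged, one variable -/
noncomputable def g1 (F : ℝ → ℂ) (i : ℕ) (x : ℝ) : ℂ :=
  if i = 0 then av (dl 1) F x else av (dl (i + 1)) F x - av (dl (i - 1)) F x

theorem tele {F : ℝ → ℂ} (hm : Measurable F) (hF : Integrable F) (n : ℕ) (y : ℝ) :
    ∑ i ∈ Finset.range (n + 1), av (dl i) (g1 F i) y = av (dl n) (av (dl (n + 1)) F) y := by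
  induction n with
  | zero =>
    rw [zero_add, Finset.sum_range_one]
    rfl
  | succ n ih =>
    rw [Finset.sum_range_succ, ih]
    have h1 : av (dl (n + 1)) (g1 F (n + 1)) y =
        av (dl (n + 1)) (av (dl (n + 1 + 1)) F) y - av (dl (n + 1)) (av (dl n) F) y := by
      have h2 : g1 F (n + 1) = fun x => av (dl (n + 1 + 1)) F x - av (dl n) F x := by
        funext x
        unfold g1
        rw [if_neg (Nat.succ_ne_zero n)]
        rfl
      rw [h2]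
      exact av_sub (av_int hm hF _) (av_int hm hF _) (dl_pos _) y
    rw [h1, av_comm hm hF (dl_pos (n + 1)) (dl_pos n)]
    ring

theorem tele2 {F : ℝ → ℂ} (hm : Measurable F) (hF : Integrable F) (n : ℕ) (y : ℝ) :
    F y = ∑ i ∈ Finset.range (n + 1), av (dl i) (g1 F i) y +
      av (dl (n + 1)) (fun x => F x - av (dl n) F x) y + (F y - av (dl (n + 1)) F y) := by
  rw [tele hm hF n y, av_sub hF (av_int hm hF _) (dl_pos _) y,
    av_comm hm hF (dl_pos (n + 1)) (dl_pos n)]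
  ring

/-! ### the extension operator -/

theorem norm_ph (x t y : ℝ) : ‖ph x t y‖ = 1 := by
  unfold ph
  have h : -((x * y + t * y ^ 2 : ℝ) : ℂ) = ((-(x * y + t * y ^ 2) : ℝ) : ℂ) := by push_cast; ring
  rw [h]
  exact Complex.norm_exp_ofReal_mul_I _

theorem cont_ph : Continuous (fun z : ℝ × ℝ × ℝ => ph z.1 z.2.1 z.2.2) := by
  unfold ph
  fun_prop

/-- the integrand -/
noncomputable def KE (f : ℝ × ℝ → ℂ) (x₁ x₂ t : ℝ) (p : ℝ × ℝ) : ℂ :=
  ph x₁ t p.1 * (ph x₂ t p.2 * f p)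

theorem KE_int {f : ℝ × ℝ → ℂ} (hf : Integrable f) (x₁ x₂ t : ℝ) :
    Integrable (KE f x₁ x₂ t) := by
  have hc1 : Continuous (fun p : ℝ × ℝ => ph x₁ t p.1) :=
    cont_ph.comp (continuous_const.prodMk (continuous_const.prodMk continuous_fst))
  have hc2 : Continuous (fun p : ℝ × ℝ => ph x₂ t p.2) :=
    cont_ph.comp (continuous_const.prodMk (continuous_const.prodMk continuous_snd))
  refine hf.mono (hc1.aestronglyMeasurable.mul (hc2.aestronglyMeasurable.mul hf.1)) ?_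
  refine Filter.Eventually.of_forall fun p => ?_
  unfold KE
  rw [norm_mul, norm_mul, norm_ph, norm_ph, one_mul, one_mul]

theorem EE_eq {f : ℝ × ℝ → ℂ} (hf : Integrable f) (x₁ x₂ t : ℝ) :
    EE f x₁ x₂ t = ∫ p, KE f x₁ x₂ t p := by
  have h := integral_prod (KE f x₁ x₂ t) (KE_int hf x₁ x₂ t)
  rw [← Measure.volume_eq_prod] at h
  rw [h]
  rfl

theorem EE_sum {ι : Type} (s : Finset ι) (P : ι → ℝ × ℝ → ℂ) (hP : ∀ i ∈ s, Integrable (P i))
    (x₁ x₂ t : ℝ) : EE (fun p => ∑ i ∈ s, P i p) x₁ x₂ t = ∑ i ∈ s, EE (P i) x₁ x₂ t := by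
  rw [EE_eq (integrable_finsetSum s hP)]
  have h1 : ∀ p, KE (fun p => ∑ i ∈ s, P i p) x₁ x₂ t p = ∑ i ∈ s, KE (P i) x₁ x₂ t p := by
    intro p
    unfold KE
    rw [Finset.mul_sum, Finset.mul_sum]
  simp_rw [h1]
  rw [integral_finsetSum s fun i hi => KE_int (hP i hi) x₁ x₂ t]
  exact Finset.sum_congr rfl fun i hi => (EE_eq (hP i hi) x₁ x₂ t).symm

theorem EE_meas {f : ℝ × ℝ → ℂ} (hm : Measurable f) (hf : Integrable f) :
    Measurable (fun z : (ℝ × ℝ) × ℝ => EE f z.1.2 z.2 z.1.1) := by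
  have h1 : (fun z : (ℝ × ℝ) × ℝ => EE f z.1.2 z.2 z.1.1) =
      fun z => ∫ p, KE f z.1.2 z.2 z.1.1 p := by
    funext z
    exact EE_eq hf _ _ _
  rw [h1]
  have h2 : Measurable (fun w : ((ℝ × ℝ) × ℝ) × (ℝ × ℝ) => KE f w.1.1.2 w.1.2 w.1.1.1 w.2) := by
    unfold KE
    have b1 : Measurable (fun w : ((ℝ × ℝ) × ℝ) × (ℝ × ℝ) => (w.1.1.2, w.1.1.1, w.2.1)) := by
      fun_prop
    have b2 : Measurable (fun w : ((ℝ × ℝ) × ℝ) × (ℝ × ℝ) => (w.1.2, w.1.1.1, w.2.2)) := by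
      fun_prop
    have a1 : Measurable (fun w : ((ℝ × ℝ) × ℝ) × (ℝ × ℝ) => ph w.1.1.2 w.1.1.1 w.2.1) :=
      cont_ph.measurable.comp b1
    have a2 : Measurable (fun w : ((ℝ × ℝ) × ℝ) × (ℝ × ℝ) => ph w.1.2 w.1.1.1 w.2.2) :=
      cont_ph.measurable.comp b2
    exact a1.mul (a2.mul (hm.comp measurable_snd))
  exact (h2.stronglyMeasurable.integral_prod_right').measurable

/-- the integral of the power over a set of times -/
noncomputable def TT (q : ℝ) (S : Set ℝ) (f : ℝ × ℝ → ℂ) : ℝ≥0∞ :=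
  ∫⁻ t in S, ∫⁻ x₁, ∫⁻ x₂, ‖EE f x₁ x₂ t‖ₑ ^ q

theorem TG_sum (S : Set ℝ) (n : ℕ) (c : ℝ≥0∞) (hc : c ≠ ⊤) (G : ℕ → (ℝ × ℝ) × ℝ → ℝ≥0∞)
    (hM : ∀ i ∈ Finset.range n, Measurable (G i)) :
    ∫⁻ t in S, ∫⁻ x₁, ∫⁻ x₂, c * ∑ i ∈ Finset.range n, G i ((t, x₁), x₂) =
      c * ∑ i ∈ Finset.range n, ∫⁻ t in S, ∫⁻ x₁, ∫⁻ x₂, G i ((t, x₁), x₂) := by
  have hM1 : ∀ i ∈ Finset.range n,
      Measurable (fun z : ℝ × ℝ => ∫⁻ x₂, G i (z, x₂)) := fun i hi' =>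
    (hM i hi').lintegral_prod_right'
  have hM2 : ∀ i ∈ Finset.range n,
      Measurable (fun t : ℝ => ∫⁻ x₁, ∫⁻ x₂, G i ((t, x₁), x₂)) := fun i hi' =>
    (hM1 i hi').lintegral_prod_right'
  have s1 : ∀ t x₁, ∫⁻ x₂, c * ∑ i ∈ Finset.range n, G i ((t, x₁), x₂) = c *
      ∑ i ∈ Finset.range n, ∫⁻ x₂, G i ((t, x₁), x₂) := by
    intro t x₁
    rw [lintegral_const_mul' _ _ hc, lintegral_finsetSum]
    intro i hi'
    have h : Measurable (fun x₂ : ℝ => ((t, x₁), x₂)) := measurable_prodMk_left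
    exact (hM i hi').comp h
  have s2 : ∀ t, ∫⁻ x₁, c * ∑ i ∈ Finset.range n, ∫⁻ x₂, G i ((t, x₁), x₂) = c *
      ∑ i ∈ Finset.range n, ∫⁻ x₁, ∫⁻ x₂, G i ((t, x₁), x₂) := by
    intro t
    rw [lintegral_const_mul' _ _ hc, lintegral_finsetSum]
    intro i hi'
    have h : Measurable (fun x₁ : ℝ => (t, x₁)) := measurable_prodMk_left
    exact (hM1 i hi').comp h
  have s3 : ∀ t, ∫⁻ x₁, ∫⁻ x₂, c * ∑ i ∈ Finset.range n, G i ((t, x₁), x₂) = c *
      ∑ i ∈ Finset.range n, ∫⁻ x₁, ∫⁻ x₂, G i ((t, x₁), x₂) := by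
    intro t
    rw [← s2 t]
    exact lintegral_congr fun x₁ => s1 t x₁
  rw [lintegral_congr s3, lintegral_const_mul' _ _ hc, lintegral_finsetSum]
  intro i hi'
  exact hM2 i hi'

theorem TT_sum (q : ℝ) (hq : 1 ≤ q) (S : Set ℝ) (n : ℕ) (f : ℝ × ℝ → ℂ) (P : ℕ → ℝ × ℝ → ℂ)
    (hm : ∀ i ∈ Finset.range n, Measurable (P i)) (hi : ∀ i ∈ Finset.range n, Integrable (P i))
    (hf : ∀ x₁ x₂ t, EE f x₁ x₂ t = ∑ i ∈ Finset.range n, EE (P i) x₁ x₂ t) :
    TT q S f ≤ (n : ℝ≥0∞) ^ (q - 1) * ∑ i ∈ Finset.range n, TT q S (P i) := by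
  have hM : ∀ i ∈ Finset.range n,
      Measurable (fun z : (ℝ × ℝ) × ℝ => ‖EE (P i) z.1.2 z.2 z.1.1‖ₑ ^ q) := fun i hi' =>
    (EE_meas (hm i hi') (hi i hi')).enorm.pow_const q
  have hc : (n : ℝ≥0∞) ^ (q - 1) ≠ ⊤ :=
    ENNReal.rpow_ne_top_of_nonneg (by linarith) (ENNReal.natCast_ne_top n)
  have h1 := TG_sum S n _ hc (fun i z => ‖EE (P i) z.1.2 z.2 z.1.1‖ₑ ^ q) hM
  unfold TT
  refine le_trans ?_ h1.le
  refine lintegral_mono fun t => lintegral_mono fun x₁ => lintegral_mono fun x₂ => ?_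
  show ‖EE f x₁ x₂ t‖ₑ ^ q ≤ (n : ℝ≥0∞) ^ (q - 1) *
    ∑ i ∈ Finset.range n, ‖EE (P i) x₁ x₂ t‖ₑ ^ q
  rw [hf]
  refine (ENNReal.rpow_le_rpow (enorm_sum_le _ _) (by linarith)).trans ?_
  have := ENNReal.rpow_sum_le_const_mul_sum_rpow (Finset.range n)
    (fun i => ‖EE (P i) x₁ x₂ t‖ₑ) hq
  rw [Finset.card_range] at this
  exact this

/-! ### real inequalities -/

theorem real1 {q s ε T τ θ : ℝ} (hq3 : 3 < q) (hs : 0 < s) (hT : 1 ≤ T) (hτ1 : 1 ≤ τ)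
    (hτT : τ ≤ T) (h1 : θ ≤ q - 3) (h2 : θ ≤ s * q - 2 + q / 2) :
    (T ^ (-(1 / 2 : ℝ)) + τ / T) ^ (q - 2) * T ^ (2 - q / 2 + ε) * τ ^ (-(s * q)) ≤
      2 ^ (q - 2) * T ^ (-θ + ε) := by
  have hT0 : 0 < T := by linarith
  have hτ0 : 0 < τ := by linarith
  have hsq : 0 < s * q := mul_pos hs (by linarith)
  have hq2 : 0 ≤ q - 2 := by linarith
  have hp0 : 0 ≤ T ^ (-(1 / 2 : ℝ)) := (Real.rpow_pos_of_pos hT0 _).le
  have hd0 : 0 ≤ τ / T := by positivity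
  rcases le_total (τ / T) (T ^ (-(1 / 2 : ℝ))) with h | h
  · have a1 : (T ^ (-(1 / 2 : ℝ)) + τ / T) ^ (q - 2) ≤ (2 * T ^ (-(1 / 2 : ℝ))) ^ (q - 2) :=
      Real.rpow_le_rpow (by positivity) (by linarith) hq2
    have a2 : τ ^ (-(s * q)) ≤ 1 := Real.rpow_le_one_of_one_le_of_nonpos hτ1 (by linarith)
    have a3 : (2 * T ^ (-(1 / 2 : ℝ))) ^ (q - 2) * T ^ (2 - q / 2 + ε) =
        2 ^ (q - 2) * T ^ (3 - q + ε) := by
      rw [Real.mul_rpow (by norm_num) hp0, ← Real.rpow_mul hT0.le, mul_assoc,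
        ← Real.rpow_add hT0]
      congr 2
      ring
    have a4 : T ^ (3 - q + ε) ≤ T ^ (-θ + ε) :=
      Real.rpow_le_rpow_of_exponent_le hT (by linarith)
    calc (T ^ (-(1 / 2 : ℝ)) + τ / T) ^ (q - 2) * T ^ (2 - q / 2 + ε) * τ ^ (-(s * q))
        ≤ (2 * T ^ (-(1 / 2 : ℝ))) ^ (q - 2) * T ^ (2 - q / 2 + ε) * 1 := by
          gcongr
      _ = 2 ^ (q - 2) * T ^ (3 - q + ε) := by rw [mul_one, a3]
      _ ≤ _ := by gcongr
  · have a1 : (T ^ (-(1 / 2 : ℝ)) + τ / T) ^ (q - 2) ≤ (2 * (τ / T)) ^ (q - 2) :=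
      Real.rpow_le_rpow (by positivity) (by linarith) hq2
    have a3 : (2 * (τ / T)) ^ (q - 2) * T ^ (2 - q / 2 + ε) * τ ^ (-(s * q)) =
        2 ^ (q - 2) * (τ ^ (q - 2 - s * q) * T ^ (4 - 3 * q / 2 + ε)) := by
      rw [Real.mul_rpow (by norm_num) hd0, Real.div_rpow hτ0.le hT0.le]
      have b1 : τ ^ (q - 2 - s * q) = τ ^ (q - 2) * τ ^ (-(s * q)) := by
        rw [← Real.rpow_add hτ0]
        congr 1
      have b2 : T ^ (4 - 3 * q / 2 + ε) = T ^ (2 - q / 2 + ε) / T ^ (q - 2) := by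
        rw [← Real.rpow_sub hT0]
        congr 1
        ring
      rw [b1, b2]
      ring
    have a5 : τ ^ (q - 2 - s * q) * T ^ (4 - 3 * q / 2 + ε) ≤ T ^ (-θ + ε) := by
      rcases le_total 0 (q - 2 - s * q) with hx | hx
      · have c1 : τ ^ (q - 2 - s * q) ≤ T ^ (q - 2 - s * q) :=
          Real.rpow_le_rpow hτ0.le hτT hx
        calc τ ^ (q - 2 - s * q) * T ^ (4 - 3 * q / 2 + ε)
            ≤ T ^ (q - 2 - s * q) * T ^ (4 - 3 * q / 2 + ε) := by gcongr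
          _ = T ^ (q - 2 - s * q + (4 - 3 * q / 2 + ε)) := (Real.rpow_add hT0 _ _).symm
          _ ≤ _ := Real.rpow_le_rpow_of_exponent_le hT (by linarith)
      · have c1 : τ ^ (q - 2 - s * q) ≤ 1 := Real.rpow_le_one_of_one_le_of_nonpos hτ1 hx
        calc τ ^ (q - 2 - s * q) * T ^ (4 - 3 * q / 2 + ε)
            ≤ 1 * T ^ (4 - 3 * q / 2 + ε) := by gcongr
          _ = T ^ (4 - 3 * q / 2 + ε) := one_mul _
          _ ≤ _ := Real.rpow_le_rpow_of_exponent_le hT (by linarith)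
    calc (T ^ (-(1 / 2 : ℝ)) + τ / T) ^ (q - 2) * T ^ (2 - q / 2 + ε) * τ ^ (-(s * q))
        ≤ (2 * (τ / T)) ^ (q - 2) * T ^ (2 - q / 2 + ε) * τ ^ (-(s * q)) := by
          gcongr
      _ = 2 ^ (q - 2) * (τ ^ (q - 2 - s * q) * T ^ (4 - 3 * q / 2 + ε)) := a3
      _ ≤ _ := by gcongr

theorem real2 {q s ε T A θ : ℝ} (hA : 0 ≤ A) (hT : 1 ≤ T)
    (h2 : θ ≤ s * q - 2 + q / 2) :
    T ^ (2 - q / 2 + ε) * (A * T ^ (-s)) ^ q ≤ T ^ (-θ + ε) * A ^ q := by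
  have hT0 : 0 < T := by linarith
  rw [Real.mul_rpow hA (Real.rpow_pos_of_pos hT0 _).le, ← Real.rpow_mul hT0.le]
  have h : T ^ (2 - q / 2 + ε) * (A ^ q * T ^ (-s * q)) =
      T ^ (2 - q / 2 + ε + -s * q) * A ^ q := by
    rw [Real.rpow_add hT0 (2 - q / 2 + ε) (-s * q)]
    ring
  rw [h]
  have h3 : T ^ (2 - q / 2 + ε + -s * q) ≤ T ^ (-θ + ε) :=
    Real.rpow_le_rpow_of_exponent_le hT (by linarith)
  have h4 : 0 ≤ A ^ q := Real.rpow_nonneg hA q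
  exact mul_le_mul_of_nonneg_right h3 h4

theorem real3 {q ε : ℝ} (hq : 0 < q) (hε : 0 < ε) (n : ℕ) :
    ((n : ℝ) + 3) ^ q ≤ (3 * q / (ε * Real.log 2)) ^ q * ((2 : ℝ) ^ (n + 1)) ^ ε := by
  have hl : 0 < Real.log 2 := Real.log_pos (by norm_num)
  have hc : 0 < ε / q := div_pos hε hq
  have hT0 : (0 : ℝ) < 2 ^ (n + 1) := by positivity
  have h1 := Real.log_le_rpow_div hT0.le hc
  rw [Real.log_pow] at h1
  push_cast at h1
  have h2 : (n : ℝ) + 1 ≤ (((2 : ℝ) ^ (n + 1)) ^ (ε / q)) / (ε / q) / Real.log 2 := by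
    rw [le_div_iff₀ hl]
    exact h1
  have h3 : (n : ℝ) + 3 ≤ 3 * q / (ε * Real.log 2) * ((2 : ℝ) ^ (n + 1)) ^ (ε / q) := by
    have e1 : 3 * q / (ε * Real.log 2) * ((2 : ℝ) ^ (n + 1)) ^ (ε / q) =
        3 * ((((2 : ℝ) ^ (n + 1)) ^ (ε / q)) / (ε / q) / Real.log 2) := by
      field_simp
    rw [e1]
    have hn : (0 : ℝ) ≤ n := Nat.cast_nonneg n
    linarith
  have h4 : ((2 : ℝ) ^ (n + 1)) ^ ε = (((2 : ℝ) ^ (n + 1)) ^ (ε / q)) ^ q := by
    rw [← Real.rpow_mul hT0.le]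
    congr 1
    field_simp
  rw [h4, ← Real.mul_rpow (by positivity) (by positivity)]
  exact Real.rpow_le_rpow (by positivity) h3 hq.le

/-! ### norms of functions of two variables -/

/-- the power of the norm -/
noncomputable def NN (q : ℝ) (f : ℝ × ℝ → ℂ) : ℝ≥0∞ := ∫⁻ y₁, ∫⁻ y₂, ‖f (y₁, y₂)‖ₑ ^ q

theorem int_of {q a b : ℝ} (hq : 1 ≤ q) {f : ℝ × ℝ → ℂ} (hm : Measurable f)
    (h0 : ∀ p : ℝ × ℝ, p ∉ Icc (0 : ℝ) 1 ×ˢ Icc a b → f p = 0) (hN : NN q f ≠ ⊤) :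
    Integrable f := by
  refine ⟨hm.aestronglyMeasurable, ?_⟩
  unfold HasFiniteIntegral
  have h1 : ∫⁻ p, ‖f p‖ₑ ^ q = NN q f := by
    unfold NN
    rw [Measure.volume_eq_prod, lintegral_prod _ (hm.enorm.pow_const q).aemeasurable]
  have h2 : ∀ p, ‖f p‖ₑ ≤ (Icc (0 : ℝ) 1 ×ˢ Icc a b).indicator (fun _ => (1 : ℝ≥0∞)) p +
      ‖f p‖ₑ ^ q := by
    intro p
    by_cases hp : p ∈ Icc (0 : ℝ) 1 ×ˢ Icc a b
    · rw [indicator_of_mem hp]
      rcases le_total ‖f p‖ₑ 1 with h | h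
      · exact h.trans le_self_add
      · refine le_trans ?_ le_add_self
        calc ‖f p‖ₑ = ‖f p‖ₑ ^ (1 : ℝ) := (ENNReal.rpow_one _).symm
          _ ≤ ‖f p‖ₑ ^ q := ENNReal.rpow_le_rpow_of_exponent_le h hq
    · rw [h0 p hp, enorm_zero]
      exact bot_le
  refine lt_of_le_of_lt (lintegral_mono h2) ?_
  have hms : MeasurableSet (Icc (0 : ℝ) 1 ×ˢ Icc a b) := measurableSet_Icc.prod measurableSet_Icc
  rw [lintegral_add_left (measurable_const.indicator hms), h1, lintegral_indicator_const hms,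
    one_mul, Measure.volume_eq_prod, Measure.prod_prod, Real.volume_Icc, Real.volume_Icc]
  exact ENNReal.add_lt_top.2 ⟨ENNReal.mul_lt_top ENNReal.ofReal_lt_top ENNReal.ofReal_lt_top,
    lt_top_iff_ne_top.2 hN⟩

theorem av2_supp {f : ℝ × ℝ → ℂ} {a b δ : ℝ} (hδ : 0 < δ) (hδ1 : δ ≤ 1)
    (h0 : ∀ p : ℝ × ℝ, p ∉ Icc (0 : ℝ) 1 ×ˢ Icc a b → f p = 0) :
    ∀ p : ℝ × ℝ, p ∉ Icc (0 : ℝ) 1 ×ˢ Icc a (b + 1) → av2 δ f p = 0 := by
  intro p hp
  unfold av2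
  refine setIntegral_eq_zero_of_forall_eq_zero fun u hu => h0 _ fun hmem => hp ?_
  obtain ⟨h1, h2, h3⟩ := hmem
  have h4 : δ * u ≤ 1 := by nlinarith [hu.1, hu.2]
  have h5 : 0 ≤ δ * u := mul_nonneg hδ.le hu.1
  have h2' : a ≤ p.2 - δ * u := h2
  have h3' : p.2 - δ * u ≤ b := h3
  exact ⟨h1, by linarith, by linarith⟩

theorem supp_mono {f : ℝ × ℝ → ℂ} {a b a' b' : ℝ} (ha : a' ≤ a) (hb : b ≤ b')
    (h0 : ∀ p : ℝ × ℝ, p ∉ Icc (0 : ℝ) 1 ×ˢ Icc a b → f p = 0) :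
    ∀ p : ℝ × ℝ, p ∉ Icc (0 : ℝ) 1 ×ˢ Icc a' b' → f p = 0 := by
  intro p hp
  refine h0 p fun hmem => hp ?_
  exact ⟨hmem.1, ha.trans hmem.2.1, hmem.2.2.trans hb⟩

/-- the functions which are averaged, two variables -/
noncomputable def gg (f : ℝ × ℝ → ℂ) (i : ℕ) (p : ℝ × ℝ) : ℂ :=
  if i = 0 then av2 (dl 1) f p else av2 (dl (i + 1)) f p - av2 (dl (i - 1)) f p

/-- the function which is averaged in the piece of index `i ≤ n + 1` -/
noncomputable def GG (f : ℝ × ℝ → ℂ) (n i : ℕ) (p : ℝ × ℝ) : ℂ :=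
  if i = n + 1 then f p - av2 (dl n) f p else gg f i p

/-- the remainder -/
noncomputable def RR (f : ℝ × ℝ → ℂ) (n : ℕ) (p : ℝ × ℝ) : ℂ := f p - av2 (dl (n + 1)) f p

/-- the pieces -/
noncomputable def PP (f : ℝ × ℝ → ℂ) (n i : ℕ) : ℝ × ℝ → ℂ :=
  if i = n + 2 then RR f n else av2 (dl i) (GG f n i)

theorem decomp {f : ℝ × ℝ → ℂ} (n : ℕ) (y₁ y₂ : ℝ) (hm : Measurable fun y => f (y₁, y))
    (hi : Integrable fun y => f (y₁, y)) :
    f (y₁, y₂) = ∑ i ∈ Finset.range (n + 3), PP f n i (y₁, y₂) := by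
  have h := tele2 hm hi n y₂
  rw [Finset.sum_range_succ, Finset.sum_range_succ]
  have e1 : PP f n (n + 2) (y₁, y₂) = f (y₁, y₂) - av (dl (n + 1)) (fun y => f (y₁, y)) y₂ := by
    unfold PP
    rw [if_pos rfl]
    rfl
  have e2 : PP f n (n + 1) (y₁, y₂) =
      av (dl (n + 1)) (fun x => f (y₁, x) - av (dl n) (fun y => f (y₁, y)) x) y₂ := by
    have e3 : GG f n (n + 1) = fun p => f p - av2 (dl n) f p := by
      funext p
      unfold GG
      rw [if_pos rfl]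
    unfold PP
    rw [if_neg (by omega), e3]
    rfl
  have e4 : ∑ i ∈ Finset.range (n + 1), PP f n i (y₁, y₂) =
      ∑ i ∈ Finset.range (n + 1), av (dl i) (g1 (fun y => f (y₁, y)) i) y₂ := by
    refine Finset.sum_congr rfl fun i hi' => ?_
    have hlt := Finset.mem_range.1 hi'
    have e5 : GG f n i = gg f i := by
      funext p
      unfold GG
      rw [if_neg (by omega)]
    unfold PP
    rw [if_neg (by omega), e5]
    rfl
  rw [e1, e2, e4]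
  exact h

theorem EE_decomp {f : ℝ × ℝ → ℂ} (n : ℕ) (hm : Measurable f) (hi : Integrable f)
    (hP : ∀ i ∈ Finset.range (n + 3), Integrable (PP f n i)) (x₁ x₂ t : ℝ) :
    EE f x₁ x₂ t = ∑ i ∈ Finset.range (n + 3), EE (PP f n i) x₁ x₂ t := by
  rw [← EE_sum (Finset.range (n + 3)) (PP f n) hP x₁ x₂ t]
  unfold EE
  have hi2 : Integrable f ((volume : Measure ℝ).prod volume) := by
    rw [← Measure.volume_eq_prod]
    exact hi
  refine integral_congr_ae ?_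
  filter_upwards [hi2.prod_right_ae] with y₁ hy
  refine integral_congr_ae (Filter.Eventually.of_forall fun y₂ => ?_)
  have h := decomp n y₁ y₂ (hm.comp measurable_prodMk_left) hy
  show ph x₁ t y₁ * (ph x₂ t y₂ * f (y₁, y₂)) =
    ph x₁ t y₁ * (ph x₂ t y₂ * ∑ i ∈ Finset.range (n + 3), PP f n i (y₁, y₂))
  rw [← h]

theorem dl_eq (i : ℕ) : dl i = ((2 : ℝ) ^ i)⁻¹ := by
  unfold dl
  rw [one_div, inv_pow]

theorem dl_rpow (i : ℕ) (s q A : ℝ) (hA : 0 ≤ A) :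
    (A * dl i ^ s) ^ q = A ^ q * ((2 : ℝ) ^ i) ^ (-(s * q)) := by
  have h2 : (0 : ℝ) < 2 ^ i := by positivity
  rw [Real.mul_rpow hA (Real.rpow_nonneg (dl_pos i).le s), ← Real.rpow_mul (dl_pos i).le, dl_eq,
    Real.inv_rpow h2.le, Real.rpow_neg h2.le]

theorem NN_add {q : ℝ} (hq : 1 ≤ q) {F G H : ℝ × ℝ → ℂ} (hF : Measurable F)
    (h : ∀ p, ‖H p‖ₑ ≤ ‖F p‖ₑ + ‖G p‖ₑ) :
    NN q H ≤ 2 ^ (q - 1) * (NN q F + NN q G) := by
  have hc : (2 : ℝ≥0∞) ^ (q - 1) ≠ ⊤ :=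
    ENNReal.rpow_ne_top_of_nonneg (by linarith) (by norm_num)
  have hm1 : Measurable (fun z : ℝ × ℝ => ‖F z‖ₑ ^ q) := hF.enorm.pow_const q
  have hm2 : Measurable (fun y₁ : ℝ => ∫⁻ y₂, ‖F (y₁, y₂)‖ₑ ^ q) := hm1.lintegral_prod_right'
  unfold NN
  have e1 : ∀ y₁ : ℝ, ∫⁻ y₂, ‖H (y₁, y₂)‖ₑ ^ q ≤
      2 ^ (q - 1) * ((∫⁻ y₂, ‖F (y₁, y₂)‖ₑ ^ q) + ∫⁻ y₂, ‖G (y₁, y₂)‖ₑ ^ q) := by
    intro y₁
    have hs : Measurable (fun y₂ : ℝ => ‖F (y₁, y₂)‖ₑ ^ q) := hm1.comp measurable_prodMk_left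
    rw [← lintegral_add_left hs, ← lintegral_const_mul' _ _ hc]
    refine lintegral_mono fun y₂ => ?_
    refine (ENNReal.rpow_le_rpow (h (y₁, y₂)) (by linarith)).trans ?_
    exact ENNReal.rpow_add_le_mul_rpow_add_rpow _ _ hq
  refine (lintegral_mono e1).trans ?_
  rw [lintegral_const_mul' _ _ hc, lintegral_add_left hm2]

/-- the constant of the bound for the pieces -/
noncomputable def c1 (q s : ℝ) : ℝ := 2 ^ q * 2 ^ (s * q)

theorem c1_one {q s : ℝ} (hq : 0 < q) (hs : 0 < s) : 1 ≤ c1 q s := by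
  unfold c1
  have h1 : (1 : ℝ) ≤ 2 ^ q := Real.one_le_rpow (by norm_num) hq.le
  have h2 : (1 : ℝ) ≤ 2 ^ (s * q) := Real.one_le_rpow (by norm_num) (mul_pos hs hq).le
  nlinarith

theorem dl_anti {i j : ℕ} (h : i ≤ j) : dl j ≤ dl i := by
  unfold dl
  exact pow_le_pow_of_le_one (by norm_num) (by norm_num) h

theorem bd_scale {q s A : ℝ} (hq : 0 < q) (hs : 0 < s) (hA : 0 ≤ A) {i j : ℕ} (h : i ≤ j + 1) :
    (A * dl j ^ s) ^ q ≤ 2 ^ (s * q) * ((2 : ℝ) ^ i) ^ (-(s * q)) * A ^ q := by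
  rw [dl_rpow j s q A hA]
  have hA' : 0 ≤ A ^ q := Real.rpow_nonneg hA q
  have h1 : ((2 : ℝ) ^ j) ^ (-(s * q)) ≤ 2 ^ (s * q) * ((2 : ℝ) ^ i) ^ (-(s * q)) := by
    have h2 : ((2 : ℝ) ^ (j + 1)) ^ (-(s * q)) ≤ ((2 : ℝ) ^ i) ^ (-(s * q)) := by
      refine Real.rpow_le_rpow_of_nonpos (by positivity) ?_ (by
        have := mul_pos hs hq
        linarith)
      exact pow_le_pow_right₀ (by norm_num) h
    have h3 : ((2 : ℝ) ^ j) ^ (-(s * q)) = 2 ^ (s * q) * ((2 : ℝ) ^ (j + 1)) ^ (-(s * q)) := by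
      rw [pow_succ, Real.mul_rpow (by positivity) (by norm_num), Real.rpow_neg (by norm_num : (0 : ℝ) ≤ 2)]
      have h4 : (2 : ℝ) ^ (s * q) ≠ 0 := (Real.rpow_pos_of_pos (by norm_num) _).ne'
      field_simp
    rw [h3]
    exact mul_le_mul_of_nonneg_left h2 (Real.rpow_nonneg (by norm_num) _)
  calc A ^ q * ((2 : ℝ) ^ j) ^ (-(s * q)) ≤ A ^ q * (2 ^ (s * q) * ((2 : ℝ) ^ i) ^ (-(s * q))) :=
        mul_le_mul_of_nonneg_left h1 hA'
    _ = _ := by ring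

section main

variable {q s A : ℝ} {f : ℝ × ℝ → ℂ}

theorem R_bd (h3 : S_DJ) (hq : 1 ≤ q) (hs : 0 < s) (hA : 0 ≤ A) (hm : Measurable f)
    (hN : NN q f ≠ ⊤) (hR : Reg q s A f) (j : ℕ) :
    NN q (fun p => f p - av2 (dl j) f p) ≤ ENNReal.ofReal ((A * dl j ^ s) ^ q) :=
  (h3 q hq (dl j) f (dl_pos j) (dl_le j) hm hN).2.2 s A hs.le hA hR

theorem GG_bd (h3 : S_DJ) (hq : 1 ≤ q) (hs : 0 < s) (hA : 0 ≤ A) (hm : Measurable f)
    (hN : NN q f ≠ ⊤) (hR : Reg q s A f) (n i : ℕ) (hi : i ≤ n + 1) :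
    NN q (GG f n i) ≤ ENNReal.ofReal (c1 q s * ((2 : ℝ) ^ i) ^ (-(s * q))) *
      (NN q f + ENNReal.ofReal (A ^ q)) := by
  have hq0 : 0 < q := by linarith
  have hA' : 0 ≤ A ^ q := Real.rpow_nonneg hA q
  have hp : (0 : ℝ) < ((2 : ℝ) ^ i) ^ (-(s * q)) := Real.rpow_pos_of_pos (by positivity) _
  have hp2 : (0 : ℝ) < 2 ^ (s * q) := Real.rpow_pos_of_pos (by norm_num) _
  have hp3 : (1 : ℝ) ≤ 2 ^ q := Real.one_le_rpow (by norm_num) hq0.le
  by_cases hn : i = n + 1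
  · have e : GG f n i = fun p => f p - av2 (dl n) f p := by
      funext p
      unfold GG
      rw [if_pos hn]
    rw [e]
    refine (R_bd h3 hq hs hA hm hN hR n).trans ?_
    have h5 := bd_scale (q := q) (s := s) (A := A) hq0 hs hA (i := i) (j := n) (by omega)
    have h6 : (2 : ℝ) ^ (s * q) * ((2 : ℝ) ^ i) ^ (-(s * q)) * A ^ q ≤
        c1 q s * ((2 : ℝ) ^ i) ^ (-(s * q)) * A ^ q := by
      refine mul_le_mul_of_nonneg_right (mul_le_mul_of_nonneg_right ?_ hp.le) hA'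
      unfold c1
      nlinarith
    calc ENNReal.ofReal ((A * dl n ^ s) ^ q)
        ≤ ENNReal.ofReal (c1 q s * ((2 : ℝ) ^ i) ^ (-(s * q)) * A ^ q) :=
          ENNReal.ofReal_le_ofReal (h5.trans h6)
      _ = ENNReal.ofReal (c1 q s * ((2 : ℝ) ^ i) ^ (-(s * q))) * ENNReal.ofReal (A ^ q) :=
          ENNReal.ofReal_mul (mul_nonneg (by linarith [c1_one hq0 hs]) hp.le)
      _ ≤ _ := by gcongr; exact le_add_self
  · have e : GG f n i = gg f i := by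
      funext p
      unfold GG
      rw [if_neg hn]
    rw [e]
    by_cases h0 : i = 0
    · have e2 : gg f i = av2 (dl 1) f := by
        funext p
        unfold gg
        rw [if_pos h0]
      rw [e2]
      have h4 : NN q (av2 (dl 1) f) ≤ NN q f :=
        (h3 q hq (dl 1) f (dl_pos 1) (dl_le 1) hm hN).2.1
      refine h4.trans ?_
      rw [h0, pow_zero, Real.one_rpow, mul_one]
      calc NN q f = 1 * NN q f := (one_mul _).symm
        _ ≤ ENNReal.ofReal (c1 q s) * NN q f := by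
            gcongr
            rw [← ENNReal.ofReal_one]
            exact ENNReal.ofReal_le_ofReal (c1_one hq0 hs)
        _ ≤ _ := by gcongr; exact le_self_add
    · have b1 := R_bd h3 hq hs hA hm hN hR (i + 1)
      have b2 := R_bd h3 hq hs hA hm hN hR (i - 1)
      have m1 : Measurable (fun p => f p - av2 (dl (i + 1)) f p) :=
        hm.sub (h3 q hq (dl (i + 1)) f (dl_pos _) (dl_le _) hm hN).1
      have b3 : NN q (gg f i) ≤ 2 ^ (q - 1) * (NN q (fun p => f p - av2 (dl (i + 1)) f p) +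
          NN q (fun p => f p - av2 (dl (i - 1)) f p)) := by
        refine NN_add hq m1 fun p => ?_
        unfold gg
        rw [if_neg h0]
        have : av2 (dl (i + 1)) f p - av2 (dl (i - 1)) f p =
            (f p - av2 (dl (i - 1)) f p) - (f p - av2 (dl (i + 1)) f p) := by ring
        rw [this]
        refine enorm_sub_le.trans ?_
        rw [add_comm]
      have h5 := bd_scale (q := q) (s := s) (A := A) hq0 hs hA (i := i) (j := i + 1) (by omega)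
      have h6 := bd_scale (q := q) (s := s) (A := A) hq0 hs hA (i := i) (j := i - 1) (by omega)
      set B := (2 : ℝ) ^ (s * q) * ((2 : ℝ) ^ i) ^ (-(s * q)) * A ^ q with hB
      have b1' := b1.trans (ENNReal.ofReal_le_ofReal h5)
      have b2' := b2.trans (ENNReal.ofReal_le_ofReal h6)
      have hB0 : 0 ≤ B := by positivity
      have h7 : (2 : ℝ≥0∞) ^ (q - 1) * (ENNReal.ofReal B + ENNReal.ofReal B) =
          ENNReal.ofReal (c1 q s * ((2 : ℝ) ^ i) ^ (-(s * q))) * ENNReal.ofReal (A ^ q) := by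
        rw [← ENNReal.ofReal_mul (mul_nonneg (by linarith [c1_one hq0 hs]) hp.le),
          ← ENNReal.ofReal_add hB0 hB0]
        have h8 : (2 : ℝ≥0∞) ^ (q - 1) = ENNReal.ofReal ((2 : ℝ) ^ (q - 1)) := by
          rw [← ENNReal.ofReal_rpow_of_pos (by norm_num)]
          norm_num
        rw [h8, ← ENNReal.ofReal_mul (by positivity)]
        congr 1
        have h9 : (2 : ℝ) ^ q = 2 ^ (q - 1) * 2 := by
          rw [Real.rpow_sub_one (by norm_num)]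
          ring
        rw [hB]
        unfold c1
        rw [h9]
        ring
      calc NN q (gg f i) ≤ _ := b3
        _ ≤ (2 : ℝ≥0∞) ^ (q - 1) * (ENNReal.ofReal B + ENNReal.ofReal B) := by gcongr
        _ = _ := h7
        _ ≤ _ := by gcongr; exact le_add_self

end main

section final

variable {q s A : ℝ} {f : ℝ × ℝ → ℂ}

theorem av2_meas (h3 : S_DJ) (hq : 1 ≤ q) (hm : Measurable f) (hN : NN q f ≠ ⊤) (j : ℕ) :
    Measurable (av2 (dl j) f) := (h3 q hq (dl j) f (dl_pos j) (dl_le j) hm hN).1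

theorem sub_supp (h0 : ∀ p : ℝ × ℝ, p ∉ Icc (0 : ℝ) 1 ×ˢ Icc (0 : ℝ) 1 → f p = 0) (j : ℕ) :
    ∀ p : ℝ × ℝ, p ∉ Icc (0 : ℝ) 1 ×ˢ Icc (-1 : ℝ) 2 → f p - av2 (dl j) f p = 0 := by
  intro p hp
  have h1 := supp_mono (a' := -1) (b' := 2) (by norm_num) (by norm_num) h0 p hp
  have h2 := supp_mono (a' := -1) (b' := 2) (by norm_num) (by norm_num)
    (av2_supp (dl_pos j) (dl_le j) h0) p hp
  rw [h1, h2, sub_zero]

theorem GG_adm (h3 : S_DJ) (hq : 1 ≤ q) (hs : 0 < s) (hA : 0 ≤ A) (hm : Measurable f)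
    (h0 : ∀ p : ℝ × ℝ, p ∉ Icc (0 : ℝ) 1 ×ˢ Icc (0 : ℝ) 1 → f p = 0)
    (hN : NN q f ≠ ⊤) (hR : Reg q s A f) (n i : ℕ) (hi : i ≤ n + 1) :
    Adm2 q (GG f n i) := by
  refine ⟨?_, ?_, ?_⟩
  · by_cases hn : i = n + 1
    · have e : GG f n i = fun p => f p - av2 (dl n) f p := by
        funext p
        unfold GG
        rw [if_pos hn]
      rw [e]
      exact hm.sub (av2_meas h3 hq hm hN n)
    · by_cases h00 : i = 0
      · have e : GG f n i = av2 (dl 1) f := by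
          funext p
          unfold GG gg
          rw [if_neg hn, if_pos h00]
        rw [e]
        exact av2_meas h3 hq hm hN 1
      · have e : GG f n i = fun p => av2 (dl (i + 1)) f p - av2 (dl (i - 1)) f p := by
          funext p
          unfold GG gg
          rw [if_neg hn, if_neg h00]
        rw [e]
        exact (av2_meas h3 hq hm hN _).sub (av2_meas h3 hq hm hN _)
  · intro p hp
    have hs2 : ∀ j, av2 (dl j) f p = 0 := fun j =>
      supp_mono (a' := -1) (b' := 2) (by norm_num) (by norm_num)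
        (av2_supp (dl_pos j) (dl_le j) h0) p hp
    unfold GG gg
    rw [hs2, hs2, hs2, hs2]
    rw [supp_mono (a' := -1) (b' := 2) (by norm_num) (by norm_num) h0 p hp]
    simp
  · refine ne_top_of_le_ne_top ?_ (GG_bd h3 hq hs hA hm hN hR n i hi)
    exact ENNReal.mul_ne_top ENNReal.ofReal_ne_top (ENNReal.add_ne_top.2 ⟨hN, ENNReal.ofReal_ne_top⟩)

theorem RR_adm (h3 : S_DJ) (hq : 1 ≤ q) (hs : 0 < s) (hA : 0 ≤ A) (hm : Measurable f)
    (h0 : ∀ p : ℝ × ℝ, p ∉ Icc (0 : ℝ) 1 ×ˢ Icc (0 : ℝ) 1 → f p = 0)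
    (hN : NN q f ≠ ⊤) (hR : Reg q s A f) (n : ℕ) : Adm2 q (RR f n) := by
  refine ⟨hm.sub (av2_meas h3 hq hm hN _), sub_supp h0 (n + 1), ?_⟩
  exact ne_top_of_le_ne_top ENNReal.ofReal_ne_top (R_bd h3 hq hs hA hm hN hR (n + 1))

theorem PP_mi (h3 : S_DJ) (hq : 1 ≤ q) (hs : 0 < s) (hA : 0 ≤ A) (hm : Measurable f)
    (h0 : ∀ p : ℝ × ℝ, p ∉ Icc (0 : ℝ) 1 ×ˢ Icc (0 : ℝ) 1 → f p = 0)
    (hN : NN q f ≠ ⊤) (hR : Reg q s A f) (n i : ℕ) (hi : i ∈ Finset.range (n + 3)) :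
    Measurable (PP f n i) ∧ Integrable (PP f n i) := by
  have hlt := Finset.mem_range.1 hi
  by_cases hn : i = n + 2
  · have e : PP f n i = RR f n := by
      unfold PP
      rw [if_pos hn]
    rw [e]
    have h := RR_adm h3 hq hs hA hm h0 hN hR n
    exact ⟨h.1, int_of hq h.1 h.2.1 h.2.2⟩
  · have e : PP f n i = av2 (dl i) (GG f n i) := by
      unfold PP
      rw [if_neg hn]
    rw [e]
    have h := GG_adm h3 hq hs hA hm h0 hN hR n i (by omega)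
    have h4 := h3 q hq (dl i) (GG f n i) (dl_pos i) (dl_le i) h.1 h.2.2
    exact ⟨h4.1, int_of hq h4.1 (av2_supp (dl_pos i) (dl_le i) h.2.1)
      (ne_top_of_le_ne_top h.2.2 h4.2.1)⟩

end final

theorem piece_bd {q s ε θ C C0 A : ℝ} {f : ℝ × ℝ → ℂ} (h3 : S_DJ) (hq3 : 3 < q) (hs : 0 < s)
    (hA : 0 ≤ A) (hm : Measurable f)
    (h0 : ∀ p : ℝ × ℝ, p ∉ Icc (0 : ℝ) 1 ×ˢ Icc (0 : ℝ) 1 → f p = 0)
    (hN : NN q f ≠ ⊤) (hR : Reg q s A f) (hθ1 : θ ≤ q - 3) (hθ2 : θ ≤ s * q - 2 + q / 2)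
    (hC : 0 < C) (hC0 : 0 < C0)
    (hL : ∀ T : ℝ, 2 ≤ T → ∀ δ : ℝ, 0 < δ → δ ≤ 1 → ∀ f : ℝ × ℝ → ℂ, Adm2 q f →
      TT q {t : ℝ | T / 2 ≤ |t| ∧ |t| ≤ T} (av2 δ f) ≤
        ENNReal.ofReal (C * (T ^ (-(1 / 2 : ℝ)) + 1 / (δ * T)) ^ (q - 2) * T ^ (2 - q / 2 + ε)) *
          NN q f)
    (hL0 : ∀ T : ℝ, 1 ≤ T → ∀ f : ℝ × ℝ → ℂ, Adm2 q f →
      TT q (Icc (-T) T) f ≤ ENNReal.ofReal (C0 * T ^ (2 - q / 2 + ε)) * NN q f)
    (n i : ℕ) (hi : i ∈ Finset.range (n + 3)) :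
    TT q {t : ℝ | (2 : ℝ) ^ (n + 1) / 2 ≤ |t| ∧ |t| ≤ (2 : ℝ) ^ (n + 1)} (PP f n i) ≤
      ENNReal.ofReal ((C * 2 ^ (q - 2) * c1 q s + C0) * ((2 : ℝ) ^ (n + 1)) ^ (-θ + ε)) *
        (NN q f + ENNReal.ofReal (A ^ q)) := by
  have hlt := Finset.mem_range.1 hi
  have hq : 1 ≤ q := by linarith
  have hq0 : 0 < q := by linarith
  have hc1 := c1_one hq0 hs
  have hA' : 0 ≤ A ^ q := Real.rpow_nonneg hA q
  set T : ℝ := (2 : ℝ) ^ (n + 1) with hTdef
  have hT2 : 2 ≤ T := by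
    rw [hTdef, pow_succ]
    have : (1 : ℝ) ≤ 2 ^ n := one_le_pow₀ (by norm_num)
    linarith
  have hT1 : 1 ≤ T := by linarith
  have hT0 : 0 < T := by linarith
  have hTp : 0 < T ^ (-θ + ε) := Real.rpow_pos_of_pos hT0 _
  have h22 : (0 : ℝ) < 2 ^ (q - 2) := Real.rpow_pos_of_pos (by norm_num) _
  by_cases hn : i = n + 2
  · have e : PP f n i = RR f n := by
      unfold PP
      rw [if_pos hn]
    rw [e]
    have h := RR_adm h3 hq hs hA hm h0 hN hR n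
    have h4 := hL0 T hT1 (RR f n) h
    have h5 : TT q {t : ℝ | T / 2 ≤ |t| ∧ |t| ≤ T} (RR f n) ≤ TT q (Icc (-T) T) (RR f n) := by
      unfold TT
      exact lintegral_mono_set fun t ht => abs_le.1 ht.2
    have h6 : NN q (RR f n) ≤ ENNReal.ofReal ((A * dl (n + 1) ^ s) ^ q) :=
      R_bd h3 hq hs hA hm hN hR (n + 1)
    have h7 : (A * dl (n + 1) ^ s) ^ q = (A * T ^ (-s)) ^ q := by
      rw [dl_eq, Real.inv_rpow hT0.le, Real.rpow_neg hT0.le]
    have h8 := real2 (q := q) (s := s) (ε := ε) (T := T) (A := A) (θ := θ) hA hT1 hθ2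
    calc TT q {t : ℝ | T / 2 ≤ |t| ∧ |t| ≤ T} (RR f n)
        ≤ ENNReal.ofReal (C0 * T ^ (2 - q / 2 + ε)) * NN q (RR f n) := h5.trans h4
      _ ≤ ENNReal.ofReal (C0 * T ^ (2 - q / 2 + ε)) * ENNReal.ofReal ((A * T ^ (-s)) ^ q) := by
          rw [← h7]
          gcongr
      _ = ENNReal.ofReal (C0 * (T ^ (2 - q / 2 + ε) * (A * T ^ (-s)) ^ q)) := by
          rw [← ENNReal.ofReal_mul (by positivity), mul_assoc]
      _ ≤ ENNReal.ofReal (((C * 2 ^ (q - 2) * c1 q s + C0) * T ^ (-θ + ε)) * A ^ q) := by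
          refine ENNReal.ofReal_le_ofReal ?_
          calc C0 * (T ^ (2 - q / 2 + ε) * (A * T ^ (-s)) ^ q) ≤ C0 * (T ^ (-θ + ε) * A ^ q) :=
                mul_le_mul_of_nonneg_left h8 hC0.le
            _ = C0 * T ^ (-θ + ε) * A ^ q := by ring
            _ ≤ _ := by
                refine mul_le_mul_of_nonneg_right (mul_le_mul_of_nonneg_right ?_ hTp.le) hA'
                have : 0 ≤ C * 2 ^ (q - 2) * c1 q s := by positivity
                linarith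
      _ = ENNReal.ofReal ((C * 2 ^ (q - 2) * c1 q s + C0) * T ^ (-θ + ε)) *
            ENNReal.ofReal (A ^ q) := ENNReal.ofReal_mul (by positivity)
      _ ≤ _ := by gcongr; exact le_add_self
  · have e : PP f n i = av2 (dl i) (GG f n i) := by
      unfold PP
      rw [if_neg hn]
    rw [e]
    have h := GG_adm h3 hq hs hA hm h0 hN hR n i (by omega)
    have h4 := hL T hT2 (dl i) (dl_pos i) (dl_le i) (GG f n i) h
    have h5 := GG_bd h3 hq hs hA hm hN hR n i (by omega)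
    set τ : ℝ := (2 : ℝ) ^ i with hτ
    have hτ1 : 1 ≤ τ := one_le_pow₀ (by norm_num)
    have hτT : τ ≤ T := pow_le_pow_right₀ (by norm_num) (by omega)
    have h6 := real1 (q := q) (s := s) (ε := ε) (T := T) (τ := τ) (θ := θ) hq3 hs hT1 hτ1 hτT
      hθ1 hθ2
    have h7 : 1 / (dl i * T) = τ / T := by
      rw [dl_eq, ← hτ]
      have : τ ≠ 0 := by positivity
      field_simp
    rw [h7] at h4
    have hX : 0 ≤ C * (T ^ (-(1 / 2 : ℝ)) + τ / T) ^ (q - 2) * T ^ (2 - q / 2 + ε) := by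
      positivity
    calc TT q {t : ℝ | T / 2 ≤ |t| ∧ |t| ≤ T} (av2 (dl i) (GG f n i))
        ≤ ENNReal.ofReal (C * (T ^ (-(1 / 2 : ℝ)) + τ / T) ^ (q - 2) * T ^ (2 - q / 2 + ε)) *
          NN q (GG f n i) := h4
      _ ≤ ENNReal.ofReal (C * (T ^ (-(1 / 2 : ℝ)) + τ / T) ^ (q - 2) * T ^ (2 - q / 2 + ε)) *
          (ENNReal.ofReal (c1 q s * τ ^ (-(s * q))) * (NN q f + ENNReal.ofReal (A ^ q))) := by
          gcongr
      _ = ENNReal.ofReal (C * (T ^ (-(1 / 2 : ℝ)) + τ / T) ^ (q - 2) * T ^ (2 - q / 2 + ε) *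
          (c1 q s * τ ^ (-(s * q)))) * (NN q f + ENNReal.ofReal (A ^ q)) := by
          rw [ENNReal.ofReal_mul hX]
          exact (mul_assoc _ _ _).symm
      _ ≤ _ := by
          gcongr ENNReal.ofReal ?_ * _
          calc C * (T ^ (-(1 / 2 : ℝ)) + τ / T) ^ (q - 2) * T ^ (2 - q / 2 + ε) *
              (c1 q s * τ ^ (-(s * q))) = C * c1 q s *
              ((T ^ (-(1 / 2 : ℝ)) + τ / T) ^ (q - 2) * T ^ (2 - q / 2 + ε) * τ ^ (-(s * q))) := by
                ring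
            _ ≤ C * c1 q s * (2 ^ (q - 2) * T ^ (-θ + ε)) := by
                have : 0 ≤ C * c1 q s := by positivity
                exact mul_le_mul_of_nonneg_left h6 this
            _ = C * 2 ^ (q - 2) * c1 q s * T ^ (-θ + ε) := by ring
            _ ≤ _ := by
                refine mul_le_mul_of_nonneg_right ?_ hTp.le
                linarith

end Pool.Agent.H243.RL.BLOCK

namespace Pool.Agent.H243.RL

open BLOCK

theorem t_BLOCK (h1 : S_LOC) (h2 : S_LOC0) (h3 : S_DJ) : S_BLOCK := by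
  intro q s hq3 hq4 hs
  have hq : 1 ≤ q := by linarith
  have hq0 : 0 < q := by linarith
  have hs0 : 0 < s := by
    have h : 0 < 2 / q - 1 / 2 := by
      rw [sub_pos, div_lt_div_iff₀ (by norm_num) hq0]
      linarith
    linarith
  have hsq : 0 < s * q - 2 + q / 2 := by
    have h : (2 / q - 1 / 2) * q < s * q := mul_lt_mul_of_pos_right hs hq0
    have h' : (2 / q - 1 / 2) * q = 2 - q / 2 := by
      field_simp
    linarith
  set θ : ℝ := min (q - 3) (s * q - 2 + q / 2) with hθ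
  have hθ0 : 0 < θ := lt_min (by linarith) hsq
  have hθ1 : θ ≤ q - 3 := min_le_left _ _
  have hθ2 : θ ≤ s * q - 2 + q / 2 := min_le_right _ _
  have hε : 0 < θ / 4 := by linarith
  obtain ⟨C, hC, hL⟩ := h1 q (θ / 4) (by linarith) hq4 hε
  obtain ⟨C0, hC0, hL0⟩ := h2 q (θ / 4) (by linarith) hq4 hε
  have hc1 := c1_one hq0 hs0
  have h22 : (0 : ℝ) < 2 ^ (q - 2) := Real.rpow_pos_of_pos (by norm_num) _
  have hl2 : 0 < Real.log 2 := Real.log_pos (by norm_num)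
  set K1 : ℝ := C * 2 ^ (q - 2) * c1 q s + C0 with hK1
  have hK1p : 0 < K1 := by
    have : 0 ≤ C * 2 ^ (q - 2) * c1 q s := by positivity
    linarith
  set K2 : ℝ := (3 * q / (θ / 4 * Real.log 2)) ^ q with hK2
  have hK2p : 0 < K2 := Real.rpow_pos_of_pos (by positivity) _
  refine ⟨K2 * K1, θ / 2, mul_pos hK2p hK1p, by linarith, ?_⟩
  intro A f hA hm h0 hN hR J hJ
  obtain ⟨n, rfl⟩ : ∃ n, J = n + 1 := ⟨J - 1, by omega⟩
  have hN' : NN q f ≠ ⊤ := hN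
  have hPm : ∀ i ∈ Finset.range (n + 3), Measurable (PP f n i) := fun i hi =>
    (PP_mi h3 hq hs0 hA hm h0 hN' hR n i hi).1
  have hPi : ∀ i ∈ Finset.range (n + 3), Integrable (PP f n i) := fun i hi =>
    (PP_mi h3 hq hs0 hA hm h0 hN' hR n i hi).2
  have hfi : Integrable f := int_of hq hm h0 hN'
  have hsum := TT_sum q hq {t : ℝ | (2 : ℝ) ^ (n + 1) / 2 ≤ |t| ∧ |t| ≤ (2 : ℝ) ^ (n + 1)}
    (n + 3) f (PP f n) hPm hPi (fun x₁ x₂ t => EE_decomp n hm hfi hPi x₁ x₂ t)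
  set T : ℝ := (2 : ℝ) ^ (n + 1) with hTdef
  have hT1 : 1 ≤ T := one_le_pow₀ (by norm_num)
  have hT0 : 0 < T := by linarith
  have hTp : 0 < T ^ (-θ + θ / 4) := Real.rpow_pos_of_pos hT0 _
  have hpiece : ∀ i ∈ Finset.range (n + 3),
      TT q {t : ℝ | T / 2 ≤ |t| ∧ |t| ≤ T} (PP f n i) ≤
        ENNReal.ofReal (K1 * T ^ (-θ + θ / 4)) * (NN q f + ENNReal.ofReal (A ^ q)) := fun i hi =>
    piece_bd h3 hq3 hs0 hA hm h0 hN' hR hθ1 hθ2 hC hC0 (fun T hT δ hδ hδ1 f hf =>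
      hL T hT δ hδ hδ1 f hf) (fun T hT f hf => hL0 T hT f hf) n i hi
  have hfin := Finset.sum_le_card_nsmul (Finset.range (n + 3)) _ _ hpiece
  rw [Finset.card_range, nsmul_eq_mul] at hfin
  have hr3 := real3 (q := q) (ε := θ / 4) hq0 hε n
  rw [← hTdef, ← hK2] at hr3
  show TT q {t : ℝ | T / 2 ≤ |t| ∧ |t| ≤ T} f ≤ ENNReal.ofReal (K2 * K1 * T ^ (-(θ / 2))) *
    (NN q f + ENNReal.ofReal (A ^ q))
  have hcast : ((n + 3 : ℕ) : ℝ≥0∞) = ENNReal.ofReal ((n : ℝ) + 3) := by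
    rw [← ENNReal.ofReal_natCast]
    congr 1
    push_cast
    ring
  have hn3 : (0 : ℝ) < (n : ℝ) + 3 := by positivity
  calc TT q {t : ℝ | T / 2 ≤ |t| ∧ |t| ≤ T} f
      ≤ ((n + 3 : ℕ) : ℝ≥0∞) ^ (q - 1) * ∑ i ∈ Finset.range (n + 3),
          TT q {t : ℝ | T / 2 ≤ |t| ∧ |t| ≤ T} (PP f n i) := hsum
    _ ≤ ((n + 3 : ℕ) : ℝ≥0∞) ^ (q - 1) * (((n + 3 : ℕ) : ℝ≥0∞) *
          (ENNReal.ofReal (K1 * T ^ (-θ + θ / 4)) * (NN q f + ENNReal.ofReal (A ^ q)))) := by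
        gcongr
    _ = ENNReal.ofReal (((n : ℝ) + 3) ^ q * (K1 * T ^ (-θ + θ / 4))) *
          (NN q f + ENNReal.ofReal (A ^ q)) := by
        rw [hcast, ENNReal.ofReal_rpow_of_pos hn3, ← mul_assoc, ← mul_assoc,
          ← ENNReal.ofReal_mul (by positivity), ← ENNReal.ofReal_mul (by positivity)]
        congr 2
        have : ((n : ℝ) + 3) ^ q = ((n : ℝ) + 3) ^ (q - 1) * ((n : ℝ) + 3) := by
          rw [Real.rpow_sub_one hn3.ne']
          field_simp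
        rw [this]
    _ ≤ _ := by
        gcongr ENNReal.ofReal ?_ * _
        have e1 : T ^ (-(θ / 2)) = T ^ (θ / 4) * T ^ (-θ + θ / 4) := by
          rw [← Real.rpow_add hT0]
          congr 1
          ring
        rw [e1]
        calc ((n : ℝ) + 3) ^ q * (K1 * T ^ (-θ + θ / 4))
            ≤ (K2 * T ^ (θ / 4)) * (K1 * T ^ (-θ + θ / 4)) :=
              mul_le_mul_of_nonneg_right hr3 (by positivity)
          _ = _ := by ring

end Pool.Agent.H243.RL
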