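import Pool.Agent.H243.RL.Stmt4

set_option autoImplicit false

open MeasureTheory Set
open scoped ENNReal

namespace Pool.Agent.H243.RL.BVREG

/-- the integral of the oscillation of step `δ` is at most `V * δ` -/
theorem shift (g : ℝ → ℂ) (hg : Measurable g) (hsupp : ∀ y, y ∉ Icc (0 : ℝ) 1 → g y = 0) (W : ℝ≥0∞)
    (hV : eVariationOn g univ ≤ W) (δ : ℝ) (hδ : 0 < δ) (hδ1 : δ ≤ 1) :
    ∫⁻ y, ‖g (y + δ) - g y‖ₑ ≤ W * ENNReal.ofReal δ := by
  obtain ⟨N, hN⟩ := exists_nat_gt (2 / δ)
  rw [div_lt_iff₀ hδ] at hN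
  set h : ℝ → ℝ≥0∞ := fun y => ‖g (y + δ) - g y‖ₑ with hh
  have hm : Measurable h := ((hg.comp (measurable_id.add_const δ)).sub hg).enorm
  let J : Set ℝ := Ico (-1) (-1 + δ)
  have hJ : MeasurableSet J := measurableSet_Ico
  -- pointwise bound
  have h1 : ∀ y, h y ≤ ∑ n ∈ Finset.range N, J.indicator (fun x => h (x + n * δ)) (y - n * δ) := by
    intro y
    by_cases hy : y ∈ Ico (-1 : ℝ) 1 ∪ {1}
    · have hy1 : -1 ≤ y ∧ y ≤ 1 := by
        rcases hy with hy | hy
        · exact ⟨hy.1, hy.2.le⟩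
        · rw [mem_singleton_iff] at hy
          constructor <;> linarith
      have h0 : 0 ≤ (y + 1) / δ := div_nonneg (by linarith) hδ.le
      let n := ⌊(y + 1) / δ⌋₊
      have hn1 : (n : ℝ) * δ ≤ y + 1 := by
        rw [← le_div_iff₀ hδ]
        exact Nat.floor_le h0
      have hn2 : y + 1 < ((n : ℝ) + 1) * δ := by
        rw [← div_lt_iff₀ hδ]
        exact Nat.lt_floor_add_one _
      have hnN : n < N := by
        have : (n : ℝ) * δ < N * δ := by linarith
        exact_mod_cast lt_of_mul_lt_mul_right this hδ.le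
      have hmem : y - n * δ ∈ J := ⟨by linarith, by linarith⟩
      refine le_trans (le_of_eq ?_) (Finset.single_le_sum (f := fun n : ℕ =>
        J.indicator (fun x => h (x + n * δ)) (y - n * δ)) (fun _ _ => zero_le)
        (Finset.mem_range.2 hnN))
      show h y = J.indicator (fun x => h (x + n * δ)) (y - n * δ)
      rw [indicator_of_mem hmem, sub_add_cancel]
    · have h2 : y ∉ Icc (-1 : ℝ) 1 := by
        intro h3
        apply hy
        rcases lt_or_eq_of_le h3.2 with h4 | h4
        · exact Or.inl ⟨h3.1, h4⟩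
        · exact Or.inr h4
      have h3 : h y = 0 := by
        have e1 : g y = 0 := hsupp y fun h4 => h2 ⟨by linarith [h4.1], h4.2⟩
        have e2 : g (y + δ) = 0 := hsupp _ fun h4 => h2 ⟨by linarith [h4.1], by linarith [h4.2]⟩
        rw [hh]
        simp only [e1, e2, sub_zero, enorm_zero]
      rw [h3]
      exact zero_le
  calc ∫⁻ y, h y ≤ ∫⁻ y, ∑ n ∈ Finset.range N, J.indicator (fun x => h (x + n * δ)) (y - n * δ) :=
        lintegral_mono h1
    _ = ∑ n ∈ Finset.range N, ∫⁻ y, J.indicator (fun x => h (x + n * δ)) (y - n * δ) := by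
        refine lintegral_finsetSum _ fun n _ => ?_
        exact ((hm.comp (measurable_id.add_const _)).indicator hJ).comp (measurable_id.sub_const _)
    _ = ∑ n ∈ Finset.range N, ∫⁻ y, J.indicator (fun x => h (x + n * δ)) y := by
        refine Finset.sum_congr rfl fun n _ => ?_
        exact lintegral_sub_right_eq_self (fun y => J.indicator (fun x => h (x + n * δ)) y) _
    _ = ∫⁻ y, ∑ n ∈ Finset.range N, J.indicator (fun x => h (x + n * δ)) y := by
        refine (lintegral_finsetSum _ fun n _ => ?_).symm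
        exact (hm.comp (measurable_id.add_const _)).indicator hJ
    _ ≤ ∫⁻ y, J.indicator (fun _ => W) y := by
        refine lintegral_mono fun y => ?_
        by_cases hy : y ∈ J
        · simp only [indicator_of_mem hy]
          have h5 := eVariationOn.sum_le (f := g) (s := univ) (n := N)
            (u := fun n : ℕ => y + n * δ) (fun a b hab => by
              have : (a : ℝ) ≤ b := by exact_mod_cast hab
              have h6 := mul_le_mul_of_nonneg_right this hδ.le
              show y + a * δ ≤ y + b * δ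
              linarith) (fun _ => mem_univ _)
          refine le_trans (le_of_eq ?_) (h5.trans hV)
          refine Finset.sum_congr rfl fun n _ => ?_
          rw [edist_eq_enorm_sub, hh]
          show ‖g (y + n * δ + δ) - g (y + n * δ)‖ₑ = _
          congr 3
          push_cast
          ring
        · simp only [indicator_of_notMem hy, Finset.sum_const_zero, le_refl]
    _ = W * ENNReal.ofReal δ := by
        rw [lintegral_indicator hJ, setLIntegral_const, Real.volume_Ico]
        congr 2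
        ring

/-- the values are at most the variation -/
theorem bound (g : ℝ → ℂ) (hsupp : ∀ y, y ∉ Icc (0 : ℝ) 1 → g y = 0) (W : ℝ≥0∞)
    (hV : eVariationOn g univ ≤ W) (y : ℝ) : ‖g y‖ₑ ≤ W := by
  have h1 := eVariationOn.edist_le g (mem_univ y) (mem_univ (2 : ℝ))
  rw [hsupp 2 (fun h => by linarith [h.2]), edist_zero_right] at h1
  exact h1.trans hV

/-- an integral over the unit interval -/
theorem outer (F : ℝ → ℝ≥0∞) (K : ℝ≥0∞) (h1 : ∀ y, F y ≤ K) (h0 : ∀ y, y ∉ Icc (0 : ℝ) 1 → F y = 0) :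
    ∫⁻ y, F y ≤ K := by
  calc ∫⁻ y, F y ≤ ∫⁻ y, (Icc (0 : ℝ) 1).indicator (fun _ => K) y := by
        refine lintegral_mono fun y => ?_
        by_cases hy : y ∈ Icc (0 : ℝ) 1
        · rw [indicator_of_mem hy]
          exact h1 y
        · rw [h0 y hy]
          exact zero_le
    _ = K := by
        rw [lintegral_indicator measurableSet_Icc, setLIntegral_const, Real.volume_Icc, sub_zero,
          ENNReal.ofReal_one, mul_one]

end Pool.Agent.H243.RL.BVREG

namespace Pool.Agent.H243.RL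

open BVREG

theorem t_BVREG : S_BVREG := by
  intro q hq V f hV hf hsupp hvar
  have hq0 : 0 < q := by linarith
  have hg : ∀ y₁ : ℝ, Measurable fun y₂ : ℝ => f (y₁, y₂) := fun y₁ =>
    hf.comp (measurable_const.prodMk measurable_id)
  have hs : ∀ y₁ y₂ : ℝ, y₂ ∉ Icc (0 : ℝ) 1 → f (y₁, y₂) = 0 := fun y₁ y₂ h =>
    hsupp _ fun h' => h h'.2
  have hs' : ∀ y₁ y₂ : ℝ, y₁ ∉ Icc (0 : ℝ) 1 → f (y₁, y₂) = 0 := fun y₁ y₂ h =>
    hsupp _ fun h' => h h'.1
  constructor
  · intro δ hδ hδ1
    refine outer _ _ (fun y₁ => ?_) (fun y₁ hy => ?_)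
    · have h1 := shift (fun y₂ => f (y₁, y₂)) (hg y₁) (hs y₁) _ (hvar y₁) δ hδ hδ1
      have h2 : ∀ y₂, ‖f (y₁, y₂ + δ) - f (y₁, y₂)‖ₑ ≤ ENNReal.ofReal V := by
        intro y₂
        have h3 := eVariationOn.edist_le (fun y₂ => f (y₁, y₂)) (mem_univ (y₂ + δ)) (mem_univ y₂)
        rw [edist_eq_enorm_sub] at h3
        exact h3.trans (hvar y₁)
      calc ∫⁻ y₂, ‖f (y₁, y₂ + δ) - f (y₁, y₂)‖ₑ ^ q
          ≤ ∫⁻ y₂, ENNReal.ofReal V ^ (q - 1) * ‖f (y₁, y₂ + δ) - f (y₁, y₂)‖ₑ := by
            refine lintegral_mono fun y₂ => ?_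
            have h4 : q = (q - 1) + 1 := by ring
            show ‖f (y₁, y₂ + δ) - f (y₁, y₂)‖ₑ ^ q ≤ _
            conv_lhs => rw [h4]
            rw [ENNReal.rpow_add_of_nonneg _ _ (by linarith) zero_le_one, ENNReal.rpow_one]
            exact mul_le_mul_left (ENNReal.rpow_le_rpow (h2 y₂) (by linarith)) _
        _ = ENNReal.ofReal V ^ (q - 1) * ∫⁻ y₂, ‖f (y₁, y₂ + δ) - f (y₁, y₂)‖ₑ := by
            refine lintegral_const_mul _ ?_
            exact (((hg y₁).comp (measurable_id.add_const δ)).sub (hg y₁)).enorm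
        _ ≤ ENNReal.ofReal V ^ (q - 1) * (ENNReal.ofReal V * ENNReal.ofReal δ) := by
            gcongr
        _ = ENNReal.ofReal ((V * δ ^ (1 / q)) ^ q) := by
            rw [Real.mul_rpow hV (Real.rpow_nonneg hδ.le _), ← Real.rpow_mul hδ.le,
              one_div_mul_cancel hq0.ne', Real.rpow_one, ENNReal.ofReal_mul (Real.rpow_nonneg hV _),
              ← mul_assoc, ← ENNReal.ofReal_rpow_of_nonneg hV hq0.le]
            congr 1
            have h5 : ENNReal.ofReal V ^ (q - 1) * ENNReal.ofReal V ^ (1 : ℝ) =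
                ENNReal.ofReal V ^ ((q - 1) + 1) :=
              (ENNReal.rpow_add_of_nonneg _ _ (by linarith) zero_le_one).symm
            rw [ENNReal.rpow_one, sub_add_cancel] at h5
            exact h5
    · have h6 : ∀ y₂, ‖f (y₁, y₂ + δ) - f (y₁, y₂)‖ₑ ^ q = 0 := by
        intro y₂
        rw [hs' y₁ _ hy, hs' y₁ _ hy, sub_zero, enorm_zero, ENNReal.zero_rpow_of_pos hq0]
      simp only [h6, lintegral_zero]
  · refine outer _ _ (fun y₁ => ?_) (fun y₁ hy => ?_)
    · refine outer _ _ (fun y₂ => ?_) (fun y₂ hy => ?_)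
      · rw [← ENNReal.ofReal_rpow_of_nonneg hV hq0.le]
        exact ENNReal.rpow_le_rpow (bound (fun y₂ => f (y₁, y₂)) (hs y₁) _ (hvar y₁) y₂) hq0.le
      · rw [hs y₁ y₂ hy, enorm_zero, ENNReal.zero_rpow_of_pos hq0]
    · have h6 : ∀ y₂, ‖f (y₁, y₂)‖ₑ ^ q = 0 := by
        intro y₂
        rw [hs' y₁ _ hy, enorm_zero, ENNReal.zero_rpow_of_pos hq0]
      simp only [h6, lintegral_zero]

end Pool.Agent.H243.RL
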