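import Mathlib
set_option autoImplicit false

/-! Functions with thin spectrum in one variable: statements of the steps. -/

open MeasureTheory Set
open scoped ENNReal

namespace Pool.Agent.H243.RL

/-- the phase of the parabola -/
noncomputable def ph (x t y : ℝ) : ℂ := Complex.exp (-((x * y + t * y ^ 2 : ℝ) : ℂ) * Complex.I)

/-- the extension operator of the parabola -/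
noncomputable def W (h : ℝ → ℂ) (x t : ℝ) : ℂ := ∫ y, ph x t y * h y

/-- the character of frequency `k` -/
noncomputable def ek (k : ℤ) (y : ℝ) : ℂ := Complex.exp (((2 * Real.pi * k * y : ℝ) : ℂ) * Complex.I)

/-- the hypothesis on the spectrum -/
def Lam (q a B : ℝ) (L : Set ℤ) : Prop :=
  ∀ (m : ℤ) (N : ℕ), 1 ≤ N → ∀ (S : Finset ℤ) (c : ℤ → ℂ),
    (∀ k ∈ S, k ∈ L ∧ m ≤ k ∧ k < m + N) →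
    ∫⁻ v in Icc (0 : ℝ) 1, ‖∑ k ∈ S, c k * ek k v‖ₑ ^ q ≤
      ENNReal.ofReal ((B * (N : ℝ) ^ a) ^ q) * (∑ k ∈ S, ‖c k‖ₑ ^ 2) ^ (q / 2)

/-- Plancherel's theorem (known, may be assumed) -/
def S_PL : Prop := ∀ (h : ℝ → ℂ), Integrable h → MemLp h 2 →
  ∫⁻ z : ℝ, ‖∫ t, Complex.exp (-((z * t : ℝ) : ℂ) * Complex.I) * h t‖ₑ ^ 2 =
    ENNReal.ofReal (2 * Real.pi) * ∫⁻ t, ‖h t‖ₑ ^ 2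

/-- Plancherel for the square, at a fixed time -/
def S_FOURFIX : Prop := ∀ (g : ℝ → ℂ), Measurable g → (∃ B : ℝ, ∀ y, ‖g y‖ ≤ B) →
  (∀ y, y ∉ Icc (0 : ℝ) 1 → g y = 0) → ∀ t : ℝ,
  ∫⁻ x, ‖W g x t‖ₑ ^ 4 ≤ ENNReal.ofReal (2 * Real.pi) *
    ∫⁻ s, ‖∫ u, g (s / 2 + u) * g (s / 2 - u) *
      Complex.exp (-((2 * t * u ^ 2 : ℝ) : ℂ) * Complex.I)‖ₑ ^ 2

/-- Plancherel in time, with the singularity at `u = 0` -/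
def S_TIME : Prop := ∃ C : ℝ, 0 < C ∧ ∀ T : ℝ, 1 ≤ T → ∀ G : ℝ → ℂ, Measurable G →
  (∃ B : ℝ, ∀ u, ‖G u‖ ≤ B) → (∀ u, u ∉ Icc (-1 : ℝ) 1 → G u = 0) →
  ∫⁻ t in Icc (-T) T, ‖∫ u, G u * Complex.exp (-((2 * t * u ^ 2 : ℝ) : ℂ) * Complex.I)‖ₑ ^ 2 ≤
    ENNReal.ofReal C * ∫⁻ u, ENNReal.ofReal ((|u| + 1 / T)⁻¹) * ‖G u‖ₑ ^ 2

/-- Schur's test -/
def S_SCHUR : Prop := ∃ C : ℝ, 0 < C ∧ ∀ T : ℝ, 1 ≤ T → ∀ g : ℝ → ℝ≥0∞, Measurable g →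
  (∀ y, y ∉ Icc (0 : ℝ) 1 → g y = 0) →
  ∫⁻ s, ∫⁻ u, ENNReal.ofReal ((|u| + 1 / T)⁻¹) * (g (s / 2 + u) * g (s / 2 - u)) ^ 2 ≤
    ENNReal.ofReal (C * (1 + Real.log T)) * ∫⁻ y, g y ^ 4

/-- the two bounds which are interpolated -/
def S_TWO : Prop := ∀ (g : ℝ → ℂ), Measurable g → (∃ B : ℝ, ∀ y, ‖g y‖ ≤ B) →
  (∀ y, y ∉ Icc (0 : ℝ) 1 → g y = 0) → ∀ t : ℝ,
  ∫⁻ x, ‖W g x t‖ₑ ^ 2 ≤ ENNReal.ofReal (2 * Real.pi) * ∫⁻ y, ‖g y‖ₑ ^ 2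

def S_FOUR : Prop := ∃ C : ℝ, 0 < C ∧ ∀ T : ℝ, 1 ≤ T → ∀ g : ℝ → ℂ, Measurable g →
  (∃ B : ℝ, ∀ y, ‖g y‖ ≤ B) → (∀ y, y ∉ Icc (0 : ℝ) 1 → g y = 0) →
  ∫⁻ t in Icc (-T) T, ∫⁻ x, ‖W g x t‖ₑ ^ 4 ≤
    ENNReal.ofReal (C * (1 + Real.log T)) * ∫⁻ y, ‖g y‖ₑ ^ 4

/-- the local planar estimate -/
def S_PLANAR : Prop := ∀ q ε : ℝ, 2 < q → q < 4 → 0 < ε → ∃ C : ℝ, 0 < C ∧ ∀ T : ℝ, 1 ≤ T →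
  ∀ g : ℝ → ℂ, Measurable g → (∀ y, y ∉ Icc (0 : ℝ) 1 → g y = 0) →
  ∫⁻ t in Icc (-T) T, ∫⁻ x, ‖W g x t‖ₑ ^ q ≤
    ENNReal.ofReal (C * T ^ (2 - q / 2 + ε)) * ∫⁻ y, ‖g y‖ₑ ^ q

/-- multipliers with integrable Fourier transform -/
def S_MULT : Prop := ∀ q : ℝ, 1 ≤ q → ∀ (h ν : ℝ → ℂ), Integrable h → Integrable ν → ∀ t : ℝ,
  ∫⁻ x, ‖W (fun y => (∫ s, Complex.exp (((s * y : ℝ) : ℂ) * Complex.I) * ν s) * h y) x t‖ₑ ^ q ≤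
    (∫⁻ s, ‖ν s‖ₑ) ^ q * ∫⁻ x, ‖W h x t‖ₑ ^ q

/-- the inverse of the Gaussian on `[0,1]` -/
def S_GINV : Prop := ∃ ν : ℝ → ℂ, Integrable ν ∧ ∀ y ∈ Icc (0 : ℝ) 1,
  ∫ s, Complex.exp (((s * y : ℝ) : ℂ) * Complex.I) * ν s = (Real.exp (y ^ 2) : ℂ)

/-- the trapezoid -/
def S_TRAP : Prop := ∃ C : ℝ, 0 < C ∧ ∀ δ : ℝ, 0 < δ → δ < 1 / 2 →
  ∃ (χ : ℝ → ℝ) (ν : ℝ → ℂ), Measurable χ ∧ (∀ y, 0 ≤ χ y ∧ χ y ≤ 1) ∧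
    (∀ y ∈ Icc δ (1 - δ), χ y = 1) ∧ (∀ y, y ∉ Icc (0 : ℝ) 1 → χ y = 0) ∧ Integrable ν ∧
    ∫⁻ s, ‖ν s‖ₑ ≤ ENNReal.ofReal (C * (1 + Real.log (1 / δ))) ∧
    ∀ y, ∫ s, Complex.exp (((s * y : ℝ) : ℂ) * Complex.I) * ν s = (χ y : ℂ)

/-- the Gaussian integral -/
def S_GAUSS : Prop := ∀ (t : ℝ), t ≠ 0 → ∀ (S : Finset ℤ) (c : ℤ → ℂ), ∃ c' : ℤ → ℂ,
  (∀ k, ‖c' k‖ = ‖c k‖) ∧ ∀ v : ℝ,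
    ‖W (fun y => (∑ k ∈ S, c k * ek k y) * (Real.exp (-y ^ 2) : ℂ))
      (2 * v * (1 + t ^ 2) / t) t‖ =
    Real.sqrt (Real.pi / Real.sqrt (1 + t ^ 2)) *
      ‖∑ k ∈ S, c' k * ek k (-v) *
        (Real.exp (-((1 + t ^ 2) / t ^ 2 * (v - Real.pi * t / (1 + t ^ 2) * k) ^ 2)) : ℂ)‖

/-- one block of frequencies on one interval -/
def S_BLK : Prop := ∀ (q D M : ℝ), 1 ≤ q → 0 ≤ D → 0 ≤ M → ∀ (S : Finset ℤ),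
  (∀ c : ℤ → ℂ, ∫⁻ v in Icc (0 : ℝ) 1, ‖∑ k ∈ S, c k * ek k v‖ₑ ^ q ≤
    ENNReal.ofReal D * (∑ k ∈ S, ‖c k‖ₑ ^ 2) ^ (q / 2)) →
  ∀ (κ : ℝ) (j : ℤ) (φ φ' : ℝ → ℝ), (∀ u, HasDerivAt φ (φ' u) u) → Continuous φ' →
  (∀ s ∈ Icc (j : ℝ) (j + 1), ∀ k ∈ S, |φ (s - κ * k)| ≤ M ∧ |φ' (s - κ * k)| ≤ M) →
  ∀ c : ℤ → ℂ, ∫⁻ v in Icc (j : ℝ) (j + 1), ‖∑ k ∈ S, c k * ek k (-v) * (φ (v - κ * k) : ℂ)‖ₑ ^ q ≤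
    ENNReal.ofReal (2 ^ q * D * M ^ q) * (∑ k ∈ S, ‖c k‖ₑ ^ 2) ^ (q / 2)

/-- all blocks -/
def S_SUM : Prop := ∀ q : ℝ, 2 ≤ q → ∃ K : ℝ, 0 < K ∧ ∀ (a B : ℝ) (L : Set ℤ), 0 ≤ a → 0 ≤ B →
  Lam q a B L → ∀ (α κ : ℝ), 1 ≤ α → α ≤ 2 → κ ≠ 0 → |κ| ≤ 2 → ∀ (S : Finset ℤ) (c : ℤ → ℂ),
  (∀ k ∈ S, k ∈ L) →
  ∫⁻ v, ‖∑ k ∈ S, c k * ek k (-v) * (Real.exp (-(α * (v - κ * k) ^ 2)) : ℂ)‖ₑ ^ q ≤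
    ENNReal.ofReal (K * (B * (3 / |κ|) ^ a) ^ q) * (∑ k ∈ S, ‖c k‖ₑ ^ 2) ^ (q / 2)

/-- from trigonometric polynomials to square integrable functions, at a fixed time -/
def S_DENS : Prop := ∀ (q : ℝ) (K : ℝ≥0∞) (L : Set ℤ) (t : ℝ), 0 < q → K ≠ ∞ →
  (∀ (S : Finset ℤ) (c : ℤ → ℂ), (∀ k ∈ S, k ∈ L) →
    ∫⁻ x, ‖W (fun y => (∑ k ∈ S, c k * ek k y) * (Real.exp (-y ^ 2) : ℂ)) x t‖ₑ ^ q ≤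
      K * (∑ k ∈ S, ‖c k‖ₑ ^ 2) ^ (q / 2)) →
  ∀ g : ℝ → ℂ, Measurable g → ∫⁻ y in Icc (0 : ℝ) 1, ‖g y‖ₑ ^ 2 ≠ ∞ →
  (∀ k : ℤ, k ∉ L → ∫ y in Icc (0 : ℝ) 1, ek (-k) y * g y = 0) →
  ∫⁻ x, ‖W (fun y => g (Int.fract y) * (Real.exp (-y ^ 2) : ℂ)) x t‖ₑ ^ q ≤
    K * (∫⁻ y in Icc (0 : ℝ) 1, ‖g y‖ₑ ^ 2) ^ (q / 2)

/-- the trivial bound at a fixed time -/
def S_TRIV : Prop := ∀ q : ℝ, 2 ≤ q → ∀ (h : ℝ → ℂ), Measurable h → Integrable h → MemLp h 2 →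
  ∀ t : ℝ, ∫⁻ x, ‖W h x t‖ₑ ^ q ≤
    ENNReal.ofReal (2 * Real.pi) * (∫⁻ y, ‖h y‖ₑ) ^ (q - 2) * ∫⁻ y, ‖h y‖ₑ ^ 2

/-- the Gaussian bound for square integrable functions -/
def S_FIXG : Prop := ∀ q : ℝ, 2 ≤ q → ∃ K : ℝ, 0 < K ∧ ∀ (a B : ℝ) (L : Set ℤ), 0 ≤ a → 0 ≤ B →
  Lam q a B L → ∀ t : ℝ, 1 ≤ |t| → ∀ g : ℝ → ℂ, Measurable g →
  ∫⁻ y in Icc (0 : ℝ) 1, ‖g y‖ₑ ^ 2 ≠ ∞ →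
  (∀ k : ℤ, k ∉ L → ∫ y in Icc (0 : ℝ) 1, ek (-k) y * g y = 0) →
  ∫⁻ x, ‖W (fun y => g (Int.fract y) * (Real.exp (-y ^ 2) : ℂ)) x t‖ₑ ^ q ≤
    ENNReal.ofReal (K * (B * (2 * |t|) ^ a) ^ q * |t| ^ (1 - q / 2)) *
      (∫⁻ y in Icc (0 : ℝ) 1, ‖g y‖ₑ ^ 2) ^ (q / 2)

/-- the sharp bound at a fixed time -/
def S_FIX : Prop := ∀ q ε : ℝ, 2 < q → 0 < ε → ∃ K : ℝ, 0 < K ∧ ∀ (a B : ℝ) (L : Set ℤ), 0 ≤ a →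
  1 ≤ B → Lam q a B L → ∀ t : ℝ, ∀ g : ℝ → ℂ, Measurable g →
  (∀ y, y ∉ Icc (0 : ℝ) 1 → g y = 0) → ∫⁻ y, ‖g y‖ₑ ^ 2 ≠ ∞ →
  (∀ k : ℤ, k ∉ L → ∫ y in Icc (0 : ℝ) 1, ek (-k) y * g y = 0) →
  ∫⁻ x, ‖W g x t‖ₑ ^ q ≤
    ENNReal.ofReal (K * B ^ q * (2 * (1 + |t|)) ^ (1 - q / 2 + q * a + ε)) *
      (∫⁻ y, ‖g y‖ₑ ^ 2) ^ (q / 2)

/-- the theorem for the unit square, in coordinates -/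
def S_BASE : Prop := ∀ q a : ℝ, 3 < q → q < 4 → 0 ≤ a → a < 1 - 3 / q → ∃ K : ℝ, 0 < K ∧
  ∀ (B : ℝ) (L : Set ℤ), 1 ≤ B → Lam q a B L → ∀ f : ℝ × ℝ → ℂ, Measurable f →
  (∀ y : ℝ × ℝ, y ∉ Icc (0 : ℝ) 1 ×ˢ Icc (0 : ℝ) 1 → f y = 0) →
  (∀ k : ℤ, k ∉ L → ∀ᵐ y₁ : ℝ, ∫ y₂ in Icc (0 : ℝ) 1, ek (-k) y₂ * f (y₁, y₂) = 0) →
  ∫⁻ t, ∫⁻ x₁, ∫⁻ x₂, ‖∫ y₁, ∫ y₂, ph x₁ t y₁ * (ph x₂ t y₂ * f (y₁, y₂))‖ₑ ^ q ≤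
    ENNReal.ofReal (K * B ^ q) * ∫⁻ y₁, ∫⁻ y₂, ‖f (y₁, y₂)‖ₑ ^ q

end Pool.Agent.H243.RL
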