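import Mathlib
import Pool.Agent.H243.RL.Stmt
set_option autoImplicit false

/-! Thin spectrum in all variables but one, all dimensions: statements of the steps. -/

open MeasureTheory Set
open scoped ENNReal

namespace Pool.Agent.H243.RL

/-- the extension operator in dimension `m + 1`, the first variable is separated -/
noncomputable def EN {m : ℕ} (f : ℝ × (Fin m → ℝ) → ℂ) (x₁ : ℝ) (x' : Fin m → ℝ) (t : ℝ) : ℂ :=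
  ∫ y₁ : ℝ, ∫ y' : Fin m → ℝ, ph x₁ t y₁ * ((∏ j, ph (x' j) t (y' j)) * f (y₁, y'))

/-- the functions on the unit cube with spectrum in `L j` in the variable `y' j` -/
structure Spec {m : ℕ} (L : Fin m → Set ℤ) (f : ℝ × (Fin m → ℝ) → ℂ) : Prop where
  meas : Measurable f
  supp : ∀ (y₁ : ℝ) (y' : Fin m → ℝ), (y₁ ∉ Icc (0 : ℝ) 1 ∨ ∃ j, y' j ∉ Icc (0 : ℝ) 1) → f (y₁, y') = 0
  spec : ∀ (j : Fin m) (k : ℤ), k ∉ L j → ∀ᵐ p : ℝ × (Fin m → ℝ),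
    ∫ s in Icc (0 : ℝ) 1, ek (-k) s * f (p.1, Function.update p.2 j s) = 0

/-- the bound at a fixed time, in all the variables of `y'` -/
def S_ITER : Prop := ∀ (m : ℕ) (q ε : ℝ), 2 < q → 0 < ε → ∃ K : ℝ, 0 < K ∧
  ∀ (a B : ℝ) (L : Fin m → Set ℤ), 0 ≤ a → 1 ≤ B → (∀ j, Lam q a B (L j)) →
  ∀ f : ℝ × (Fin m → ℝ) → ℂ, Spec L f → ∫⁻ y₁ : ℝ, ∫⁻ y' : Fin m → ℝ, ‖f (y₁, y')‖ₑ ^ q ≠ ∞ →
  ∀ t : ℝ, ∫⁻ x₁ : ℝ, ∫⁻ x' : Fin m → ℝ, ‖EN f x₁ x' t‖ₑ ^ q ≤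
    ENNReal.ofReal (K * (B ^ q) ^ m * ((2 * (1 + |t|)) ^ (1 - q / 2 + q * a + ε)) ^ m) *
      ∫⁻ x₁ : ℝ, ∫⁻ y' : Fin m → ℝ, ‖W (fun y₁ => f (y₁, y')) x₁ t‖ₑ ^ q

/-- the theorem for the unit cube of dimension `m + 1` -/
def S_BASEN : Prop := ∀ (m : ℕ) (q a : ℝ), 1 ≤ m → 2 < q → q < 4 → 0 ≤ a →
  (m : ℝ) * a < ((m : ℝ) + 1) / 2 - ((m : ℝ) + 2) / q → ∃ K : ℝ, 0 < K ∧
  ∀ (B : ℝ) (L : Fin m → Set ℤ), 1 ≤ B → (∀ j, Lam q a B (L j)) →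
  ∀ f : ℝ × (Fin m → ℝ) → ℂ, Spec L f →
  ∫⁻ t : ℝ, ∫⁻ x₁ : ℝ, ∫⁻ x' : Fin m → ℝ, ‖EN f x₁ x' t‖ₑ ^ q ≤
    ENNReal.ofReal (K * (B ^ q) ^ m) * ∫⁻ y₁ : ℝ, ∫⁻ y' : Fin m → ℝ, ‖f (y₁, y')‖ₑ ^ q

/-- The extension operator of the truncated paraboloid in `ℝ^(n+1)`:
`Ef(x,t) = ∫_{[-1,1]^n} exp(2πi(ξ·x + |ξ|² t)) f(ξ) dξ`. -/
noncomputable def extN {n : ℕ} (f : (Fin n → ℝ) → ℂ) (y : (Fin n → ℝ) × ℝ) : ℂ :=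
  ∫ ξ in Icc (-1 : Fin n → ℝ) 1,
    Complex.exp (2 * Real.pi * Complex.I * ((∑ j, ξ j * y.1 j + (∑ j, ξ j ^ 2) * y.2 : ℝ) : ℂ)) * f ξ

/-- the function `f` on `[-1,1]^(m+1)` in the coordinates of the unit cube -/
noncomputable def cube {m : ℕ} (i : Fin (m + 1)) (f : (Fin (m + 1) → ℝ) → ℂ)
    (p : ℝ × (Fin m → ℝ)) : ℂ :=
  (Icc (-1 : Fin (m + 1) → ℝ) 1).indicator f
    (fun j => 2 * (i.insertNth (α := fun _ => ℝ) p.1 p.2) j - 1)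

/-- change of variables between the two operators -/
def S_TRN : Prop := ∀ (m : ℕ) (q : ℝ), 1 ≤ q → ∃ K : ℝ, 0 < K ∧ ∀ (i : Fin (m + 1))
  (f : (Fin (m + 1) → ℝ) → ℂ), Measurable f → (∃ A : ℝ, ∀ ξ, ‖f ξ‖ ≤ A) →
  ∫⁻ y : (Fin (m + 1) → ℝ) × ℝ, ‖extN f y‖ₑ ^ q ≤ ENNReal.ofReal K *
    ∫⁻ t : ℝ, ∫⁻ x₁ : ℝ, ∫⁻ x' : Fin m → ℝ, ‖EN (cube i f) x₁ x' t‖ₑ ^ q

end Pool.Agent.H243.RL
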