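import Mathlib
import Pool.Agent.H243.RL.Stmt6
set_option autoImplicit false

/-! From the cube `[-1,1]^n` to the unit cube. -/

open MeasureTheory Set
open scoped ENNReal

namespace Pool.Agent.H243.RL

variable {m : ℕ}

/-- the affine map from the unit cube to `[-1,1]^n` -/
noncomputable def aff (i : Fin (m + 1)) (p : ℝ × (Fin m → ℝ)) : Fin (m + 1) → ℝ :=
  fun j => 2 * (i.insertNth (α := fun _ => ℝ) p.1 p.2) j - 1

theorem aff_self (i : Fin (m + 1)) (p : ℝ × (Fin m → ℝ)) : aff i p i = 2 * p.1 - 1 := by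
  unfold aff
  rw [Fin.insertNth_apply_same]

theorem aff_succ (i : Fin (m + 1)) (p : ℝ × (Fin m → ℝ)) (j : Fin m) :
    aff i p (i.succAbove j) = 2 * p.2 j - 1 := by
  unfold aff
  rw [Fin.insertNth_apply_succAbove]

theorem ins_mp (i : Fin (m + 1)) : MeasurePreserving
    (fun p : ℝ × (Fin m → ℝ) => (i.insertNth (α := fun _ => ℝ) p.1 p.2 : Fin (m + 1) → ℝ))
    volume volume :=
  (volume_preserving_piFinSuccAbove (fun _ : Fin (m + 1) => ℝ) i).symm

theorem aff_meas (i : Fin (m + 1)) : Measurable (aff (m := m) i) := by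
  have h := (ins_mp (m := m) i).measurable
  rw [measurable_pi_iff] at h ⊢
  intro j
  exact ((h j).const_mul 2).sub_const 1

/-- the integral in the coordinates of the unit cube -/
theorem aff_lint (i : Fin (m + 1)) {F : (Fin (m + 1) → ℝ) → ℝ≥0∞} (hF : Measurable F) :
    ∫⁻ p, F (aff i p) ≤ ∫⁻ ξ, F ξ := by
  have hF1 : Measurable fun ξ : Fin (m + 1) → ℝ => F (fun j => 2 * ξ j - 1) := by
    apply hF.comp
    rw [measurable_pi_iff]
    intro j
    exact ((measurable_pi_apply j).const_mul 2).sub_const 1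
  have h1 := (ins_mp (m := m) i).lintegral_comp hF1
  have h2 : ∫⁻ p, F (aff i p) = ∫⁻ ξ : Fin (m + 1) → ℝ, F (fun j => 2 * ξ j - 1) := h1
  rw [h2]
  have h3 : ∫⁻ ξ : Fin (m + 1) → ℝ, F (fun j => 2 * ξ j - 1) =
      ∫⁻ ξ : Fin (m + 1) → ℝ, F ((2 : ℝ) • ξ - (fun _ => (1 : ℝ))) := by
    refine lintegral_congr fun ξ => ?_
    congr 1
  rw [h3]
  have h4 : Measurable fun ξ : Fin (m + 1) → ℝ => F (ξ - fun _ => (1 : ℝ)) :=
    hF.comp (measurable_id.sub_const _)
  have h5 : ∫⁻ ξ : Fin (m + 1) → ℝ, F ((2 : ℝ) • ξ - (fun _ => (1 : ℝ))) =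
      ENNReal.ofReal |((2 : ℝ) ^ (m + 1))⁻¹| * ∫⁻ ξ : Fin (m + 1) → ℝ, F (ξ - fun _ => (1 : ℝ)) := by
    have k1 := Measure.map_addHaar_smul (volume : Measure (Fin (m + 1) → ℝ)) (r := (2 : ℝ)) (by norm_num)
    have k2 : ∫⁻ ξ : Fin (m + 1) → ℝ, F ((2 : ℝ) • ξ - (fun _ => (1 : ℝ))) =
        ∫⁻ ξ : Fin (m + 1) → ℝ, F (ξ - fun _ => (1 : ℝ))
          ∂(Measure.map (fun x : Fin (m + 1) → ℝ => (2 : ℝ) • x) volume) := by
      rw [lintegral_map h4 (measurable_const_smul _)]
    rw [k2, k1, lintegral_smul_measure, Module.finrank_fin_fun]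
    rfl
  rw [h5, lintegral_sub_right_eq_self F]
  calc ENNReal.ofReal |((2 : ℝ) ^ (m + 1))⁻¹| * ∫⁻ ξ, F ξ ≤ 1 * ∫⁻ ξ, F ξ := by
        refine mul_le_mul' ?_ le_rfl
        rw [← ENNReal.ofReal_one]
        apply ENNReal.ofReal_le_ofReal
        rw [abs_of_pos (by positivity)]
        exact inv_le_one_of_one_le₀ (one_le_pow₀ (by norm_num))
    _ = _ := one_mul _

theorem cube_eq (i : Fin (m + 1)) (f : (Fin (m + 1) → ℝ) → ℂ) (p : ℝ × (Fin m → ℝ)) :
    cube i f p = (Icc (-1 : Fin (m + 1) → ℝ) 1).indicator f (aff i p) := rfl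

theorem cube_lint (i : Fin (m + 1)) {f : (Fin (m + 1) → ℝ) → ℂ} (hf : Measurable f) {q : ℝ}
    (hq : 0 < q) : ∫⁻ y₁ : ℝ, ∫⁻ y' : Fin m → ℝ, ‖cube i f (y₁, y')‖ₑ ^ q ≤
      ∫⁻ ξ in Icc (-1 : Fin (m + 1) → ℝ) 1, ‖f ξ‖ₑ ^ q := by
  have hi : Measurable ((Icc (-1 : Fin (m + 1) → ℝ) 1).indicator f) := hf.indicator measurableSet_Icc
  have hm : Measurable fun p : ℝ × (Fin m → ℝ) => ‖cube i f p‖ₑ ^ q :=
    ((hi.comp (aff_meas i)).enorm).pow_const q
  have h1 : ∫⁻ y₁ : ℝ, ∫⁻ y' : Fin m → ℝ, ‖cube i f (y₁, y')‖ₑ ^ q =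
      ∫⁻ p : ℝ × (Fin m → ℝ), ‖cube i f p‖ₑ ^ q := by
    rw [Measure.volume_eq_prod, lintegral_prod _ hm.aemeasurable]
  rw [h1, ← lintegral_indicator measurableSet_Icc]
  refine (aff_lint i (F := fun ξ => ‖(Icc (-1 : Fin (m + 1) → ℝ) 1).indicator f ξ‖ₑ ^ q)
    (hi.enorm.pow_const q)).trans (le_of_eq ?_)
  refine lintegral_congr fun ξ => ?_
  by_cases hξ : ξ ∈ Icc (-1 : Fin (m + 1) → ℝ) 1
  · rw [indicator_of_mem hξ, indicator_of_mem hξ]
  · rw [indicator_of_notMem hξ, indicator_of_notMem hξ, enorm_zero, ENNReal.zero_rpow_of_pos hq]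

theorem aff_qmp (i : Fin (m + 1)) : Measure.QuasiMeasurePreserving (aff (m := m) i) volume volume := by
  refine ⟨aff_meas i, ?_⟩
  intro s hs
  have hs' : volume (toMeasurable volume s) = 0 := by rwa [measure_toMeasurable]
  rw [← nonpos_iff_eq_zero]
  calc Measure.map (aff i) volume s ≤ Measure.map (aff i) volume (toMeasurable volume s) :=
        measure_mono (subset_toMeasurable _ _)
    _ = volume (aff i ⁻¹' (toMeasurable volume s)) :=
        Measure.map_apply (aff_meas i) (measurableSet_toMeasurable _ _)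
    _ = ∫⁻ p, (toMeasurable volume s).indicator (fun _ => (1 : ℝ≥0∞)) (aff i p) := by
        rw [← lintegral_indicator_one ((aff_meas i) (measurableSet_toMeasurable _ _))]
        rfl
    _ ≤ ∫⁻ ξ, (toMeasurable volume s).indicator (fun _ => (1 : ℝ≥0∞)) ξ :=
        aff_lint i (measurable_const.indicator (measurableSet_toMeasurable _ _))
    _ = 0 := by
        rw [lintegral_indicator (measurableSet_toMeasurable _ _), setLIntegral_one, hs']

theorem cube_spec (i : Fin (m + 1)) {f : (Fin (m + 1) → ℝ) → ℂ} (hf : Measurable f)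
    {L : Fin (m + 1) → Set ℤ}
    (hs : ∀ j, j ≠ i → ∀ k : ℤ, k ∉ L j → ∀ᵐ ξ : Fin (m + 1) → ℝ,
      ∫ s in Icc (-1 : ℝ) 1, ek (-k) (s / 2) * f (Function.update ξ j s) = 0) :
    Spec (fun j => L (i.succAbove j)) (cube i f) := by
  have hi : Measurable ((Icc (-1 : Fin (m + 1) → ℝ) 1).indicator f) := hf.indicator measurableSet_Icc
  refine ⟨hi.comp (aff_meas i), ?_, ?_⟩
  · intro y₁ y' hy
    rw [cube_eq]
    apply indicator_of_notMem
    intro hmem
    rw [mem_Icc] at hmem
    obtain ⟨h1, h2⟩ := hmem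
    rcases hy with hy | ⟨j, hy⟩
    · apply hy
      have k1 := h1 i
      have k2 := h2 i
      rw [aff_self] at k1 k2
      simp only [Pi.neg_apply, Pi.one_apply] at k1 k2
      constructor <;> linarith
    · apply hy
      have k1 := h1 (i.succAbove j)
      have k2 := h2 (i.succAbove j)
      rw [aff_succ] at k1 k2
      simp only [Pi.neg_apply, Pi.one_apply] at k1 k2
      constructor <;> linarith
  · intro j k hk
    have h1 := (aff_qmp i).ae (hs (i.succAbove j) (Fin.succAbove_ne i j) k hk)
    filter_upwards [h1] with p hp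
    have e1 : ∀ s : ℝ, aff i (p.1, Function.update p.2 j s) =
        Function.update (aff i p) (i.succAbove j) (2 * s - 1) := by
      intro s
      funext l
      rcases Fin.eq_self_or_eq_succAbove i l with rfl | ⟨l', rfl⟩
      · rw [aff_self, Function.update_of_ne (Fin.succAbove_ne _ _).symm, aff_self]
      · rw [aff_succ]
        simp only
        by_cases hl : l' = j
        · subst hl
          rw [Function.update_self, Function.update_self]
        · rw [Function.update_of_ne hl, Function.update_of_ne (by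
            intro h
            exact hl (Fin.succAbove_right_injective h)), aff_succ]
    by_cases hin : ∀ l, l ≠ i.succAbove j → aff i p l ∈ Icc (-1 : ℝ) 1
    · have e2 : ∀ s ∈ Icc (0 : ℝ) 1, ek (-k) s * cube i f (p.1, Function.update p.2 j s) =
          ek (-k) (1 / 2) * (ek (-k) ((2 * s - 1) / 2) *
            f (Function.update (aff i p) (i.succAbove j) (2 * s - 1))) := by
        intro s hs
        rw [cube_eq, e1, indicator_of_mem, ← mul_assoc]
        · congr 1
          unfold ek
          rw [← Complex.exp_add]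
          congr 1
          push_cast
          ring
        · rw [mem_Icc]
          constructor
          · intro l
            by_cases hl : l = i.succAbove j
            · subst hl
              rw [Function.update_self]
              simp only [Pi.neg_apply, Pi.one_apply]
              linarith [hs.1]
            · rw [Function.update_of_ne hl]
              exact (hin l hl).1
          · intro l
            by_cases hl : l = i.succAbove j
            · subst hl
              rw [Function.update_self]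
              simp only [Pi.one_apply]
              linarith [hs.2]
            · rw [Function.update_of_ne hl]
              exact (hin l hl).2
      rw [setIntegral_congr_fun measurableSet_Icc e2, integral_const_mul]
      have e3 : ∫ s in Icc (0 : ℝ) 1, ek (-k) ((2 * s - 1) / 2) *
          f (Function.update (aff i p) (i.succAbove j) (2 * s - 1)) =
          (2 : ℝ)⁻¹ • ∫ s in Icc (-1 : ℝ) 1, ek (-k) (s / 2) *
            f (Function.update (aff i p) (i.succAbove j) s) := by
        rw [integral_Icc_eq_integral_Ioc, integral_Icc_eq_integral_Ioc,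
          ← intervalIntegral.integral_of_le (by norm_num), ← intervalIntegral.integral_of_le (by norm_num)]
        have := intervalIntegral.integral_comp_mul_sub (a := 0) (b := 1) (fun s : ℝ => ek (-k) (s / 2) *
          f (Function.update (aff i p) (i.succAbove j) s)) (c := 2) (by norm_num) 1
        rw [this]
        norm_num
      rw [e3, hp, smul_zero, mul_zero]
    · push Not at hin
      obtain ⟨l, hl, hl'⟩ := hin
      have e2 : ∀ s : ℝ, ek (-k) s * cube i f (p.1, Function.update p.2 j s) = 0 := by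
        intro s
        rw [cube_eq, e1, indicator_of_notMem, mul_zero]
        intro hmem
        rw [mem_Icc] at hmem
        apply hl'
        have k1 := hmem.1 l
        have k2 := hmem.2 l
        rw [Function.update_of_ne hl] at k1 k2
        exact ⟨k1, k2⟩
      simp only [e2]
      exact integral_zero _ _

end Pool.Agent.H243.RL
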