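import Pool.Agent.H243.RL.Stmt
set_option autoImplicit false

/-! From trigonometric polynomials to square integrable functions (by helper195). -/

open MeasureTheory Set
open scoped ENNReal

namespace Pool.Agent.H243.RL.DENS

open Filter Topology

/-- bounds for the Gaussian on the unit intervals -/
noncomputable def bb (n : ℤ) : ℝ≥0∞ := ENNReal.ofReal (Real.exp (5 / 4 - |(n : ℝ)|))

theorem bb_sum : ∑' n : ℤ, bb n ≠ ∞ := by
  have h0 : Summable fun n : ℕ => Real.exp (5 / 4) * Real.exp (-(n : ℝ)) :=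
    Real.summable_exp_neg_nat.mul_left _
  have hs : Summable fun n : ℤ => Real.exp (5 / 4 - |(n : ℝ)|) := by
    refine Summable.of_nat_of_neg (h0.congr fun n => ?_) (h0.congr fun n => ?_)
    · rw [← Real.exp_add]
      congr 1
      push_cast
      rw [abs_of_nonneg (Nat.cast_nonneg n)]
      ring
    · rw [← Real.exp_add]
      congr 1
      push_cast
      rw [abs_neg, abs_of_nonneg (Nat.cast_nonneg n)]
      ring
  unfold bb
  rw [← ENNReal.ofReal_tsum_of_nonneg (fun n => (Real.exp_pos _).le) hs]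
  exact ENNReal.ofReal_ne_top

theorem gauss_le (n : ℤ) (y : ℝ) (hy : y ∈ Ico (n : ℝ) (n + 1)) :
    ENNReal.ofReal (Real.exp (-y ^ 2)) ≤ bb n := by
  refine ENNReal.ofReal_le_ofReal (Real.exp_le_exp.2 ?_)
  have h1 : |(n : ℝ)| ≤ |y| + 1 := by
    rcases hy with ⟨h1, h2⟩
    cases abs_cases (n : ℝ) <;> cases abs_cases y <;> linarith
  have h2 : |y| - 1 / 4 ≤ y ^ 2 := by nlinarith [sq_nonneg (|y| - 1 / 2), sq_abs y]
  linarith

theorem per_one (H : ℝ → ℝ≥0∞) (n : ℤ) :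
    ∫⁻ y in Ico (n : ℝ) (n + 1), H (Int.fract y) = ∫⁻ y in Ico (0 : ℝ) 1, H y := by
  rw [← lintegral_indicator measurableSet_Ico, ← lintegral_indicator measurableSet_Ico,
    ← lintegral_add_right_eq_self _ (n : ℝ)]
  refine lintegral_congr fun u => ?_
  by_cases hu : u ∈ Ico (0 : ℝ) 1
  · have h1 : u + n ∈ Ico (n : ℝ) (n + 1) := ⟨by linarith [hu.1], by linarith [hu.2]⟩
    rw [indicator_of_mem h1, indicator_of_mem hu, Int.fract_add_intCast,
      Int.fract_eq_self.2 ⟨hu.1, hu.2⟩]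
  · have h1 : u + n ∉ Ico (n : ℝ) (n + 1) := fun h =>
      hu ⟨by linarith [h.1], by linarith [h.2]⟩
    rw [indicator_of_notMem h1, indicator_of_notMem hu]

theorem per (H : ℝ → ℝ≥0∞) (hH : Measurable H) :
    ∫⁻ y, H (Int.fract y) * ENNReal.ofReal (Real.exp (-y ^ 2)) ≤
      (∑' n : ℤ, bb n) * ∫⁻ y in Ico (0 : ℝ) 1, H y := by
  rw [← setLIntegral_univ, ← iUnion_Ico_intCast ℝ, lintegral_iUnion (fun n => measurableSet_Ico)
    (pairwise_disjoint_Ico_intCast ℝ), ← ENNReal.tsum_mul_right]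
  refine ENNReal.tsum_le_tsum fun n => ?_
  have e : bb n * ∫⁻ y in Ico (n : ℝ) (n + 1), H (Int.fract y) =
      ∫⁻ y in Ico (n : ℝ) (n + 1), bb n * H (Int.fract y) :=
    (lintegral_const_mul (bb n) (hH.comp measurable_fract)).symm
  rw [← per_one H n, e]
  refine setLIntegral_mono' measurableSet_Ico fun y hy => ?_
  rw [mul_comm]
  exact mul_le_mul_left (gauss_le n y hy) _

theorem ph_cont (x t : ℝ) : Continuous (fun y => ph x t y) := by
  unfold ph
  fun_prop

theorem ph_norm (x t y : ℝ) : ‖ph x t y‖ = 1 := by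
  unfold ph
  rw [← Complex.ofReal_neg, Complex.norm_exp_ofReal_mul_I]

theorem int_ph {h : ℝ → ℂ} (i : Integrable h) (x t : ℝ) : Integrable (fun y => ph x t y * h y) := by
  refine i.mono ((ph_cont x t).aestronglyMeasurable.mul i.1) (Eventually.of_forall fun y => ?_)
  rw [norm_mul, ph_norm, one_mul]

theorem W_sub (h₁ h₂ : ℝ → ℂ) (i1 : Integrable h₁) (i2 : Integrable h₂) (x t : ℝ) :
    ‖W h₁ x t - W h₂ x t‖ₑ ≤ ∫⁻ y, ‖h₁ y - h₂ y‖ₑ := by
  unfold W
  rw [← integral_sub (int_ph i1 x t) (int_ph i2 x t)]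
  refine (enorm_integral_le_lintegral_enorm _).trans (lintegral_mono fun y => ?_)
  rw [← mul_sub, enorm_mul]
  have : ‖ph x t y‖ₑ = 1 := by
    rw [← ofReal_norm, ph_norm, ENNReal.ofReal_one]
  rw [this, one_mul]

theorem W_meas (h : ℝ → ℂ) (hh : Measurable h) (t : ℝ) : Measurable (fun x => W h x t) := by
  unfold W
  have h1 : Measurable (Function.uncurry fun x y : ℝ => ph x t y * h y) := by
    refine Measurable.mul ?_ (hh.comp measurable_snd)
    have : Continuous (fun z : ℝ × ℝ => ph z.1 t z.2) := by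
      unfold ph
      fun_prop
    exact this.measurable
  exact (h1.stronglyMeasurable.integral_prod_right).measurable

/-- the main bound -/
theorem main_bd (u : ℝ → ℂ) (hu : Measurable u) :
    ∫⁻ y, ‖u (Int.fract y) * (Real.exp (-y ^ 2) : ℂ)‖ₑ ≤
      (∑' n : ℤ, bb n) * eLpNorm u 2 ((volume : Measure ℝ).restrict (Icc (0 : ℝ) 1)) := by
  have hpr : IsProbabilityMeasure ((volume : Measure ℝ).restrict (Icc (0 : ℝ) 1)) := by
    refine ⟨?_⟩
    rw [Measure.restrict_apply_univ, Real.volume_Icc]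
    norm_num
  have h1 : ∀ y : ℝ, ‖u (Int.fract y) * (Real.exp (-y ^ 2) : ℂ)‖ₑ =
      ‖u (Int.fract y)‖ₑ * ENNReal.ofReal (Real.exp (-y ^ 2)) := by
    intro y
    rw [enorm_mul]
    congr 1
    rw [← ofReal_norm, Complex.norm_real, Real.norm_eq_abs, abs_of_pos (Real.exp_pos _)]
  simp only [h1]
  refine (per (fun y => ‖u y‖ₑ) hu.enorm).trans (mul_le_mul_right ?_ _)
  rw [restrict_Ico_eq_restrict_Icc, ← eLpNorm_one_eq_lintegral_enorm]
  exact eLpNorm_le_eLpNorm_of_exponent_le (by norm_num) hu.aestronglyMeasurable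

theorem ek_fract (k : ℤ) (y : ℝ) : ek k (Int.fract y) = ek k y := by
  unfold ek
  have h1 : (((2 * Real.pi * k * y : ℝ) : ℂ) * Complex.I) =
      ((2 * Real.pi * k * Int.fract y : ℝ) : ℂ) * Complex.I +
        ((k * ⌊y⌋ : ℤ) : ℂ) * (2 * Real.pi * Complex.I) := by
    have h2 : y = Int.fract y + ⌊y⌋ := (Int.fract_add_floor y).symm
    conv_lhs => rw [h2]
    push_cast
    ring
  rw [h1, Complex.exp_add, Complex.exp_int_mul_two_pi_mul_I, mul_one]

theorem ek_cont (k : ℤ) : Continuous (ek k) := by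
  unfold ek
  fun_prop

theorem ek_norm (k : ℤ) (y : ℝ) : ‖ek k y‖ = 1 := by
  unfold ek
  rw [Complex.norm_exp_ofReal_mul_I]

/-- approximation by trigonometric polynomials -/
theorem approx (L : Set ℤ) (g : ℝ → ℂ) (hg : Measurable g)
    (h2 : ∫⁻ y in Icc (0 : ℝ) 1, ‖g y‖ₑ ^ 2 ≠ ∞)
    (hL : ∀ k : ℤ, k ∉ L → ∫ y in Icc (0 : ℝ) 1, ek (-k) y * g y = 0) :
    ∃ (c : ℤ → ℂ) (S : ℕ → Finset ℤ), (∀ n, ∀ k ∈ S n, k ∈ L) ∧
      (∀ n, ∑ k ∈ S n, ‖c k‖ₑ ^ 2 ≤ ∫⁻ y in Icc (0 : ℝ) 1, ‖g y‖ₑ ^ 2) ∧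
      Tendsto (fun n => eLpNorm (fun y => (∑ k ∈ S n, c k * ek k y) - g y) 2
        ((volume : Measure ℝ).restrict (Icc (0 : ℝ) 1))) atTop (𝓝 0) := by
  classical
  obtain ⟨ν, hν⟩ : ∃ ν : Measure ℝ, ν = (volume : Measure ℝ).restrict (Icc (0 : ℝ) 1) := ⟨_, rfl⟩
  rw [← hν] at h2 hL ⊢
  have hmk : MeasurePreserving ((↑) : ℝ → AddCircle (1 : ℝ)) ν AddCircle.haarAddCircle := by
    have h := AddCircle.measurePreserving_mk (1 : ℝ) 0
    rw [AddCircle.volume_eq_smul_haarAddCircle, ENNReal.ofReal_one, one_smul, zero_add,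
      restrict_Ioc_eq_restrict_Icc, ← hν] at h
    exact h
  have hper : Function.Periodic (fun y => g (Int.fract y)) 1 := fun y => by
    simp only [Int.fract_add_one]
  obtain ⟨G, hG⟩ : ∃ G : AddCircle (1 : ℝ) → ℂ, ∀ y : ℝ, G (y : AddCircle (1 : ℝ)) = g (Int.fract y) :=
    ⟨hper.lift, fun y => hper.lift_coe y⟩
  have hGm : Measurable G := by
    refine QuotientAddGroup.measurable_from_quotient.2 ?_
    have : G ∘ QuotientAddGroup.mk = fun y => g (Int.fract y) := funext hG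
    rw [this]
    exact hg.comp measurable_fract
  have hfr : ∀ᵐ y ∂ν, Int.fract y = y := by
    rw [hν, ← restrict_Ico_eq_restrict_Icc]
    refine (ae_restrict_iff' measurableSet_Ico).2 (Eventually.of_forall fun y hy => ?_)
    exact Int.fract_eq_self.2 ⟨hy.1, hy.2⟩
  have hgG : (fun y : ℝ => G (y : AddCircle (1 : ℝ))) =ᵐ[ν] g := by
    filter_upwards [hfr] with y hy
    rw [hG, hy]
  have hsq : (eLpNorm g 2 ν) ^ 2 = ∫⁻ y, ‖g y‖ₑ ^ 2 ∂ν := by
    rw [eLpNorm_eq_lintegral_rpow_enorm_toReal (by norm_num) (by norm_num)]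
    have e : ((2 : ℝ≥0∞)).toReal = 2 := by norm_num
    rw [e, ← ENNReal.rpow_natCast, ← ENNReal.rpow_mul]
    norm_num
  have hgfin : eLpNorm g 2 ν < ∞ := by
    have : (eLpNorm g 2 ν) ^ 2 < ∞ := by
      rw [hsq]
      exact lt_top_iff_ne_top.2 h2
    rcases eq_or_ne (eLpNorm g 2 ν) ∞ with h | h
    · rw [h] at this
      simp at this
    · exact lt_top_iff_ne_top.2 h
  have hGn : eLpNorm G 2 AddCircle.haarAddCircle = eLpNorm g 2 ν := by
    rw [← eLpNorm_comp_measurePreserving hGm.aestronglyMeasurable hmk]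
    exact eLpNorm_congr_ae hgG
  have hGmem : MemLp G 2 AddCircle.haarAddCircle :=
    ⟨hGm.aestronglyMeasurable, by rw [hGn]; exact hgfin⟩
  obtain ⟨F, hF⟩ : ∃ F : Lp ℂ 2 (AddCircle.haarAddCircle (T := (1 : ℝ))), F = hGmem.toLp G :=
    ⟨_, rfl⟩
  have hFG : (F : AddCircle (1 : ℝ) → ℂ) =ᵐ[AddCircle.haarAddCircle] G := by
    rw [hF]
    exact hGmem.coeFn_toLp
  obtain ⟨c, hc⟩ : ∃ c : ℤ → ℂ, c = fun i => fourierCoeff (F : AddCircle (1 : ℝ) → ℂ) i :=
    ⟨_, rfl⟩
  have hek : ∀ (k : ℤ) (y : ℝ), fourier k (y : AddCircle (1 : ℝ)) = ek k y := by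
    intro k y
    rw [fourier_coe_apply, ek]
    congr 1
    push_cast
    ring
  -- coefficients outside `L`
  have hc0 : ∀ k, k ∉ L → c k = 0 := by
    intro k hk
    rw [hc]
    show fourierCoeff (F : AddCircle (1 : ℝ) → ℂ) k = 0
    unfold fourierCoeff
    have h1 : ∫ t, fourier (-k) t • (F : AddCircle (1 : ℝ) → ℂ) t ∂AddCircle.haarAddCircle =
        ∫ t, fourier (-k) t • G t ∂AddCircle.haarAddCircle := by
      refine integral_congr_ae ?_
      filter_upwards [hFG] with t ht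
      rw [ht]
    rw [h1, ← hmk.map_eq, integral_map hmk.measurable.aemeasurable]
    · rw [← hL k hk]
      refine integral_congr_ae ?_
      filter_upwards [hgG] with y hy
      have hy' : G (y : AddCircle (1 : ℝ)) = g y := hy
      rw [hy', hek, smul_eq_mul]
    · exact ((fourier (-k)).continuous.measurable.smul hGm).aestronglyMeasurable
  -- Bessel
  have hbes : ∀ S : Finset ℤ, ∑ k ∈ S, ‖c k‖ₑ ^ 2 ≤ ∫⁻ y, ‖g y‖ₑ ^ 2 ∂ν := by
    intro S
    have h1 := (orthonormal_fourier (T := (1 : ℝ))).sum_inner_products_le F (s := S)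
    have h3 : ∀ i, inner ℂ (fourierLp 2 i) F = c i := by
      intro i
      rw [hc]
      show _ = fourierCoeff (F : AddCircle (1 : ℝ) → ℂ) i
      rw [← fourierBasis_repr, HilbertBasis.repr_apply_apply, coe_fourierBasis]
    simp only [h3] at h1
    have h4 : ∑ k ∈ S, ‖c k‖ₑ ^ 2 = ENNReal.ofReal (∑ k ∈ S, ‖c k‖ ^ 2) := by
      rw [ENNReal.ofReal_sum_of_nonneg fun _ _ => by positivity]
      refine Finset.sum_congr rfl fun k _ => ?_
      rw [ENNReal.ofReal_pow (norm_nonneg _), ofReal_norm]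
    rw [h4, ← hsq, ← hGn]
    have h5 : eLpNorm G 2 AddCircle.haarAddCircle = ENNReal.ofReal ‖F‖ := by
      rw [ofReal_norm, hF, Lp.enorm_toLp]
    rw [h5, ← ENNReal.ofReal_pow (norm_nonneg _)]
    exact ENNReal.ofReal_le_ofReal h1
  have hsum := hasSum_fourier_series_L2 F
  have hex : ∀ n : ℕ, ∃ S : Finset ℤ, (∀ k ∈ S, k ∈ L) ∧
      eLpNorm (fun y => (∑ k ∈ S, c k * ek k y) - g y) 2 ν ≤ ENNReal.ofReal (1 / ((n : ℝ) + 1)) := by
    intro n
    obtain ⟨S₀, hS₀⟩ := ((Metric.tendsto_nhds.1 hsum) (1 / ((n : ℝ) + 1)) (by positivity)).exists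
    refine ⟨S₀.filter (fun k => k ∈ L), fun k hk => (Finset.mem_filter.1 hk).2, ?_⟩
    have e1 : ∀ y, ∑ k ∈ S₀.filter (fun k => k ∈ L), c k * ek k y = ∑ k ∈ S₀, c k * ek k y := by
      intro y
      refine Finset.sum_filter_of_ne fun k _ hk => ?_
      by_contra h
      exact hk (by rw [hc0 k h, zero_mul])
    simp only [e1]
    obtain ⟨p, hp⟩ : ∃ p : C(AddCircle (1 : ℝ), ℂ), p = ∑ k ∈ S₀, c k • fourier k := ⟨_, rfl⟩
    have e2 : ∑ k ∈ S₀, fourierCoeff (F : AddCircle (1 : ℝ) → ℂ) k • fourierLp 2 k =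
        ContinuousMap.toLp 2 AddCircle.haarAddCircle ℂ p := by
      rw [hp, map_sum]
      refine Finset.sum_congr rfl fun k _ => ?_
      rw [map_smul, hc]
    rw [e2, dist_eq_norm] at hS₀
    have e3 : eLpNorm (fun t : AddCircle (1 : ℝ) => p t - G t) 2 AddCircle.haarAddCircle =
        ENNReal.ofReal ‖ContinuousMap.toLp 2 AddCircle.haarAddCircle ℂ p - F‖ := by
      rw [ofReal_norm, Lp.enorm_def]
      refine eLpNorm_congr_ae ?_
      filter_upwards [Lp.coeFn_sub (ContinuousMap.toLp 2 AddCircle.haarAddCircle ℂ p) F, hFG,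
        ContinuousMap.coeFn_toLp (p := 2) (𝕜 := ℂ) AddCircle.haarAddCircle p] with t h1 h3 h4
      rw [h1, Pi.sub_apply, h3, h4]
    have e4 : eLpNorm (fun y => (∑ k ∈ S₀, c k * ek k y) - g y) 2 ν =
        eLpNorm (fun t : AddCircle (1 : ℝ) => p t - G t) 2 AddCircle.haarAddCircle := by
      have hm : AEStronglyMeasurable (fun t : AddCircle (1 : ℝ) => p t - G t)
          AddCircle.haarAddCircle :=
        (p.continuous.measurable.sub hGm).aestronglyMeasurable
      rw [← eLpNorm_comp_measurePreserving hm hmk]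
      refine eLpNorm_congr_ae ?_
      filter_upwards [hgG] with y hy
      have hy' : G (y : AddCircle (1 : ℝ)) = g y := hy
      show _ = p (y : AddCircle (1 : ℝ)) - G (y : AddCircle (1 : ℝ))
      rw [hy', hp]
      simp only [ContinuousMap.coe_sum, Finset.sum_apply, ContinuousMap.coe_smul, Pi.smul_apply,
        smul_eq_mul, hek]
    rw [e4, e3]
    exact ENNReal.ofReal_le_ofReal hS₀.le
  choose S hS1 hS2 using hex
  refine ⟨c, S, hS1, fun n => hbes (S n), ?_⟩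
  refine tendsto_of_tendsto_of_tendsto_of_le_of_le tendsto_const_nhds ?_ (fun n => zero_le) hS2
  have h5 := ENNReal.tendsto_ofReal (tendsto_one_div_add_atTop_nhds_zero_nat (𝕜 := ℝ))
  rwa [ENNReal.ofReal_zero] at h5

end Pool.Agent.H243.RL.DENS

namespace Pool.Agent.H243.RL

open Filter Topology DENS

theorem t_DENS : S_DENS := by
  intro q K L t hq hK hyp g hg h2 hL
  obtain ⟨c, S, hS1, hS2, hS3⟩ := approx L g hg h2 hL
  obtain ⟨ν, hν⟩ : ∃ ν : Measure ℝ, ν = (volume : Measure ℝ).restrict (Icc (0 : ℝ) 1) := ⟨_, rfl⟩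
  obtain ⟨P, hP⟩ : ∃ P : ℕ → ℝ → ℂ, P = fun n y =>
    (∑ k ∈ S n, c k * ek k y) * (Real.exp (-y ^ 2) : ℂ) := ⟨_, rfl⟩
  obtain ⟨gg, hgg⟩ : ∃ gg : ℝ → ℂ, gg = fun y => g (Int.fract y) * (Real.exp (-y ^ 2) : ℂ) :=
    ⟨_, rfl⟩
  have hgauss : Continuous fun y : ℝ => ((Real.exp (-y ^ 2) : ℝ) : ℂ) := by fun_prop
  have hpc : ∀ n, Continuous fun y => ∑ k ∈ S n, c k * ek k y := fun n =>
    continuous_finsetSum _ fun k _ => continuous_const.mul (ek_cont k)
  have hPc : ∀ n, Continuous (P n) := fun n => by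
    rw [hP]
    exact (hpc n).mul hgauss
  have hPi : ∀ n, Integrable (P n) := by
    intro n
    have h1 : Integrable fun y : ℝ => (∑ k ∈ S n, ‖c k‖) * Real.exp (-1 * y ^ 2) :=
      (integrable_exp_neg_mul_sq one_pos).const_mul _
    refine h1.mono' (hPc n).aestronglyMeasurable (Eventually.of_forall fun y => ?_)
    rw [hP]
    show ‖(∑ k ∈ S n, c k * ek k y) * (Real.exp (-y ^ 2) : ℂ)‖ ≤ _
    rw [norm_mul, Complex.norm_real, Real.norm_eq_abs, abs_of_pos (Real.exp_pos _), neg_one_mul]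
    refine mul_le_mul_of_nonneg_right ?_ (Real.exp_pos _).le
    refine (norm_sum_le _ _).trans (Finset.sum_le_sum fun k _ => ?_)
    rw [norm_mul, ek_norm, mul_one]
  have hgm : Measurable gg := by
    rw [hgg]
    exact (hg.comp measurable_fract).mul hgauss.measurable
  have hgfin : eLpNorm g 2 ((volume : Measure ℝ).restrict (Icc (0 : ℝ) 1)) ≠ ∞ := by
    rw [eLpNorm_eq_lintegral_rpow_enorm_toReal (by norm_num) (by norm_num)]
    have e : ((2 : ℝ≥0∞)).toReal = 2 := by norm_num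
    rw [e]
    refine ENNReal.rpow_ne_top_of_nonneg (by norm_num) ?_
    have : ∀ y, ‖g y‖ₑ ^ (2 : ℝ) = ‖g y‖ₑ ^ 2 := fun y => by
      rw [← ENNReal.rpow_natCast]
      norm_num
    simp only [this]
    exact h2
  have hgi : Integrable gg := by
    refine ⟨hgm.aestronglyMeasurable, ?_⟩
    rw [HasFiniteIntegral, hgg]
    refine (main_bd g hg).trans_lt ?_
    exact ENNReal.mul_lt_top (lt_top_iff_ne_top.2 bb_sum) (lt_top_iff_ne_top.2 hgfin)
  have hbd : ∀ n x, ‖W (P n) x t - W gg x t‖ₑ ≤ (∑' n : ℤ, bb n) *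
      eLpNorm (fun y => (∑ k ∈ S n, c k * ek k y) - g y) 2
        ((volume : Measure ℝ).restrict (Icc (0 : ℝ) 1)) := by
    intro n x
    refine (W_sub _ _ (hPi n) hgi x t).trans ?_
    refine le_trans (le_of_eq (lintegral_congr fun y => ?_))
      (main_bd (fun y => (∑ k ∈ S n, c k * ek k y) - g y) ((hpc n).measurable.sub hg))
    rw [hP, hgg]
    simp only [ek_fract]
    rw [← sub_mul]
  have htend : ∀ x, Tendsto (fun n => W (P n) x t) atTop (𝓝 (W gg x t)) := by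
    intro x
    rw [tendsto_iff_edist_tendsto_0]
    have h5 : Tendsto (fun n => (∑' n : ℤ, bb n) *
        eLpNorm (fun y => (∑ k ∈ S n, c k * ek k y) - g y) 2
          ((volume : Measure ℝ).restrict (Icc (0 : ℝ) 1))) atTop (𝓝 0) := by
      have := ENNReal.Tendsto.const_mul hS3 (Or.inr bb_sum)
      rwa [mul_zero] at this
    refine tendsto_of_tendsto_of_tendsto_of_le_of_le tendsto_const_nhds h5 (fun n => zero_le)
      fun n => ?_
    rw [edist_eq_enorm_sub]
    exact hbd n x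
  have hpow : ∀ x, Tendsto (fun n => ‖W (P n) x t‖ₑ ^ q) atTop (𝓝 (‖W gg x t‖ₑ ^ q)) := by
    intro x
    exact (ENNReal.continuous_rpow_const.tendsto _).comp ((htend x).enorm)
  have hgoal : ∫⁻ x, ‖W gg x t‖ₑ ^ q ≤ K * (∫⁻ y in Icc (0 : ℝ) 1, ‖g y‖ₑ ^ 2) ^ (q / 2) := by
    calc ∫⁻ x, ‖W gg x t‖ₑ ^ q = ∫⁻ x, liminf (fun n => ‖W (P n) x t‖ₑ ^ q) atTop :=
          lintegral_congr fun x => (hpow x).liminf_eq.symm
      _ ≤ liminf (fun n => ∫⁻ x, ‖W (P n) x t‖ₑ ^ q) atTop :=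
          lintegral_liminf_le fun n => ((W_meas (P n) (hPc n).measurable t).enorm.pow_const q)
      _ ≤ liminf (fun _ : ℕ => K * (∫⁻ y in Icc (0 : ℝ) 1, ‖g y‖ₑ ^ 2) ^ (q / 2)) atTop := by
          refine liminf_le_liminf (Eventually.of_forall fun n => ?_)
          have h6 := hyp (S n) c (hS1 n)
          rw [hP]
          refine h6.trans ?_
          exact mul_le_mul_right (ENNReal.rpow_le_rpow (hS2 n) (by positivity)) K
      _ = K * (∫⁻ y in Icc (0 : ℝ) 1, ‖g y‖ₑ ^ 2) ^ (q / 2) := liminf_const _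
  rw [hgg] at hgoal
  exact hgoal

end Pool.Agent.H243.RL
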