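import Pool.Agent.H243.RL.Stmt3

set_option autoImplicit false

/-! Averages: contraction and approximation in `L^q`. -/

namespace Pool.Agent.H243.RL

open MeasureTheory Set
open scoped ENNReal

namespace DJ

/-- the uniform measure on the unit interval -/
noncomputable def mu : Measure ℝ := volume.restrict (Icc (0 : ℝ) 1)

instance : IsProbabilityMeasure mu := ⟨by simp [mu]⟩

theorem jensen {q : ℝ} (hq : 1 ≤ q) (F : ℝ → ℂ) (hF : Measurable F) :
    (∫⁻ u, ‖F u‖ₑ ∂mu) ^ q ≤ ∫⁻ u, ‖F u‖ₑ ^ q ∂mu := by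
  have h := eLpNorm'_le_eLpNorm'_of_exponent_le (p := 1) (q := q) one_pos hq mu
    hF.aestronglyMeasurable
  rw [eLpNorm', eLpNorm'] at h
  simp only [ENNReal.rpow_one, div_one] at h
  have h2 := ENNReal.rpow_le_rpow h (by linarith : 0 ≤ q)
  rwa [← ENNReal.rpow_mul, one_div_mul_cancel (by linarith), ENNReal.rpow_one] at h2

theorem jensen' {q : ℝ} (hq : 1 ≤ q) (F : ℝ → ℂ) (hF : Measurable F) :
    ‖∫ u, F u ∂mu‖ₑ ^ q ≤ ∫⁻ u, ‖F u‖ₑ ^ q ∂mu :=
  (ENNReal.rpow_le_rpow (enorm_integral_le_lintegral_enorm F) (by linarith)).trans (jensen hq F hF)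

theorem tonelli (g : ℝ × ℝ → ℝ≥0∞) (hg : Measurable g) (δ y₁ : ℝ) :
    ∫⁻ y₂, ∫⁻ u, g (y₁, y₂ - δ * u) ∂mu = ∫⁻ y₂, g (y₁, y₂) := by
  rw [lintegral_lintegral_swap]
  · have h : ∀ u, ∫⁻ y₂, g (y₁, y₂ - δ * u) = ∫⁻ y₂, g (y₁, y₂) := fun u =>
      lintegral_sub_right_eq_self (fun y => g (y₁, y)) (δ * u)
    simp_rw [h]
    rw [lintegral_const, measure_univ, mul_one]
  · have h : Measurable (Function.uncurry fun y₂ u => g (y₁, y₂ - δ * u)) := by
      refine hg.comp ?_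
      fun_prop
    exact h.aemeasurable

theorem av2_eq (δ : ℝ) (f : ℝ × ℝ → ℂ) (p : ℝ × ℝ) :
    av2 δ f p = ∫ u, f (p.1, p.2 - δ * u) ∂mu := rfl

end DJ

open DJ

theorem t_DJ : S_DJ := by
  intro q hq δ f hδ0 hδ1 hf hfin
  have hq0 : 0 < q := by linarith
  have hg : Measurable (fun p : ℝ × ℝ => ‖f p‖ₑ ^ q) := hf.enorm.pow_const q
  have hslice : ∀ y₁ y₂ : ℝ, Measurable (fun u : ℝ => f (y₁, y₂ - δ * u)) := by
    intro y₁ y₂
    refine hf.comp ?_
    fun_prop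
  refine ⟨?_, ?_, ?_⟩
  · -- measurability
    have h1 : Measurable (fun z : (ℝ × ℝ) × ℝ => f (z.1.1, z.1.2 - δ * z.2)) := by
      refine hf.comp ?_
      fun_prop
    have h2 := (h1.stronglyMeasurable.integral_prod_right' (ν := mu)).measurable
    exact h2
  · refine lintegral_mono fun y₁ => ?_
    rw [← tonelli _ hg δ y₁]
    refine lintegral_mono fun y₂ => ?_
    exact jensen' hq _ (hslice y₁ y₂)
  · intro s A hs hA hReg
    -- the averages of the powers are finite almost everywhere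
    have hT : Measurable (fun z : ℝ × ℝ => ∫⁻ u, ‖f (z.1, z.2 - δ * u)‖ₑ ^ q ∂mu) := by
      have h1 : Measurable (fun z : (ℝ × ℝ) × ℝ => ‖f (z.1.1, z.1.2 - δ * z.2)‖ₑ ^ q) := by
        refine hg.comp (g := fun p : ℝ × ℝ => ‖f p‖ₑ ^ q)
          (f := fun z : (ℝ × ℝ) × ℝ => (z.1.1, z.1.2 - δ * z.2)) ?_
        fun_prop
      exact h1.lintegral_prod_right' (ν := mu)
    have hfin1 : ∀ᵐ y₁ : ℝ, ∫⁻ y₂, ‖f (y₁, y₂)‖ₑ ^ q < ∞ :=
      ae_lt_top hg.lintegral_prod_right' hfin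
    -- the pointwise bound
    have hpt : ∀ᵐ y₁ : ℝ, ∀ᵐ y₂ : ℝ, ‖f (y₁, y₂) - av2 δ f (y₁, y₂)‖ₑ ^ q ≤
        ∫⁻ u, ‖f (y₁, y₂) - f (y₁, y₂ - δ * u)‖ₑ ^ q ∂mu := by
      filter_upwards [hfin1] with y₁ hy₁
      have h2 : ∀ᵐ y₂ : ℝ, ∫⁻ u, ‖f (y₁, y₂ - δ * u)‖ₑ ^ q ∂mu < ∞ := by
        refine ae_lt_top (hT.comp (measurable_prodMk_left (x := y₁))) ?_
        rw [tonelli _ hg δ y₁]
        exact hy₁.ne
      filter_upwards [h2] with y₂ hy₂
      have hint : Integrable (fun u => f (y₁, y₂ - δ * u)) mu := by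
        refine ⟨(hslice y₁ y₂).aestronglyMeasurable, ?_⟩
        have h3 := (jensen hq _ (hslice y₁ y₂)).trans_lt hy₂
        rw [HasFiniteIntegral]
        by_contra hcon
        rw [not_lt, top_le_iff] at hcon
        rw [hcon, ENNReal.top_rpow_of_pos hq0] at h3
        exact lt_irrefl _ h3
      have h4 : f (y₁, y₂) - av2 δ f (y₁, y₂) =
          ∫ u, (f (y₁, y₂) - f (y₁, y₂ - δ * u)) ∂mu := by
        rw [integral_sub (integrable_const _) hint, integral_const, av2_eq]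
        simp
      rw [h4]
      exact jensen' hq _ ((hslice y₁ y₂).const_sub _)
    -- the joint measurability
    have hK : Measurable (fun z : (ℝ × ℝ) × ℝ =>
        ‖f (z.1.1, z.2) - f (z.1.1, z.2 - δ * z.1.2)‖ₑ ^ q) := by
      have h1 : Measurable (fun z : (ℝ × ℝ) × ℝ => f (z.1.1, z.2)) := by
        refine hf.comp ?_
        fun_prop
      have h2 : Measurable (fun z : (ℝ × ℝ) × ℝ => f (z.1.1, z.2 - δ * z.1.2)) := by
        refine hf.comp ?_
        fun_prop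
      exact (h1.sub h2).enorm.pow_const q
    calc ∫⁻ y₁, ∫⁻ y₂, ‖f (y₁, y₂) - av2 δ f (y₁, y₂)‖ₑ ^ q
        ≤ ∫⁻ y₁, ∫⁻ y₂, ∫⁻ u, ‖f (y₁, y₂) - f (y₁, y₂ - δ * u)‖ₑ ^ q ∂mu := by
          refine lintegral_mono_ae ?_
          filter_upwards [hpt] with y₁ hy₁
          exact lintegral_mono_ae hy₁
      _ = ∫⁻ y₁, ∫⁻ u, ∫⁻ y₂, ‖f (y₁, y₂) - f (y₁, y₂ - δ * u)‖ₑ ^ q ∂volume ∂mu := by
          refine lintegral_congr fun y₁ => ?_
          rw [lintegral_lintegral_swap]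
          have h1 : Measurable (Function.uncurry fun (y₂ u : ℝ) =>
              ‖f (y₁, y₂) - f (y₁, y₂ - δ * u)‖ₑ ^ q) := by
            refine hK.comp (f := fun z : ℝ × ℝ => ((y₁, z.2), z.1)) ?_
            fun_prop
          exact h1.aemeasurable
      _ = ∫⁻ u, ∫⁻ y₁, ∫⁻ y₂, ‖f (y₁, y₂) - f (y₁, y₂ - δ * u)‖ₑ ^ q ∂volume ∂volume ∂mu := by
          rw [lintegral_lintegral_swap]
          have h1 : Measurable (Function.uncurry fun (y₁ u : ℝ) =>
              ∫⁻ y₂, ‖f (y₁, y₂) - f (y₁, y₂ - δ * u)‖ₑ ^ q) :=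
            hK.lintegral_prod_right'
          exact h1.aemeasurable
      _ ≤ ∫⁻ _u, ENNReal.ofReal ((A * δ ^ s) ^ q) ∂mu := by
          refine lintegral_mono_ae ?_
          have h1 : ∀ᵐ u ∂mu, u ∈ Icc (0 : ℝ) 1 := ae_restrict_mem measurableSet_Icc
          filter_upwards [h1] with u hu
          rcases hu.1.eq_or_lt with h0 | h0
          · rw [← h0]
            simp only [mul_zero, sub_zero, sub_self, enorm_zero, ENNReal.zero_rpow_of_pos hq0,
              lintegral_zero, zero_le]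
          · have hδu : 0 < δ * u := mul_pos hδ0 h0
            have hδu1 : δ * u ≤ δ := by nlinarith [hu.2]
            have h2 := hReg (δ * u) hδu (hδu1.trans hδ1)
            have h3 : ∫⁻ y₁, ∫⁻ y₂, ‖f (y₁, y₂) - f (y₁, y₂ - δ * u)‖ₑ ^ q =
                ∫⁻ y₁, ∫⁻ y₂, ‖f (y₁, y₂ + δ * u) - f (y₁, y₂)‖ₑ ^ q := by
              refine lintegral_congr fun y₁ => ?_
              rw [← lintegral_add_right_eq_self _ (δ * u)]
              refine lintegral_congr fun y₂ => ?_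
              rw [add_sub_cancel_right]
            rw [h3]
            refine h2.trans (ENNReal.ofReal_le_ofReal ?_)
            refine Real.rpow_le_rpow (by positivity) ?_ hq0.le
            exact mul_le_mul_of_nonneg_left (Real.rpow_le_rpow hδu.le hδu1 hs) hA
      _ = ENNReal.ofReal ((A * δ ^ s) ^ q) := by
          rw [lintegral_const, measure_univ, mul_one]

end Pool.Agent.H243.RL
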