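import Pool.Agent.H243.RL.Stmt
set_option autoImplicit false

/-! FIX: the sharp cutoff at a fixed time (helper878, for helper243). -/

open MeasureTheory Set
open scoped ENNReal

namespace Pool.Agent.H243.RL

namespace FIX

/-! ### Cauchy-Schwarz and the trivial bound -/

theorem cs {k : ℝ → ℂ} (hk : Measurable k) {E : Set ℝ} (hE : MeasurableSet E)
    (h0 : ∀ y, y ∉ E → k y = 0) :
    ∫⁻ y, ‖k y‖ₑ ≤ (∫⁻ y, ‖k y‖ₑ ^ 2) ^ (1 / 2 : ℝ) * (volume E) ^ (1 / 2 : ℝ) := by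
  have hpq : (2 : ℝ).HolderConjugate 2 := Real.HolderConjugate.two_two
  have h1 := ENNReal.lintegral_mul_le_Lp_mul_Lq (volume : Measure ℝ) hpq
    (f := fun y => ‖k y‖ₑ) (g := E.indicator 1) hk.enorm.aemeasurable
    (measurable_one.indicator hE).aemeasurable
  have h2 : ∫⁻ y, ‖k y‖ₑ =
      ∫⁻ y, ((fun y => ‖k y‖ₑ) * (E.indicator 1 : ℝ → ℝ≥0∞)) y := by
    refine lintegral_congr fun y => ?_
    rw [Pi.mul_apply]
    by_cases hy : y ∈ E
    · rw [indicator_of_mem hy, Pi.one_apply, mul_one]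
    · rw [indicator_of_notMem hy, mul_zero, h0 y hy, enorm_zero]
  have h3 : ∫⁻ y, (E.indicator (1 : ℝ → ℝ≥0∞) y) ^ (2 : ℝ) = volume E := by
    rw [← lintegral_indicator_one hE]
    refine lintegral_congr fun y => ?_
    by_cases hy : y ∈ E
    · rw [indicator_of_mem hy, Pi.one_apply, ENNReal.one_rpow]
    · rw [indicator_of_notMem hy, ENNReal.zero_rpow_of_pos (by norm_num)]
  rw [h2]
  refine h1.trans (le_of_eq ?_)
  rw [h3]
  congr 2
  refine lintegral_congr fun y => ?_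
  rw [ENNReal.rpow_two]

theorem integ {k : ℝ → ℂ} (hk : Measurable k) (h0 : ∀ y, y ∉ Icc (0 : ℝ) 1 → k y = 0)
    (h2 : ∫⁻ y, ‖k y‖ₑ ^ 2 ≠ ∞) : Integrable k ∧ MemLp k 2 := by
  refine ⟨⟨hk.aestronglyMeasurable, ?_⟩, hk.aestronglyMeasurable, ?_⟩
  · refine lt_of_le_of_lt (cs hk measurableSet_Icc h0) ?_
    refine ENNReal.mul_lt_top (ENNReal.rpow_lt_top_of_nonneg (by norm_num) h2)
      (ENNReal.rpow_lt_top_of_nonneg (by norm_num) ?_)
    rw [Real.volume_Icc]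
    exact ENNReal.ofReal_ne_top
  · rw [eLpNorm_lt_top_iff_lintegral_rpow_enorm_lt_top (by norm_num) (by norm_num)]
    have h3 : ∫⁻ y, ‖k y‖ₑ ^ (2 : ℝ≥0∞).toReal = ∫⁻ y, ‖k y‖ₑ ^ 2 := by
      refine lintegral_congr fun y => ?_
      rw [ENNReal.toReal_ofNat, ENNReal.rpow_two]
    rw [h3]
    exact h2.lt_top

theorem triv (hT : S_TRIV) {q : ℝ} (hq : 2 < q) {k : ℝ → ℂ} (hk : Measurable k)
    (h0 : ∀ y, y ∉ Icc (0 : ℝ) 1 → k y = 0) {A : ℝ≥0∞} (hA : A ≠ ∞)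
    (hkA : ∫⁻ y, ‖k y‖ₑ ^ 2 ≤ A) {E : Set ℝ} (hE : MeasurableSet E)
    (h0' : ∀ y, y ∉ E → k y = 0) {v : ℝ} (hv : 0 ≤ v) (hEv : volume E ≤ ENNReal.ofReal v)
    (t : ℝ) : ∫⁻ x, ‖W k x t‖ₑ ^ q ≤
      ENNReal.ofReal (2 * Real.pi * v ^ ((q - 2) / 2)) * A ^ (q / 2) := by
  have h2 : ∫⁻ y, ‖k y‖ₑ ^ 2 ≠ ∞ := ne_top_of_le_ne_top hA hkA
  obtain ⟨i1, i2⟩ := integ hk h0 h2
  refine (hT q hq.le k hk i1 i2 t).trans ?_
  have h3 : ∫⁻ y, ‖k y‖ₑ ≤ A ^ (1 / 2 : ℝ) * (ENNReal.ofReal v) ^ (1 / 2 : ℝ) :=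
    (cs hk hE h0').trans (mul_le_mul' (ENNReal.rpow_le_rpow hkA (by norm_num))
      (ENNReal.rpow_le_rpow hEv (by norm_num)))
  have h4 : (∫⁻ y, ‖k y‖ₑ) ^ (q - 2) ≤ A ^ ((q - 2) / 2) * ENNReal.ofReal (v ^ ((q - 2) / 2)) := by
    refine (ENNReal.rpow_le_rpow h3 (by linarith)).trans (le_of_eq ?_)
    rw [ENNReal.mul_rpow_of_nonneg _ _ (by linarith), ← ENNReal.rpow_mul, ← ENNReal.rpow_mul,
      ENNReal.ofReal_rpow_of_nonneg hv (by positivity)]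
    · congr 2
      · ring
      · congr 1
        ring
  calc ENNReal.ofReal (2 * Real.pi) * (∫⁻ y, ‖k y‖ₑ) ^ (q - 2) * ∫⁻ y, ‖k y‖ₑ ^ 2 ≤
        ENNReal.ofReal (2 * Real.pi) *
          (A ^ ((q - 2) / 2) * ENNReal.ofReal (v ^ ((q - 2) / 2))) * A := by gcongr
    _ = (ENNReal.ofReal (2 * Real.pi) * ENNReal.ofReal (v ^ ((q - 2) / 2))) *
          (A ^ ((q - 2) / 2) * A ^ (1 : ℝ)) := by rw [ENNReal.rpow_one]; ring
    _ = _ := by
        rw [← ENNReal.rpow_add_of_nonneg _ _ (by linarith) (by norm_num),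
          ← ENNReal.ofReal_mul (by positivity)]
        congr 2
        ring

/-! ### Integrability of the periodic function times the Gaussian -/

theorem sum_c : Summable (fun n : ℤ => Real.exp 1 * Real.exp (-(|(n : ℝ)| / 2))) := by
  refine Summable.mul_left _ ?_
  have h1 : Summable (fun n : ℕ => Real.exp ((n : ℝ) * (-(1 / 2)))) :=
    Real.summable_exp_nat_mul_iff.2 (by norm_num)
  refine Summable.of_nat_of_neg ?_ ?_
  · refine h1.congr fun n => ?_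
    congr 1
    rw [Int.cast_natCast, abs_of_nonneg (Nat.cast_nonneg n)]
    ring
  · refine h1.congr fun n => ?_
    congr 1
    rw [Int.cast_neg, Int.cast_natCast, abs_neg, abs_of_nonneg (Nat.cast_nonneg n)]
    ring

theorem exp_le {n : ℤ} {y : ℝ} (hy : y ∈ Ico (n : ℝ) (n + 1)) :
    Real.exp (-y ^ 2) ≤ Real.exp 1 * Real.exp (-(|(n : ℝ)| / 2)) := by
  rw [← Real.exp_add]
  refine Real.exp_le_exp.2 ?_
  have h1 : |(n : ℝ)| ≤ (n : ℝ) ^ 2 := by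
    have h2 : |n| ≤ n ^ 2 := by
      rcases eq_or_ne n 0 with rfl | h
      · simp
      · have h3 : 1 ≤ |n| := Int.one_le_abs h
        rw [← sq_abs]
        nlinarith
    exact_mod_cast h2
  have h4 : (n : ℝ) ^ 2 ≤ 2 * y ^ 2 + 2 * 1 := by
    obtain ⟨h5, h6⟩ := hy
    nlinarith [sq_nonneg (2 * y - n), sq_nonneg (y - n), sq_nonneg (y + (y - n))]
  linarith

theorem int_h {g : ℝ → ℂ} (hg : Measurable g) (hgi : ∫⁻ y in Ico (0 : ℝ) 1, ‖g y‖ₑ ≠ ∞) :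
    Integrable (fun y => g (Int.fract y) * (Real.exp (-y ^ 2) : ℂ)) := by
  have hm : Measurable (fun y : ℝ => g (Int.fract y)) := hg.comp measurable_fract
  refine ⟨(hm.mul (by fun_prop)).aestronglyMeasurable, ?_⟩
  have h1 : ∫⁻ y : ℝ, ‖g (Int.fract y) * (Real.exp (-y ^ 2) : ℂ)‖ₑ ≤
      ∑' n : ℤ, ∫⁻ y in Ico (n : ℝ) (n + 1), ‖g (Int.fract y) * (Real.exp (-y ^ 2) : ℂ)‖ₑ := by
    rw [← setLIntegral_univ, ← iUnion_Ico_intCast ℝ]
    exact lintegral_iUnion_le _ _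
  have h2 : ∀ n : ℤ, ∫⁻ y in Ico (n : ℝ) (n + 1), ‖g (Int.fract y) * (Real.exp (-y ^ 2) : ℂ)‖ₑ ≤
      ENNReal.ofReal (Real.exp 1 * Real.exp (-(|(n : ℝ)| / 2))) *
        ∫⁻ y in Ico (0 : ℝ) 1, ‖g y‖ₑ := by
    intro n
    have h3 : ∫⁻ y in Ico (0 : ℝ) 1, ‖g y‖ₑ = ∫⁻ y in Ico (n : ℝ) (n + 1), ‖g (Int.fract y)‖ₑ := by
      rw [← lintegral_indicator measurableSet_Ico, ← lintegral_indicator measurableSet_Ico,
        ← lintegral_sub_right_eq_self _ (n : ℝ)]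
      refine lintegral_congr fun y => ?_
      by_cases hy : y ∈ Ico (n : ℝ) (n + 1)
      · have hy' : y - n ∈ Ico (0 : ℝ) 1 := ⟨by linarith [hy.1], by linarith [hy.2]⟩
        rw [indicator_of_mem hy, indicator_of_mem hy']
        have h4 : Int.fract y = y - n := by
          rw [Int.fract, Int.floor_eq_iff.2 hy]
        rw [h4]
      · have hy' : y - n ∉ Ico (0 : ℝ) 1 := fun h => hy ⟨by linarith [h.1], by linarith [h.2]⟩
        rw [indicator_of_notMem hy, indicator_of_notMem hy']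
    rw [h3, ← lintegral_const_mul _ hm.enorm]
    refine setLIntegral_mono' measurableSet_Ico fun y hy => ?_
    rw [enorm_mul, mul_comm]
    refine mul_le_mul_left ?_ _
    rw [← ofReal_norm, Complex.norm_real, Real.norm_of_nonneg (Real.exp_nonneg _)]
    exact ENNReal.ofReal_le_ofReal (exp_le hy)
  refine lt_of_le_of_lt (h1.trans (ENNReal.tsum_le_tsum h2)) ?_
  rw [ENNReal.tsum_mul_right]
  refine ENNReal.mul_lt_top ?_ hgi.lt_top
  exact sum_c.tsum_ofReal_lt_top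

/-! ### Multipliers -/

theorem mult_cont {ν : ℝ → ℂ} (hν : Integrable ν) :
    Continuous (fun y : ℝ => ∫ s, Complex.exp (((s * y : ℝ) : ℂ) * Complex.I) * ν s) := by
  refine continuous_of_dominated (bound := fun s => ‖ν s‖) (fun y => ?_) (fun y => ?_) hν.norm ?_
  · exact (Continuous.aestronglyMeasurable (by fun_prop)).mul hν.aestronglyMeasurable
  · refine Filter.Eventually.of_forall fun s => ?_
    rw [norm_mul, Complex.norm_exp_ofReal_mul_I, one_mul]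
  · refine Filter.Eventually.of_forall fun s => ?_
    fun_prop

theorem mult_bdd {ν : ℝ → ℂ} (y : ℝ) :
    ‖∫ s, Complex.exp (((s * y : ℝ) : ℂ) * Complex.I) * ν s‖ ≤ ∫ s, ‖ν s‖ := by
  refine (norm_integral_le_integral_norm _).trans (le_of_eq ?_)
  refine integral_congr_ae (Filter.Eventually.of_forall fun s => ?_)
  dsimp only
  rw [norm_mul, Complex.norm_exp_ofReal_mul_I, one_mul]

theorem mult_int {ν h : ℝ → ℂ} (hν : Integrable ν) (hh : Integrable h) :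
    Integrable (fun y => (∫ s, Complex.exp (((s * y : ℝ) : ℂ) * Complex.I) * ν s) * h y) :=
  hh.bdd_mul (mult_cont hν).aestronglyMeasurable (Filter.Eventually.of_forall mult_bdd)

/-! ### The main part -/

theorem main_part (h1 : S_FIXG) (h3 : S_MULT) {ν₀ : ℝ → ℂ} (hν₀ : Integrable ν₀)
    (hν₀' : ∀ y ∈ Icc (0 : ℝ) 1,
      ∫ s, Complex.exp (((s * y : ℝ) : ℂ) * Complex.I) * ν₀ s = (Real.exp (y ^ 2) : ℂ))
    {q K₁ : ℝ} (hq : 2 < q)
    (hK₁ : ∀ (a B : ℝ) (L : Set ℤ), 0 ≤ a → 0 ≤ B →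
      Lam q a B L → ∀ t : ℝ, 1 ≤ |t| → ∀ g : ℝ → ℂ, Measurable g →
      ∫⁻ y in Icc (0 : ℝ) 1, ‖g y‖ₑ ^ 2 ≠ ∞ →
      (∀ k : ℤ, k ∉ L → ∫ y in Icc (0 : ℝ) 1, ek (-k) y * g y = 0) →
      ∫⁻ x, ‖W (fun y => g (Int.fract y) * (Real.exp (-y ^ 2) : ℂ)) x t‖ₑ ^ q ≤
        ENNReal.ofReal (K₁ * (B * (2 * |t|) ^ a) ^ q * |t| ^ (1 - q / 2)) *
          (∫⁻ y in Icc (0 : ℝ) 1, ‖g y‖ₑ ^ 2) ^ (q / 2))
    {a B : ℝ} {L : Set ℤ} (ha : 0 ≤ a) (hB : 1 ≤ B) (hL : Lam q a B L) {t : ℝ} (ht : 1 ≤ |t|)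
    {g : ℝ → ℂ} (hg : Measurable g) (h0 : ∀ y, y ∉ Icc (0 : ℝ) 1 → g y = 0)
    (h2 : ∫⁻ y, ‖g y‖ₑ ^ 2 ≠ ∞)
    (hs : ∀ k : ℤ, k ∉ L → ∫ y in Icc (0 : ℝ) 1, ek (-k) y * g y = 0)
    {χ : ℝ → ℝ} {ν : ℝ → ℂ} (hχ0 : ∀ y, y ∉ Icc (0 : ℝ) 1 → χ y = 0) (hν : Integrable ν)
    {c : ℝ} (hc : 0 ≤ c) (hνc : ∫⁻ s, ‖ν s‖ₑ ≤ ENNReal.ofReal c)
    (hνχ : ∀ y, ∫ s, Complex.exp (((s * y : ℝ) : ℂ) * Complex.I) * ν s = (χ y : ℂ)) :
    ∫⁻ x, ‖W (fun y => g y * (χ y : ℂ)) x t‖ₑ ^ q ≤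
      ENNReal.ofReal (c ^ q * (∫ s, ‖ν₀ s‖) ^ q * (K₁ * (B * (2 * |t|) ^ a) ^ q *
        |t| ^ (1 - q / 2))) * (∫⁻ y, ‖g y‖ₑ ^ 2) ^ (q / 2) := by
  have hA : ∫⁻ y in Icc (0 : ℝ) 1, ‖g y‖ₑ ^ 2 = ∫⁻ y, ‖g y‖ₑ ^ 2 := by
    rw [← lintegral_indicator measurableSet_Icc]
    refine lintegral_congr fun y => ?_
    by_cases hy : y ∈ Icc (0 : ℝ) 1
    · rw [indicator_of_mem hy]
    · rw [indicator_of_notMem hy, h0 y hy, enorm_zero]
      simp
  have hgi := (integ hg h0 h2).1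
  have hgI : ∫⁻ y in Ico (0 : ℝ) 1, ‖g y‖ₑ ≠ ∞ :=
    ne_top_of_le_ne_top hgi.2.ne (setLIntegral_le_lintegral _ _)
  have hh := int_h hg hgI
  obtain ⟨h, hdef⟩ : ∃ h : ℝ → ℂ, h = fun y => g (Int.fract y) * (Real.exp (-y ^ 2) : ℂ) :=
    ⟨_, rfl⟩
  rw [← hdef] at hh
  have e1 : ∀ x, W (fun y => g y * (χ y : ℂ)) x t =
      W (fun y => (∫ s, Complex.exp (((s * y : ℝ) : ℂ) * Complex.I) * ν s) *
        ((fun y => (∫ s, Complex.exp (((s * y : ℝ) : ℂ) * Complex.I) * ν₀ s) * h y) y)) x t := by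
    intro x
    unfold W
    refine integral_congr_ae ?_
    have h5 : ∀ᵐ y : ℝ, y ≠ 1 := by
      rw [ae_iff]
      simp
    filter_upwards [h5] with y hy1
    congr 1
    rw [hνχ]
    by_cases hy : y ∈ Icc (0 : ℝ) 1
    · rw [hν₀' y hy, hdef]
      dsimp only
      have h6 : Int.fract y = y := Int.fract_eq_self.2 ⟨hy.1, lt_of_le_of_ne hy.2 hy1⟩
      have h7 : (Real.exp (y ^ 2) : ℂ) * (Real.exp (-y ^ 2) : ℂ) = 1 := by
        rw [← Complex.ofReal_mul, ← Real.exp_add, add_neg_cancel, Real.exp_zero,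
          Complex.ofReal_one]
      rw [h6]
      calc g y * (χ y : ℂ) = (χ y : ℂ) * g y * 1 := by ring
        _ = _ := by
          rw [← h7]
          ring
    · rw [hχ0 y hy, Complex.ofReal_zero, mul_zero, zero_mul]
  simp only [e1]
  have f1 := h3 q (by linarith) _ ν (mult_int hν₀ hh) hν t
  have f2 := h3 q (by linarith) h ν₀ hh hν₀ t
  have f3 := hK₁ a B L ha (by linarith) hL t ht g hg (by rw [hA]; exact h2) hs
  rw [← hdef, hA] at f3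
  have f4 : ∫⁻ s, ‖ν₀ s‖ₑ = ENNReal.ofReal (∫ s, ‖ν₀ s‖) :=
    (ofReal_integral_norm_eq_lintegral_enorm hν₀).symm
  have hq0 : 0 ≤ q := by linarith
  refine f1.trans ?_
  calc (∫⁻ s, ‖ν s‖ₑ) ^ q * _ ≤ (ENNReal.ofReal c) ^ q * ((ENNReal.ofReal (∫ s, ‖ν₀ s‖)) ^ q *
        (ENNReal.ofReal (K₁ * (B * (2 * |t|) ^ a) ^ q * |t| ^ (1 - q / 2)) *
          (∫⁻ y, ‖g y‖ₑ ^ 2) ^ (q / 2))) := by
        refine mul_le_mul' (ENNReal.rpow_le_rpow hνc hq0) (f2.trans ?_)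
        rw [f4]
        exact mul_le_mul' le_rfl f3
    _ = _ := by
        rw [ENNReal.ofReal_rpow_of_nonneg hc hq0, ENNReal.ofReal_rpow_of_nonneg
          (integral_nonneg fun s => norm_nonneg _) hq0, ← mul_assoc, ← mul_assoc,
          ← ENNReal.ofReal_mul (by positivity), ← ENNReal.ofReal_mul (by positivity)]

/-! ### Measurability in `x`, sums -/

theorem W_meas {k : ℝ → ℂ} (hk : Measurable k) (t : ℝ) : Measurable (fun x => W k x t) := by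
  unfold W
  have h1 : Measurable (fun z : ℝ × ℝ => ph z.1 t z.2 * k z.2) := by
    refine Measurable.mul ?_ (hk.comp measurable_snd)
    unfold ph
    exact Continuous.measurable (by fun_prop)
  exact (h1.stronglyMeasurable.integral_prod_right').measurable

theorem W_add {k k' : ℝ → ℂ} (hk : Integrable k) (hk' : Integrable k') (x t : ℝ) :
    W (fun y => k y + k' y) x t = W k x t + W k' x t := by
  unfold W
  have h1 : ∀ {k : ℝ → ℂ}, Integrable k → Integrable (fun y => ph x t y * k y) := by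
    intro k hk
    refine hk.bdd_mul (c := 1) (Continuous.aestronglyMeasurable ?_)
      (Filter.Eventually.of_forall fun y => ?_)
    · unfold ph
      fun_prop
    · unfold ph
      have : -((x * y + t * y ^ 2 : ℝ) : ℂ) * Complex.I =
          ((-(x * y + t * y ^ 2) : ℝ) : ℂ) * Complex.I := by push_cast; ring
      rw [this, Complex.norm_exp_ofReal_mul_I]
  rw [← integral_add (h1 hk) (h1 hk')]
  refine integral_congr_ae (Filter.Eventually.of_forall fun y => ?_)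
  dsimp only
  ring

theorem two_parts {q : ℝ} (hq : 1 ≤ q) {k k' : ℝ → ℂ} (hk : Measurable k) (hki : Integrable k)
    (hki' : Integrable k') (t : ℝ) {X Y : ℝ≥0∞} (hX : ∫⁻ x, ‖W k x t‖ₑ ^ q ≤ X)
    (hY : ∫⁻ x, ‖W k' x t‖ₑ ^ q ≤ Y) :
    ∫⁻ x, ‖W (fun y => k y + k' y) x t‖ₑ ^ q ≤ 2 ^ (q - 1) * (X + Y) := by
  have h1 : ∀ x, ‖W (fun y => k y + k' y) x t‖ₑ ^ q ≤
      2 ^ (q - 1) * (‖W k x t‖ₑ ^ q + ‖W k' x t‖ₑ ^ q) := by
    intro x
    rw [W_add hki hki']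
    exact (ENNReal.rpow_le_rpow (enorm_add_le _ _) (by linarith)).trans
      (ENNReal.rpow_add_le_mul_rpow_add_rpow _ _ hq)
  refine (lintegral_mono h1).trans ?_
  have hm : Measurable (fun x => ‖W k x t‖ₑ ^ q) := (W_meas hk t).enorm.pow_const q
  rw [lintegral_const_mul' _ _ (ENNReal.rpow_ne_top_of_nonneg (by linarith) (by norm_num)),
    lintegral_add_left hm]
  exact mul_le_mul' le_rfl (add_le_add hX hY)

/-! ### Real estimates -/

theorem r1 {q T : ℝ} (hq : 2 < q) (hT : 1 ≤ T) :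
    T ^ (1 - q / 2) ≤ 4 ^ (q / 2 - 1) * (2 * (1 + T)) ^ (1 - q / 2) := by
  have h1 : (4 * T) ^ (1 - q / 2) ≤ (2 * (1 + T)) ^ (1 - q / 2) :=
    Real.rpow_le_rpow_of_nonpos (by linarith) (by linarith) (by linarith)
  rw [Real.mul_rpow (by norm_num) (by linarith)] at h1
  have h2 : (4 : ℝ) ^ (q / 2 - 1) * 4 ^ (1 - q / 2) = 1 := by
    rw [← Real.rpow_add (by norm_num)]
    have : q / 2 - 1 + (1 - q / 2) = 0 := by ring
    rw [this, Real.rpow_zero]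
  calc T ^ (1 - q / 2) = (4 : ℝ) ^ (q / 2 - 1) * (4 ^ (1 - q / 2) * T ^ (1 - q / 2)) := by
        rw [← mul_assoc, h2, one_mul]
    _ ≤ _ := mul_le_mul_of_nonneg_left h1 (by positivity)

theorem r2 {q ε T : ℝ} (hq : 0 < q) (hε : 0 < ε) (hT : 1 ≤ T) :
    (1 + Real.log T) ^ q ≤ (1 + q / ε) ^ q * (2 * (1 + T)) ^ ε := by
  have hT0 : 0 < T := by linarith
  have h1 : Real.log T ≤ T ^ (ε / q) / (ε / q) := Real.log_le_rpow_div hT0.le (by positivity)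
  have h2 : 1 ≤ T ^ (ε / q) := Real.one_le_rpow hT (by positivity)
  have h3 : 1 + Real.log T ≤ (1 + q / ε) * T ^ (ε / q) := by
    have h4 : T ^ (ε / q) / (ε / q) = q / ε * T ^ (ε / q) := by field_simp
    rw [h4] at h1
    nlinarith
  have h5 : 0 ≤ Real.log T := Real.log_nonneg hT
  calc (1 + Real.log T) ^ q ≤ ((1 + q / ε) * T ^ (ε / q)) ^ q :=
        Real.rpow_le_rpow (by linarith) h3 hq.le
    _ = (1 + q / ε) ^ q * T ^ ε := by
        rw [Real.mul_rpow (by positivity) (by positivity), ← Real.rpow_mul hT0.le]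
        congr 2
        field_simp
    _ ≤ _ := by
        refine mul_le_mul_of_nonneg_left ?_ (by positivity)
        exact Real.rpow_le_rpow hT0.le (by linarith) hε.le

theorem r3 {q a B T : ℝ} (hq : 0 < q) (ha : 0 ≤ a) (hB : 1 ≤ B) (hT : 1 ≤ T) :
    (B * (2 * T) ^ a) ^ q ≤ B ^ q * (2 * (1 + T)) ^ (q * a) := by
  rw [Real.mul_rpow (by linarith) (by positivity), ← Real.rpow_mul (by linarith), mul_comm a q]
  refine mul_le_mul_of_nonneg_left ?_ (Real.rpow_nonneg (by linarith) _)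
  exact Real.rpow_le_rpow (by linarith) (by linarith) (by positivity)

theorem r4 {q a B ε T : ℝ} (hq : 2 < q) (ha : 0 ≤ a) (hε : 0 < ε) (hB : 1 ≤ B) (hT : 0 ≤ T) :
    (2 * (1 + T)) ^ (1 - q / 2) ≤ B ^ q * (2 * (1 + T)) ^ (1 - q / 2 + q * a + ε) := by
  have h1 : (2 * (1 + T)) ^ (1 - q / 2) ≤ (2 * (1 + T)) ^ (1 - q / 2 + q * a + ε) :=
    Real.rpow_le_rpow_of_exponent_le (by linarith) (by nlinarith [mul_nonneg (by linarith : 0 ≤ q) ha])
  have h2 : 1 ≤ B ^ q := Real.one_le_rpow hB (by linarith)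
  have h3 : 0 ≤ (2 * (1 + T)) ^ (1 - q / 2 + q * a + ε) := Real.rpow_nonneg (by linarith) _
  nlinarith

theorem r5 {q a B ε T C c₀ K₁ : ℝ} (hq : 2 < q) (ha : 0 ≤ a) (hε : 0 < ε) (hB : 1 ≤ B)
    (hT : 1 ≤ T) (hC : 0 ≤ C) (hc₀ : 0 ≤ c₀) (hK₁ : 0 ≤ K₁) :
    (C * (1 + Real.log T)) ^ q * c₀ ^ q * (K₁ * (B * (2 * T) ^ a) ^ q * T ^ (1 - q / 2)) ≤
      (C ^ q * (1 + q / ε) ^ q * c₀ ^ q * K₁ * 4 ^ (q / 2 - 1)) *
        (B ^ q * (2 * (1 + T)) ^ (1 - q / 2 + q * a + ε)) := by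
  have hP : 0 < 2 * (1 + T) := by linarith
  have hlog : 0 ≤ Real.log T := Real.log_nonneg hT
  have e1 : (2 * (1 + T)) ^ (1 - q / 2 + q * a + ε) =
      (2 * (1 + T)) ^ (1 - q / 2) * (2 * (1 + T)) ^ (q * a) * (2 * (1 + T)) ^ ε := by
    rw [Real.rpow_add hP, Real.rpow_add hP]
  have h1 := r1 hq hT
  have h2 := r2 (by linarith : 0 < q) hε hT
  have h3 := r3 (by linarith : 0 < q) ha hB hT
  have hB0 : 0 ≤ B := by linarith
  have hq0 : 0 ≤ q := by linarith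
  have hT0 : 0 ≤ T := by linarith
  calc (C * (1 + Real.log T)) ^ q * c₀ ^ q * (K₁ * (B * (2 * T) ^ a) ^ q * T ^ (1 - q / 2)) =
        C ^ q * (1 + Real.log T) ^ q * c₀ ^ q * (K₁ * (B * (2 * T) ^ a) ^ q *
          T ^ (1 - q / 2)) := by rw [Real.mul_rpow hC (by linarith)]
    _ ≤ C ^ q * ((1 + q / ε) ^ q * (2 * (1 + T)) ^ ε) * c₀ ^ q *
          (K₁ * (B ^ q * (2 * (1 + T)) ^ (q * a)) *
          (4 ^ (q / 2 - 1) * (2 * (1 + T)) ^ (1 - q / 2))) := by gcongr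
    _ = _ := by
        rw [e1]
        ring

theorem r6 {q a B ε T : ℝ} (hq : 2 < q) (ha : 0 ≤ a) (hε : 0 < ε) (hB : 1 ≤ B)
    (hT : 1 ≤ T) : 2 * Real.pi * (2 * (1 / T)) ^ ((q - 2) / 2) ≤
      (2 * Real.pi * 2 ^ ((q - 2) / 2) * 4 ^ (q / 2 - 1)) *
        (B ^ q * (2 * (1 + T)) ^ (1 - q / 2 + q * a + ε)) := by
  have hT0 : 0 < T := by linarith
  have h1 : (1 / T) ^ ((q - 2) / 2) = T ^ (1 - q / 2) := by
    rw [one_div, Real.inv_rpow hT0.le, ← Real.rpow_neg hT0.le]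
    congr 1
    ring
  rw [Real.mul_rpow (by norm_num) (by positivity), h1]
  have h2 := (r1 hq hT).trans (mul_le_mul_of_nonneg_left (r4 hq ha hε hB hT0.le)
    (by positivity : (0 : ℝ) ≤ 4 ^ (q / 2 - 1)))
  have h3 := mul_le_mul_of_nonneg_left h2 (by positivity : 0 ≤ 2 * Real.pi * 2 ^ ((q - 2) / 2))
  calc _ = 2 * Real.pi * 2 ^ ((q - 2) / 2) * T ^ (1 - q / 2) := by ring
    _ ≤ _ := h3
    _ = _ := by ring

theorem r7 {q a B ε T : ℝ} (hq : 2 < q) (ha : 0 ≤ a) (hε : 0 < ε) (hB : 1 ≤ B) (hT : 0 ≤ T)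
    (hT4 : T ≤ 4) : 2 * Real.pi ≤ (2 * Real.pi * 10 ^ (q / 2 - 1)) *
      (B ^ q * (2 * (1 + T)) ^ (1 - q / 2 + q * a + ε)) := by
  have h1 : (10 : ℝ) ^ (1 - q / 2) ≤ (2 * (1 + T)) ^ (1 - q / 2) :=
    Real.rpow_le_rpow_of_nonpos (by linarith) (by linarith) (by linarith)
  have h2 := h1.trans (r4 hq ha hε hB hT)
  have h3 : (10 : ℝ) ^ (q / 2 - 1) * 10 ^ (1 - q / 2) = 1 := by
    rw [← Real.rpow_add (by norm_num)]
    have : q / 2 - 1 + (1 - q / 2) = 0 := by ring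
    rw [this, Real.rpow_zero]
  calc 2 * Real.pi = 2 * Real.pi * (10 ^ (q / 2 - 1) * 10 ^ (1 - q / 2)) := by
        rw [h3, mul_one]
    _ = 2 * Real.pi * 10 ^ (q / 2 - 1) * 10 ^ (1 - q / 2) := by ring
    _ ≤ _ := mul_le_mul_of_nonneg_left h2 (by positivity)

end FIX

theorem t_FIX (h1 : S_FIXG) (h2 : S_TRIV) (h3 : S_MULT) (h4 : S_GINV) (h5 : S_TRAP) : S_FIX := by
  intro q ε hq hε
  obtain ⟨K₁, hK₁0, hK₁⟩ := h1 q hq.le
  obtain ⟨ν₀, hν₀, hν₀'⟩ := h4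
  obtain ⟨C, hC0, hC⟩ := h5
  have hc₀ : 0 ≤ ∫ s, ‖ν₀ s‖ := integral_nonneg fun s => norm_nonneg _
  obtain ⟨M₁, hM₁⟩ : ∃ M₁, M₁ = C ^ q * (1 + q / ε) ^ q * (∫ s, ‖ν₀ s‖) ^ q * K₁ *
    4 ^ (q / 2 - 1) := ⟨_, rfl⟩
  obtain ⟨M₂, hM₂⟩ : ∃ M₂, M₂ = 2 * Real.pi * (2 : ℝ) ^ ((q - 2) / 2) * 4 ^ (q / 2 - 1) :=
    ⟨_, rfl⟩
  obtain ⟨M₃, hM₃⟩ : ∃ M₃, M₃ = 2 * Real.pi * (10 : ℝ) ^ (q / 2 - 1) := ⟨_, rfl⟩
  have hq0 : 0 < q := by linarith
  have hM₁0 : 0 ≤ M₁ := by rw [hM₁]; positivity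
  have hM₂0 : 0 ≤ M₂ := by rw [hM₂]; positivity
  have hM₃0 : 0 < M₃ := by rw [hM₃]; positivity
  refine ⟨2 ^ (q - 1) * (M₁ + M₂) + M₃, by positivity, ?_⟩
  intro a B L ha hB hL t g hg h0 hg2 hs
  obtain ⟨A, hA⟩ : ∃ A, A = ∫⁻ y, ‖g y‖ₑ ^ 2 := ⟨_, rfl⟩
  obtain ⟨Z, hZ⟩ : ∃ Z, Z = B ^ q * (2 * (1 + |t|)) ^ (1 - q / 2 + q * a + ε) := ⟨_, rfl⟩
  have hB0 : 0 ≤ B := by linarith
  have ht0 : 0 ≤ |t| := abs_nonneg t
  have hZ0 : 0 ≤ Z := by rw [hZ]; positivity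
  rw [mul_assoc, ← hZ]
  rw [← hA] at hg2 ⊢
  rcases le_or_gt |t| 4 with ht | ht
  · -- small times
    have f1 := FIX.triv h2 hq hg h0 hg2 hA.symm.le measurableSet_Icc h0 zero_le_one
      (by rw [Real.volume_Icc]; simp) t
    refine f1.trans (mul_le_mul' (ENNReal.ofReal_le_ofReal ?_) le_rfl)
    rw [Real.one_rpow, mul_one]
    have f2 := FIX.r7 hq ha hε hB ht0 ht
    rw [← hM₃, ← hZ] at f2
    have f3 : 0 ≤ 2 ^ (q - 1) * (M₁ + M₂) * Z := by positivity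
    linarith
  · -- large times
    have ht1 : 1 ≤ |t| := by linarith
    have htp : 0 < |t| := by linarith
    have hδ0 : 0 < 1 / |t| := by positivity
    have hδ4 : 1 / |t| < 1 / 4 := one_div_lt_one_div_of_lt (by norm_num) ht
    obtain ⟨χ, ν, c1, c2, c3, c4, c5, c6, c7⟩ := hC (1 / |t|) hδ0 (by linarith)
    rw [one_div_one_div] at c6
    have hlog : 0 ≤ Real.log |t| := Real.log_nonneg ht1
    -- the parts
    have m1 : Measurable (fun y => g y * (χ y : ℂ)) := hg.mul c1.complex_ofReal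
    have m2 : Measurable (fun y => g y * (1 - (χ y : ℂ))) :=
      hg.mul (measurable_const.sub c1.complex_ofReal)
    have z1 : ∀ y, y ∉ Icc (0 : ℝ) 1 → g y * (χ y : ℂ) = 0 := fun y hy => by
      rw [h0 y hy, zero_mul]
    have z2 : ∀ y, y ∉ Icc (0 : ℝ) 1 → g y * (1 - (χ y : ℂ)) = 0 := fun y hy => by
      rw [h0 y hy, zero_mul]
    have b1 : ∫⁻ y, ‖g y * (χ y : ℂ)‖ₑ ^ 2 ≤ A := by
      rw [hA]
      refine lintegral_mono fun y => ?_
      refine pow_le_pow_left' ?_ 2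
      rw [enorm_mul]
      refine mul_le_of_le_one_right' ?_
      rw [← ofReal_norm, Complex.norm_real, Real.norm_of_nonneg (c2 y).1]
      exact ENNReal.ofReal_le_one.2 (c2 y).2
    have b2 : ∫⁻ y, ‖g y * (1 - (χ y : ℂ))‖ₑ ^ 2 ≤ A := by
      rw [hA]
      refine lintegral_mono fun y => ?_
      refine pow_le_pow_left' ?_ 2
      rw [enorm_mul]
      refine mul_le_of_le_one_right' ?_
      have : (1 - (χ y : ℂ)) = ((1 - χ y : ℝ) : ℂ) := by push_cast; rfl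
      rw [this, ← ofReal_norm, Complex.norm_real, Real.norm_of_nonneg (by linarith [(c2 y).2])]
      exact ENNReal.ofReal_le_one.2 (by linarith [(c2 y).1])
    have i1 := (FIX.integ m1 z1 (ne_top_of_le_ne_top hg2 b1)).1
    have i2 := (FIX.integ m2 z2 (ne_top_of_le_ne_top hg2 b2)).1
    have f1 := FIX.main_part h1 h3 hν₀ hν₀' hq hK₁ ha hB hL ht1 hg h0 (by rw [← hA]; exact hg2)
      hs c4 c5 (by positivity : 0 ≤ C * (1 + Real.log |t|)) c6 c7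
    have f2 := FIX.triv h2 hq m2 z2 hg2 b2
      (E := Icc 0 (1 / |t|) ∪ Icc (1 - 1 / |t|) 1)
      (measurableSet_Icc.union measurableSet_Icc)
      (fun y hy => by
        by_cases hy1 : y ∈ Icc (0 : ℝ) 1
        · have hy2 : y ∈ Icc (1 / |t|) (1 - 1 / |t|) := by
            constructor
            · by_contra hlt
              exact hy (Or.inl ⟨hy1.1, (not_le.1 hlt).le⟩)
            · by_contra hlt
              exact hy (Or.inr ⟨(not_le.1 hlt).le, hy1.2⟩)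
          rw [c3 y hy2, Complex.ofReal_one, sub_self, mul_zero]
        · exact z2 y hy1)
      (v := 2 * (1 / |t|)) (by positivity)
      (by
        refine (measure_union_le _ _).trans ?_
        rw [Real.volume_Icc, Real.volume_Icc, ← ENNReal.ofReal_add (by linarith) (by linarith)]
        exact ENNReal.ofReal_le_ofReal (by linarith)) t
    rw [← hA] at f1
    have f3 := FIX.two_parts (by linarith) m1 i1 i2 t f1 f2
    have e1 : (fun y => g y * (χ y : ℂ) + g y * (1 - (χ y : ℂ))) = g := by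
      funext y
      ring
    rw [e1] at f3
    refine f3.trans ?_
    have e2 : (2 : ℝ≥0∞) ^ (q - 1) = ENNReal.ofReal (2 ^ (q - 1)) := by
      rw [← ENNReal.ofReal_rpow_of_pos (by norm_num), ENNReal.ofReal_ofNat]
    rw [e2, ← add_mul, ← mul_assoc]
    refine mul_le_mul' ?_ le_rfl
    rw [← ENNReal.ofReal_add (by positivity) (by positivity), ← ENNReal.ofReal_mul (by positivity)]
    refine ENNReal.ofReal_le_ofReal ?_
    have g1 := FIX.r5 hq ha hε hB ht1 hC0.le hc₀ hK₁0.le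
    have g2 := FIX.r6 hq ha hε hB ht1
    rw [← hM₁, ← hZ] at g1
    rw [← hM₂, ← hZ] at g2
    have g3 : 0 ≤ M₃ * Z := by positivity
    calc _ ≤ 2 ^ (q - 1) * (M₁ * Z + M₂ * Z) :=
          mul_le_mul_of_nonneg_left (add_le_add g1 g2) (by positivity)
      _ ≤ 2 ^ (q - 1) * (M₁ * Z + M₂ * Z) + M₃ * Z := by linarith
      _ = _ := by ring

end Pool.Agent.H243.RL
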