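import Pool.Agent.H243.RL.Stmt

set_option autoImplicit false

/-! Assembly of the Gaussian integral, the sum over the blocks and the density argument. -/

open MeasureTheory Set
open scoped ENNReal

namespace Pool.Agent.H243.RL

namespace FIXG

theorem lint_scale (f : ℝ → ℝ≥0∞) {a : ℝ} (ha : a ≠ 0) :
    ∫⁻ x, f x = ENNReal.ofReal |a| * ∫⁻ v, f (a * v) := by
  have h1 : (volume : Measure ℝ) = ENNReal.ofReal |a| • Measure.map (a * ·) volume :=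
    (Real.smul_map_volume_mul_left ha).symm
  calc ∫⁻ x, f x = ∫⁻ x, f x ∂(ENNReal.ofReal |a| • Measure.map (a * ·) volume) :=
        congrArg (fun μ : Measure ℝ => ∫⁻ x, f x ∂μ) h1
    _ = ENNReal.ofReal |a| * ∫⁻ x, f x ∂(Measure.map (a * ·) volume) :=
        lintegral_smul_measure _ _
    _ = ENNReal.ofReal |a| * ∫⁻ v, f (a * v) := by
        have h2 := lintegral_map_equiv (μ := (volume : Measure ℝ)) f
          (Homeomorph.mulLeft₀ a ha).toMeasurableEquiv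
        have h3 : ∫⁻ x, f x ∂(Measure.map (a * ·) volume) = ∫⁻ v, f (a * v) := h2
        rw [h3]

theorem facts {t : ℝ} (ht : 1 ≤ |t|) : t ≠ 0 ∧ 0 < |t| ∧ |t| ^ 2 = t ^ 2 ∧ 1 ≤ t ^ 2 ∧
    0 < 1 + t ^ 2 := by
  have h0 : 0 < |t| := by linarith
  have h1 : |t| ^ 2 = t ^ 2 := sq_abs t
  have h2 : 1 ≤ t ^ 2 := by rw [← h1]; nlinarith
  exact ⟨abs_pos.1 h0, h0, h1, h2, by linarith⟩

theorem kap_le {t : ℝ} (ht : 1 ≤ |t|) : |Real.pi * t / (1 + t ^ 2)| ≤ 2 ∧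
    Real.pi * t / (1 + t ^ 2) ≠ 0 ∧ 3 / |Real.pi * t / (1 + t ^ 2)| ≤ 2 * |t| := by
  obtain ⟨h0, h1, h2, h3, h4⟩ := facts ht
  have hpi := Real.pi_pos
  have hpi3 := Real.pi_gt_three
  have hpi4 := Real.pi_le_four
  have e : |Real.pi * t / (1 + t ^ 2)| = Real.pi * |t| / (1 + t ^ 2) := by
    rw [abs_div, abs_mul, abs_of_pos hpi, abs_of_pos h4]
  refine ⟨?_, ?_, ?_⟩
  · rw [e, div_le_iff₀ h4]
    have h5 : 0 ≤ (|t| - 1) ^ 2 := sq_nonneg _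
    have h6 : 2 * |t| ≤ 1 + t ^ 2 := by rw [← h2]; nlinarith
    nlinarith
  · exact div_ne_zero (mul_ne_zero hpi.ne' h0) h4.ne'
  · rw [e, div_div_eq_mul_div, div_le_iff₀ (mul_pos hpi h1)]
    have h5 : 2 * |t| * (Real.pi * |t|) = 2 * Real.pi * t ^ 2 := by rw [← h2]; ring
    rw [h5]
    nlinarith

theorem sq_le {q t : ℝ} (hq : 2 ≤ q) (ht : 1 ≤ |t|) :
    Real.sqrt (Real.pi / Real.sqrt (1 + t ^ 2)) ^ q ≤ Real.pi ^ (q / 2) * |t| ^ (-(q / 2)) := by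
  obtain ⟨h0, h1, h2, h3, h4⟩ := facts ht
  have hpi := Real.pi_pos
  have h5 : |t| ≤ Real.sqrt (1 + t ^ 2) := Real.abs_le_sqrt (by linarith)
  have h6 : 0 < Real.sqrt (1 + t ^ 2) := Real.sqrt_pos.2 h4
  have e : Real.sqrt (Real.pi / Real.sqrt (1 + t ^ 2)) ^ q =
      (Real.pi / Real.sqrt (1 + t ^ 2)) ^ (q / 2) := by
    rw [Real.sqrt_eq_rpow, ← Real.rpow_mul (by positivity)]
    congr 1
    ring
  rw [e, Real.rpow_neg h1.le, ← div_eq_mul_inv, ← Real.div_rpow hpi.le h1.le]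
  refine Real.rpow_le_rpow (by positivity) ?_ (by linarith)
  exact div_le_div_of_nonneg_left hpi.le h1 h5

theorem real_ineq {q K1 a B t : ℝ} (hq : 2 ≤ q) (hK1 : 0 < K1) (ha : 0 ≤ a) (hB : 0 ≤ B)
    (ht : 1 ≤ |t|) :
    |2 * (1 + t ^ 2) / t| * (Real.sqrt (Real.pi / Real.sqrt (1 + t ^ 2)) ^ q *
      (K1 * (B * (3 / |Real.pi * t / (1 + t ^ 2)|) ^ a) ^ q)) ≤
    K1 * 4 * Real.pi ^ (q / 2) * (B * (2 * |t|) ^ a) ^ q * |t| ^ (1 - q / 2) := by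
  obtain ⟨h0, h1, h2, h3, h4⟩ := facts ht
  have hpi := Real.pi_pos
  obtain ⟨-, hk0, hk⟩ := kap_le ht
  have a1 : |2 * (1 + t ^ 2) / t| ≤ 4 * |t| := by
    rw [abs_div, abs_mul, abs_two, abs_of_pos h4, div_le_iff₀ h1]
    nlinarith
  have a2 := sq_le hq ht
  have a3 : (B * (3 / |Real.pi * t / (1 + t ^ 2)|) ^ a) ^ q ≤ (B * (2 * |t|) ^ a) ^ q := by
    refine Real.rpow_le_rpow (by positivity) ?_ (by linarith)
    exact mul_le_mul_of_nonneg_left (Real.rpow_le_rpow (by positivity) hk ha) hB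
  have a4 : |t| * |t| ^ (-(q / 2)) = |t| ^ (1 - q / 2) := by
    rw [show 1 - q / 2 = 1 + -(q / 2) by ring, Real.rpow_add h1, Real.rpow_one]
  calc |2 * (1 + t ^ 2) / t| * (Real.sqrt (Real.pi / Real.sqrt (1 + t ^ 2)) ^ q *
      (K1 * (B * (3 / |Real.pi * t / (1 + t ^ 2)|) ^ a) ^ q))
      ≤ (4 * |t|) * ((Real.pi ^ (q / 2) * |t| ^ (-(q / 2))) *
        (K1 * (B * (2 * |t|) ^ a) ^ q)) := by
        refine mul_le_mul a1 ?_ (by positivity) (by positivity)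
        exact mul_le_mul a2 (mul_le_mul_of_nonneg_left a3 hK1.le) (by positivity) (by positivity)
    _ = K1 * 4 * Real.pi ^ (q / 2) * (B * (2 * |t|) ^ a) ^ q * (|t| * |t| ^ (-(q / 2))) := by
        ring
    _ = _ := by rw [a4]

end FIXG

open FIXG in
theorem t_FIXG (h1 : S_GAUSS) (h2 : S_SUM) (h3 : S_DENS) : S_FIXG := by
  intro q hq
  obtain ⟨K1, hK1, hs⟩ := h2 q hq
  have hpi := Real.pi_pos
  have hq0 : 0 < q := by linarith
  refine ⟨K1 * 4 * Real.pi ^ (q / 2), by positivity, ?_⟩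
  intro a B L ha hB hL t ht g hg hg2 hgL
  obtain ⟨t0, t1, t2, t3, t4⟩ := facts ht
  obtain ⟨k1, k2, k3⟩ := kap_le ht
  refine h3 q _ L t hq0 ENNReal.ofReal_ne_top ?_ g hg hg2 hgL
  intro S c hSL
  obtain ⟨c', hc', hv⟩ := h1 t t0 S c
  have hlam : 2 * (1 + t ^ 2) / t ≠ 0 := div_ne_zero (mul_ne_zero two_ne_zero t4.ne') t0
  have hα1 : 1 ≤ (1 + t ^ 2) / t ^ 2 := by
    rw [le_div_iff₀ (by linarith)]
    linarith
  have hα2 : (1 + t ^ 2) / t ^ 2 ≤ 2 := by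
    rw [div_le_iff₀ (by linarith)]
    linarith
  have hsum := hs a B L ha hB hL ((1 + t ^ 2) / t ^ 2) (Real.pi * t / (1 + t ^ 2)) hα1 hα2 k2 k1 S
    c' hSL
  have hcc : ∑ k ∈ S, ‖c' k‖ₑ ^ 2 = ∑ k ∈ S, ‖c k‖ₑ ^ 2 := by
    refine Finset.sum_congr rfl fun k _ => ?_
    rw [← ofReal_norm, ← ofReal_norm, hc' k]
  rw [hcc] at hsum
  have hpt : ∀ v : ℝ, ‖W (fun y => (∑ k ∈ S, c k * ek k y) * (Real.exp (-y ^ 2) : ℂ))
      (2 * (1 + t ^ 2) / t * v) t‖ₑ ^ q =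
      ENNReal.ofReal (Real.sqrt (Real.pi / Real.sqrt (1 + t ^ 2)) ^ q) *
      ‖∑ k ∈ S, c' k * ek k (-v) *
        (Real.exp (-((1 + t ^ 2) / t ^ 2 * (v - Real.pi * t / (1 + t ^ 2) * k) ^ 2)) : ℂ)‖ₑ ^ q := by
    intro v
    have e1 : 2 * (1 + t ^ 2) / t * v = 2 * v * (1 + t ^ 2) / t := by ring
    rw [e1, ← ofReal_norm, hv v, ENNReal.ofReal_mul (Real.sqrt_nonneg _),
      ENNReal.mul_rpow_of_nonneg _ _ hq0.le, ofReal_norm,
      ENNReal.ofReal_rpow_of_nonneg (Real.sqrt_nonneg _) hq0.le]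
  rw [lint_scale _ hlam, lintegral_congr hpt, lintegral_const_mul' _ _ ENNReal.ofReal_ne_top]
  calc ENNReal.ofReal |2 * (1 + t ^ 2) / t| *
        (ENNReal.ofReal (Real.sqrt (Real.pi / Real.sqrt (1 + t ^ 2)) ^ q) *
        ∫⁻ v, ‖∑ k ∈ S, c' k * ek k (-v) *
          (Real.exp (-((1 + t ^ 2) / t ^ 2 * (v - Real.pi * t / (1 + t ^ 2) * k) ^ 2)) : ℂ)‖ₑ ^ q)
      ≤ ENNReal.ofReal |2 * (1 + t ^ 2) / t| *
        (ENNReal.ofReal (Real.sqrt (Real.pi / Real.sqrt (1 + t ^ 2)) ^ q) *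
        (ENNReal.ofReal (K1 * (B * (3 / |Real.pi * t / (1 + t ^ 2)|) ^ a) ^ q) *
          (∑ k ∈ S, ‖c k‖ₑ ^ 2) ^ (q / 2))) := by
        gcongr
    _ = ENNReal.ofReal (|2 * (1 + t ^ 2) / t| *
        (Real.sqrt (Real.pi / Real.sqrt (1 + t ^ 2)) ^ q *
        (K1 * (B * (3 / |Real.pi * t / (1 + t ^ 2)|) ^ a) ^ q))) *
          (∑ k ∈ S, ‖c k‖ₑ ^ 2) ^ (q / 2) := by
        rw [ENNReal.ofReal_mul (abs_nonneg _), ENNReal.ofReal_mul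
          (p := Real.sqrt (Real.pi / Real.sqrt (1 + t ^ 2)) ^ q) (by positivity)]
        simp only [mul_assoc]
    _ ≤ _ := mul_le_mul' (ENNReal.ofReal_le_ofReal (real_ineq hq hK1 ha hB ht)) le_rfl

end Pool.Agent.H243.RL
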