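import Pool.Agent.H243.RL.Stmt
set_option autoImplicit false

namespace Pool.Agent.H243.RL

open MeasureTheory Set
open scoped ENNReal

namespace FOUR

theorem meas_joint {g : ℝ → ℂ} (hg : Measurable g) :
    Measurable (fun p : ℝ × ℝ => ∫ u, g (p.2 / 2 + u) * g (p.2 / 2 - u) *
      Complex.exp (-((2 * p.1 * u ^ 2 : ℝ) : ℂ) * Complex.I)) := by
  have h : Measurable (fun q : (ℝ × ℝ) × ℝ => g (q.1.2 / 2 + q.2) * g (q.1.2 / 2 - q.2) *
      Complex.exp (-((2 * q.1.1 * q.2 ^ 2 : ℝ) : ℂ) * Complex.I)) := by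
    have h1 : Measurable (fun q : (ℝ × ℝ) × ℝ => g (q.1.2 / 2 + q.2)) :=
      hg.comp (by fun_prop)
    have h2 : Measurable (fun q : (ℝ × ℝ) × ℝ => g (q.1.2 / 2 - q.2)) :=
      hg.comp (by fun_prop)
    have h3 : Measurable (fun q : (ℝ × ℝ) × ℝ =>
        Complex.exp (-((2 * q.1.1 * q.2 ^ 2 : ℝ) : ℂ) * Complex.I)) := by
      fun_prop
    exact (h1.mul h2).mul h3
  exact (h.stronglyMeasurable.integral_prod_right' (ν := volume)).measurable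

theorem vanish {g : ℝ → ℂ} (hs : ∀ y, y ∉ Icc (0 : ℝ) 1 → g y = 0) (s u : ℝ)
    (hu : u ∉ Icc (-1 : ℝ) 1) : g (s / 2 + u) * g (s / 2 - u) = 0 := by
  by_contra hne
  have h1 : s / 2 + u ∈ Icc (0 : ℝ) 1 := by
    by_contra hc
    exact hne (by rw [hs _ hc, zero_mul])
  have h2 : s / 2 - u ∈ Icc (0 : ℝ) 1 := by
    by_contra hc
    exact hne (by rw [hs _ hc, mul_zero])
  exact hu ⟨by linarith [h1.1, h2.2], by linarith [h1.2, h2.1]⟩

end FOUR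

open FOUR in
theorem t_FOUR (h1 : S_FOURFIX) (h2 : S_TIME) (h3 : S_SCHUR) : S_FOUR := by
  obtain ⟨C1, hC1, h2⟩ := h2
  obtain ⟨C2, hC2, h3⟩ := h3
  refine ⟨2 * Real.pi * (C1 * C2), by positivity, ?_⟩
  rintro T hT g hg ⟨B, hB⟩ hs
  have hlog : 0 ≤ Real.log T := Real.log_nonneg hT
  have hB0 : 0 ≤ B := (norm_nonneg _).trans (hB 0)
  -- the fixed time bound
  have s1 : ∫⁻ t in Icc (-T) T, ∫⁻ x, ‖W g x t‖ₑ ^ 4 ≤
      ENNReal.ofReal (2 * Real.pi) * ∫⁻ t in Icc (-T) T, ∫⁻ s, ‖∫ u, g (s / 2 + u) *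
        g (s / 2 - u) * Complex.exp (-((2 * t * u ^ 2 : ℝ) : ℂ) * Complex.I)‖ₑ ^ 2 := by
    rw [← lintegral_const_mul' _ _ ENNReal.ofReal_ne_top]
    exact lintegral_mono fun t => h1 g hg ⟨B, hB⟩ hs t
  -- Tonelli
  have s2 : ∫⁻ t in Icc (-T) T, ∫⁻ s, ‖∫ u, g (s / 2 + u) * g (s / 2 - u) *
        Complex.exp (-((2 * t * u ^ 2 : ℝ) : ℂ) * Complex.I)‖ₑ ^ 2 =
      ∫⁻ s, ∫⁻ t in Icc (-T) T, ‖∫ u, g (s / 2 + u) * g (s / 2 - u) *
        Complex.exp (-((2 * t * u ^ 2 : ℝ) : ℂ) * Complex.I)‖ₑ ^ 2 := by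
    refine lintegral_lintegral_swap (f := fun t s => ‖∫ u, g (s / 2 + u) * g (s / 2 - u) *
        Complex.exp (-((2 * t * u ^ 2 : ℝ) : ℂ) * Complex.I)‖ₑ ^ 2) ?_
    exact ((meas_joint hg).enorm.pow_const 2).aemeasurable
  -- the bound in time
  have s3 : ∫⁻ s, ∫⁻ t in Icc (-T) T, ‖∫ u, g (s / 2 + u) * g (s / 2 - u) *
        Complex.exp (-((2 * t * u ^ 2 : ℝ) : ℂ) * Complex.I)‖ₑ ^ 2 ≤
      ENNReal.ofReal C1 * ∫⁻ s, ∫⁻ u, ENNReal.ofReal ((|u| + 1 / T)⁻¹) *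
        (‖g (s / 2 + u)‖ₑ * ‖g (s / 2 - u)‖ₑ) ^ 2 := by
    rw [← lintegral_const_mul' _ _ ENNReal.ofReal_ne_top]
    refine lintegral_mono fun s => ?_
    have hG : Measurable (fun u : ℝ => g (s / 2 + u) * g (s / 2 - u)) :=
      (hg.comp (by fun_prop)).mul (hg.comp (by fun_prop))
    have := h2 T hT (fun u => g (s / 2 + u) * g (s / 2 - u)) hG
      ⟨B * B, fun u => by
        rw [norm_mul]
        exact mul_le_mul (hB _) (hB _) (norm_nonneg _) hB0⟩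
      (fun u hu => vanish hs s u hu)
    simp only [enorm_mul] at this ⊢
    exact this
  -- Schur's test
  have s4 := h3 T hT (fun y => ‖g y‖ₑ) hg.enorm (fun y hy => by rw [hs y hy, enorm_zero])
  calc ∫⁻ t in Icc (-T) T, ∫⁻ x, ‖W g x t‖ₑ ^ 4
      ≤ ENNReal.ofReal (2 * Real.pi) * (ENNReal.ofReal C1 *
          (ENNReal.ofReal (C2 * (1 + Real.log T)) * ∫⁻ y, ‖g y‖ₑ ^ 4)) := by
        refine s1.trans ?_
        rw [s2]
        gcongr
        refine s3.trans ?_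
        gcongr
    _ = ENNReal.ofReal (2 * Real.pi * (C1 * C2) * (1 + Real.log T)) * ∫⁻ y, ‖g y‖ₑ ^ 4 := by
        rw [← mul_assoc, ← mul_assoc, ← ENNReal.ofReal_mul (by positivity),
          ← ENNReal.ofReal_mul (by positivity)]
        congr 2
        ring

end Pool.Agent.H243.RL
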