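import Pool.Agent.H243.RL.Stmt
set_option autoImplicit false

open MeasureTheory Set
open scoped ENNReal Convolution

namespace Pool.Agent.H243.RL

namespace FOURFIX

/-- the modulated function -/
noncomputable def HH (g : ℝ → ℂ) (t y : ℝ) : ℂ := Complex.exp (-((t * y ^ 2 : ℝ) : ℂ) * Complex.I) * g y

theorem norm_ex (a : ℝ) : ‖Complex.exp (-((a : ℝ) : ℂ) * Complex.I)‖ = 1 := by
  have : (-((a : ℝ) : ℂ) * Complex.I) = ((-a : ℝ) : ℂ) * Complex.I := by push_cast; ring
  rw [this, Complex.norm_exp_ofReal_mul_I]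

theorem norm_HH (g : ℝ → ℂ) (t y : ℝ) : ‖HH g t y‖ = ‖g y‖ := by
  unfold HH
  rw [norm_mul, norm_ex, one_mul]

theorem int_of {f : ℝ → ℂ} (hm : Measurable f) {B : ℝ} (hB : ∀ y, ‖f y‖ ≤ B)
    (h0 : ∀ y, y ∉ Icc (0 : ℝ) 1 → f y = 0) : Integrable f := by
  have h1 : IntegrableOn f (Icc (0:ℝ) 1) := by
    apply Measure.integrableOn_of_bounded (M := B)
    · exact (measure_Icc_lt_top).ne
    · exact hm.aestronglyMeasurable
    · exact Filter.Eventually.of_forall hB
  rw [integrableOn_iff_integrable_of_support_subset] at h1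
  · exact h1
  · intro y hy
    by_contra hc
    exact hy (h0 y hc)

theorem memLp2 {f : ℝ → ℂ} (hi : Integrable f) {B : ℝ} (hB : ∀ y, ‖f y‖ ≤ B) : MemLp f 2 := by
  rw [memLp_two_iff_integrable_sq_norm hi.aestronglyMeasurable]
  refine (hi.norm.const_mul B).mono' (hi.aestronglyMeasurable.norm.pow 2) ?_
  refine Filter.Eventually.of_forall (fun y => ?_)
  rw [Real.norm_of_nonneg (by positivity), sq]
  exact mul_le_mul_of_nonneg_right (hB y) (norm_nonneg _)

end FOURFIX

open FOURFIX in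
theorem t_FOURFIX (hPL : S_PL) : S_FOURFIX := by
  intro g hg hBg h0 t
  obtain ⟨B, hB⟩ := hBg
  have hB0 : 0 ≤ B := (norm_nonneg _).trans (hB 0)
  set H : ℝ → ℂ := HH g t with hH
  have hHm : Measurable H := by
    have : H = fun y => Complex.exp (-((t * y ^ 2 : ℝ) : ℂ) * Complex.I) * g y := rfl
    rw [this]
    exact (by fun_prop : Measurable fun y : ℝ => Complex.exp (-((t * y ^ 2 : ℝ) : ℂ) * Complex.I)).mul hg
  have hHB : ∀ y, ‖H y‖ ≤ B := fun y => by rw [hH, norm_HH]; exact hB y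
  have hH0 : ∀ y, y ∉ Icc (0 : ℝ) 1 → H y = 0 := fun y hy => by
    show HH g t y = 0
    unfold HH
    rw [h0 y hy, mul_zero]
  have hHi : Integrable H := int_of hHm hHB hH0
  -- the convolution
  set k : ℝ → ℂ := fun s => ∫ y, H y * H (s - y) with hk
  have hkc : k = H ⋆[ContinuousLinearMap.mul ℝ ℂ] H := by
    ext s
    rfl
  have hki : Integrable k := by
    rw [hkc]
    exact hHi.integrable_convolution _ hHi
  have hkB : ∀ s, ‖k s‖ ≤ B * ∫ y, ‖H y‖ := by
    intro s
    calc ‖k s‖ ≤ ∫ y, ‖H y * H (s - y)‖ := norm_integral_le_integral_norm _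
      _ ≤ ∫ y, B * ‖H y‖ := by
          apply integral_mono_of_nonneg
          · exact Filter.Eventually.of_forall (fun y => norm_nonneg _)
          · exact hHi.norm.const_mul B
          · refine Filter.Eventually.of_forall (fun y => ?_)
            show ‖H y * H (s - y)‖ ≤ B * ‖H y‖
            rw [norm_mul, mul_comm]
            exact mul_le_mul_of_nonneg_right (hHB _) (norm_nonneg _)
      _ = _ := integral_const_mul _ _
  have hk2 : MemLp k 2 := memLp2 hki hkB
  -- the square
  have hsq : ∀ x : ℝ, W g x t ^ 2 =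
      ∫ s, Complex.exp (-((x * s : ℝ) : ℂ) * Complex.I) * k s := by
    intro x
    set ψ : ℝ → ℂ := fun y => Complex.exp (-((x * y : ℝ) : ℂ) * Complex.I) * H y with hψ
    have hψm : Measurable ψ :=
      (by fun_prop : Measurable fun y : ℝ => Complex.exp (-((x * y : ℝ) : ℂ) * Complex.I)).mul hHm
    have hψi : Integrable ψ := by
      refine int_of hψm (B := B) (fun y => ?_) (fun y hy => ?_)
      · show ‖Complex.exp (-((x * y : ℝ) : ℂ) * Complex.I) * H y‖ ≤ B
        rw [norm_mul, norm_ex, one_mul]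
        exact hHB y
      · show Complex.exp (-((x * y : ℝ) : ℂ) * Complex.I) * H y = 0
        rw [hH0 y hy, mul_zero]
    have h1 : W g x t = ∫ y, ψ y := by
      unfold W
      refine integral_congr_ae (Filter.Eventually.of_forall (fun y => ?_))
      show ph x t y * g y = Complex.exp (-((x * y : ℝ) : ℂ) * Complex.I) * HH g t y
      unfold ph HH
      rw [← mul_assoc, ← Complex.exp_add]
      congr 2
      push_cast
      ring
    have h2 := integral_convolution (ContinuousLinearMap.mul ℝ ℂ) hψi hψi (μ := volume) (ν := volume)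
    rw [h1, sq]
    have h3 : (ContinuousLinearMap.mul ℝ ℂ) (∫ y, ψ y) (∫ y, ψ y) = (∫ y, ψ y) * ∫ y, ψ y := rfl
    rw [← h3, ← h2]
    refine integral_congr_ae (Filter.Eventually.of_forall (fun s => ?_))
    show (∫ y, ψ y * ψ (s - y)) = Complex.exp (-((x * s : ℝ) : ℂ) * Complex.I) * ∫ y, H y * H (s - y)
    rw [← integral_const_mul]
    refine integral_congr_ae (Filter.Eventually.of_forall (fun y => ?_))
    show Complex.exp (-((x * y : ℝ) : ℂ) * Complex.I) * H y *
      (Complex.exp (-((x * (s - y) : ℝ) : ℂ) * Complex.I) * H (s - y)) =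
      Complex.exp (-((x * s : ℝ) : ℂ) * Complex.I) * (H y * H (s - y))
    have h4 : Complex.exp (-((x * s : ℝ) : ℂ) * Complex.I) =
        Complex.exp (-((x * y : ℝ) : ℂ) * Complex.I) * Complex.exp (-((x * (s - y) : ℝ) : ℂ) * Complex.I) := by
      rw [← Complex.exp_add]
      congr 1
      push_cast
      ring
    rw [h4]
    ring
  -- the coefficient
  have hks : ∀ s : ℝ, ‖k s‖ₑ = ‖∫ u, g (s / 2 + u) * g (s / 2 - u) *
      Complex.exp (-((2 * t * u ^ 2 : ℝ) : ℂ) * Complex.I)‖ₑ := by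
    intro s
    have h1 : k s = Complex.exp (-((t * s ^ 2 / 2 : ℝ) : ℂ) * Complex.I) *
        ∫ u, g (s / 2 + u) * g (s / 2 - u) *
          Complex.exp (-((2 * t * u ^ 2 : ℝ) : ℂ) * Complex.I) := by
      show (∫ y, H y * H (s - y)) = _
      rw [← integral_add_left_eq_self (fun y => H y * H (s - y)) (s / 2), ← integral_const_mul]
      refine integral_congr_ae (Filter.Eventually.of_forall (fun u => ?_))
      show HH g t (s / 2 + u) * HH g t (s - (s / 2 + u)) = _
      have e1 : s - (s / 2 + u) = s / 2 - u := by ring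
      rw [e1]
      unfold HH
      have h4 : Complex.exp (-((t * s ^ 2 / 2 : ℝ) : ℂ) * Complex.I) *
          Complex.exp (-((2 * t * u ^ 2 : ℝ) : ℂ) * Complex.I) =
          Complex.exp (-((t * (s / 2 + u) ^ 2 : ℝ) : ℂ) * Complex.I) *
            Complex.exp (-((t * (s / 2 - u) ^ 2 : ℝ) : ℂ) * Complex.I) := by
        rw [← Complex.exp_add, ← Complex.exp_add]
        congr 1
        push_cast
        ring
      calc Complex.exp (-((t * (s / 2 + u) ^ 2 : ℝ) : ℂ) * Complex.I) * g (s / 2 + u) *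
            (Complex.exp (-((t * (s / 2 - u) ^ 2 : ℝ) : ℂ) * Complex.I) * g (s / 2 - u))
          = (Complex.exp (-((t * (s / 2 + u) ^ 2 : ℝ) : ℂ) * Complex.I) *
            Complex.exp (-((t * (s / 2 - u) ^ 2 : ℝ) : ℂ) * Complex.I)) *
              (g (s / 2 + u) * g (s / 2 - u)) := by ring
        _ = _ := by rw [← h4]; ring
    rw [h1, enorm_mul]
    have h5 : ‖Complex.exp (-((t * s ^ 2 / 2 : ℝ) : ℂ) * Complex.I)‖ₑ = 1 := by
      rw [← ofReal_norm, norm_ex, ENNReal.ofReal_one]
    rw [h5, one_mul]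
  calc ∫⁻ x, ‖W g x t‖ₑ ^ 4 = ∫⁻ x, ‖∫ s, Complex.exp (-((x * s : ℝ) : ℂ) * Complex.I) * k s‖ₑ ^ 2 := by
        refine lintegral_congr (fun x => ?_)
        rw [← hsq x, enorm_pow, ← pow_mul]
    _ = ENNReal.ofReal (2 * Real.pi) * ∫⁻ s, ‖k s‖ₑ ^ 2 := hPL k hki hk2
    _ = _ := by
        congr 1
        refine lintegral_congr (fun s => ?_)
        rw [hks s]
    _ ≤ _ := le_rfl

end Pool.Agent.H243.RL

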