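import Pool.Agent.H243.RL.Stmt3
set_option autoImplicit false

/-! The bound at a fixed time for averages (by helper864 for helper243). -/

open MeasureTheory Set
open scoped ENNReal

namespace Pool.Agent.H243.RL

namespace FX

theorem adm_int {F : ℝ → ℂ} (hF : Adm F) : Integrable F := by
  obtain ⟨hm, hs, h2⟩ := hF
  refine ⟨hm.aestronglyMeasurable, ?_⟩
  unfold HasFiniteIntegral
  have hle : ∀ y, ‖F y‖ₑ ≤ (Icc (-1 : ℝ) 2).indicator (fun _ => (1 : ℝ≥0∞)) y + ‖F y‖ₑ ^ 2 := by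
    intro y
    by_cases hy : y ∈ Icc (-1 : ℝ) 2
    · rw [indicator_of_mem hy]
      rcases le_total ‖F y‖ₑ 1 with h | h
      · exact h.trans le_self_add
      · refine le_trans ?_ le_add_self
        calc ‖F y‖ₑ = ‖F y‖ₑ * 1 := (mul_one _).symm
          _ ≤ ‖F y‖ₑ * ‖F y‖ₑ := by gcongr
          _ = ‖F y‖ₑ ^ 2 := (sq _).symm
    · rw [hs y hy]
      simp
  calc ∫⁻ y, ‖F y‖ₑ ≤ ∫⁻ y, ((Icc (-1 : ℝ) 2).indicator (fun _ => (1 : ℝ≥0∞)) y + ‖F y‖ₑ ^ 2) :=
        lintegral_mono hle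
    _ = (∫⁻ y, (Icc (-1 : ℝ) 2).indicator (fun _ => (1 : ℝ≥0∞)) y) + ∫⁻ y, ‖F y‖ₑ ^ 2 := by
        rw [lintegral_add_left]
        exact measurable_const.indicator measurableSet_Icc
    _ < ∞ := by
        rw [lintegral_indicator_const measurableSet_Icc]
        refine ENNReal.add_lt_top.mpr ⟨?_, lt_top_iff_ne_top.mpr h2⟩
        simp

theorem av_meas {F : ℝ → ℂ} (hF : Measurable F) (δ : ℝ) : Measurable (av δ F) := by
  have h1 : Measurable (fun p : ℝ × ℝ => F (p.1 - δ * p.2)) :=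
    hF.comp (measurable_fst.sub (measurable_const.mul measurable_snd))
  have h2 : StronglyMeasurable (fun y : ℝ => ∫ u in Icc (0 : ℝ) 1, F (y - δ * u)) :=
    (h1.stronglyMeasurable).integral_prod_right (ν := volume.restrict (Icc (0 : ℝ) 1))
  exact h2.measurable

theorem ph_cont (t : ℝ) : Continuous (fun p : ℝ × ℝ => ph p.1 t p.2) := by
  unfold ph
  fun_prop

theorem norm_ph (x t y : ℝ) : ‖ph x t y‖ = 1 := by
  unfold ph
  have h : -((x * y + t * y ^ 2 : ℝ) : ℂ) * Complex.I =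
      ((-(x * y + t * y ^ 2) : ℝ) : ℂ) * Complex.I := by
    push_cast
    ring
  rw [h, Complex.norm_exp_ofReal_mul_I]

theorem W_meas {h : ℝ → ℂ} (hh : Measurable h) (t : ℝ) : Measurable (fun x => W h x t) := by
  have h1 : Measurable (fun p : ℝ × ℝ => ph p.1 t p.2 * h p.2) :=
    (ph_cont t).measurable.mul (hh.comp measurable_snd)
  have h2 : StronglyMeasurable (fun x : ℝ => ∫ y, ph x t y * h y) :=
    (h1.stronglyMeasurable).integral_prod_right (ν := volume)
  exact h2.measurable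

theorem slice_int {F : ℝ → ℂ} (hF : Integrable F) {δ : ℝ} (hδ : δ ≠ 0) (y : ℝ) :
    Integrable (fun u => F (y - δ * u)) := by
  have h1 : Integrable (fun v => F (y - v)) := hF.comp_sub_left y
  exact h1.comp_mul_left' hδ

theorem av_add {F G : ℝ → ℂ} (hF : Integrable F) (hG : Integrable G) {δ : ℝ} (hδ : δ ≠ 0) :
    av δ (fun y => F y + G y) = fun y => av δ F y + av δ G y := by
  funext y
  unfold av
  exact integral_add (slice_int hF hδ y).integrableOn (slice_int hG hδ y).integrableOn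

theorem av_int {F : ℝ → ℂ} (hF : Integrable F) (hm : Measurable F) (δ : ℝ) :
    Integrable (av δ F) := by
  have h1 : Measurable (fun p : ℝ × ℝ => F (p.1 - δ * p.2)) :=
    hm.comp (measurable_fst.sub (measurable_const.mul measurable_snd))
  have h2 : Integrable (fun p : ℝ × ℝ => F (p.1 - δ * p.2))
      ((volume : Measure ℝ).prod (volume.restrict (Icc (0 : ℝ) 1))) := by
    rw [integrable_prod_iff' h1.aestronglyMeasurable]
    refine ⟨Filter.Eventually.of_forall fun u => hF.comp_sub_right (δ * u), ?_⟩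
    have h3 : (fun u : ℝ => ∫ x, ‖F (x - δ * u)‖) = fun _ => ∫ x, ‖F x‖ := by
      funext u
      exact integral_sub_right_eq_self (fun x => ‖F x‖) (δ * u)
    show Integrable (fun u : ℝ => ∫ x, ‖F (x - δ * u)‖) (volume.restrict (Icc (0 : ℝ) 1))
    rw [h3]
    exact integrable_const _
  exact h2.integral_prod_left

theorem W_add {h g : ℝ → ℂ} (hh : Integrable h) (hg : Integrable g) (x t : ℝ) :
    W (fun y => h y + g y) x t = W h x t + W g x t := by
  unfold W
  have hc : Continuous (fun y => ph x t y) := (ph_cont t).comp (by fun_prop : Continuous fun y : ℝ => (x, y))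
  have h1 : Integrable (fun y => ph x t y * h y) :=
    hh.bdd_mul hc.aestronglyMeasurable (c := 1)
      (Filter.Eventually.of_forall fun y => (norm_ph x t y).le)
  have h2 : Integrable (fun y => ph x t y * g y) :=
    hg.bdd_mul hc.aestronglyMeasurable (c := 1)
      (Filter.Eventually.of_forall fun y => (norm_ph x t y).le)
  rw [← integral_add h1 h2]
  congr 1
  funext y
  ring

theorem log_bound {q ε : ℝ} (hq : 2 < q) (hε : 0 < ε) {s : ℝ} (hs : 1 ≤ s) :
    (1 + Real.log s) ^ (q - 2) ≤ (1 + (q - 2) / ε) ^ (q - 2) * s ^ ε := by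
  have hq' : 0 < q - 2 := by linarith
  set a := ε / (q - 2) with ha
  have ha0 : 0 < a := div_pos hε hq'
  have h1 : Real.log s ≤ s ^ a / a := Real.log_le_rpow_div (by linarith) ha0
  have h2 : 1 ≤ s ^ a := Real.one_le_rpow hs ha0.le
  have h3 : 0 ≤ Real.log s := Real.log_nonneg hs
  have h4 : 1 + Real.log s ≤ (1 + (q - 2) / ε) * s ^ a := by
    have h5 : s ^ a / a = (q - 2) / ε * s ^ a := by
      rw [ha]
      field_simp
    rw [h5] at h1
    linarith
  have h0 : 0 ≤ 1 + (q - 2) / ε := by positivity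
  calc (1 + Real.log s) ^ (q - 2) ≤ ((1 + (q - 2) / ε) * s ^ a) ^ (q - 2) :=
        Real.rpow_le_rpow (by linarith) h4 hq'.le
    _ = (1 + (q - 2) / ε) ^ (q - 2) * (s ^ a) ^ (q - 2) :=
        Real.mul_rpow h0 (by positivity)
    _ = (1 + (q - 2) / ε) ^ (q - 2) * s ^ ε := by
        rw [← Real.rpow_mul (by linarith)]
        congr 2
        rw [ha]
        field_simp

end FX

open FX in
theorem t_FX (h1 : S_KB) (h2 : S_MZ) (h3 : S_AV2) : S_FX := by
  intro q ε hq hε
  obtain ⟨A, hA, hKB⟩ := h1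
  obtain ⟨B, hB, hMZ⟩ := h2 q hq
  have hq' : 0 < q - 2 := by linarith
  refine ⟨B * (2 * Real.pi) * A ^ (q - 2) * (1 + (q - 2) / ε) ^ (q - 2), by positivity, ?_⟩
  intro t ht δ hδ hδ1 F hF
  have ht0 : 0 < |t| := by linarith
  have hlog : 0 ≤ Real.log |t| := Real.log_nonneg ht
  set X : ℝ := |t| ^ (-(1 / 2 : ℝ)) + 1 / (δ * |t|) with hX
  have hX0 : 0 < X := by positivity
  set M : ℝ := A * (X * (1 + Real.log |t|)) with hM
  have hM0 : 0 < M := by positivity
  have hmain := hMZ (fun F x => W (av δ F) x t) M (2 * Real.pi) hM0 (by positivity)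
    (fun F hF => W_meas (av_meas hF.1 δ) t)
    (fun F G hF hG x => by
      show ‖W (av δ (fun y => F y + G y)) x t‖ ≤ ‖W (av δ F) x t‖ + ‖W (av δ G) x t‖
      rw [av_add (adm_int hF) (adm_int hG) hδ.ne',
        W_add (av_int (adm_int hF) hF.1 δ) (av_int (adm_int hG) hG.1 δ)]
      exact norm_add_le _ _)
    (fun F m hF hm hb x => hKB t ht δ hδ hδ1 F m hF.1 hm hb hF.2.1 x)
    (fun F hF => h3 F hF δ hδ hδ1 t) F hF
  refine hmain.trans (mul_le_mul' (ENNReal.ofReal_le_ofReal ?_) le_rfl)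
  have e1 : M ^ (q - 2) = A ^ (q - 2) * (X ^ (q - 2) * (1 + Real.log |t|) ^ (q - 2)) := by
    rw [hM, Real.mul_rpow hA.le (by positivity), Real.mul_rpow hX0.le (by positivity)]
  rw [e1]
  have e2 := log_bound hq hε ht
  calc B * (2 * Real.pi) * (A ^ (q - 2) * (X ^ (q - 2) * (1 + Real.log |t|) ^ (q - 2)))
      ≤ B * (2 * Real.pi) * (A ^ (q - 2) * (X ^ (q - 2) *
        ((1 + (q - 2) / ε) ^ (q - 2) * |t| ^ ε))) := by gcongr
    _ = B * (2 * Real.pi) * A ^ (q - 2) * (1 + (q - 2) / ε) ^ (q - 2) * X ^ (q - 2) * |t| ^ ε := by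
        ring

end Pool.Agent.H243.RL
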