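import Mathlib
set_option autoImplicit false

open MeasureTheory Set
open scoped ENNReal

namespace Pool.Agent.H243.RL

/-- the variation of an indicator function of an interval -/
def S_ARC : Prop := ∀ (I : Set ℝ) (c : ℂ), I.OrdConnected →
  eVariationOn (I.indicator fun _ => c) univ ≤ 2 * ‖c‖ₑ

end Pool.Agent.H243.RL
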