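import Mathlib
import Pool.Agent.H243.RL.Stmt
set_option autoImplicit false

/-! Functions with a fraction of a derivative in one variable: statements of the steps. -/

open MeasureTheory Set
open scoped ENNReal

namespace Pool.Agent.H243.RL

/-- the average over an interval of length `δ` -/
noncomputable def av (δ : ℝ) (F : ℝ → ℂ) (y : ℝ) : ℂ := ∫ u in Icc (0 : ℝ) 1, F (y - δ * u)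

/-- admissible functions of one variable -/
def Adm (F : ℝ → ℂ) : Prop :=
  Measurable F ∧ (∀ y, y ∉ Icc (-1 : ℝ) 2 → F y = 0) ∧ ∫⁻ y, ‖F y‖ₑ ^ 2 ≠ ∞

/-- Plancherel at a fixed time (known, may be assumed) -/
def S_W2 : Prop := ∀ (h : ℝ → ℂ), Integrable h → MemLp h 2 → ∀ t : ℝ,
  ∫⁻ x, ‖W h x t‖ₑ ^ 2 = ENNReal.ofReal (2 * Real.pi) * ∫⁻ y, ‖h y‖ₑ ^ 2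

/-- van der Corput for the quadratic phase; the stationary point is `-x/(2t)` -/
def S_VDC : Prop := ∃ C : ℝ, 0 < C ∧ ∀ x t a b : ℝ, t ≠ 0 → a ≤ b →
  ‖∫ y in a..b, ph x t y‖ ≤ C * |t| ^ (-(1 / 2 : ℝ)) ∧
  ∀ d : ℝ, 0 < d → (∀ y ∈ Icc a b, d ≤ |y + x / (2 * t)|) →
    ‖∫ y in a..b, ph x t y‖ ≤ C / (|t| * d)

/-- the bound for bounded functions -/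
def S_KB : Prop := ∃ C : ℝ, 0 < C ∧ ∀ t : ℝ, 1 ≤ |t| → ∀ δ : ℝ, 0 < δ → δ ≤ 1 →
  ∀ (F : ℝ → ℂ) (M : ℝ), Measurable F → 0 ≤ M → (∀ y, ‖F y‖ ≤ M) →
  (∀ y, y ∉ Icc (-1 : ℝ) 2 → F y = 0) → ∀ x : ℝ,
  ‖W (av δ F) x t‖ ≤ C * ((|t| ^ (-(1 / 2 : ℝ)) + 1 / (δ * |t|)) * (1 + Real.log |t|)) * M

/-- the bound in `L²` -/
def S_AV2 : Prop := ∀ (F : ℝ → ℂ), Adm F → ∀ δ : ℝ, 0 < δ → δ ≤ 1 → ∀ t : ℝ,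
  ∫⁻ x, ‖W (av δ F) x t‖ₑ ^ 2 ≤ ENNReal.ofReal (2 * Real.pi) * ∫⁻ y, ‖F y‖ₑ ^ 2

/-- Marcinkiewicz interpolation between `L²` and `L^∞` -/
def S_MZ : Prop := ∀ q : ℝ, 2 < q → ∃ C : ℝ, 0 < C ∧
  ∀ (T : (ℝ → ℂ) → ℝ → ℂ) (M D : ℝ), 0 < M → 0 < D →
  (∀ F, Adm F → Measurable (T F)) →
  (∀ F G, Adm F → Adm G → ∀ x, ‖T (fun y => F y + G y) x‖ ≤ ‖T F x‖ + ‖T G x‖) →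
  (∀ F (m : ℝ), Adm F → 0 ≤ m → (∀ y, ‖F y‖ ≤ m) → ∀ x, ‖T F x‖ ≤ M * m) →
  (∀ F, Adm F → ∫⁻ x, ‖T F x‖ₑ ^ 2 ≤ ENNReal.ofReal D * ∫⁻ y, ‖F y‖ₑ ^ 2) →
  ∀ F, Adm F → ∫⁻ x, ‖T F x‖ₑ ^ q ≤ ENNReal.ofReal (C * D * M ^ (q - 2)) * ∫⁻ y, ‖F y‖ₑ ^ q

/-- the bound at a fixed time for averages -/
def S_FX : Prop := ∀ q ε : ℝ, 2 < q → 0 < ε → ∃ C : ℝ, 0 < C ∧ ∀ t : ℝ, 1 ≤ |t| →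
  ∀ δ : ℝ, 0 < δ → δ ≤ 1 → ∀ F : ℝ → ℂ, Adm F →
  ∫⁻ x, ‖W (av δ F) x t‖ₑ ^ q ≤
    ENNReal.ofReal (C * (|t| ^ (-(1 / 2 : ℝ)) + 1 / (δ * |t|)) ^ (q - 2) * |t| ^ ε) *
      ∫⁻ y, ‖F y‖ₑ ^ q

/-- the extension operator of the paraboloid in coordinates -/
noncomputable def EE (f : ℝ × ℝ → ℂ) (x₁ x₂ t : ℝ) : ℂ :=
  ∫ y₁, ∫ y₂, ph x₁ t y₁ * (ph x₂ t y₂ * f (y₁, y₂))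

/-- averages in the second variable -/
noncomputable def av2 (δ : ℝ) (f : ℝ × ℝ → ℂ) (p : ℝ × ℝ) : ℂ :=
  ∫ u in Icc (0 : ℝ) 1, f (p.1, p.2 - δ * u)

/-- admissible functions of two variables -/
def Adm2 (q : ℝ) (f : ℝ × ℝ → ℂ) : Prop :=
  Measurable f ∧ (∀ p : ℝ × ℝ, p ∉ Icc (0 : ℝ) 1 ×ˢ Icc (-1 : ℝ) 2 → f p = 0) ∧
    ∫⁻ y₁, ∫⁻ y₂, ‖f (y₁, y₂)‖ₑ ^ q ≠ ∞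

/-- the local estimate for averages -/
def S_LOC : Prop := ∀ q ε : ℝ, 2 < q → q < 4 → 0 < ε → ∃ C : ℝ, 0 < C ∧ ∀ T : ℝ, 2 ≤ T →
  ∀ δ : ℝ, 0 < δ → δ ≤ 1 → ∀ f : ℝ × ℝ → ℂ, Adm2 q f →
  ∫⁻ t in {t : ℝ | T / 2 ≤ |t| ∧ |t| ≤ T}, ∫⁻ x₁, ∫⁻ x₂, ‖EE (av2 δ f) x₁ x₂ t‖ₑ ^ q ≤
    ENNReal.ofReal (C * (T ^ (-(1 / 2 : ℝ)) + 1 / (δ * T)) ^ (q - 2) * T ^ (2 - q / 2 + ε)) *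
      ∫⁻ y₁, ∫⁻ y₂, ‖f (y₁, y₂)‖ₑ ^ q

/-- the local estimate without regularity -/
def S_LOC0 : Prop := ∀ q ε : ℝ, 2 < q → q < 4 → 0 < ε → ∃ C : ℝ, 0 < C ∧ ∀ T : ℝ, 1 ≤ T →
  ∀ f : ℝ × ℝ → ℂ, Adm2 q f →
  ∫⁻ t in Icc (-T) T, ∫⁻ x₁, ∫⁻ x₂, ‖EE f x₁ x₂ t‖ₑ ^ q ≤
    ENNReal.ofReal (C * T ^ (2 - q / 2 + ε)) * ∫⁻ y₁, ∫⁻ y₂, ‖f (y₁, y₂)‖ₑ ^ q

/-- Hölder regularity of order `s` in the second variable, in `L^q` -/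
def Reg (q s A : ℝ) (f : ℝ × ℝ → ℂ) : Prop := ∀ δ : ℝ, 0 < δ → δ ≤ 1 →
  ∫⁻ y₁, ∫⁻ y₂, ‖f (y₁, y₂ + δ) - f (y₁, y₂)‖ₑ ^ q ≤ ENNReal.ofReal ((A * δ ^ s) ^ q)

/-- averages: contraction and approximation -/
def S_DJ : Prop := ∀ q : ℝ, 1 ≤ q → ∀ (δ : ℝ) (f : ℝ × ℝ → ℂ), 0 < δ → δ ≤ 1 → Measurable f →
  ∫⁻ y₁, ∫⁻ y₂, ‖f (y₁, y₂)‖ₑ ^ q ≠ ∞ →
  (Measurable (av2 δ f)) ∧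
  (∫⁻ y₁, ∫⁻ y₂, ‖av2 δ f (y₁, y₂)‖ₑ ^ q ≤ ∫⁻ y₁, ∫⁻ y₂, ‖f (y₁, y₂)‖ₑ ^ q) ∧
  ∀ s A : ℝ, 0 ≤ s → 0 ≤ A → Reg q s A f →
    ∫⁻ y₁, ∫⁻ y₂, ‖f (y₁, y₂) - av2 δ f (y₁, y₂)‖ₑ ^ q ≤ ENNReal.ofReal ((A * δ ^ s) ^ q)

/-- one dyadic block of times -/
def S_BLOCK : Prop := ∀ q s : ℝ, 3 < q → q < 4 → 2 / q - 1 / 2 < s → ∃ K η : ℝ, 0 < K ∧ 0 < η ∧
  ∀ (A : ℝ) (f : ℝ × ℝ → ℂ), 0 ≤ A → Measurable f →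
  (∀ y : ℝ × ℝ, y ∉ Icc (0 : ℝ) 1 ×ˢ Icc (0 : ℝ) 1 → f y = 0) →
  ∫⁻ y₁, ∫⁻ y₂, ‖f (y₁, y₂)‖ₑ ^ q ≠ ∞ → Reg q s A f → ∀ J : ℕ, 1 ≤ J →
  ∫⁻ t in {t : ℝ | 2 ^ J / 2 ≤ |t| ∧ |t| ≤ 2 ^ J}, ∫⁻ x₁, ∫⁻ x₂, ‖EE f x₁ x₂ t‖ₑ ^ q ≤
    ENNReal.ofReal (K * ((2 : ℝ) ^ J) ^ (-η)) *
      ((∫⁻ y₁, ∫⁻ y₂, ‖f (y₁, y₂)‖ₑ ^ q) + ENNReal.ofReal (A ^ q))

/-- the theorem for the unit square, in coordinates -/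
def S_BASE3 : Prop := ∀ q s : ℝ, 3 < q → q < 4 → 2 / q - 1 / 2 < s → ∃ K : ℝ, 0 < K ∧
  ∀ (A : ℝ) (f : ℝ × ℝ → ℂ), 0 ≤ A → Measurable f →
  (∀ y : ℝ × ℝ, y ∉ Icc (0 : ℝ) 1 ×ˢ Icc (0 : ℝ) 1 → f y = 0) → Reg q s A f →
  ∫⁻ t, ∫⁻ x₁, ∫⁻ x₂, ‖EE f x₁ x₂ t‖ₑ ^ q ≤
    ENNReal.ofReal K * ((∫⁻ y₁, ∫⁻ y₂, ‖f (y₁, y₂)‖ₑ ^ q) + ENNReal.ofReal (A ^ q))

end Pool.Agent.H243.RL
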