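import Mathlib
import Pool.Agent.H243.RL.Stmt3
set_option autoImplicit false

open MeasureTheory Set
open scoped ENNReal

namespace Pool.Agent.H243.RL

/-- bounded variation gives regularity of order `1/q` in `L^q` -/
def S_BVREG : Prop := ∀ q : ℝ, 1 ≤ q → ∀ (V : ℝ) (f : ℝ × ℝ → ℂ), 0 ≤ V → Measurable f →
  (∀ y : ℝ × ℝ, y ∉ Icc (0 : ℝ) 1 ×ˢ Icc (0 : ℝ) 1 → f y = 0) →
  (∀ y₁ : ℝ, eVariationOn (fun y₂ : ℝ => f (y₁, y₂)) univ ≤ ENNReal.ofReal V) →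
  Reg q (1 / q) V f ∧ ∫⁻ y₁, ∫⁻ y₂, ‖f (y₁, y₂)‖ₑ ^ q ≤ ENNReal.ofReal (V ^ q)

end Pool.Agent.H243.RL
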