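import Mathlib
import Pool.Agent.H243.RL.Stmt
import Pool.Agent.H243.RP.Q17
import Pool.Agent.H243.RS.G1
set_option autoImplicit false

/-! Transfer from the unit square to squares of any size, position and direction. -/

open MeasureTheory Set
open scoped ENNReal RealInnerProductSpace

namespace Pool.Agent.H243.RL

open Pool.Agent.H789R2.FR (E)
open Pool.Agent.H243.RP
open Pool.Agent.H243.RS (rot rotL rot_mp rot_inner rot_norm rot_meas rot_coe rot_smul)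

theorem X_rot (f : E 2 → ℂ) (θ : ℝ) (x : E 2) (z : ℝ) :
    X (fun η => f (rot θ η)) x z = X f (rot θ x) z := by
  unfold X
  have h := (rot_mp θ).integral_comp (rotL θ).toHomeomorph.measurableEmbedding (fun η : E 2 =>
    Complex.exp (-((⟪rot θ x, η⟫ + ‖η‖ ^ 2 * z : ℝ) : ℂ) * Complex.I) * f η)
  rw [← h]
  congr 1
  funext η
  rw [rot_inner, rot_norm]

theorem lint_rot {f : E 2 → ℂ} (hf : Measurable f) (θ q : ℝ) :
    ∫⁻ x : E 2, ∫⁻ z : ℝ, ‖X f x z‖ₑ ^ q =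
      ∫⁻ x : E 2, ∫⁻ z : ℝ, ‖X (fun η => f (rot θ η)) x z‖ₑ ^ q := by
  have h := (rot_mp θ).lintegral_comp (XI_meas hf q)
  rw [← h]
  refine lintegral_congr fun x => ?_
  simp only [X_rot]

theorem lint_f_rot {f : E 2 → ℂ} (hf : Measurable f) (θ q : ℝ) :
    ∫⁻ ξ : E 2, ‖f (rot θ ξ)‖ₑ ^ q = ∫⁻ ξ : E 2, ‖f ξ‖ₑ ^ q :=
  (rot_mp θ).lintegral_comp (hf.enorm.pow_const q)

/-- the point with given coordinates -/
noncomputable def pt (p : ℝ × ℝ) : E 2 := !₂[p.1, p.2]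

theorem pt_mp : MeasurePreserving pt (volume : Measure (ℝ × ℝ)) (volume : Measure (E 2)) := by
  have h1 := (EuclideanSpace.volume_preserving_symm_measurableEquiv_toLp (Fin 2)).symm
  have h2 := (volume_preserving_finTwoArrow ℝ).symm
  have h3 := h1.comp h2
  exact h3

theorem pt_emb : MeasurableEmbedding pt := by
  have h1 := (EuclideanSpace.volume_preserving_symm_measurableEquiv_toLp (Fin 2)).symm
  exact ((MeasurableEquiv.finTwoArrow (α := ℝ)).symm.trans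
    (MeasurableEquiv.toLp 2 (Fin 2 → ℝ))).measurableEmbedding

theorem lint_pt {H : E 2 → ℝ≥0∞} (hH : Measurable H) : ∫⁻ x, H x = ∫⁻ r, ∫⁻ s, H (pt (r, s)) := by
  rw [← pt_mp.lintegral_comp hH, Measure.volume_eq_prod, lintegral_prod]
  exact (hH.comp pt_mp.measurable).aemeasurable

theorem X_pt {F : E 2 → ℂ} (hF : Integrable F) (x : ℝ × ℝ) (z : ℝ) :
    X F (pt x) z = ∫ r, ∫ s, ph x.1 z r * (ph x.2 z s * F (pt (r, s))) := by
  have h := pt_mp.integral_comp pt_emb (fun ξ : E 2 =>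
    Complex.exp (-((⟪pt x, ξ⟫ + ‖ξ‖ ^ 2 * z : ℝ) : ℂ) * Complex.I) * F ξ)
  have hi : Integrable (fun y : ℝ × ℝ =>
      Complex.exp (-((⟪pt x, pt y⟫ + ‖pt y‖ ^ 2 * z : ℝ) : ℂ) * Complex.I) * F (pt y)) :=
    (pt_mp.integrable_comp_emb pt_emb).2 (X_integrable hF (pt x) z)
  unfold X
  rw [← h, Measure.volume_eq_prod, integral_prod _ hi]
  congr 1
  funext r
  congr 1
  funext s
  rw [← mul_assoc]
  congr 1
  unfold ph
  rw [← Complex.exp_add]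
  congr 1
  have h1 : (⟪pt x, pt (r, s)⟫ : ℝ) = x.1 * r + x.2 * s := by
    simp [pt, PiLp.inner_apply, Fin.sum_univ_two]
    ring
  have h2 : ‖pt (r, s)‖ ^ 2 = r ^ 2 + s ^ 2 := by
    simp [pt, EuclideanSpace.norm_sq_eq, Fin.sum_univ_two]
  rw [h1, h2]
  push_cast
  ring

/-- the theorem for squares of any size, position and direction -/
theorem square (hB : S_BASE) (q a : ℝ) (hq3 : 3 < q) (hq4 : q < 4) (ha : 0 ≤ a)
    (ha1 : a < 1 - 3 / q) : ∃ K : ℝ, 0 < K ∧ ∀ (B : ℝ) (L : Set ℤ), 1 ≤ B → Lam q a B L →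
    ∀ (f : E 2 → ℂ) (c : E 2) (θ R : ℝ), Measurable f → 0 < R →
    (∀ r s : ℝ, (r, s) ∉ Icc (0 : ℝ) 1 ×ˢ Icc (0 : ℝ) 1 → f (c + R • rot θ (pt (r, s))) = 0) →
    (∀ k : ℤ, k ∉ L → ∀ᵐ r : ℝ, ∫ s in Icc (0 : ℝ) 1,
      ek (-k) s * f (c + R • rot θ (pt (r, s))) = 0) →
    ∫⁻ x : E 2, ∫⁻ z : ℝ, ‖X f x z‖ₑ ^ q ≤
      ENNReal.ofReal (K * B ^ q * R ^ (2 * q - 6)) * ∫⁻ ξ, ‖f ξ‖ₑ ^ q := by
  obtain ⟨K, hK, h⟩ := hB q a hq3 hq4 ha ha1
  refine ⟨K, hK, ?_⟩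
  intro B L hB1 hL f c θ R hf hR h0 hsp
  have hq0 : 0 < q := by linarith
  have hB0 : 0 < B := by linarith
  -- the function on the unit square
  set f1 : E 2 → ℂ := fun η => f (c + η) with hf1
  have hf1m : Measurable f1 := hf.comp (measurable_const_add c)
  set f2 : E 2 → ℂ := fun ξ => f1 (R • ξ) with hf2
  have hf2m : Measurable f2 := hf1m.comp (measurable_const_smul R)
  set f3 : E 2 → ℂ := fun ξ => f2 (rot θ ξ) with hf3
  have hf3m : Measurable f3 := hf2m.comp (rot_meas θ)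
  set G : ℝ × ℝ → ℂ := fun p => f3 (pt p) with hG
  have hGm : Measurable G := hf3m.comp pt_mp.measurable
  have e1 : ∫⁻ ξ, ‖f ξ‖ₑ ^ q = ENNReal.ofReal (R ^ (2 : ℝ)) *
      ∫⁻ r, ∫⁻ s, ‖G (r, s)‖ₑ ^ q := by
    have k1 : ∫⁻ ξ, ‖f ξ‖ₑ ^ q = ∫⁻ ξ, ‖f1 ξ‖ₑ ^ q :=
      (lintegral_add_left_eq_self (fun ξ => ‖f ξ‖ₑ ^ q) c).symm
    have k2 := lint_f_scale (q := q) hf1m hR
    have k3 := lint_f_rot hf2m θ q
    have k4 := lint_pt (hf3m.enorm.pow_const q)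
    rw [k1]
    have k5 : ∫⁻ ξ, ‖f1 ξ‖ₑ ^ q = ENNReal.ofReal (R ^ (2 : ℝ)) * ∫⁻ ξ, ‖f2 ξ‖ₑ ^ q := by
      rw [hf2]
      rw [k2, ← mul_assoc, ← ENNReal.ofReal_mul (by positivity), ← Real.rpow_add hR]
      norm_num
    rw [k5, ← k3, k4]
  rcases eq_or_ne (∫⁻ ξ, ‖f ξ‖ₑ ^ q) ∞ with hinf | hfin
  · rw [hinf, ENNReal.mul_top (by
      rw [Ne, ENNReal.ofReal_eq_zero, not_le]
      positivity)]
    exact le_top
  have hG0 : ∀ y : ℝ × ℝ, y ∉ Icc (0 : ℝ) 1 ×ˢ Icc (0 : ℝ) 1 → G y = 0 := by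
    intro y hy
    have := h0 y.1 y.2 hy
    rw [← rot_smul] at this
    simp only [hG, hf3, hf2, hf1]
    rw [← rot_smul]
    exact this
  have hGk : ∀ k : ℤ, k ∉ L → ∀ᵐ r : ℝ, ∫ s in Icc (0 : ℝ) 1, ek (-k) s * G (r, s) = 0 := by
    intro k hk
    filter_upwards [hsp k hk] with r hr
    exact hr
  have hmain := h B L hB1 hL G hGm hG0 hGk
  have hGfin : ∫⁻ r, ∫⁻ s, ‖G (r, s)‖ₑ ^ q ≠ ∞ := by
    intro hc
    rw [hc, ENNReal.mul_top (by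
      rw [Ne, ENNReal.ofReal_eq_zero, not_le]
      positivity)] at e1
    exact hfin e1
  have hf3z : ∀ ξ : E 2, 2 < ‖ξ‖ → f3 ξ = 0 := by
    intro ξ hξ
    have hξp : ξ = pt (ξ 0, ξ 1) := by
      ext i
      fin_cases i <;> simp [pt]
    rw [hξp]
    apply hG0
    rintro ⟨⟨h1, h2⟩, h3, h4⟩
    have : ‖ξ‖ ^ 2 ≤ 2 := by
      rw [EuclideanSpace.norm_sq_eq, Fin.sum_univ_two]
      simp only [Real.norm_eq_abs, sq_abs]
      simp only at h1 h2 h3 h4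
      nlinarith
    nlinarith
  have hf3fin : ∫⁻ ξ, ‖f3 ξ‖ₑ ^ q ≠ ∞ := by
    rw [lint_pt (hf3m.enorm.pow_const q)]
    exact hGfin
  have hf3i : Integrable f3 := int_of_Lq (R := 2) (by linarith) hf3m hf3z hf3fin
  have e2 : ∫⁻ x : E 2, ∫⁻ z : ℝ, ‖X f3 x z‖ₑ ^ q =
      ∫⁻ t, ∫⁻ x₁, ∫⁻ x₂, ‖∫ y₁, ∫ y₂, ph x₁ t y₁ * (ph x₂ t y₂ * G (y₁, y₂))‖ₑ ^ q := by
    have k1 : AEMeasurable (Function.uncurry fun (x : E 2) (z : ℝ) => ‖X f3 x z‖ₑ ^ q)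
        ((volume : Measure (E 2)).prod (volume : Measure ℝ)) :=
      ((X_meas hf3m).enorm.pow_const q).aemeasurable
    rw [lintegral_lintegral_swap k1]
    refine lintegral_congr fun z => ?_
    have k2 : Measurable fun x : E 2 => ‖X f3 x z‖ₑ ^ q :=
      (((X_meas hf3m).comp measurable_prodMk_right).enorm).pow_const q
    rw [lint_pt k2]
    refine lintegral_congr fun x₁ => lintegral_congr fun x₂ => ?_
    rw [X_pt hf3i]
  have e3 : ∫⁻ x : E 2, ∫⁻ z : ℝ, ‖X f x z‖ₑ ^ q = ENNReal.ofReal (R ^ (2 * q - 4)) *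
      ∫⁻ x : E 2, ∫⁻ z : ℝ, ‖X f3 x z‖ₑ ^ q := by
    rw [lint_translate hf c q, lint_X_scale hf1m hR hq0, lint_rot hf2m θ q]
    congr 3
    push_cast
    ring
  rw [e3, e2, e1]
  refine (mul_le_mul' le_rfl hmain).trans (le_of_eq ?_)
  rw [← mul_assoc, ← mul_assoc, ← ENNReal.ofReal_mul (by positivity),
    ← ENNReal.ofReal_mul (by positivity)]
  congr 2
  have : R ^ (2 * q - 4) = R ^ (2 * q - 6) * R ^ (2 : ℝ) := by
    rw [← Real.rpow_add hR]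
    congr 1
    ring
  rw [this]
  ring

end Pool.Agent.H243.RL
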