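import Mathlib
import Pool.Agent.H243.RL.Stmt3
import Pool.Agent.H243.RL.Stmt4
import Pool.Agent.H243.RL.TR
set_option autoImplicit false

/-! Transfer from the unit square to all directions. -/

open MeasureTheory Set
open scoped ENNReal RealInnerProductSpace

namespace Pool.Agent.H243.RL

open Pool.Agent.H789R2.FR (E)
open Pool.Agent.H243.RP
open Pool.Agent.H243.RS (rot rotL rot_mp rot_inner rot_norm rot_meas rot_coe rot_smul)

theorem rot_add' (θ : ℝ) (x y : E 2) : rot θ (x + y) = rot θ x + rot θ y := by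
  rw [rot_coe]
  exact map_add (rotL θ) x y

theorem exists_angle (e : E 2) (he : ‖e‖ = 1) : ∃ θ : ℝ, rot θ (pt (0, 1)) = e := by
  have h1 : (-e 0) ^ 2 + e 1 ^ 2 = 1 := by
    have := EuclideanSpace.norm_sq_eq e
    rw [he, Fin.sum_univ_two] at this
    simp only [Real.norm_eq_abs, sq_abs] at this
    nlinarith
  -- the argument of the complex number `e 1 - e 0 i`
  set z : ℂ := ⟨e 1, -e 0⟩ with hz
  have hzn : ‖z‖ = 1 := by
    have h2 : ‖z‖ ^ 2 = 1 := by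
      rw [Complex.sq_norm, Complex.normSq_apply]
      simp only [hz]
      nlinarith
    have h3 : 0 ≤ ‖z‖ := norm_nonneg _
    nlinarith
  have hz0 : z ≠ 0 := by
    intro h
    rw [h, norm_zero] at hzn
    exact zero_ne_one hzn
  refine ⟨Complex.arg z, ?_⟩
  have hc : Real.cos (Complex.arg z) = e 1 := by
    rw [Complex.cos_arg hz0, hzn, div_one]
  have hs : Real.sin (Complex.arg z) = -e 0 := by
    rw [Complex.sin_arg, hzn, div_one]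
  ext i
  fin_cases i
  · change (rot _ (pt (0, 1))) 0 = e 0
    rw [Pool.Agent.H243.RS.rot_0, hc, hs]
    simp [pt]
  · change (rot _ (pt (0, 1))) 1 = e 1
    rw [Pool.Agent.H243.RS.rot_1, hc, hs]
    simp [pt]

/-- the function in the coordinates of the unit square -/
noncomputable def GG (f : E 2 → ℂ) (θ : ℝ) (p : ℝ × ℝ) : ℂ := f (rot θ (pt (-1 / 2, -1 / 2) + pt p))

theorem pt_add (a b a' b' : ℝ) : pt (a, b) + pt (a', b') = pt (a + a', b + b') := by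
  ext i
  fin_cases i <;> simp [pt]

theorem pt_smul (δ : ℝ) : δ • pt (0, 1) = pt (0, δ) := by
  ext i
  fin_cases i <;> simp [pt]

theorem GG_meas {f : E 2 → ℂ} (hf : Measurable f) (θ : ℝ) : Measurable (GG f θ) :=
  hf.comp ((rot_meas θ).comp ((measurable_const_add _).comp pt_mp.measurable))

theorem GG_int {f : E 2 → ℂ} (hf : Measurable f) (θ q : ℝ) :
    ∫⁻ ξ, ‖f ξ‖ₑ ^ q = ∫⁻ r, ∫⁻ s, ‖GG f θ (r, s)‖ₑ ^ q := by
  have hf2m : Measurable fun ξ => f (rot θ ξ) := hf.comp (rot_meas θ)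
  have hf3m : Measurable fun ξ => f (rot θ (pt (-1 / 2, -1 / 2) + ξ)) :=
    hf2m.comp (measurable_const_add _)
  rw [← lint_f_rot hf θ q]
  have k := lint_pt (hf3m.enorm.pow_const q)
  refine Eq.trans ?_ k
  exact (lintegral_add_left_eq_self (fun ξ => ‖f (rot θ ξ)‖ₑ ^ q) _).symm

theorem GG_zero {f : E 2 → ℂ} (h0 : ∀ x, 1 / 2 < ‖x‖ → f x = 0) (θ : ℝ) (y : ℝ × ℝ)
    (hy : y ∉ Icc (0 : ℝ) 1 ×ˢ Icc (0 : ℝ) 1) : GG f θ y = 0 := by
  unfold GG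
  apply h0
  rw [rot_norm]
  have e2 : pt (-1 / 2, -1 / 2) + pt y = pt (-1 / 2 + y.1, -1 / 2 + y.2) := pt_add _ _ _ _
  have h2 : ‖pt (-1 / 2, -1 / 2) + pt y‖ ^ 2 = (-1 / 2 + y.1) ^ 2 + (-1 / 2 + y.2) ^ 2 := by
    rw [e2, EuclideanSpace.norm_sq_eq, Fin.sum_univ_two]
    simp [pt]
  have h3 : (1 / 2) ^ 2 < ‖pt (-1 / 2, -1 / 2) + pt y‖ ^ 2 := by
    rw [h2]
    by_contra hcon
    push Not at hcon
    apply hy
    refine ⟨⟨?_, ?_⟩, ?_, ?_⟩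
    · nlinarith [sq_nonneg (-1 / 2 + y.2)]
    · nlinarith [sq_nonneg (-1 / 2 + y.2)]
    · nlinarith [sq_nonneg (-1 / 2 + y.1)]
    · nlinarith [sq_nonneg (-1 / 2 + y.1)]
  exact lt_of_pow_lt_pow_left₀ 2 (norm_nonneg _) h3

theorem GG_shift {f : E 2 → ℂ} (hf : Measurable f) (θ q δ : ℝ) :
    ∫⁻ y₁, ∫⁻ y₂, ‖GG f θ (y₁, y₂ + δ) - GG f θ (y₁, y₂)‖ₑ ^ q =
      ∫⁻ x, ‖f (x + δ • rot θ (pt (0, 1))) - f x‖ₑ ^ q := by
  have k1 : Measurable fun x : E 2 => ‖f (x + δ • rot θ (pt (0, 1))) - f x‖ₑ ^ q :=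
    ((hf.comp (measurable_add_const _)).sub hf).enorm.pow_const q
  rw [← (rot_mp θ).lintegral_comp k1]
  have k2 : Measurable fun x : E 2 =>
      ‖f (rot θ x + δ • rot θ (pt (0, 1))) - f (rot θ x)‖ₑ ^ q := k1.comp (rot_meas θ)
  have k3 := lint_pt (k2.comp (measurable_const_add (pt (-1 / 2, -1 / 2))))
  simp only [Function.comp_def] at k3
  rw [← lintegral_add_left_eq_self _ (pt (-1 / 2, -1 / 2)), k3]
  refine lintegral_congr fun r => lintegral_congr fun u => ?_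
  unfold GG
  congr 3
  rw [← rot_smul, ← rot_add', pt_smul, add_assoc, pt_add r u 0 δ, add_zero]

theorem GG_X {f : E 2 → ℂ} (hf : Measurable f) (h0 : ∀ x, 1 / 2 < ‖x‖ → f x = 0) (θ : ℝ) {q : ℝ}
    (hq : 1 ≤ q) (hfin : ∫⁻ ξ, ‖f ξ‖ₑ ^ q ≠ ∞) :
    ∫⁻ x : E 2, ∫⁻ z : ℝ, ‖X f x z‖ₑ ^ q =
      ∫⁻ t, ∫⁻ x₁, ∫⁻ x₂, ‖EE (GG f θ) x₁ x₂ t‖ₑ ^ q := by
  set c : E 2 := pt (-1 / 2, -1 / 2) with hc
  set f2 : E 2 → ℂ := fun ξ => f (rot θ ξ) with hf2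
  have hf2m : Measurable f2 := hf.comp (rot_meas θ)
  set f3 : E 2 → ℂ := fun ξ => f2 (c + ξ) with hf3
  have hf3m : Measurable f3 := hf2m.comp (measurable_const_add c)
  have hf3z : ∀ ξ : E 2, 2 < ‖ξ‖ → f3 ξ = 0 := by
    intro ξ hξ
    have hξp : ξ = pt (ξ 0, ξ 1) := by
      ext i
      fin_cases i <;> simp [pt]
    rw [hξp]
    apply GG_zero h0 θ
    rintro ⟨⟨h1, h2⟩, h3, h4⟩
    have : ‖ξ‖ ^ 2 ≤ 2 := by
      rw [EuclideanSpace.norm_sq_eq, Fin.sum_univ_two]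
      simp only [Real.norm_eq_abs, sq_abs]
      simp only at h1 h2 h3 h4
      nlinarith
    nlinarith
  have hf3fin : ∫⁻ ξ, ‖f3 ξ‖ₑ ^ q ≠ ∞ := by
    rw [lint_pt (hf3m.enorm.pow_const q)]
    rw [GG_int hf θ q] at hfin
    exact hfin
  have hf3i : Integrable f3 := int_of_Lq (R := 2) hq hf3m hf3z hf3fin
  have e2 : ∫⁻ x : E 2, ∫⁻ z : ℝ, ‖X f3 x z‖ₑ ^ q =
      ∫⁻ t, ∫⁻ x₁, ∫⁻ x₂, ‖EE (GG f θ) x₁ x₂ t‖ₑ ^ q := by
    have k1 : AEMeasurable (Function.uncurry fun (x : E 2) (z : ℝ) => ‖X f3 x z‖ₑ ^ q)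
        ((volume : Measure (E 2)).prod (volume : Measure ℝ)) :=
      ((X_meas hf3m).enorm.pow_const q).aemeasurable
    rw [lintegral_lintegral_swap k1]
    refine lintegral_congr fun z => ?_
    have k2 : Measurable fun x : E 2 => ‖X f3 x z‖ₑ ^ q :=
      (((X_meas hf3m).comp measurable_prodMk_right).enorm).pow_const q
    rw [lint_pt k2]
    refine lintegral_congr fun x₁ => lintegral_congr fun x₂ => ?_
    rw [X_pt hf3i]
    rfl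
  rw [lint_rot hf θ q, lint_translate hf2m c q]
  exact e2

/-- the theorem for all directions -/
theorem direction (hB : S_BASE3) (q s : ℝ) (hq3 : 3 < q) (hq4 : q < 4) (hs : 2 / q - 1 / 2 < s) :
    ∃ K : ℝ, 0 < K ∧ ∀ (A : ℝ) (f : E 2 → ℂ) (e : E 2), 0 ≤ A → Measurable f → ‖e‖ = 1 →
    (∀ x, 1 / 2 < ‖x‖ → f x = 0) →
    (∀ δ : ℝ, 0 < δ → δ ≤ 1 → ∫⁻ x, ‖f (x + δ • e) - f x‖ₑ ^ q ≤ ENNReal.ofReal ((A * δ ^ s) ^ q)) →
    ∫⁻ x : E 2, ∫⁻ z : ℝ, ‖X f x z‖ₑ ^ q ≤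
      ENNReal.ofReal K * ((∫⁻ ξ, ‖f ξ‖ₑ ^ q) + ENNReal.ofReal (A ^ q)) := by
  obtain ⟨K, hK, h⟩ := hB q s hq3 hq4 hs
  refine ⟨K, hK, ?_⟩
  intro A f e hA hf he h0 hreg
  obtain ⟨θ, hθ⟩ := exists_angle e he
  have hGr : Reg q s A (GG f θ) := by
    intro δ hδ hδ1
    rw [GG_shift hf θ q δ, hθ]
    exact hreg δ hδ hδ1
  have hmain := h A (GG f θ) hA (GG_meas hf θ) (GG_zero h0 θ) hGr
  rcases eq_or_ne (∫⁻ ξ, ‖f ξ‖ₑ ^ q) ∞ with hinf | hfin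
  · rw [hinf, top_add, ENNReal.mul_top (by
      rw [Ne, ENNReal.ofReal_eq_zero, not_le]
      positivity)]
    exact le_top
  rw [GG_X hf h0 θ (by linarith) hfin, GG_int hf θ q]
  exact hmain

/-- bounded variation in one direction -/
theorem variation (hB : S_BASE3) (hV : S_BVREG) (q : ℝ) (hq3 : 3 < q) (hq4 : q < 4) :
    ∃ K : ℝ, 0 < K ∧ ∀ (V : ℝ) (f : E 2 → ℂ) (e : E 2), 0 ≤ V → Measurable f → ‖e‖ = 1 →
    (∀ x, 1 / 2 < ‖x‖ → f x = 0) →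
    (∀ x, eVariationOn (fun τ : ℝ => f (x + τ • e)) univ ≤ ENNReal.ofReal V) →
    ∫⁻ x : E 2, ∫⁻ z : ℝ, ‖X f x z‖ₑ ^ q ≤ ENNReal.ofReal (K * V ^ q) := by
  have hq0 : 0 < q := by linarith
  obtain ⟨K, hK, h⟩ := hB q (1 / q) hq3 hq4 (by
    have k1 : 1 / q < 1 / 2 := one_div_lt_one_div_of_lt (by norm_num) (by linarith)
    have k2 : 2 / q = 2 * (1 / q) := by ring
    linarith)
  refine ⟨K * 2, by positivity, ?_⟩
  intro V f e hV0 hf he h0 hvar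
  obtain ⟨θ, hθ⟩ := exists_angle e he
  have hvG : ∀ y₁ : ℝ, eVariationOn (fun y₂ : ℝ => GG f θ (y₁, y₂)) univ ≤ ENNReal.ofReal V := by
    intro y₁
    refine le_trans (le_of_eq ?_) (hvar (rot θ (pt (-1 / 2, -1 / 2) + pt (y₁, 0))))
    congr 1
    funext y₂
    unfold GG
    congr 1
    rw [← hθ, ← rot_smul, ← rot_add', pt_smul, add_assoc, pt_add y₁ 0 0 y₂, add_zero, zero_add]
  obtain ⟨h1, h2⟩ := hV q (by linarith) V (GG f θ) hV0 (GG_meas hf θ) (GG_zero h0 θ) hvG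
  have hmain := h V (GG f θ) hV0 (GG_meas hf θ) (GG_zero h0 θ) h1
  have hfin : ∫⁻ ξ, ‖f ξ‖ₑ ^ q ≠ ∞ := by
    rw [GG_int hf θ q]
    exact ne_top_of_le_ne_top ENNReal.ofReal_ne_top h2
  rw [GG_X hf h0 θ (by linarith) hfin]
  refine hmain.trans ?_
  calc ENNReal.ofReal K * ((∫⁻ y₁, ∫⁻ y₂, ‖GG f θ (y₁, y₂)‖ₑ ^ q) + ENNReal.ofReal (V ^ q))
      ≤ ENNReal.ofReal K * (ENNReal.ofReal (V ^ q) + ENNReal.ofReal (V ^ q)) := by gcongr
    _ = _ := by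
        rw [← ENNReal.ofReal_add (by positivity) (by positivity), ← ENNReal.ofReal_mul hK.le]
        congr 1
        ring

end Pool.Agent.H243.RL
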