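import Mathlib
import Pool.Agent.H243.RL.TR3
import Pool.Agent.H243.RL.Stmt5
set_option autoImplicit false

/-! All exponents for functions of bounded variation in one direction. -/

open MeasureTheory Set
open scoped ENNReal RealInnerProductSpace

namespace Pool.Agent.H243.RL

open Pool.Agent.H789R2.FR (E)
open Pool.Agent.H243.RP
open Pool.Agent.H243.RS (rot rotL rot_mp rot_inner rot_norm rot_meas rot_coe rot_smul)

theorem var_bound {V : ℝ} {f : E 2 → ℂ} {e : E 2} (he : ‖e‖ = 1)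
    (h0 : ∀ x, 1 / 2 < ‖x‖ → f x = 0)
    (hvar : ∀ x, eVariationOn (fun τ : ℝ => f (x + τ • e)) univ ≤ ENNReal.ofReal V) (x : E 2) :
    ‖f x‖ₑ ≤ ENNReal.ofReal V := by
  set τ : ℝ := ‖x‖ + 1 with hτ
  have h1 : f (x + τ • e) = 0 := by
    apply h0
    have h2 : ‖τ • e‖ ≤ ‖x + τ • e‖ + ‖x‖ := by
      have := norm_sub_le (x + τ • e) x
      rwa [add_sub_cancel_left] at this
    rw [norm_smul, he, mul_one, Real.norm_of_nonneg (by positivity)] at h2
    linarith
  have h3 := eVariationOn.edist_le (fun τ : ℝ => f (x + τ • e)) (mem_univ (0 : ℝ)) (mem_univ τ)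
  simp only [h1, zero_smul, add_zero, edist_zero_right] at h3
  exact h3.trans (hvar x)

theorem variation_all (hB : S_BASE3) (hV : S_BVREG) (q : ℝ) (hq3 : 3 < q) :
    ∃ K : ℝ, 0 < K ∧ ∀ (V : ℝ) (f : E 2 → ℂ) (e : E 2), 0 ≤ V → Measurable f → ‖e‖ = 1 →
    (∀ x, 1 / 2 < ‖x‖ → f x = 0) →
    (∀ x, eVariationOn (fun τ : ℝ => f (x + τ • e)) univ ≤ ENNReal.ofReal V) →
    ∫⁻ x : E 2, ∫⁻ z : ℝ, ‖X f x z‖ₑ ^ q ≤ ENNReal.ofReal (K * V ^ q) := by
  rcases lt_or_ge q 4 with hq4 | hq4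
  · exact variation hB hV q hq3 hq4
  obtain ⟨K, hK, h⟩ := variation hB hV (7 / 2) (by norm_num) (by norm_num)
  set w : ℝ := (volume (Metric.closedBall (0 : E 2) (1 / 2))).toReal with hw
  have hwf : volume (Metric.closedBall (0 : E 2) (1 / 2)) ≠ ∞ := measure_closedBall_lt_top.ne
  have hw0 : 0 ≤ w := ENNReal.toReal_nonneg
  refine ⟨(1 + w) ^ (q - 7 / 2) * K, by positivity, ?_⟩
  intro V f e hV0 hf he h0 hvar
  have hb := var_bound he h0 hvar
  have hI : ∫⁻ ξ, ‖f ξ‖ₑ ≤ ENNReal.ofReal ((1 + w) * V) := by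
    calc ∫⁻ ξ, ‖f ξ‖ₑ ≤ ∫⁻ ξ, (Metric.closedBall (0 : E 2) (1 / 2)).indicator
          (fun _ => ENNReal.ofReal V) ξ := by
          refine lintegral_mono fun ξ => ?_
          by_cases hξ : ξ ∈ Metric.closedBall (0 : E 2) (1 / 2)
          · rw [indicator_of_mem hξ]
            exact hb ξ
          · rw [indicator_of_notMem hξ]
            rw [mem_closedBall_zero_iff, not_le] at hξ
            rw [h0 ξ hξ, enorm_zero]
      _ = ENNReal.ofReal V * volume (Metric.closedBall (0 : E 2) (1 / 2)) := by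
          rw [lintegral_indicator Metric.isClosed_closedBall.measurableSet, setLIntegral_const]
      _ = ENNReal.ofReal (V * w) := by
          rw [ENNReal.ofReal_mul hV0, hw, ENNReal.ofReal_toReal hwf]
      _ ≤ _ := by
          apply ENNReal.ofReal_le_ofReal
          nlinarith
  have hq7 : 0 ≤ q - 7 / 2 := by linarith
  calc ∫⁻ x : E 2, ∫⁻ z : ℝ, ‖X f x z‖ₑ ^ q
      ≤ ∫⁻ x : E 2, ∫⁻ z : ℝ, ENNReal.ofReal (((1 + w) * V) ^ (q - 7 / 2)) *
          ‖X f x z‖ₑ ^ (7 / 2 : ℝ) := by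
        refine lintegral_mono fun x => lintegral_mono fun z => ?_
        have e : ‖X f x z‖ₑ ^ q = ‖X f x z‖ₑ ^ (q - 7 / 2) * ‖X f x z‖ₑ ^ (7 / 2 : ℝ) := by
          rw [← ENNReal.rpow_add_of_nonneg _ _ hq7 (by norm_num)]
          congr 1
          ring
        rw [e]
        refine mul_le_mul' ?_ le_rfl
        refine (ENNReal.rpow_le_rpow ((X_le_int f x z).trans hI) hq7).trans (le_of_eq ?_)
        rw [ENNReal.ofReal_rpow_of_nonneg (by positivity) hq7]
    _ = ENNReal.ofReal (((1 + w) * V) ^ (q - 7 / 2)) *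
          ∫⁻ x : E 2, ∫⁻ z : ℝ, ‖X f x z‖ₑ ^ (7 / 2 : ℝ) := by
        rw [← lintegral_const_mul' _ _ ENNReal.ofReal_ne_top]
        refine lintegral_congr fun x => ?_
        rw [lintegral_const_mul' _ _ ENNReal.ofReal_ne_top]
    _ ≤ ENNReal.ofReal (((1 + w) * V) ^ (q - 7 / 2)) * ENNReal.ofReal (K * V ^ (7 / 2 : ℝ)) :=
        mul_le_mul' le_rfl (h V f e hV0 hf he h0 hvar)
    _ = _ := by
        rw [← ENNReal.ofReal_mul (by positivity)]
        congr 1
        rcases eq_or_lt_of_le hV0 with hV1 | hV1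
        · rw [← hV1, Real.zero_rpow (by linarith : q ≠ 0), Real.zero_rpow (by norm_num)]
          ring
        · rw [Real.mul_rpow (by positivity) hV0]
          have : V ^ q = V ^ (q - 7 / 2) * V ^ (7 / 2 : ℝ) := by
            rw [← Real.rpow_add hV1]
            congr 1
            ring
          rw [this]
          ring

end Pool.Agent.H243.RL
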