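import Pool.Agent.H243.RL.Stmt

set_option autoImplicit false

/-! The Gaussian integral for trigonometric polynomials. -/

open MeasureTheory Set
open scoped ENNReal

namespace Pool.Agent.H243.RL.GAUSS

open Pool.Agent.H243.RL

/-- the quadratic coefficient -/
noncomputable def bb (t : ℝ) : ℂ := -(1 + (t : ℂ) * Complex.I)

/-- the linear coefficient -/
noncomputable def cc (x : ℝ) (k : ℤ) : ℂ := (2 * Real.pi * k - x) * Complex.I

theorem bb_re (t : ℝ) : (bb t).re < 0 := by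
  simp [bb]

theorem one_add_ne (t : ℝ) : (1 + (t : ℂ) * Complex.I) ≠ 0 := by
  intro h
  have h1 := congrArg Complex.re h
  simp at h1

theorem sq_ne (t : ℝ) : (1 + (t : ℂ) ^ 2) ≠ 0 := by
  have h : (0 : ℝ) < 1 + t ^ 2 := by positivity
  have h1 : ((1 + t ^ 2 : ℝ) : ℂ) ≠ 0 := by exact_mod_cast h.ne'
  push_cast at h1
  exact h1

theorem inv_eq (t : ℝ) : (1 + (t : ℂ) * Complex.I)⁻¹ = (1 - (t : ℂ) * Complex.I) / (1 + (t : ℂ) ^ 2) := by
  rw [inv_eq_iff_eq_inv, inv_div, eq_div_iff]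
  · have h := Complex.I_sq
    linear_combination (-(t : ℂ) ^ 2) * h
  · intro h1
    have h2 := congrArg Complex.re h1
    simp at h2

/-- the exponent -/
theorem expo (t : ℝ) (ht : t ≠ 0) (v : ℝ) (k : ℤ) :
    0 - cc (2 * v * (1 + t ^ 2) / t) k ^ 2 / (4 * bb t) =
      ((t * (2 * v * (1 + t ^ 2) / t) ^ 2 / (4 * (1 + t ^ 2)) : ℝ) : ℂ) * Complex.I +
      (((Real.pi ^ 2 * k ^ 2 * t / (1 + t ^ 2) : ℝ) : ℂ) * Complex.I +
      (((2 * Real.pi * k * (-v) : ℝ) : ℂ) * Complex.I +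
      ((-((1 + t ^ 2) / t ^ 2 * (v - Real.pi * t / (1 + t ^ 2) * k) ^ 2) : ℝ) : ℂ))) := by
  have h1 : 0 - cc (2 * v * (1 + t ^ 2) / t) k ^ 2 / (4 * bb t) =
      -((2 * Real.pi * k - ((2 * v * (1 + t ^ 2) / t : ℝ) : ℂ)) ^ 2) / 4 * (1 + (t : ℂ) * Complex.I)⁻¹ := by
    unfold cc bb
    rw [mul_pow, Complex.I_sq]
    have h2 := one_add_ne t
    field_simp
    ring
  rw [h1, inv_eq]
  have h2 := sq_ne t
  have h3 : (t : ℂ) ≠ 0 := by exact_mod_cast ht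
  push_cast
  field_simp
  ring

theorem integrand (t x : ℝ) (S : Finset ℤ) (c : ℤ → ℂ) (y : ℝ) :
    ph x t y * ((∑ k ∈ S, c k * ek k y) * (Real.exp (-y ^ 2) : ℂ)) =
      ∑ k ∈ S, c k * Complex.exp (bb t * (y : ℂ) ^ 2 + cc x k * y + 0) := by
  rw [Finset.sum_mul, Finset.mul_sum]
  apply Finset.sum_congr rfl
  intro k _
  have h1 : Complex.exp (bb t * (y : ℂ) ^ 2 + cc x k * y + 0) =
      ph x t y * (ek k y * (Real.exp (-y ^ 2) : ℂ)) := by
    unfold ph ek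
    rw [Complex.ofReal_exp, ← Complex.exp_add, ← Complex.exp_add]
    congr 1
    unfold bb cc
    push_cast
    ring
  rw [h1]
  ring

theorem W_eq (t x : ℝ) (S : Finset ℤ) (c : ℤ → ℂ) :
    W (fun y => (∑ k ∈ S, c k * ek k y) * (Real.exp (-y ^ 2) : ℂ)) x t =
      ∑ k ∈ S, c k * ((Real.pi / -bb t) ^ (1 / 2 : ℂ) * Complex.exp (0 - cc x k ^ 2 / (4 * bb t))) := by
  unfold W
  have h1 : (fun y : ℝ => ph x t y * ((∑ k ∈ S, c k * ek k y) * (Real.exp (-y ^ 2) : ℂ))) =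
      fun y : ℝ => ∑ k ∈ S, c k * Complex.exp (bb t * (y : ℂ) ^ 2 + cc x k * y + 0) :=
    funext fun y => integrand t x S c y
  rw [h1, integral_finsetSum]
  · apply Finset.sum_congr rfl
    intro k _
    rw [integral_const_mul, integral_cexp_quadratic (bb_re t)]
  · intro k _
    exact (integrable_cexp_quadratic' (bb_re t) _ _).const_mul _

theorem norm_pow (t : ℝ) : ‖((Real.pi : ℂ) / -bb t) ^ (1 / 2 : ℂ)‖ =
    Real.sqrt (Real.pi / Real.sqrt (1 + t ^ 2)) := by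
  have h1 : (1 / 2 : ℂ) = ((1 / 2 : ℝ) : ℂ) := by push_cast; ring
  have h2 : ‖(1 : ℂ) + (t : ℂ) * Complex.I‖ = Real.sqrt (1 + t ^ 2) := by
    have h := Complex.norm_add_mul_I 1 t
    rw [Complex.ofReal_one, one_pow] at h
    exact h
  rw [h1, Complex.norm_cpow_real, norm_div, bb, neg_neg, h2, Complex.norm_real, Real.norm_eq_abs,
    abs_of_pos Real.pi_pos, Real.sqrt_eq_rpow (Real.pi / _)]

end Pool.Agent.H243.RL.GAUSS

namespace Pool.Agent.H243.RL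

theorem t_GAUSS : S_GAUSS := by
  intro t ht S c
  refine ⟨fun k => c k * Complex.exp (((Real.pi ^ 2 * k ^ 2 * t / (1 + t ^ 2) : ℝ) : ℂ) * Complex.I),
    fun k => by rw [norm_mul, Complex.norm_exp_ofReal_mul_I, mul_one], fun v => ?_⟩
  rw [GAUSS.W_eq]
  have h1 : ∑ k ∈ S, c k * ((Real.pi / -GAUSS.bb t) ^ (1 / 2 : ℂ) *
      Complex.exp (0 - GAUSS.cc (2 * v * (1 + t ^ 2) / t) k ^ 2 / (4 * GAUSS.bb t))) =
      (((Real.pi : ℂ) / -GAUSS.bb t) ^ (1 / 2 : ℂ) *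
        Complex.exp (((t * (2 * v * (1 + t ^ 2) / t) ^ 2 / (4 * (1 + t ^ 2)) : ℝ) : ℂ) * Complex.I)) *
      ∑ k ∈ S, c k * Complex.exp (((Real.pi ^ 2 * k ^ 2 * t / (1 + t ^ 2) : ℝ) : ℂ) * Complex.I) *
        ek k (-v) * (Real.exp (-((1 + t ^ 2) / t ^ 2 * (v - Real.pi * t / (1 + t ^ 2) * k) ^ 2)) : ℂ) := by
    rw [Finset.mul_sum]
    apply Finset.sum_congr rfl
    intro k _
    rw [GAUSS.expo t ht v k, Complex.exp_add, Complex.exp_add, Complex.exp_add, Complex.ofReal_exp]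
    unfold ek
    ring
  rw [h1, norm_mul, norm_mul, Complex.norm_exp_ofReal_mul_I, mul_one, GAUSS.norm_pow]

end Pool.Agent.H243.RL
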