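import Pool.Agent.H243.RL.Stmt

/-!
# GINV: `exp (y ^ 2)` on `[0, 1]` is a Fourier integral
-/

set_option autoImplicit false

open MeasureTheory Set
open scoped ENNReal FourierTransform SchwartzMap ContDiff

namespace Pool.Agent.H243.RL.GINV

/-- a smooth function with compact support which is `exp (y ^ 2)` on `[0, 1]` -/
theorem exists_schwartz : ∃ b : 𝓢(ℝ, ℂ), ∀ y ∈ Icc (0 : ℝ) 1, b y = (Real.exp (y ^ 2) : ℂ) := by
  let φ : ContDiffBump (0 : ℝ) := ⟨1, 2, one_pos, one_lt_two⟩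
  have h1 : ContDiff ℝ ∞ fun y : ℝ => ((φ y * Real.exp (y ^ 2) : ℝ) : ℂ) := by
    have h2 : ContDiff ℝ ∞ fun y : ℝ => φ y * Real.exp (y ^ 2) :=
      φ.contDiff.mul ((contDiff_id.pow 2).exp)
    exact Complex.ofRealCLM.contDiff.comp h2
  have h3 : HasCompactSupport fun y : ℝ => ((φ y * Real.exp (y ^ 2) : ℝ) : ℂ) := by
    have h4 : HasCompactSupport fun y : ℝ => φ y * Real.exp (y ^ 2) :=
      φ.hasCompactSupport.mul_right
    exact h4.comp_left Complex.ofReal_zero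
  refine ⟨h3.toSchwartzMap h1, fun y hy => ?_⟩
  have h5 : φ y = 1 := by
    apply φ.one_of_mem_closedBall
    rw [mem_closedBall_zero_iff, Real.norm_eq_abs, abs_of_nonneg hy.1]
    exact hy.2
  show ((φ y * Real.exp (y ^ 2) : ℝ) : ℂ) = (Real.exp (y ^ 2) : ℂ)
  rw [h5, one_mul]

end Pool.Agent.H243.RL.GINV

namespace Pool.Agent.H243.RL

theorem t_GINV : S_GINV := by
  obtain ⟨b, hb⟩ := GINV.exists_schwartz
  have hint : Integrable (𝓕 (b : ℝ → ℂ)) := (𝓕 b : 𝓢(ℝ, ℂ)).integrable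
  have hinv : 𝓕⁻ (𝓕 (b : ℝ → ℂ)) = b :=
    b.continuous.fourierInv_fourier_eq b.integrable hint
  have hpi : (0 : ℝ) < 2 * Real.pi := by positivity
  generalize hF : 𝓕 (b : ℝ → ℂ) = F at hint hinv
  refine ⟨fun s => (((2 * Real.pi : ℝ)⁻¹ : ℝ) : ℂ) * F (s / (2 * Real.pi)), ?_, fun y hy => ?_⟩
  · exact (hint.comp_div hpi.ne').const_mul _
  · rw [← hb y hy, ← congrFun hinv y, Real.fourierInv_eq']
    have h1 := Measure.integral_comp_div (fun v : ℝ => Complex.exp (((2 * Real.pi * inner ℝ v y : ℝ) : ℂ) * Complex.I) • F v)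
      (2 * Real.pi)
    rw [abs_of_pos hpi] at h1
    have h2 : (∫ v : ℝ, Complex.exp (((2 * Real.pi * inner ℝ v y : ℝ) : ℂ) * Complex.I) • F v) =
        (((2 * Real.pi : ℝ)⁻¹ : ℝ) : ℂ) * ∫ s : ℝ, Complex.exp
          (((2 * Real.pi * inner ℝ (s / (2 * Real.pi)) y : ℝ) : ℂ) * Complex.I) • F (s / (2 * Real.pi)) := by
      rw [h1, Complex.real_smul, ← mul_assoc, ← Complex.ofReal_mul, inv_mul_cancel₀ hpi.ne',
        Complex.ofReal_one, one_mul]
    rw [h2, ← integral_const_mul]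
    refine integral_congr_ae (Filter.Eventually.of_forall fun s => ?_)
    show Complex.exp (((s * y : ℝ) : ℂ) * Complex.I) *
      ((((2 * Real.pi : ℝ)⁻¹ : ℝ) : ℂ) * F (s / (2 * Real.pi))) =
        (((2 * Real.pi : ℝ)⁻¹ : ℝ) : ℂ) * (Complex.exp
          (((2 * Real.pi * inner ℝ (s / (2 * Real.pi)) y : ℝ) : ℂ) * Complex.I) • F (s / (2 * Real.pi)))
    have h3 : 2 * Real.pi * inner ℝ (s / (2 * Real.pi)) y = s * y := by
      rw [real_inner_eq_re_inner]
      simp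
      field_simp
    rw [h3, smul_eq_mul]
    ring

end Pool.Agent.H243.RL
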