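import Mathlib
import Pool.Agent.H243.RL.Stmt6
import Pool.Agent.H243.RL.BASE
set_option autoImplicit false

open MeasureTheory Set
open scoped ENNReal

namespace Pool.Agent.H243.RL

/-- the bound at a fixed time, in all the variables of `y'`, for bounded functions -/
def S_ITERB : Prop := ∀ (m : ℕ) (q ε : ℝ), 2 < q → 0 < ε → ∃ K : ℝ, 0 < K ∧
  ∀ (a B : ℝ) (L : Fin m → Set ℤ), 0 ≤ a → 1 ≤ B → (∀ j, Lam q a B (L j)) →
  ∀ f : ℝ × (Fin m → ℝ) → ℂ, Spec L f → (∃ A : ℝ, ∀ p, ‖f p‖ ≤ A) →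
  ∀ t : ℝ, ∫⁻ x₁ : ℝ, ∫⁻ x' : Fin m → ℝ, ‖EN f x₁ x' t‖ₑ ^ q ≤
    ENNReal.ofReal (K * (B ^ q) ^ m * ((2 * (1 + |t|)) ^ (1 - q / 2 + q * a + ε)) ^ m) *
      ∫⁻ x₁ : ℝ, ∫⁻ y' : Fin m → ℝ, ‖W (fun y₁ => f (y₁, y')) x₁ t‖ₑ ^ q

namespace ITERB

open BASE (norm_ph jensen norm_ek cont_ek cont_ph)

variable {m : ℕ}

/-- bounded functions on the cube with spectrum -/
structure Bd (L : Fin m → Set ℤ) (A : ℝ) (g : (Fin m → ℝ) → ℂ) : Prop where
  meas : Measurable g
  supp : ∀ z : Fin m → ℝ, (∃ j, z j ∉ Icc (0 : ℝ) 1) → g z = 0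
  bd : ∀ z, ‖g z‖ ≤ A
  spec : ∀ (j : Fin m) (k : ℤ), k ∉ L j → ∀ᵐ z : Fin m → ℝ,
    ∫ s in Icc (0 : ℝ) 1, ek (-k) s * g (Function.update z j s) = 0

theorem W_eq (h : ℝ → ℂ) (hh : ∀ y, y ∉ Icc (0 : ℝ) 1 → h y = 0) (x t : ℝ) :
    W h x t = ∫ y in Icc (0 : ℝ) 1, ph x t y * h y := by
  unfold W
  exact (setIntegral_eq_integral_of_forall_compl_eq_zero (fun y hy => by
    rw [hh y hy, mul_zero])).symm

theorem slice {L : Fin m → Set ℤ} {A : ℝ} {F : ℝ × (Fin m → ℝ) → ℂ} (hF : Spec L F)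
    (hA : ∀ p, ‖F p‖ ≤ A) (x t : ℝ) : Bd L A (fun z => W (fun s => F (s, z)) x t) := by
  have hcx : Continuous fun p : ℝ => ph x t p := cont_ph (by fun_prop) (by fun_prop) (by fun_prop)
  have h0 : ∀ (z : Fin m → ℝ) (y : ℝ), y ∉ Icc (0 : ℝ) 1 → F (y, z) = 0 := fun z y hy =>
    hF.supp y z (Or.inl hy)
  refine ⟨?_, ?_, ?_, ?_⟩
  · unfold W
    have h : Measurable (fun p : (Fin m → ℝ) × ℝ => ph x t p.2 * F (p.2, p.1)) :=
      (hcx.measurable.comp measurable_snd).mul (hF.meas.comp (by fun_prop))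
    exact h.stronglyMeasurable.integral_prod_right'.measurable
  · intro z hz
    unfold W
    have h1 : ∀ y₁ : ℝ, ph x t y₁ * F (y₁, z) = 0 := fun y₁ => by
      rw [hF.supp y₁ z (Or.inr hz), mul_zero]
    simp only [h1, integral_zero]
  · intro z
    rw [W_eq _ (h0 z)]
    have h1 : ∀ y ∈ Icc (0 : ℝ) 1, ‖ph x t y * F (y, z)‖ ≤ A := fun y _ => by
      rw [norm_mul, norm_ph, one_mul]
      exact hA _
    refine (norm_setIntegral_le_of_norm_le_const measure_Icc_lt_top h1).trans ?_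
    simp
  · intro j k hk
    have h1 := hF.spec j k hk
    have h2 := (Measure.measurePreserving_swap (μ := (volume : Measure (Fin m → ℝ)))
      (ν := (volume : Measure ℝ))).quasiMeasurePreserving.ae h1
    have h3 := Measure.ae_ae_of_ae_prod h2
    filter_upwards [h3] with z hz
    have hm2 : Measurable (fun p : ℝ × ℝ => F (p.2, Function.update z j p.1)) := by
      refine hF.meas.comp (measurable_snd.prodMk ?_)
      exact (measurable_update z (a := j)).comp measurable_fst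
    have hint : Integrable (Function.uncurry fun s y₁ : ℝ =>
        ek (-k) s * (ph x t y₁ * F (y₁, Function.update z j s)))
        (((volume : Measure ℝ).restrict (Icc 0 1)).prod ((volume : Measure ℝ).restrict (Icc 0 1))) := by
      refine Integrable.of_bound (C := A) ?_ (ae_of_all _ fun p => ?_)
      · refine Measurable.aestronglyMeasurable ?_
        have hc : Continuous (fun p : ℝ × ℝ => ek (-k) p.1) := cont_ek _ (by fun_prop)
        exact hc.measurable.mul ((hcx.measurable.comp measurable_snd).mul hm2)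
      · show ‖ek (-k) p.1 * (ph x t p.2 * F (p.2, Function.update z j p.1))‖ ≤ A
        rw [norm_mul, norm_mul, norm_ph, norm_ek, one_mul, one_mul]
        exact hA _
    have e1 : ∫ s in Icc (0 : ℝ) 1, ek (-k) s * W (fun y₁ => F (y₁, Function.update z j s)) x t =
        ∫ s in Icc (0 : ℝ) 1, ∫ y₁ in Icc (0 : ℝ) 1,
          ek (-k) s * (ph x t y₁ * F (y₁, Function.update z j s)) := by
      refine integral_congr_ae (ae_of_all _ fun s => ?_)
      show ek (-k) s * W (fun y₁ => F (y₁, Function.update z j s)) x t = _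
      rw [W_eq _ (h0 _), ← integral_const_mul]
    rw [e1, integral_integral_swap hint]
    have e2 : ∀ᵐ y₁ ∂((volume : Measure ℝ).restrict (Icc 0 1)),
        ∫ s in Icc (0 : ℝ) 1, ek (-k) s * (ph x t y₁ * F (y₁, Function.update z j s)) = 0 := by
      filter_upwards [ae_restrict_of_ae hz] with y₁ hy₁
      have hy₂ : ∫ s in Icc (0 : ℝ) 1, ek (-k) s * F (y₁, Function.update z j s) = 0 := hy₁
      have e3 : ∫ s in Icc (0 : ℝ) 1, ek (-k) s * (ph x t y₁ * F (y₁, Function.update z j s)) =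
          ∫ s in Icc (0 : ℝ) 1, ph x t y₁ * (ek (-k) s * F (y₁, Function.update z j s)) :=
        integral_congr_ae (ae_of_all _ fun s => by ring)
      rw [e3, integral_const_mul, hy₂, mul_zero]
    rw [integral_congr_ae e2, integral_zero]

theorem int_all {L : Fin m → Set ℤ} {A : ℝ} {F : ℝ × (Fin m → ℝ) → ℂ} (hF : Spec L F)
    (hA : ∀ p, ‖F p‖ ≤ A) (x : ℝ) (x' : Fin m → ℝ) (t : ℝ) :
    Integrable (fun p : ℝ × (Fin m → ℝ) => ph x t p.1 * ((∏ j, ph (x' j) t (p.2 j)) * F p))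
      ((volume : Measure ℝ).prod (volume : Measure (Fin m → ℝ))) := by
  have hc : Continuous (fun p : ℝ × (Fin m → ℝ) => ph x t p.1) :=
    cont_ph (by fun_prop) (by fun_prop) (by fun_prop)
  have hc2 : Continuous (fun p : ℝ × (Fin m → ℝ) => ∏ j, ph (x' j) t (p.2 j)) :=
    continuous_finsetProd _ fun j _ => cont_ph (by fun_prop) (by fun_prop) (by fun_prop)
  have h1 : IntegrableOn (fun p : ℝ × (Fin m → ℝ) =>
      ph x t p.1 * ((∏ j, ph (x' j) t (p.2 j)) * F p)) (Icc 0 1)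
      ((volume : Measure ℝ).prod (volume : Measure (Fin m → ℝ))) := by
    refine Measure.integrableOn_of_bounded (M := A) ?_ ?_ (ae_of_all _ fun p => ?_)
    · exact (isCompact_Icc.measure_lt_top).ne
    · exact (hc.measurable.mul (hc2.measurable.mul hF.meas)).aestronglyMeasurable
    · rw [norm_mul, norm_mul, norm_prod]
      simp only [norm_ph, Finset.prod_const_one, one_mul]
      exact hA _
  refine h1.integrable_of_forall_notMem_eq_zero fun p hp => ?_
  have h2 : F p = 0 := by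
    refine hF.supp p.1 p.2 ?_
    by_contra hcon
    push Not at hcon
    refine hp ⟨⟨hcon.1.1, fun j => (hcon.2 j).1⟩, ⟨hcon.1.2, fun j => (hcon.2 j).2⟩⟩
  rw [h2, mul_zero, mul_zero]

theorem EN_eq {L : Fin m → Set ℤ} {A : ℝ} {F : ℝ × (Fin m → ℝ) → ℂ} (hF : Spec L F)
    (hA : ∀ p, ‖F p‖ ≤ A) (x : ℝ) (x' : Fin m → ℝ) (t : ℝ) :
    EN F x x' t = ∫ z, (∏ j, ph (x' j) t (z j)) * W (fun s => F (s, z)) x t := by
  unfold EN
  rw [integral_integral_swap (int_all hF hA x x' t)]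
  refine integral_congr_ae (ae_of_all _ fun z => ?_)
  show ∫ y₁, ph x t y₁ * ((∏ j, ph (x' j) t (z j)) * F (y₁, z)) =
    (∏ j, ph (x' j) t (z j)) * ∫ y₁, ph x t y₁ * F (y₁, z)
  rw [← integral_const_mul]
  refine integral_congr_ae (ae_of_all _ fun y₁ => ?_)
  show ph x t y₁ * ((∏ j, ph (x' j) t (z j)) * F (y₁, z)) =
    (∏ j, ph (x' j) t (z j)) * (ph x t y₁ * F (y₁, z))
  ring

/-- adding a coordinate -/
noncomputable def ce : ℝ × (Fin m → ℝ) ≃ᵐ (Fin (m + 1) → ℝ) :=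
  (MeasurableEquiv.piFinSuccAbove (fun _ : Fin (m + 1) => ℝ) 0).symm

theorem ce_apply (p : ℝ × (Fin m → ℝ)) : ce p = (Fin.cons p.1 p.2 : Fin (m + 1) → ℝ) := by
  unfold ce
  exact Fin.insertNth_zero (α := fun _ : Fin (m + 1) => ℝ) p.1 p.2

theorem ce_mp : MeasurePreserving (ce (m := m))
    ((volume : Measure ℝ).prod (volume : Measure (Fin m → ℝ))) volume :=
  (volume_preserving_piFinSuccAbove (fun _ : Fin (m + 1) => ℝ) 0).symm

theorem EN_eq2 {L : Fin m → Set ℤ} {A : ℝ} {g : (Fin (m + 1) → ℝ) → ℂ}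
    (hF : Spec L (fun p => g (ce p))) (hA : ∀ p, ‖g p‖ ≤ A) (p : ℝ × (Fin m → ℝ)) (t : ℝ) :
    ∫ y : Fin (m + 1) → ℝ, (∏ j, ph ((ce p) j) t (y j)) * g y =
      EN (fun p => g (ce p)) p.1 p.2 t := by
  rw [← ce_mp.integral_comp ce.measurableEmbedding]
  have e1 : (fun z : ℝ × (Fin m → ℝ) => (∏ j, ph ((ce p) j) t ((ce z) j)) * g (ce z)) =
      fun z => ph p.1 t z.1 * ((∏ j, ph (p.2 j) t (z.2 j)) * g (ce z)) := by
    funext z
    rw [Fin.prod_univ_succ, ce_apply, ce_apply]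
    simp only [Fin.cons_zero, Fin.cons_succ]
    ring
  rw [e1, integral_prod _ (int_all hF (fun p => hA _) p.1 p.2 t)]
  rfl

theorem specF {L : Fin (m + 1) → Set ℤ} {A : ℝ} {g : (Fin (m + 1) → ℝ) → ℂ} (hg : Bd L A g) :
    Spec (fun j : Fin m => L j.succ) (fun p => g (ce p)) := by
  refine ⟨hg.meas.comp ce.measurable, ?_, ?_⟩
  · rintro y₁ y' (h | ⟨j, h⟩)
    · refine hg.supp _ ⟨0, ?_⟩
      rw [ce_apply]
      exact h
    · refine hg.supp _ ⟨j.succ, ?_⟩
      rw [ce_apply]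
      exact h
  · intro j k hk
    have h1 := ce_mp.quasiMeasurePreserving.ae (hg.spec j.succ k hk)
    refine h1.mono fun p hp => ?_
    simp only [ce_apply] at hp ⊢
    simp only [Fin.cons_update]
    exact hp

theorem spec0 {L : Fin (m + 1) → Set ℤ} {A : ℝ} {g : (Fin (m + 1) → ℝ) → ℂ} (hg : Bd L A g) :
    ∀ᵐ z : Fin m → ℝ, ∀ k : ℤ, k ∉ L 0 →
      ∫ s in Icc (0 : ℝ) 1, ek (-k) s * g (ce (s, z)) = 0 := by
  rw [ae_all_iff]
  intro k
  by_cases hk : k ∈ L 0
  · exact ae_of_all _ fun z h => absurd hk h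
  · have h1 := ce_mp.quasiMeasurePreserving.ae (hg.spec 0 k hk)
    have h2 := Measure.ae_ae_of_ae_prod h1
    obtain ⟨y, hy⟩ := h2.exists
    refine hy.mono fun z hz _ => ?_
    simp only [ce_apply, Fin.update_cons_zero] at hz ⊢
    exact hz

theorem iter {q t a B : ℝ} (hq : 2 < q) {C : ℝ≥0∞} (hC : C ≠ ∞)
    (hfix : ∀ L : Set ℤ, Lam q a B L → ∀ g : ℝ → ℂ, Measurable g →
      (∀ y, y ∉ Icc (0 : ℝ) 1 → g y = 0) → ∫⁻ y, ‖g y‖ₑ ^ 2 ≠ ∞ →
      (∀ k : ℤ, k ∉ L → ∫ y in Icc (0 : ℝ) 1, ek (-k) y * g y = 0) →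
      ∫⁻ x, ‖W g x t‖ₑ ^ q ≤ C * (∫⁻ y, ‖g y‖ₑ ^ 2) ^ (q / 2)) :
    ∀ (m : ℕ) (L : Fin m → Set ℤ) (A : ℝ) (g : (Fin m → ℝ) → ℂ), (∀ j, Lam q a B (L j)) →
      Bd L A g → ∫⁻ x : Fin m → ℝ, ‖∫ y : Fin m → ℝ, (∏ j, ph (x j) t (y j)) * g y‖ₑ ^ q ≤
        C ^ m * ∫⁻ y, ‖g y‖ₑ ^ q := by
  intro m
  induction m with
  | zero =>
    intro L A g hL hg
    rw [pow_zero, one_mul]
    refine lintegral_mono fun x => ?_
    have e : ∫ y : Fin 0 → ℝ, (∏ j, ph (x j) t (y j)) * g y = g x := by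
      have e1 : (fun y : Fin 0 → ℝ => (∏ j, ph (x j) t (y j)) * g y) = fun _ => g x := by
        funext y
        rw [Finset.univ_eq_empty, Finset.prod_empty, one_mul, Subsingleton.elim y x]
      rw [e1, integral_const]
      simp [Measure.real, volume_pi]
    rw [e]
  | succ m ih =>
    intro L A g hL hg
    have hS := specF hg
    have hAF : ∀ p : ℝ × (Fin m → ℝ), ‖g (ce p)‖ ≤ A := fun p => hg.bd _
    have hmW : Measurable (fun p : ℝ × (Fin m → ℝ) =>
        ‖W (fun s => g (ce (s, p.2))) p.1 t‖ₑ ^ q) := by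
      refine Measurable.pow_const ?_ _
      refine Measurable.enorm ?_
      unfold W
      have hc : Continuous (fun p : (ℝ × (Fin m → ℝ)) × ℝ => ph p.1.1 t p.2) :=
        cont_ph (by fun_prop) (by fun_prop) (by fun_prop)
      have h : Measurable (fun p : (ℝ × (Fin m → ℝ)) × ℝ => ph p.1.1 t p.2 * g (ce (p.2, p.1.2))) :=
        hc.measurable.mul (hg.meas.comp (ce.measurable.comp (by fun_prop)))
      exact h.stronglyMeasurable.integral_prod_right'.measurable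
    have hmF : Measurable (fun p : ℝ × (Fin m → ℝ) => ‖g (ce p)‖ₑ ^ q) :=
      (hg.meas.comp ce.measurable).enorm.pow_const _
    have hCm : C ^ m ≠ ∞ := ENNReal.pow_ne_top hC
    calc ∫⁻ x : Fin (m + 1) → ℝ, ‖∫ y : Fin (m + 1) → ℝ, (∏ j, ph (x j) t (y j)) * g y‖ₑ ^ q
        = ∫⁻ p : ℝ × (Fin m → ℝ), ‖EN (fun p => g (ce p)) p.1 p.2 t‖ₑ ^ q
            ∂((volume : Measure ℝ).prod (volume : Measure (Fin m → ℝ))) := by
          rw [← ce_mp.lintegral_comp_emb ce.measurableEmbedding]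
          refine lintegral_congr fun p => ?_
          rw [EN_eq2 hS hg.bd]
      _ ≤ ∫⁻ x₁ : ℝ, ∫⁻ x' : Fin m → ℝ, ‖EN (fun p => g (ce p)) x₁ x' t‖ₑ ^ q :=
          lintegral_prod_le _
      _ ≤ ∫⁻ x₁ : ℝ, C ^ m * ∫⁻ z : Fin m → ℝ, ‖W (fun s => g (ce (s, z))) x₁ t‖ₑ ^ q := by
          refine lintegral_mono fun x₁ => ?_
          have h1 := ih (fun j => L j.succ) A _ (fun j => hL _) (slice hS hAF x₁ t)
          refine le_trans (le_of_eq ?_) h1
          refine lintegral_congr fun x' => ?_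
          rw [EN_eq hS hAF]
      _ = C ^ m * ∫⁻ x₁ : ℝ, ∫⁻ z : Fin m → ℝ, ‖W (fun s => g (ce (s, z))) x₁ t‖ₑ ^ q :=
          lintegral_const_mul' _ _ hCm
      _ = C ^ m * ∫⁻ z : Fin m → ℝ, ∫⁻ x₁ : ℝ, ‖W (fun s => g (ce (s, z))) x₁ t‖ₑ ^ q := by
          rw [lintegral_lintegral_swap (f := fun (x₁ : ℝ) (z : Fin m → ℝ) =>
            ‖W (fun s => g (ce (s, z))) x₁ t‖ₑ ^ q) hmW.aemeasurable]
      _ ≤ C ^ m * ∫⁻ z : Fin m → ℝ, C * ∫⁻ s : ℝ, ‖g (ce (s, z))‖ₑ ^ q := by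
          refine mul_le_mul' le_rfl (lintegral_mono_ae ?_)
          filter_upwards [spec0 hg] with z hz
          have hms : Measurable (fun s : ℝ => g (ce (s, z))) :=
            hg.meas.comp (ce.measurable.comp (by fun_prop))
          have hz0 : ∀ y, y ∉ Icc (0 : ℝ) 1 → g (ce (y, z)) = 0 := fun y hy =>
            hS.supp y z (Or.inl hy)
          have hfin : ∫⁻ y, ‖g (ce (y, z))‖ₑ ^ 2 ≠ ∞ := by
            have h1 : ∫⁻ y, ‖g (ce (y, z))‖ₑ ^ 2 ≤
                ∫⁻ y, (Icc (0 : ℝ) 1).indicator (fun _ => ENNReal.ofReal A ^ 2) y := by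
              refine lintegral_mono fun y => ?_
              by_cases hy : y ∈ Icc (0 : ℝ) 1
              · rw [indicator_of_mem hy]
                refine pow_le_pow_left' ?_ 2
                rw [← ofReal_norm]
                exact ENNReal.ofReal_le_ofReal (hg.bd _)
              · rw [hz0 y hy, enorm_zero]
                simp
            refine (lt_of_le_of_lt h1 ?_).ne
            rw [lintegral_indicator measurableSet_Icc, setLIntegral_const]
            refine ENNReal.mul_lt_top (ENNReal.pow_lt_top ENNReal.ofReal_lt_top) ?_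
            exact measure_Icc_lt_top
          refine (hfix (L 0) (hL 0) _ hms hz0 hfin hz).trans ?_
          refine mul_le_mul' le_rfl ?_
          have h3 := jensen (p := q / 2) (by linarith) (fun s => ‖g (ce (s, z))‖ₑ ^ 2)
            (hms.enorm.pow_const _) (fun y hy => by
              show ‖g (ce (y, z))‖ₑ ^ 2 = 0
              rw [hz0 y hy, enorm_zero]
              simp)
          refine h3.trans (le_of_eq ?_)
          refine lintegral_congr fun s => ?_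
          show (‖g (ce (s, z))‖ₑ ^ 2) ^ (q / 2) = _
          rw [← ENNReal.rpow_natCast, ← ENNReal.rpow_mul]
          congr 1
          push_cast
          ring
      _ = C ^ (m + 1) * ∫⁻ z : Fin m → ℝ, ∫⁻ s : ℝ, ‖g (ce (s, z))‖ₑ ^ q := by
          rw [lintegral_const_mul' _ _ hC, ← mul_assoc, pow_succ]
      _ = C ^ (m + 1) * ∫⁻ y, ‖g y‖ₑ ^ q := by
          congr 1
          rw [← ce_mp.lintegral_comp_emb ce.measurableEmbedding (fun y => ‖g y‖ₑ ^ q),
            lintegral_prod_symm' _ hmF]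

end ITERB

theorem t_ITERB (h1 : S_FIX) : S_ITERB := by
  intro m q ε hq hε
  obtain ⟨K, hK, H⟩ := h1 q ε hq hε
  refine ⟨K ^ m, by positivity, ?_⟩
  rintro a B L ha hB hL f hf ⟨A, hA⟩ t
  have h2 : 0 < 2 * (1 + |t|) := by positivity
  have h3 : (0 : ℝ) ≤ K * B ^ q * (2 * (1 + |t|)) ^ (1 - q / 2 + q * a + ε) := by
    have : 0 ≤ B := by linarith
    positivity
  have h4 := ITERB.iter (t := t) (a := a) (B := B) hq
    (C := ENNReal.ofReal (K * B ^ q * (2 * (1 + |t|)) ^ (1 - q / 2 + q * a + ε)))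
    ENNReal.ofReal_ne_top (fun L' hL' g hg hg0 hg2 hgs => H a B L' ha hB hL' t g hg hg0 hg2 hgs) m
  have e : K ^ m * (B ^ q) ^ m * ((2 * (1 + |t|)) ^ (1 - q / 2 + q * a + ε)) ^ m =
      (K * B ^ q * (2 * (1 + |t|)) ^ (1 - q / 2 + q * a + ε)) ^ m := by
    rw [mul_pow, mul_pow]
  rw [e, ENNReal.ofReal_pow h3, ← lintegral_const_mul' _ _ (ENNReal.pow_ne_top ENNReal.ofReal_ne_top)]
  refine lintegral_mono fun x₁ => ?_
  refine le_trans (le_of_eq ?_) (h4 L A _ hL (ITERB.slice hf hA x₁ t))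
  refine lintegral_congr fun x' => ?_
  rw [ITERB.EN_eq hf hA]

end Pool.Agent.H243.RL
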