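import Pool.Agent.H243.RL.Stmt3

set_option autoImplicit false

/-! KB: the bound for averages of bounded functions (helper8) -/

open MeasureTheory Set
open scoped ENNReal

namespace Pool.Agent.H243.RL

namespace KB

theorem ph_norm (x t y : ℝ) : ‖ph x t y‖ = 1 := by
  unfold ph
  rw [← Complex.ofReal_neg, Complex.norm_exp_ofReal_mul_I]

theorem ph_cont (x t : ℝ) : Continuous (ph x t) := by
  have : ph x t = fun y => Complex.exp (-((x * y + t * y ^ 2 : ℝ) : ℂ) * Complex.I) := rfl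
  rw [this]
  fun_prop

/-- the kernel -/
noncomputable def K (δ x t z : ℝ) : ℂ := ∫ u in Icc (0 : ℝ) 1, ph x t (z + δ * u)

theorem K_eq {δ : ℝ} (hδ : 0 < δ) (x t z : ℝ) :
    K δ x t z = δ⁻¹ • ∫ y in z..(z + δ), ph x t y := by
  unfold K
  rw [integral_Icc_eq_integral_Ioc, ← intervalIntegral.integral_of_le zero_le_one,
    intervalIntegral.integral_comp_add_mul (ph x t) hδ.ne' z]
  simp

theorem K_one (δ x t z : ℝ) : ‖K δ x t z‖ ≤ 1 := by
  unfold K
  have h := norm_setIntegral_le_of_norm_le_const (μ := volume) (s := Icc (0 : ℝ) 1)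
    (f := fun u => ph x t (z + δ * u)) (C := 1) (by simp) (fun u _ => (ph_norm _ _ _).le)
  simpa using h

theorem K_two {δ C₁ x t : ℝ} (hδ : 0 < δ) (ht : t ≠ 0)
    (hC : ∀ x t a b : ℝ, t ≠ 0 → a ≤ b →
      ‖∫ y in a..b, ph x t y‖ ≤ C₁ * |t| ^ (-(1 / 2 : ℝ)) ∧
      ∀ d : ℝ, 0 < d → (∀ y ∈ Icc a b, d ≤ |y + x / (2 * t)|) →
        ‖∫ y in a..b, ph x t y‖ ≤ C₁ / (|t| * d)) (z : ℝ) :
    ‖K δ x t z‖ ≤ C₁ * |t| ^ (-(1 / 2 : ℝ)) / δ := by
  rw [K_eq hδ, norm_smul, Real.norm_eq_abs, abs_of_pos (inv_pos.2 hδ), div_eq_inv_mul]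
  exact mul_le_mul_of_nonneg_left (hC x t z (z + δ) ht (by linarith)).1 (inv_pos.2 hδ).le

theorem K_three {δ C₁ x t : ℝ} (hδ : 0 < δ) (ht : t ≠ 0)
    (hC : ∀ x t a b : ℝ, t ≠ 0 → a ≤ b →
      ‖∫ y in a..b, ph x t y‖ ≤ C₁ * |t| ^ (-(1 / 2 : ℝ)) ∧
      ∀ d : ℝ, 0 < d → (∀ y ∈ Icc a b, d ≤ |y + x / (2 * t)|) →
        ‖∫ y in a..b, ph x t y‖ ≤ C₁ / (|t| * d)) (z d : ℝ) (hd : 0 < d)
    (h : ∀ y ∈ Icc z (z + δ), d ≤ |y + x / (2 * t)|) :
    ‖K δ x t z‖ ≤ C₁ / (δ * |t|) * (1 / d) := by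
  rw [K_eq hδ, norm_smul, Real.norm_eq_abs, abs_of_pos (inv_pos.2 hδ)]
  refine (mul_le_mul_of_nonneg_left ((hC x t z (z + δ) ht (by linarith)).2 d hd h)
    (inv_pos.2 hδ).le).trans (le_of_eq ?_)
  have : 0 < |t| := abs_pos.2 ht
  field_simp

theorem W_eq {δ : ℝ} (hδ0 : 0 < δ) (hδ1 : δ ≤ 1) {F : ℝ → ℂ} {M : ℝ} (hF : Measurable F)
    (hM : ∀ y, ‖F y‖ ≤ M) (hs : ∀ y, y ∉ Icc (-1 : ℝ) 2 → F y = 0) (x t : ℝ) :
    W (av δ F) x t = ∫ z, K δ x t z * F z := by
  have hM0 : 0 ≤ M := (norm_nonneg _).trans (hM 0)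
  have hph := (ph_cont x t).measurable
  have e0 : W (av δ F) x t = ∫ y, ∫ u in Icc (0 : ℝ) 1, ph x t y * F (y - δ * u) := by
    unfold W av
    congr 1
    funext y
    exact (integral_const_mul _ _).symm
  have i1 : Integrable (Function.uncurry fun y u : ℝ => ph x t y * F (y - δ * u))
      ((volume : Measure ℝ).prod (volume.restrict (Icc (0 : ℝ) 1))) := by
    have hmaj : Integrable (fun p : ℝ × ℝ => (Icc (-1 : ℝ) 3).indicator (fun _ => M) p.1 *
        (fun _ : ℝ => (1 : ℝ)) p.2)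
        ((volume : Measure ℝ).prod (volume.restrict (Icc (0 : ℝ) 1))) := by
      refine Integrable.mul_prod (μ := (volume : Measure ℝ))
        (ν := volume.restrict (Icc (0 : ℝ) 1)) (f := (Icc (-1 : ℝ) 3).indicator (fun _ => M))
        (g := fun _ => 1) ?_ (integrable_const _)
      rw [integrable_indicator_iff measurableSet_Icc]
      exact integrableOn_const (by simp)
    refine hmaj.mono' ?_ ?_
    · refine Measurable.aestronglyMeasurable ?_
      show Measurable fun p : ℝ × ℝ => ph x t p.1 * F (p.1 - δ * p.2)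
      exact (hph.comp measurable_fst).mul (hF.comp (by fun_prop))
    · have hprod : (volume : Measure ℝ).prod (volume.restrict (Icc (0 : ℝ) 1)) =
          ((volume : Measure ℝ).prod volume).restrict (univ ×ˢ Icc (0 : ℝ) 1) := by
        rw [← Measure.prod_restrict, Measure.restrict_univ]
      rw [hprod, ae_restrict_iff' (MeasurableSet.univ.prod measurableSet_Icc)]
      refine ae_of_all _ ?_
      rintro ⟨y, u⟩ ⟨_, hu⟩
      simp only [Function.uncurry_apply_pair, mul_one]
      rw [norm_mul, ph_norm, one_mul]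
      by_cases hy : y ∈ Icc (-1 : ℝ) 3
      · rw [indicator_of_mem hy]
        exact hM _
      · rw [indicator_of_notMem hy, hs, norm_zero]
        intro h
        apply hy
        have hu1 := hu.1
        have hu2 := hu.2
        simp only at hu1 hu2
        have h1 : 0 ≤ δ * u := mul_nonneg hδ0.le hu1
        have h2 : δ * u ≤ 1 := by nlinarith
        exact ⟨by linarith [h.1], by linarith [h.2]⟩
  have e2 : ∀ u : ℝ, ∫ y, ph x t y * F (y - δ * u) = ∫ z, ph x t (z + δ * u) * F z := by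
    intro u
    rw [← integral_add_right_eq_self (fun y => ph x t y * F (y - δ * u)) (δ * u)]
    congr 1
    funext z
    rw [add_sub_cancel_right]
  have i2 : Integrable (Function.uncurry fun u z : ℝ => ph x t (z + δ * u) * F z)
      ((volume.restrict (Icc (0 : ℝ) 1)).prod (volume : Measure ℝ)) := by
    have hmaj : Integrable (fun p : ℝ × ℝ => (fun _ : ℝ => (1 : ℝ)) p.1 *
        (Icc (-1 : ℝ) 2).indicator (fun _ => M) p.2)
        ((volume.restrict (Icc (0 : ℝ) 1)).prod (volume : Measure ℝ)) := by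
      refine Integrable.mul_prod (μ := volume.restrict (Icc (0 : ℝ) 1))
        (ν := (volume : Measure ℝ)) (f := fun _ => 1)
        (g := (Icc (-1 : ℝ) 2).indicator (fun _ => M)) (integrable_const _) ?_
      rw [integrable_indicator_iff measurableSet_Icc]
      exact integrableOn_const (by simp)
    refine hmaj.mono' ?_ ?_
    · refine Measurable.aestronglyMeasurable ?_
      show Measurable fun p : ℝ × ℝ => ph x t (p.2 + δ * p.1) * F p.2
      exact (hph.comp (by fun_prop)).mul (hF.comp measurable_snd)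
    · refine ae_of_all _ ?_
      rintro ⟨u, z⟩
      simp only [Function.uncurry_apply_pair, one_mul]
      rw [norm_mul, ph_norm, one_mul]
      by_cases hz : z ∈ Icc (-1 : ℝ) 2
      · rw [indicator_of_mem hz]
        exact hM _
      · rw [indicator_of_notMem hz, hs z hz, norm_zero]
  rw [e0, integral_integral_swap i1]
  simp_rw [e2]
  rw [integral_integral_swap i2]
  congr 1
  funext z
  rw [integral_mul_const]
  rfl

theorem L1 (a : ℝ) {r : ℝ} (hr : 0 < r) :
    ∫ z in Icc (-1 : ℝ) 2, (Ici (a + r)).indicator (fun z => 1 / (z - a)) z ≤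
      Real.log (1 + 3 / r) := by
  have hlog : 0 ≤ Real.log (1 + 3 / r) := by
    apply Real.log_nonneg
    have : 0 < 3 / r := by positivity
    linarith
  rw [setIntegral_indicator measurableSet_Ici]
  obtain ⟨m, hm⟩ : ∃ m, m = max (-1) (a + r) := ⟨_, rfl⟩
  have hm1 : -1 ≤ m := hm ▸ le_max_left _ _
  have hm2 : a + r ≤ m := hm ▸ le_max_right _ _
  have hset : Icc (-1 : ℝ) 2 ∩ Ici (a + r) = Icc m 2 := by
    ext z
    simp only [mem_inter_iff, mem_Icc, mem_Ici]
    constructor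
    · rintro ⟨⟨h1, h2⟩, h3⟩
      exact ⟨hm ▸ max_le h1 h3, h2⟩
    · rintro ⟨h1, h2⟩
      exact ⟨⟨hm1.trans h1, h2⟩, hm2.trans h1⟩
  rw [hset]
  by_cases h : m ≤ 2
  · rw [integral_Icc_eq_integral_Ioc, ← intervalIntegral.integral_of_le h,
      intervalIntegral.integral_comp_sub_right (fun z => 1 / z) a,
      integral_one_div_of_pos (by linarith) (by linarith)]
    have h1 : 0 < m - a := by linarith
    have h2 : 0 < 2 - a := by linarith
    apply Real.log_le_log (by positivity)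
    have h3 : (2 - a) / (m - a) ≤ 1 + 3 / (m - a) := by
      rw [div_le_iff₀ h1, add_mul, div_mul_cancel₀ _ h1.ne']
      linarith
    have h4 : 3 / (m - a) ≤ 3 / r := div_le_div_of_nonneg_left (by norm_num) hr (by linarith)
    linarith
  · rw [Icc_eq_empty h, setIntegral_empty]
    exact hlog

theorem L2 (a : ℝ) {r : ℝ} (hr : 0 < r) :
    ∫ z in Icc (-1 : ℝ) 2, (Iic (a - r)).indicator (fun z => 1 / (a - z)) z ≤
      Real.log (1 + 3 / r) := by
  have hlog : 0 ≤ Real.log (1 + 3 / r) := by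
    apply Real.log_nonneg
    have : 0 < 3 / r := by positivity
    linarith
  rw [setIntegral_indicator measurableSet_Iic]
  obtain ⟨m, hm⟩ : ∃ m, m = min 2 (a - r) := ⟨_, rfl⟩
  have hm1 : m ≤ 2 := hm ▸ min_le_left _ _
  have hm2 : m ≤ a - r := hm ▸ min_le_right _ _
  have hset : Icc (-1 : ℝ) 2 ∩ Iic (a - r) = Icc (-1) m := by
    ext z
    simp only [mem_inter_iff, mem_Icc, mem_Iic]
    constructor
    · rintro ⟨⟨h1, h2⟩, h3⟩
      exact ⟨h1, hm ▸ le_min h2 h3⟩
    · rintro ⟨h1, h2⟩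
      exact ⟨⟨h1, h2.trans hm1⟩, h2.trans hm2⟩
  rw [hset]
  by_cases h : -1 ≤ m
  · rw [integral_Icc_eq_integral_Ioc, ← intervalIntegral.integral_of_le h,
      intervalIntegral.integral_comp_sub_left (fun z => 1 / z) a,
      integral_one_div_of_pos (by linarith) (by linarith)]
    have h1 : 0 < a - m := by linarith
    have h2 : 0 < a - -1 := by linarith
    apply Real.log_le_log (by positivity)
    have h3 : (a - -1) / (a - m) ≤ 1 + 3 / (a - m) := by
      rw [div_le_iff₀ h1, add_mul, div_mul_cancel₀ _ h1.ne']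
      linarith
    have h4 : 3 / (a - m) ≤ 3 / r := div_le_div_of_nonneg_left (by norm_num) hr (by linarith)
    linarith
  · rw [Icc_eq_empty h, setIntegral_empty]
    exact hlog

theorem I1 (a : ℝ) {r : ℝ} (hr : 0 < r) :
    Integrable ((Ici (a + r)).indicator (fun z => 1 / (z - a)))
      (volume.restrict (Icc (-1 : ℝ) 2)) := by
  refine Integrable.of_bound (Measurable.aestronglyMeasurable ?_) (1 / r) (ae_of_all _ ?_)
  · exact Measurable.indicator (by fun_prop) measurableSet_Ici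
  · intro z
    by_cases hz : z ∈ Ici (a + r)
    · rw [indicator_of_mem hz]
      have h1 : r ≤ z - a := by
        have : a + r ≤ z := hz
        linarith
      rw [Real.norm_eq_abs, abs_of_pos (one_div_pos.2 (by linarith))]
      exact one_div_le_one_div_of_le hr h1
    · rw [indicator_of_notMem hz, norm_zero]
      positivity

theorem I2 (a : ℝ) {r : ℝ} (hr : 0 < r) :
    Integrable ((Iic (a - r)).indicator (fun z => 1 / (a - z)))
      (volume.restrict (Icc (-1 : ℝ) 2)) := by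
  refine Integrable.of_bound (Measurable.aestronglyMeasurable ?_) (1 / r) (ae_of_all _ ?_)
  · exact Measurable.indicator (by fun_prop) measurableSet_Iic
  · intro z
    by_cases hz : z ∈ Iic (a - r)
    · rw [indicator_of_mem hz]
      have h1 : r ≤ a - z := by
        have : z ≤ a - r := hz
        linarith
      rw [Real.norm_eq_abs, abs_of_pos (one_div_pos.2 (by linarith))]
      exact one_div_le_one_div_of_le hr h1
    · rw [indicator_of_notMem hz, norm_zero]
      positivity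

theorem I0 (a b : ℝ) : Integrable ((Icc a b).indicator (fun _ : ℝ => (1 : ℝ))) := by
  rw [integrable_indicator_iff measurableSet_Icc]
  exact integrableOn_const (by simp)

theorem L0 {a b : ℝ} (hab : a ≤ b) :
    ∫ z in Icc (-1 : ℝ) 2, (Icc a b).indicator (fun _ : ℝ => (1 : ℝ)) z ≤ b - a := by
  refine (setIntegral_le_integral (I0 a b) (ae_of_all _ fun z => ?_)).trans (le_of_eq ?_)
  · exact indicator_nonneg (fun _ _ => zero_le_one) z
  · rw [integral_indicator measurableSet_Icc, setIntegral_const]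
    simp [hab]

end KB

open KB in
theorem t_KB (h1 : S_VDC) : S_KB := by
  obtain ⟨C₁, hC0, hC⟩ := h1
  refine ⟨6 * (1 + C₁), by positivity, ?_⟩
  intro t ht δ hδ0 hδ1 F M hF hM0 hM hs x
  have ht0 : t ≠ 0 := by
    intro h
    rw [h, abs_zero] at ht
    linarith
  have htp : 0 < |t| := by linarith
  obtain ⟨r, hr⟩ : ∃ r : ℝ, r = |t| ^ (-(1 / 2 : ℝ)) := ⟨_, rfl⟩
  have hr0 : 0 < r := by rw [hr]; positivity
  have hlt : 0 ≤ Real.log |t| := Real.log_nonneg ht
  rw [← hr]
  obtain ⟨y0, hy0⟩ : ∃ y0 : ℝ, y0 = -(x / (2 * t)) := ⟨_, rfl⟩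
  obtain ⟨κ, hκ⟩ : ∃ κ : ℝ, κ = min 1 (C₁ * r / δ) := ⟨_, rfl⟩
  obtain ⟨c₂, hc₂⟩ : ∃ c₂ : ℝ, c₂ = C₁ / (δ * |t|) := ⟨_, rfl⟩
  have hκ0 : 0 ≤ κ := by
    rw [hκ]
    positivity
  have hc0 : 0 ≤ c₂ := by rw [hc₂]; positivity
  -- the majorant
  obtain ⟨Φ, hΦ⟩ : ∃ Φ : ℝ → ℝ, Φ = fun z =>
      κ * (Icc (y0 - δ - r) (y0 + r)).indicator (fun _ : ℝ => (1 : ℝ)) z +
      c₂ * (Ici (y0 + r)).indicator (fun z => 1 / (z - y0)) z +
      c₂ * (Iic (y0 - δ - r)).indicator (fun z => 1 / (y0 - δ - z)) z := ⟨_, rfl⟩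
  have hA0 : ∀ z, 0 ≤ (Icc (y0 - δ - r) (y0 + r)).indicator (fun _ : ℝ => (1 : ℝ)) z :=
    fun z => indicator_nonneg (fun _ _ => zero_le_one) z
  have hB0 : ∀ z, 0 ≤ (Ici (y0 + r)).indicator (fun z => 1 / (z - y0)) z := by
    refine fun z => indicator_nonneg (fun w hw => ?_) z
    have : y0 + r ≤ w := hw
    have : 0 < w - y0 := by linarith
    positivity
  have hD0 : ∀ z, 0 ≤ (Iic (y0 - δ - r)).indicator (fun z => 1 / (y0 - δ - z)) z := by
    refine fun z => indicator_nonneg (fun w hw => ?_) z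
    have : w ≤ y0 - δ - r := hw
    have : 0 < y0 - δ - w := by linarith
    positivity
  have hK : ∀ z, ‖K δ x t z‖ ≤ Φ z := by
    intro z
    rw [hΦ]
    simp only
    have hA := hA0 z
    have hB := hB0 z
    have hD := hD0 z
    rcases le_or_gt (y0 + r) z with hz | hz
    · have h1 : ‖K δ x t z‖ ≤ c₂ * (1 / (z - y0)) := by
        rw [hc₂]
        refine K_three hδ0 ht0 hC z (z - y0) (by linarith) ?_
        intro y hy
        have h2 : y + x / (2 * t) = y - y0 := by rw [hy0]; ring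
        rw [h2, abs_of_nonneg (by linarith [hy.1])]
        linarith [hy.1]
      have h3 : (Ici (y0 + r)).indicator (fun z => 1 / (z - y0)) z = 1 / (z - y0) :=
        indicator_of_mem (by exact hz) _
      rw [h3]
      have h4 := mul_nonneg hκ0 hA
      have h5 := mul_nonneg hc0 hD
      linarith
    · rcases le_or_gt z (y0 - δ - r) with hz' | hz'
      · have h1 : ‖K δ x t z‖ ≤ c₂ * (1 / (y0 - δ - z)) := by
          rw [hc₂]
          refine K_three hδ0 ht0 hC z (y0 - δ - z) (by linarith) ?_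
          intro y hy
          have h2 : y + x / (2 * t) = y - y0 := by rw [hy0]; ring
          rw [h2, abs_of_nonpos (by linarith [hy.2])]
          linarith [hy.2]
        have h3 : (Iic (y0 - δ - r)).indicator (fun z => 1 / (y0 - δ - z)) z =
            1 / (y0 - δ - z) := indicator_of_mem (by exact hz') _
        rw [h3]
        have h4 := mul_nonneg hκ0 hA
        have h5 := mul_nonneg hc0 hB
        linarith
      · have h1 : ‖K δ x t z‖ ≤ κ := by
          rw [hκ]
          refine le_min (K_one _ _ _ _) ?_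
          rw [hr]
          exact K_two hδ0 ht0 hC z
        have h3 : (Icc (y0 - δ - r) (y0 + r)).indicator (fun _ : ℝ => (1 : ℝ)) z = 1 :=
          indicator_of_mem (show z ∈ Icc (y0 - δ - r) (y0 + r) from ⟨hz'.le, hz.le⟩) _
        rw [h3]
        have h4 := mul_nonneg hc0 hB
        have h5 := mul_nonneg hc0 hD
        linarith
  have j0 : Integrable (fun z => κ *
      (Icc (y0 - δ - r) (y0 + r)).indicator (fun _ : ℝ => (1 : ℝ)) z)
      (volume.restrict (Icc (-1 : ℝ) 2)) := (I0 _ _).restrict.const_mul κ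
  have j1 : Integrable (fun z => c₂ * (Ici (y0 + r)).indicator (fun z => 1 / (z - y0)) z)
      (volume.restrict (Icc (-1 : ℝ) 2)) := (I1 y0 hr0).const_mul c₂
  have j2 : Integrable (fun z => c₂ *
      (Iic (y0 - δ - r)).indicator (fun z => 1 / (y0 - δ - z)) z)
      (volume.restrict (Icc (-1 : ℝ) 2)) := (I2 (y0 - δ) hr0).const_mul c₂
  have j01 : Integrable (fun z => κ *
      (Icc (y0 - δ - r) (y0 + r)).indicator (fun _ : ℝ => (1 : ℝ)) z +
      c₂ * (Ici (y0 + r)).indicator (fun z => 1 / (z - y0)) z)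
      (volume.restrict (Icc (-1 : ℝ) 2)) := j0.add j1
  have hΦi : Integrable Φ (volume.restrict (Icc (-1 : ℝ) 2)) := by
    rw [hΦ]
    exact (j0.add j1).add j2
  have hΦs : ∫ z in Icc (-1 : ℝ) 2, Φ z ≤
      κ * (δ + 2 * r) + 2 * (c₂ * Real.log (1 + 3 / r)) := by
    have e : ∫ z in Icc (-1 : ℝ) 2, Φ z =
        κ * (∫ z in Icc (-1 : ℝ) 2,
          (Icc (y0 - δ - r) (y0 + r)).indicator (fun _ : ℝ => (1 : ℝ)) z) +
        c₂ * (∫ z in Icc (-1 : ℝ) 2, (Ici (y0 + r)).indicator (fun z => 1 / (z - y0)) z) +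
        c₂ * (∫ z in Icc (-1 : ℝ) 2,
          (Iic (y0 - δ - r)).indicator (fun z => 1 / (y0 - δ - z)) z) := by
      rw [hΦ]
      rw [← integral_const_mul, ← integral_const_mul, ← integral_const_mul,
        ← integral_add j0 j1, ← integral_add j01 j2]
    rw [e]
    have l0 := L0 (a := y0 - δ - r) (b := y0 + r) (by linarith)
    have l1 := L1 y0 hr0
    have l2 := L2 (y0 - δ) hr0
    have m0 := mul_le_mul_of_nonneg_left l0 hκ0
    have m1 := mul_le_mul_of_nonneg_left l1 hc0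
    have m2 := mul_le_mul_of_nonneg_left l2 hc0
    have m3 : κ * (y0 + r - (y0 - δ - r)) = κ * (δ + 2 * r) := by ring
    rw [m3] at m0
    linarith
  have hmain : ‖W (av δ F) x t‖ ≤ M * ∫ z in Icc (-1 : ℝ) 2, Φ z := by
    rw [W_eq hδ0 hδ1 hF hM hs x t, ← setIntegral_eq_integral_of_forall_compl_eq_zero
      (s := Icc (-1 : ℝ) 2) (fun z hz => by rw [hs z hz, mul_zero]), ← integral_const_mul]
    refine norm_integral_le_of_norm_le (hΦi.const_mul M) (ae_of_all _ fun z => ?_)
    rw [norm_mul, mul_comm]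
    exact mul_le_mul (hM z) (hK z) (norm_nonneg _) hM0
  -- numbers
  have n1 : κ * (δ + 2 * r) ≤ 3 * (1 + C₁) * r := by
    rcases le_total r δ with h | h
    · have h2 : κ ≤ C₁ * r / δ := hκ ▸ min_le_right _ _
      have h3 : κ * (δ + 2 * r) ≤ C₁ * r / δ * (3 * δ) :=
        mul_le_mul h2 (by linarith) (by positivity) (by positivity)
      have h4 : C₁ * r / δ * (3 * δ) = 3 * C₁ * r := by field_simp
      nlinarith
    · have h2 : κ ≤ 1 := hκ ▸ min_le_left _ _
      have h3 : κ * (δ + 2 * r) ≤ 1 * (3 * r) :=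
        mul_le_mul h2 (by linarith) (by positivity) (by positivity)
      have h4 : 0 ≤ C₁ * r := by positivity
      nlinarith
  have n2 : Real.log (1 + 3 / r) ≤ 3 * (1 + Real.log |t|) := by
    have hri : 1 / r = |t| ^ (1 / 2 : ℝ) := by
      rw [hr, Real.rpow_neg htp.le, one_div, inv_inv]
    have hs1 : 1 ≤ |t| ^ (1 / 2 : ℝ) := Real.one_le_rpow ht (by norm_num)
    have h2 : 1 + 3 / r ≤ 4 * |t| ^ (1 / 2 : ℝ) := by
      have : 3 / r = 3 * |t| ^ (1 / 2 : ℝ) := by rw [← hri]; ring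
      rw [this]
      linarith
    have h3 : Real.log (1 + 3 / r) ≤ Real.log (4 * |t| ^ (1 / 2 : ℝ)) :=
      Real.log_le_log (by positivity) h2
    rw [Real.log_mul (by norm_num) (by positivity), Real.log_rpow htp] at h3
    have h4 : Real.log 4 ≤ 3 := by
      have := Real.log_le_sub_one_of_pos (show (0 : ℝ) < 4 by norm_num)
      linarith
    linarith
  have n3 : c₂ * Real.log (1 + 3 / r) ≤ C₁ * (1 / (δ * |t|)) * (3 * (1 + Real.log |t|)) := by
    refine (mul_le_mul_of_nonneg_left n2 hc0).trans (le_of_eq ?_)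
    rw [hc₂]
    ring
  have hu0 : 0 ≤ 1 / (δ * |t|) := by positivity
  obtain ⟨u, hu⟩ : ∃ u : ℝ, u = 1 / (δ * |t|) := ⟨_, rfl⟩
  rw [← hu] at n3 hu0 ⊢
  obtain ⟨l, hl⟩ : ∃ l : ℝ, l = Real.log |t| := ⟨_, rfl⟩
  rw [← hl] at n3 hlt ⊢
  have hfin : κ * (δ + 2 * r) + 2 * (c₂ * Real.log (1 + 3 / r)) ≤
      6 * (1 + C₁) * ((r + u) * (1 + l)) := by
    have p1 : 0 ≤ C₁ * r := by positivity
    have p2 : 0 ≤ r * l := by positivity
    have p3 : 0 ≤ C₁ * r * l := by positivity
    have p4 : 0 ≤ u * l := by positivity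
    have p5 : 0 ≤ C₁ * u := by positivity
    have p6 : 0 ≤ C₁ * u * l := by positivity
    nlinarith
  calc ‖W (av δ F) x t‖ ≤ M * ∫ z in Icc (-1 : ℝ) 2, Φ z := hmain
    _ ≤ M * (6 * (1 + C₁) * ((r + u) * (1 + l))) :=
        mul_le_mul_of_nonneg_left (hΦs.trans hfin) hM0
    _ = 6 * (1 + C₁) * ((r + u) * (1 + l)) * M := by ring

end Pool.Agent.H243.RL
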