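import Pool.Agent.H243.RL.Stmt3
set_option autoImplicit false

open MeasureTheory Set
open scoped ENNReal

namespace Pool.Agent.H243.RL

namespace LOC

theorem norm_ph (x t y : ℝ) : ‖ph x t y‖ = 1 := by
  unfold ph
  have h : (-((x * y + t * y ^ 2 : ℝ) : ℂ) * Complex.I) =
      ((-(x * y + t * y ^ 2) : ℝ) : ℂ) * Complex.I := by
    push_cast
    ring
  rw [h, Complex.norm_exp_ofReal_mul_I]

theorem enorm_ph (x t y : ℝ) : ‖ph x t y‖ₑ = 1 := by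
  rw [← ofReal_norm, norm_ph, ENNReal.ofReal_one]

theorem measurable_ph : Measurable (fun p : ℝ × ℝ × ℝ => ph p.1 p.2.1 p.2.2) := by
  unfold ph
  have h : Continuous (fun p : ℝ × ℝ × ℝ =>
      Complex.exp (-((p.1 * p.2.2 + p.2.1 * p.2.2 ^ 2 : ℝ) : ℂ) * Complex.I)) := by fun_prop
  exact h.measurable

theorem meas_W (f : ℝ × ℝ → ℂ) (hf : Measurable f) :
    Measurable (fun p : ℝ × ℝ × ℝ => W (fun y₁ => f (y₁, p.1)) p.2.1 p.2.2) := by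
  have h : Measurable (fun z : (ℝ × ℝ × ℝ) × ℝ => ph z.1.2.1 z.1.2.2 z.2 * f (z.2, z.1.1)) := by
    have h1 : Measurable (fun z : (ℝ × ℝ × ℝ) × ℝ => ph z.1.2.1 z.1.2.2 z.2) :=
      measurable_ph.comp (g := fun p : ℝ × ℝ × ℝ => ph p.1 p.2.1 p.2.2)
        (f := fun z : (ℝ × ℝ × ℝ) × ℝ => (z.1.2.1, z.1.2.2, z.2)) (by fun_prop)
    have h2 : Measurable (fun z : (ℝ × ℝ × ℝ) × ℝ => f (z.2, z.1.1)) := hf.comp (by fun_prop)
    exact h1.mul h2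
  exact (h.stronglyMeasurable.integral_prod_right' (ν := volume)).measurable

/-- shift in the second variable -/
theorem lint_shift (g : ℝ → ℝ≥0∞) (c : ℝ) : ∫⁻ y, g (y - c) = ∫⁻ y, g y :=
  lintegral_sub_right_eq_self g c

theorem swap3 (f : ℝ × ℝ → ℂ) (hf : Measurable f)
    (hfi : ∫⁻ p, ‖f p‖ₑ ∂((volume : Measure ℝ).prod (volume : Measure ℝ)) ≠ ∞) (a b : ℝ → ℂ)
    (ha : Measurable a) (hb : Measurable b) (ha1 : ∀ y, ‖a y‖ₑ = 1) (hb1 : ∀ y, ‖b y‖ₑ = 1) (δ : ℝ) :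
    ∫ y₁, ∫ y₂, a y₁ * (b y₂ * ∫ u in Icc (0 : ℝ) 1, f (y₁, y₂ - δ * u)) =
      ∫ y₂, b y₂ * ∫ u in Icc (0 : ℝ) 1, ∫ y₁, a y₁ * f (y₁, y₂ - δ * u) := by
  obtain ⟨ν, hν⟩ : ∃ ν : Measure ℝ, ν = volume.restrict (Icc (0 : ℝ) 1) := ⟨_, rfl⟩
  rw [← hν]
  have : IsFiniteMeasure ν := by
    rw [hν]
    exact ⟨by simp⟩
  have hν1 : ν univ ≠ ∞ := measure_ne_top ν univ
  -- the two integrability statements
  have hI : Integrable (fun z : (ℝ × ℝ) × ℝ => a z.1.1 * (b z.1.2 * f (z.1.1, z.1.2 - δ * z.2)))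
      (((volume : Measure ℝ).prod (volume : Measure ℝ)).prod ν) := by
    have hM : Measurable (fun z : (ℝ × ℝ) × ℝ => a z.1.1 * (b z.1.2 * f (z.1.1, z.1.2 - δ * z.2))) := by
      have h1 : Measurable (fun z : (ℝ × ℝ) × ℝ => f (z.1.1, z.1.2 - δ * z.2)) :=
        hf.comp (by fun_prop)
      have h2 : Measurable (fun z : (ℝ × ℝ) × ℝ => a z.1.1) := ha.comp (by fun_prop)
      have h3 : Measurable (fun z : (ℝ × ℝ) × ℝ => b z.1.2) := hb.comp (by fun_prop)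
      exact h2.mul (h3.mul h1)
    refine ⟨hM.aestronglyMeasurable, ?_⟩
    rw [hasFiniteIntegral_iff_enorm]
    rw [lintegral_prod_symm _ hM.enorm.aemeasurable]
    have e1 : ∀ u : ℝ, ∫⁻ p, ‖a p.1 * (b p.2 * f (p.1, p.2 - δ * u))‖ₑ
        ∂((volume : Measure ℝ).prod (volume : Measure ℝ)) =
        ∫⁻ p, ‖f p‖ₑ ∂((volume : Measure ℝ).prod (volume : Measure ℝ)) := by
      intro u
      have m1 : Measurable (fun p : ℝ × ℝ => ‖f (p.1, p.2 - δ * u)‖ₑ) :=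
        (hf.comp (by fun_prop)).enorm
      calc ∫⁻ p, ‖a p.1 * (b p.2 * f (p.1, p.2 - δ * u))‖ₑ
            ∂((volume : Measure ℝ).prod (volume : Measure ℝ))
          = ∫⁻ p, ‖f (p.1, p.2 - δ * u)‖ₑ ∂((volume : Measure ℝ).prod (volume : Measure ℝ)) := by
            refine lintegral_congr fun p => ?_
            rw [enorm_mul, enorm_mul, ha1, hb1, one_mul, one_mul]
        _ = ∫⁻ y₁, ∫⁻ y₂, ‖f (y₁, y₂ - δ * u)‖ₑ := lintegral_prod _ m1.aemeasurable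
        _ = ∫⁻ y₁, ∫⁻ y₂, ‖f (y₁, y₂)‖ₑ := by
            refine lintegral_congr fun y₁ => ?_
            exact lint_shift (fun y => ‖f (y₁, y)‖ₑ) (δ * u)
        _ = _ := (lintegral_prod (fun p => ‖f p‖ₑ) hf.enorm.aemeasurable).symm
    simp only [e1]
    rw [lintegral_const]
    exact ENNReal.mul_lt_top (lt_top_iff_ne_top.2 hfi) (lt_top_iff_ne_top.2 hν1)
  have hI2 : Integrable (fun z : ℝ × (ℝ × ℝ) => a z.2.1 * (b z.1 * f (z.2.1, z.1 - δ * z.2.2)))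
      ((volume : Measure ℝ).prod ((volume : Measure ℝ).prod ν)) := by
    have hM : Measurable (fun z : ℝ × (ℝ × ℝ) => a z.2.1 * (b z.1 * f (z.2.1, z.1 - δ * z.2.2))) := by
      have h1 : Measurable (fun z : ℝ × (ℝ × ℝ) => f (z.2.1, z.1 - δ * z.2.2)) :=
        hf.comp (by fun_prop)
      have h2 : Measurable (fun z : ℝ × (ℝ × ℝ) => a z.2.1) := ha.comp (by fun_prop)
      have h3 : Measurable (fun z : ℝ × (ℝ × ℝ) => b z.1) := hb.comp (by fun_prop)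
      exact h2.mul (h3.mul h1)
    refine ⟨hM.aestronglyMeasurable, ?_⟩
    rw [hasFiniteIntegral_iff_enorm]
    rw [lintegral_prod_symm _ hM.enorm.aemeasurable]
    have e1 : ∀ w : ℝ × ℝ, ∫⁻ y₂, ‖a w.1 * (b y₂ * f (w.1, y₂ - δ * w.2))‖ₑ =
        ∫⁻ y₂, ‖f (w.1, y₂)‖ₑ := by
      intro w
      calc ∫⁻ y₂, ‖a w.1 * (b y₂ * f (w.1, y₂ - δ * w.2))‖ₑ
          = ∫⁻ y₂, ‖f (w.1, y₂ - δ * w.2)‖ₑ := by
            refine lintegral_congr fun y => ?_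
            rw [enorm_mul, enorm_mul, ha1, hb1, one_mul, one_mul]
        _ = _ := lint_shift (fun y => ‖f (w.1, y)‖ₑ) (δ * w.2)
    simp only [e1]
    have m2 : Measurable (fun y₁ : ℝ => ∫⁻ y₂, ‖f (y₁, y₂)‖ₑ) := hf.enorm.lintegral_prod_right'
    rw [lintegral_prod (fun w : ℝ × ℝ => ∫⁻ y₂, ‖f (w.1, y₂)‖ₑ)
      (m2.comp measurable_fst).aemeasurable]
    simp only [lintegral_const]
    rw [lintegral_mul_const _ m2, ← lintegral_prod (fun p => ‖f p‖ₑ) hf.enorm.aemeasurable]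
    exact ENNReal.mul_lt_top (lt_top_iff_ne_top.2 hfi) (lt_top_iff_ne_top.2 hν1)
  have hG : Integrable (Function.uncurry fun y₁ y₂ : ℝ =>
      a y₁ * (b y₂ * ∫ u, f (y₁, y₂ - δ * u) ∂ν)) ((volume : Measure ℝ).prod (volume : Measure ℝ)) := by
    have h := hI.integral_prod_left
    refine h.congr (Filter.Eventually.of_forall fun p => ?_)
    show ∫ u, a p.1 * (b p.2 * f (p.1, p.2 - δ * u)) ∂ν = a p.1 * (b p.2 * ∫ u, f (p.1, p.2 - δ * u) ∂ν)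
    rw [integral_const_mul, integral_const_mul]
  rw [integral_integral_swap hG]
  refine integral_congr_ae ?_
  filter_upwards [hI2.prod_right_ae] with y₂ hy
  calc ∫ y₁, a y₁ * (b y₂ * ∫ u, f (y₁, y₂ - δ * u) ∂ν)
      = ∫ y₁, ∫ u, a y₁ * (b y₂ * f (y₁, y₂ - δ * u)) ∂ν := by
        refine integral_congr_ae (Filter.Eventually.of_forall fun y₁ => ?_)
        show _ = ∫ u, a y₁ * (b y₂ * f (y₁, y₂ - δ * u)) ∂ν
        rw [integral_const_mul, integral_const_mul]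
    _ = ∫ u, ∫ y₁, a y₁ * (b y₂ * f (y₁, y₂ - δ * u)) ∂volume ∂ν := integral_integral_swap hy
    _ = ∫ u, b y₂ * ∫ y₁, a y₁ * f (y₁, y₂ - δ * u) ∂volume ∂ν := by
        refine integral_congr_ae (Filter.Eventually.of_forall fun u => ?_)
        show _ = b y₂ * ∫ y₁, a y₁ * f (y₁, y₂ - δ * u)
        rw [← integral_const_mul]
        refine integral_congr_ae (Filter.Eventually.of_forall fun y₁ => ?_)
        show a y₁ * (b y₂ * f (y₁, y₂ - δ * u)) = b y₂ * (a y₁ * f (y₁, y₂ - δ * u))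
        ring
    _ = b y₂ * ∫ u, ∫ y₁, a y₁ * f (y₁, y₂ - δ * u) ∂volume ∂ν := by rw [integral_const_mul]

/-- smaller exponents -/
theorem low_exp {q r : ℝ} (hr : 0 < r) (hrq : r ≤ q) (f : ℝ × ℝ → ℂ) (hf : Adm2 q f) :
    ∫⁻ p, ‖f p‖ₑ ^ r ∂((volume : Measure ℝ).prod (volume : Measure ℝ)) ≠ ∞ := by
  obtain ⟨h1, h2, h3⟩ := hf
  have m1 : Measurable (fun p : ℝ × ℝ => ‖f p‖ₑ ^ q) := h1.enorm.pow_const q
  have e1 : ∫⁻ p, ‖f p‖ₑ ^ q ∂((volume : Measure ℝ).prod (volume : Measure ℝ)) ≠ ∞ := by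
    rw [lintegral_prod _ m1.aemeasurable]
    exact h3
  have hS : MeasurableSet (Icc (0 : ℝ) 1 ×ˢ Icc (-1 : ℝ) 2) := measurableSet_Icc.prod measurableSet_Icc
  have e2 : ∫⁻ p, ‖f p‖ₑ ^ r ∂((volume : Measure ℝ).prod (volume : Measure ℝ)) ≤
      ∫⁻ p, ((Icc (0 : ℝ) 1 ×ˢ Icc (-1 : ℝ) 2).indicator (fun _ => (1 : ℝ≥0∞)) p + ‖f p‖ₑ ^ q)
        ∂((volume : Measure ℝ).prod (volume : Measure ℝ)) := by
    refine lintegral_mono fun p => ?_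
    by_cases hp : p ∈ Icc (0 : ℝ) 1 ×ˢ Icc (-1 : ℝ) 2
    · rw [indicator_of_mem hp]
      rcases le_total ‖f p‖ₑ 1 with h | h
      · exact (ENNReal.rpow_le_one h hr.le).trans le_self_add
      · exact (ENNReal.rpow_le_rpow_of_exponent_le h hrq).trans le_add_self
    · rw [h2 p hp, enorm_zero, ENNReal.zero_rpow_of_pos hr]
      exact zero_le
  refine ne_top_of_le_ne_top ?_ e2
  rw [lintegral_add_right _ m1, lintegral_indicator hS]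
  refine ENNReal.add_ne_top.2 ⟨?_, e1⟩
  rw [setLIntegral_const, one_mul, Measure.prod_prod, Real.volume_Icc, Real.volume_Icc]
  exact ENNReal.mul_ne_top ENNReal.ofReal_ne_top ENNReal.ofReal_ne_top

theorem cs (g : ℝ → ℝ≥0∞) (hg : Measurable g) (h0 : ∀ y, y ∉ Icc (0 : ℝ) 1 → g y = 0) :
    (∫⁻ y, g y) ^ 2 ≤ ∫⁻ y, g y ^ 2 := by
  have e1 : ∫⁻ y, g y = ∫⁻ y in Icc (0 : ℝ) 1, g y := by
    rw [← lintegral_indicator measurableSet_Icc]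
    refine lintegral_congr fun y => ?_
    by_cases hy : y ∈ Icc (0 : ℝ) 1
    · rw [indicator_of_mem hy]
    · rw [indicator_of_notMem hy, h0 y hy]
  have e2 := ENNReal.lintegral_mul_le_Lp_mul_Lq (volume.restrict (Icc (0 : ℝ) 1))
    Real.HolderConjugate.two_two hg.aemeasurable (aemeasurable_const (b := (1 : ℝ≥0∞)))
  have e3 : ∫⁻ y in Icc (0 : ℝ) 1, (g * fun _ : ℝ => (1 : ℝ≥0∞) : ℝ → ℝ≥0∞) y = ∫⁻ y in Icc (0 : ℝ) 1, g y := by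
    refine lintegral_congr fun y => ?_
    simp
  have e4 : ∫⁻ y in Icc (0 : ℝ) 1, ((fun _ => (1 : ℝ≥0∞)) y) ^ (2 : ℝ) = 1 := by
    simp
  rw [e3, e4, ENNReal.one_rpow, mul_one] at e2
  rw [e1]
  calc (∫⁻ y in Icc (0 : ℝ) 1, g y) ^ 2
      ≤ ((∫⁻ y in Icc (0 : ℝ) 1, g y ^ (2 : ℝ)) ^ (1 / 2 : ℝ)) ^ 2 := pow_le_pow_left' e2 2
    _ = ∫⁻ y in Icc (0 : ℝ) 1, g y ^ (2 : ℝ) := by
        rw [← ENNReal.rpow_natCast, ← ENNReal.rpow_mul]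
        norm_num
    _ = ∫⁻ y in Icc (0 : ℝ) 1, g y ^ 2 := by
        refine lintegral_congr fun y => ?_
        rw [ENNReal.rpow_two]
    _ ≤ _ := setLIntegral_le_lintegral _ _

theorem adm {q : ℝ} (hq : 2 < q) (f : ℝ × ℝ → ℂ) (hf : Adm2 q f) (x₁ t : ℝ) :
    Adm (fun y₂ => W (fun y₁ => f (y₁, y₂)) x₁ t) := by
  have h1 := hf.1
  have h2 := hf.2.1
  refine ⟨?_, ?_, ?_⟩
  · exact (meas_W f h1).comp (g := fun p : ℝ × ℝ × ℝ => W (fun y₁ => f (y₁, p.1)) p.2.1 p.2.2)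
      (f := fun y : ℝ => (y, x₁, t)) (by fun_prop)
  · intro y hy
    have e : ∀ y₁, f (y₁, y) = 0 := fun y₁ => h2 _ fun h => hy h.2
    simp [W, e]
  · have e1 : ∀ y₂ : ℝ, ‖W (fun y₁ => f (y₁, y₂)) x₁ t‖ₑ ^ 2 ≤ ∫⁻ y₁, ‖f (y₁, y₂)‖ₑ ^ 2 := by
      intro y₂
      have m1 : Measurable (fun y₁ : ℝ => ‖f (y₁, y₂)‖ₑ) := (h1.comp (by fun_prop)).enorm
      refine (pow_le_pow_left' ?_ 2).trans (cs (fun y₁ => ‖f (y₁, y₂)‖ₑ) m1 fun y hy => ?_)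
      · refine (enorm_integral_le_lintegral_enorm _).trans (le_of_eq ?_)
        refine lintegral_congr fun y => ?_
        rw [enorm_mul, enorm_ph, one_mul]
      · show ‖f (y, y₂)‖ₑ = 0
        rw [h2 _ fun h => hy h.1, enorm_zero]
    have m2 : Measurable (fun p : ℝ × ℝ => ‖f p‖ₑ ^ 2) := h1.enorm.pow_const 2
    have e2 : ∫⁻ y₂, ∫⁻ y₁, ‖f (y₁, y₂)‖ₑ ^ 2 ≠ ∞ := by
      rw [← lintegral_prod_symm (fun p : ℝ × ℝ => ‖f p‖ₑ ^ 2) m2.aemeasurable]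
      have := low_exp (r := 2) (by norm_num) hq.le f hf
      simpa only [ENNReal.rpow_two] using this
    exact ne_top_of_le_ne_top e2 (lintegral_mono e1)

theorem EE_eq {q : ℝ} (hq : 2 < q) (f : ℝ × ℝ → ℂ) (hf : Adm2 q f) (δ x₁ x₂ t : ℝ) :
    EE (av2 δ f) x₁ x₂ t = W (av δ (fun y₂ => W (fun y₁ => f (y₁, y₂)) x₁ t)) x₂ t := by
  have h := low_exp (r := 1) one_pos (by linarith) f hf
  simp only [ENNReal.rpow_one] at h
  have ma : Measurable (fun y => ph x₁ t y) :=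
    measurable_ph.comp (g := fun p : ℝ × ℝ × ℝ => ph p.1 p.2.1 p.2.2)
        (f := fun y : ℝ => (x₁, t, y)) (by fun_prop)
  have mb : Measurable (fun y => ph x₂ t y) :=
    measurable_ph.comp (g := fun p : ℝ × ℝ × ℝ => ph p.1 p.2.1 p.2.2)
        (f := fun y : ℝ => (x₂, t, y)) (by fun_prop)
  exact swap3 f hf.1 h (fun y => ph x₁ t y) (fun y => ph x₂ t y) ma mb (enorm_ph x₁ t)
    (enorm_ph x₂ t) δ

end LOC

open LOC

theorem t_LOC (h1 : S_FX) (h2 : S_PLANAR) : S_LOC := by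
  intro q ε hq2 hq4 hε
  obtain ⟨C1, hC1, H1⟩ := h1 q (ε / 2) hq2 (by positivity)
  obtain ⟨C2, hC2, H2⟩ := h2 q (ε / 2) hq2 hq4 (by positivity)
  refine ⟨C1 * 2 ^ (q - 2) * C2, by positivity, ?_⟩
  intro T hT δ hδ hδ1 f hf
  have hT0 : 0 < T := by linarith
  obtain ⟨R, hR⟩ : ∃ R : ℝ, R = T ^ (-(1 / 2 : ℝ)) + 1 / (δ * T) := ⟨_, rfl⟩
  have hR0 : 0 < R := by
    rw [hR]
    positivity
  rw [← hR]
  obtain ⟨A, hA⟩ : ∃ A : Set ℝ, A = {t : ℝ | T / 2 ≤ |t| ∧ |t| ≤ T} := ⟨_, rfl⟩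
  rw [← hA]
  have mA : MeasurableSet A := by
    rw [hA]
    exact (measurableSet_le measurable_const continuous_abs.measurable).inter
      (measurableSet_le continuous_abs.measurable measurable_const)
  have hAI : A ⊆ Icc (-T) T := by
    intro t ht
    rw [hA] at ht
    exact abs_le.1 ht.2
  obtain ⟨K1, hK1⟩ : ∃ K1 : ℝ≥0∞, K1 = ENNReal.ofReal (C1 * (2 ^ (q - 2) * R ^ (q - 2)) * T ^ (ε / 2)) :=
    ⟨_, rfl⟩
  obtain ⟨K2, hK2⟩ : ∃ K2 : ℝ≥0∞, K2 = ENNReal.ofReal (C2 * T ^ (2 - q / 2 + ε / 2)) := ⟨_, rfl⟩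
  have hK1t : K1 ≠ ∞ := by rw [hK1]; exact ENNReal.ofReal_ne_top
  have hK2t : K2 ≠ ∞ := by rw [hK2]; exact ENNReal.ofReal_ne_top
  have key : ∀ t ∈ A, ∀ x₁, ∫⁻ x₂, ‖EE (av2 δ f) x₁ x₂ t‖ₑ ^ q ≤
      K1 * ∫⁻ y₂, ‖W (fun y₁ => f (y₁, y₂)) x₁ t‖ₑ ^ q := by
    intro t ht x₁
    rw [hA] at ht
    obtain ⟨ht1, ht2⟩ := ht
    have ht0 : 1 ≤ |t| := by linarith
    have e1 : ∀ x₂, EE (av2 δ f) x₁ x₂ t =
        W (av δ (fun y₂ => W (fun y₁ => f (y₁, y₂)) x₁ t)) x₂ t := fun x₂ => EE_eq hq2 f hf δ x₁ x₂ t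
    simp only [e1]
    refine (H1 t ht0 δ hδ hδ1 _ (adm hq2 f hf x₁ t)).trans (mul_le_mul_left ?_ _)
    rw [hK1]
    refine ENNReal.ofReal_le_ofReal ?_
    have ht' : 0 < |t| := by linarith
    have g1 : |t| ^ (-(1 / 2 : ℝ)) ≤ 2 * T ^ (-(1 / 2 : ℝ)) := by
      have a1 : |t| ^ (-(1 / 2 : ℝ)) ≤ (T / 2) ^ (-(1 / 2 : ℝ)) :=
        Real.rpow_le_rpow_of_nonpos (by linarith) ht1 (by norm_num)
      have a2 : (T / 2) ^ (-(1 / 2 : ℝ)) = T ^ (-(1 / 2 : ℝ)) * 2 ^ (1 / 2 : ℝ) := by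
        rw [Real.div_rpow hT0.le (by norm_num), Real.rpow_neg (by norm_num : (0 : ℝ) ≤ 2), div_inv_eq_mul]
      have a3 : (2 : ℝ) ^ (1 / 2 : ℝ) ≤ 2 := by
        calc (2 : ℝ) ^ (1 / 2 : ℝ) ≤ 2 ^ (1 : ℝ) :=
              Real.rpow_le_rpow_of_exponent_le (by norm_num) (by norm_num)
          _ = 2 := Real.rpow_one 2
      have a4 : 0 ≤ T ^ (-(1 / 2 : ℝ)) := by positivity
      rw [a2] at a1
      nlinarith
    have g2 : 1 / (δ * |t|) ≤ 2 * (1 / (δ * T)) := by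
      have b1 : δ * (T / 2) ≤ δ * |t| := mul_le_mul_of_nonneg_left ht1 hδ.le
      calc 1 / (δ * |t|) ≤ 1 / (δ * (T / 2)) := one_div_le_one_div_of_le (by positivity) b1
        _ = 2 * (1 / (δ * T)) := by
          field_simp
    have g3 : (|t| ^ (-(1 / 2 : ℝ)) + 1 / (δ * |t|)) ^ (q - 2) ≤ 2 ^ (q - 2) * R ^ (q - 2) := by
      rw [← Real.mul_rpow (by norm_num) hR0.le]
      refine Real.rpow_le_rpow (by positivity) ?_ (by linarith)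
      rw [hR]
      linarith
    have g4 : |t| ^ (ε / 2) ≤ T ^ (ε / 2) := Real.rpow_le_rpow ht'.le ht2 (by positivity)
    have g5 : 0 ≤ |t| ^ (ε / 2) := by positivity
    exact mul_le_mul (mul_le_mul_of_nonneg_left g3 hC1.le) g4 g5 (by positivity)
  have mW := meas_W f hf.1
  have mq : Measurable (fun p : ℝ × ℝ × ℝ => ‖W (fun y₁ => f (y₁, p.1)) p.2.1 p.2.2‖ₑ ^ q) :=
    mW.enorm.pow_const q
  have mf : Measurable (fun p : ℝ × ℝ => ‖f p‖ₑ ^ q) := hf.1.enorm.pow_const q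
  have sw1 : ∀ t : ℝ, ∫⁻ x₁, ∫⁻ y₂, ‖W (fun y₁ => f (y₁, y₂)) x₁ t‖ₑ ^ q =
      ∫⁻ y₂, ∫⁻ x₁, ‖W (fun y₁ => f (y₁, y₂)) x₁ t‖ₑ ^ q := by
    intro t
    have m : Measurable (Function.uncurry fun x₁ y₂ : ℝ => ‖W (fun y₁ => f (y₁, y₂)) x₁ t‖ₑ ^ q) :=
      mq.comp (g := fun p : ℝ × ℝ × ℝ => ‖W (fun y₁ => f (y₁, p.1)) p.2.1 p.2.2‖ₑ ^ q)
        (f := fun z : ℝ × ℝ => (z.2, z.1, t)) (by fun_prop)
    exact lintegral_lintegral_swap m.aemeasurable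
  have sw2 : ∫⁻ t in Icc (-T) T, ∫⁻ y₂, ∫⁻ x₁, ‖W (fun y₁ => f (y₁, y₂)) x₁ t‖ₑ ^ q =
      ∫⁻ y₂, ∫⁻ t in Icc (-T) T, ∫⁻ x₁, ‖W (fun y₁ => f (y₁, y₂)) x₁ t‖ₑ ^ q := by
    have m : Measurable (Function.uncurry fun t y₂ : ℝ =>
        ∫⁻ x₁, ‖W (fun y₁ => f (y₁, y₂)) x₁ t‖ₑ ^ q) := by
      have m' : Measurable (fun z : (ℝ × ℝ) × ℝ => ‖W (fun y₁ => f (y₁, z.1.2)) z.2 z.1.1‖ₑ ^ q) :=
        mq.comp (g := fun p : ℝ × ℝ × ℝ => ‖W (fun y₁ => f (y₁, p.1)) p.2.1 p.2.2‖ₑ ^ q)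
          (f := fun z : (ℝ × ℝ) × ℝ => (z.1.2, z.2, z.1.1)) (by fun_prop)
      exact m'.lintegral_prod_right'
    exact lintegral_lintegral_swap m.aemeasurable
  calc ∫⁻ t in A, ∫⁻ x₁, ∫⁻ x₂, ‖EE (av2 δ f) x₁ x₂ t‖ₑ ^ q
      ≤ ∫⁻ t in A, ∫⁻ x₁, K1 * ∫⁻ y₂, ‖W (fun y₁ => f (y₁, y₂)) x₁ t‖ₑ ^ q :=
        setLIntegral_mono' mA fun t ht => lintegral_mono fun x₁ => key t ht x₁
    _ ≤ ∫⁻ t in Icc (-T) T, ∫⁻ x₁, K1 * ∫⁻ y₂, ‖W (fun y₁ => f (y₁, y₂)) x₁ t‖ₑ ^ q :=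
        lintegral_mono_set hAI
    _ = K1 * ∫⁻ t in Icc (-T) T, ∫⁻ x₁, ∫⁻ y₂, ‖W (fun y₁ => f (y₁, y₂)) x₁ t‖ₑ ^ q := by
        rw [← lintegral_const_mul' _ _ hK1t]
        refine lintegral_congr fun t => ?_
        rw [lintegral_const_mul' _ _ hK1t]
    _ = K1 * ∫⁻ y₂, ∫⁻ t in Icc (-T) T, ∫⁻ x₁, ‖W (fun y₁ => f (y₁, y₂)) x₁ t‖ₑ ^ q := by
        rw [← sw2]
        simp only [sw1]
    _ ≤ K1 * ∫⁻ y₂, K2 * ∫⁻ y₁, ‖f (y₁, y₂)‖ₑ ^ q := by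
        refine mul_le_mul_right (lintegral_mono fun y₂ => ?_) _
        rw [hK2]
        exact H2 T (by linarith) (fun y₁ => f (y₁, y₂)) (hf.1.comp (by fun_prop))
          fun y hy => hf.2.1 _ fun h => hy h.1
    _ = K1 * (K2 * ∫⁻ y₁, ∫⁻ y₂, ‖f (y₁, y₂)‖ₑ ^ q) := by
        rw [lintegral_const_mul' _ _ hK2t, ← lintegral_prod_symm (fun p : ℝ × ℝ => ‖f p‖ₑ ^ q)
          mf.aemeasurable, lintegral_prod (fun p : ℝ × ℝ => ‖f p‖ₑ ^ q) mf.aemeasurable]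
    _ = _ := by
        rw [← mul_assoc, hK1, hK2, ← ENNReal.ofReal_mul (by positivity)]
        congr 2
        have hTT : T ^ (2 - q / 2 + ε) = T ^ (ε / 2) * T ^ (2 - q / 2 + ε / 2) := by
          rw [← Real.rpow_add hT0]
          congr 1
          ring
        rw [hTT]
        ring

end Pool.Agent.H243.RL
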