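import Pool.Agent.H243.RL.Stmt3
set_option autoImplicit false

/-! The local estimate without regularity (helper575, for helper243). -/

open MeasureTheory Set
open scoped ENNReal

namespace Pool.Agent.H243.RL

namespace LOC0

lemma ph_meas : Measurable fun z : ℝ × ℝ × ℝ => ph z.1 z.2.1 z.2.2 := by
  unfold ph
  fun_prop

lemma ph_enorm (x t y : ℝ) : ‖ph x t y‖ₑ = 1 := by
  have h : ‖ph x t y‖ = 1 := by
    unfold ph
    rw [Complex.norm_exp, ← Complex.ofReal_neg, Complex.re_ofReal_mul, Complex.I_re, mul_zero, Real.exp_zero]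
  rw [← ofReal_norm, h, ENNReal.ofReal_one]

lemma le_one_add {a : ℝ≥0∞} {r q : ℝ} (hr : 0 ≤ r) (hrq : r ≤ q) : a ^ r ≤ 1 + a ^ q := by
  rcases le_total a 1 with h | h
  · calc a ^ r ≤ 1 ^ r := ENNReal.rpow_le_rpow h hr
      _ = 1 := ENNReal.one_rpow r
      _ ≤ 1 + a ^ q := le_self_add
  · calc a ^ r ≤ a ^ q := ENNReal.rpow_le_rpow_of_exponent_le h hrq
      _ ≤ 1 + a ^ q := le_add_self

/-- functions in `L^q` with bounded support, one variable -/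
lemma fin_one {q r : ℝ} (hr : 0 < r) (hrq : r ≤ q) {F : ℝ → ℂ} (hF : Measurable F)
    (hs : ∀ y, y ∉ Icc (-1 : ℝ) 2 → F y = 0) (hq : ∫⁻ y, ‖F y‖ₑ ^ q ≠ ∞) :
    ∫⁻ y, ‖F y‖ₑ ^ r ≠ ∞ := by
  have h1 : ∀ y, ‖F y‖ₑ ^ r ≤ (Icc (-1 : ℝ) 2).indicator (fun _ => (1 : ℝ≥0∞)) y + ‖F y‖ₑ ^ q := by
    intro y
    by_cases hy : y ∈ Icc (-1 : ℝ) 2
    · rw [indicator_of_mem hy]
      exact le_one_add hr.le hrq
    · rw [hs y hy, enorm_zero, ENNReal.zero_rpow_of_pos hr]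
      exact bot_le
  refine ne_top_of_le_ne_top ?_ (lintegral_mono h1)
  rw [lintegral_add_right _ (hF.enorm.pow_const q), lintegral_indicator measurableSet_Icc]
  refine ENNReal.add_ne_top.2 ⟨?_, hq⟩
  simp

/-- Hölder's inequality on an interval of length `3` -/
lemma holder {q r : ℝ} (hr : 0 < r) (hrq : r < q) {G : ℝ → ℝ≥0∞} (hG : Measurable G)
    (hs : ∀ y, y ∉ Icc (-1 : ℝ) 2 → G y = 0) :
    ∫⁻ y, G y ^ r ≤ 3 ^ (1 - r / q) * (∫⁻ y, G y ^ q) ^ (r / q) := by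
  have hq : 0 < q := hr.trans hrq
  have hqr : 0 < q - r := by linarith
  have hc : (q / (q - r)).HolderConjugate (q / r) := by
    rw [Real.holderConjugate_iff]
    refine ⟨?_, ?_⟩
    · rw [lt_div_iff₀ hqr]
      linarith
    · field_simp
      ring
  have h1 : ∫⁻ y, G y ^ r = ∫⁻ y, ((Icc (-1 : ℝ) 2).indicator (fun _ => (1 : ℝ≥0∞)) * fun y => G y ^ r) y := by
    refine lintegral_congr fun y => ?_
    rw [Pi.mul_apply]
    by_cases hy : y ∈ Icc (-1 : ℝ) 2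
    · rw [indicator_of_mem hy, one_mul]
    · rw [indicator_of_notMem hy, zero_mul, hs y hy, ENNReal.zero_rpow_of_pos hr]
  rw [h1]
  refine (ENNReal.lintegral_mul_le_Lp_mul_Lq volume hc
    (measurable_const.indicator measurableSet_Icc).aemeasurable
    (hG.pow_const r).aemeasurable).trans ?_
  have h2 : ∫⁻ y, (Icc (-1 : ℝ) 2).indicator (fun _ => (1 : ℝ≥0∞)) y ^ (q / (q - r)) = 3 := by
    have h3 : ∀ y, (Icc (-1 : ℝ) 2).indicator (fun _ => (1 : ℝ≥0∞)) y ^ (q / (q - r)) =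
        (Icc (-1 : ℝ) 2).indicator (fun _ => (1 : ℝ≥0∞)) y := by
      intro y
      by_cases hy : y ∈ Icc (-1 : ℝ) 2
      · rw [indicator_of_mem hy, ENNReal.one_rpow]
      · rw [indicator_of_notMem hy, ENNReal.zero_rpow_of_pos (by positivity)]
    simp only [h3]
    rw [lintegral_indicator measurableSet_Icc]
    simp
    norm_num
  have h4 : ∫⁻ y, (G y ^ r) ^ (q / r) = ∫⁻ y, G y ^ q := by
    refine lintegral_congr fun y => ?_
    rw [← ENNReal.rpow_mul, mul_div_cancel₀ _ hr.ne']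
  rw [h2, h4]
  refine le_of_eq ?_
  congr 2
  · field_simp
  · field_simp

lemma combine {q : ℝ} (hq : 2 < q) {G : ℝ → ℝ≥0∞} (hG : Measurable G)
    (hs : ∀ y, y ∉ Icc (-1 : ℝ) 2 → G y = 0) :
    (∫⁻ y, G y) ^ (q - 2) * ∫⁻ y, G y ^ 2 ≤ 3 ^ (q - 2) * ∫⁻ y, G y ^ q := by
  have hq0 : 0 < q := by linarith
  have h1 := holder (r := 1) one_pos (by linarith : (1 : ℝ) < q) hG hs
  have h2 := holder (r := 2) two_pos hq hG hs
  simp only [ENNReal.rpow_one] at h1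
  have h3 : ∫⁻ y, G y ^ (2 : ℕ) = ∫⁻ y, G y ^ (2 : ℝ) := lintegral_congr fun y => (ENNReal.rpow_two _).symm
  rw [h3]
  obtain ⟨Q, hQ⟩ : ∃ Q, Q = ∫⁻ y, G y ^ q := ⟨_, rfl⟩
  rw [← hQ] at h1 h2 ⊢
  have e1 : 0 ≤ q - 2 := by linarith
  have e2 : 0 ≤ 1 - 1 / q := by
    rw [sub_nonneg, div_le_one hq0]
    linarith
  have e3 : 0 ≤ 1 - 2 / q := by
    rw [sub_nonneg, div_le_one hq0]
    linarith
  calc (∫⁻ y, G y) ^ (q - 2) * ∫⁻ y, G y ^ (2 : ℝ)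
      ≤ (3 ^ (1 - 1 / q) * Q ^ (1 / q)) ^ (q - 2) * (3 ^ (1 - 2 / q) * Q ^ (2 / q)) :=
        mul_le_mul' (ENNReal.rpow_le_rpow h1 e1) h2
    _ = (3 ^ ((1 - 1 / q) * (q - 2)) * 3 ^ (1 - 2 / q)) * (Q ^ ((1 / q) * (q - 2)) * Q ^ (2 / q)) := by
        rw [ENNReal.mul_rpow_of_nonneg _ _ e1, ← ENNReal.rpow_mul, ← ENNReal.rpow_mul]
        ring
    _ = 3 ^ ((1 - 1 / q) * (q - 2) + (1 - 2 / q)) * Q ^ ((1 / q) * (q - 2) + 2 / q) := by
        rw [← ENNReal.rpow_add_of_nonneg _ _ (mul_nonneg e2 e1) e3,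
          ← ENNReal.rpow_add_of_nonneg _ _ (by positivity) (by positivity)]
    _ = 3 ^ (q - 2) * Q := by
        have e4 : (1 - 1 / q) * (q - 2) + (1 - 2 / q) = q - 2 := by
          field_simp
          ring
        have e5 : (1 / q) * (q - 2) + 2 / q = 1 := by
          field_simp
          ring
        rw [e4, e5, ENNReal.rpow_one]

/-- the trivial bound in `L^q` -/
lemma triv (h1 : S_TRIV) {q : ℝ} (hq : 2 < q) {F : ℝ → ℂ} (hF : Measurable F)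
    (hs : ∀ y, y ∉ Icc (-1 : ℝ) 2 → F y = 0) (t : ℝ) :
    ∫⁻ x, ‖W F x t‖ₑ ^ q ≤ ENNReal.ofReal (2 * Real.pi) * (3 ^ (q - 2) * ∫⁻ y, ‖F y‖ₑ ^ q) := by
  by_cases hfin : ∫⁻ y, ‖F y‖ₑ ^ q = ∞
  · rw [hfin, ENNReal.mul_top, ENNReal.mul_top]
    · exact le_top
    · rw [Ne, ENNReal.ofReal_eq_zero, not_le]
      positivity
    · rw [Ne, ENNReal.rpow_eq_zero_iff]
      simp
  · have i1 : Integrable F := by
      refine ⟨hF.aestronglyMeasurable, ?_⟩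
      rw [hasFiniteIntegral_iff_enorm]
      have := fin_one (r := 1) one_pos (by linarith : (1 : ℝ) ≤ q) hF hs hfin
      simp only [ENNReal.rpow_one] at this
      exact lt_top_iff_ne_top.2 this
    have i2 : MemLp F 2 := by
      refine ⟨hF.aestronglyMeasurable, ?_⟩
      rw [eLpNorm_lt_top_iff_lintegral_rpow_enorm_lt_top (by norm_num) (by norm_num)]
      have := fin_one (r := 2) two_pos (by linarith : (2 : ℝ) ≤ q) hF hs hfin
      simp only [ENNReal.toReal_ofNat]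
      exact lt_top_iff_ne_top.2 this
    refine (h1 q hq.le F hF i1 i2 t).trans ?_
    rw [mul_assoc]
    refine mul_le_mul_right ?_ _
    exact combine hq hF.enorm fun y hy => by rw [hs y hy, enorm_zero]

lemma W_meas {f : ℝ × ℝ → ℂ} (hf : Measurable f) :
    Measurable fun z : ℝ × ℝ × ℝ => W (fun y₁ => f (y₁, z.2.2)) z.2.1 z.1 := by
  have h : StronglyMeasurable fun p : (ℝ × ℝ × ℝ) × ℝ => ph p.1.2.1 p.1.1 p.2 * f (p.2, p.1.2.2) := by
    refine Measurable.stronglyMeasurable ?_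
    refine Measurable.mul ?_ (hf.comp (by fun_prop))
    exact ph_meas.comp (f := fun p : (ℝ × ℝ × ℝ) × ℝ => (p.1.2.1, p.1.1, p.2)) (by fun_prop)
  exact h.integral_prod_right'.measurable

lemma int_f {q : ℝ} (hq : 2 < q) {f : ℝ × ℝ → ℂ} (h : Adm2 q f) :
    ∫⁻ p, ‖f p‖ₑ ∂((volume : Measure ℝ).prod (volume : Measure ℝ)) ≠ ∞ := by
  obtain ⟨hf, hs, hfin⟩ := h
  have h1 : ∀ p, ‖f p‖ₑ ≤ (Icc (0 : ℝ) 1 ×ˢ Icc (-1 : ℝ) 2).indicator (fun _ => (1 : ℝ≥0∞)) p +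
      ‖f p‖ₑ ^ q := by
    intro p
    by_cases hp : p ∈ Icc (0 : ℝ) 1 ×ˢ Icc (-1 : ℝ) 2
    · rw [indicator_of_mem hp]
      have := le_one_add (a := ‖f p‖ₑ) (r := 1) zero_le_one (by linarith : (1 : ℝ) ≤ q)
      rwa [ENNReal.rpow_one] at this
    · rw [hs p hp, enorm_zero]
      exact bot_le
  refine ne_top_of_le_ne_top ?_ (lintegral_mono h1)
  rw [lintegral_add_right _ (hf.enorm.pow_const q),
    lintegral_indicator (measurableSet_Icc.prod measurableSet_Icc)]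
  refine ENNReal.add_ne_top.2 ⟨?_, ?_⟩
  · rw [setLIntegral_const, Measure.prod_prod, one_mul, Real.volume_Icc, Real.volume_Icc]
    exact ENNReal.mul_ne_top ENNReal.ofReal_ne_top ENNReal.ofReal_ne_top
  · rw [lintegral_prod _ (hf.enorm.pow_const q).aemeasurable]
    exact hfin

lemma EE_eq {q : ℝ} (hq : 2 < q) {f : ℝ × ℝ → ℂ} (h : Adm2 q f) (x₁ x₂ t : ℝ) :
    EE f x₁ x₂ t = W (fun y₂ => W (fun y₁ => f (y₁, y₂)) x₁ t) x₂ t := by
  have hm : Measurable fun p : ℝ × ℝ => ph x₁ t p.1 * (ph x₂ t p.2 * f p) := by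
    refine Measurable.mul ?_ (Measurable.mul ?_ h.1)
    · exact ph_meas.comp (f := fun p : ℝ × ℝ => (x₁, t, p.1)) (by fun_prop)
    · exact ph_meas.comp (f := fun p : ℝ × ℝ => (x₂, t, p.2)) (by fun_prop)
  have hint : Integrable (fun p : ℝ × ℝ => ph x₁ t p.1 * (ph x₂ t p.2 * f p))
      ((volume : Measure ℝ).prod (volume : Measure ℝ)) := by
    refine ⟨hm.aestronglyMeasurable, ?_⟩
    rw [hasFiniteIntegral_iff_enorm]
    have h1 : ∀ p : ℝ × ℝ, ‖ph x₁ t p.1 * (ph x₂ t p.2 * f p)‖ₑ = ‖f p‖ₑ := by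
      intro p
      rw [enorm_mul, enorm_mul, ph_enorm, ph_enorm, one_mul, one_mul]
    simp only [h1]
    exact lt_top_iff_ne_top.2 (int_f hq h)
  unfold EE
  rw [integral_integral_swap (f := fun y₁ y₂ => ph x₁ t y₁ * (ph x₂ t y₂ * f (y₁, y₂))) hint]
  unfold W
  refine integral_congr_ae (Filter.Eventually.of_forall fun y₂ => ?_)
  simp only
  rw [← integral_const_mul]
  refine integral_congr_ae (Filter.Eventually.of_forall fun y₁ => ?_)
  simp only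
  ring

end LOC0

open LOC0

theorem t_LOC0 (h1 : S_TRIV) (h2 : S_PLANAR) : S_LOC0 := by
  intro q ε hq hq4 hε
  obtain ⟨C, hC, h2⟩ := h2 q ε hq hq4 hε
  refine ⟨2 * Real.pi * 3 ^ (q - 2) * C, by positivity, ?_⟩
  intro T hT f hf
  obtain ⟨hfm, hfs, hfin⟩ := id hf
  have hT0 : 0 < T := by linarith
  obtain ⟨D, hD⟩ : ∃ D : ℝ, D = T ^ (2 - q / 2 + ε) := ⟨_, rfl⟩
  have hD0 : 0 < D := by rw [hD]; positivity
  rw [← hD]
  obtain ⟨Φ, hΦ⟩ : ∃ Φ : ℝ → ℝ → ℝ → ℝ≥0∞, Φ = fun t x₁ y₂ => ‖W (fun y₁ => f (y₁, y₂)) x₁ t‖ₑ ^ q :=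
    ⟨_, rfl⟩
  have hΦm : Measurable fun z : ℝ × ℝ × ℝ => Φ z.1 z.2.1 z.2.2 := by
    rw [hΦ]
    exact (W_meas hfm).enorm.pow_const q
  -- the inner integral
  have hin : ∀ t x₁, ∫⁻ x₂, ‖EE f x₁ x₂ t‖ₑ ^ q ≤
      ENNReal.ofReal (2 * Real.pi) * (3 ^ (q - 2) * ∫⁻ y₂, Φ t x₁ y₂) := by
    intro t x₁
    have hFm : Measurable fun y₂ => W (fun y₁ => f (y₁, y₂)) x₁ t :=
      (W_meas hfm).comp (g := fun z : ℝ × ℝ × ℝ => W (fun y₁ => f (y₁, z.2.2)) z.2.1 z.1)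
        (f := fun y₂ : ℝ => (t, x₁, y₂)) (by fun_prop)
    have hFs : ∀ y, y ∉ Icc (-1 : ℝ) 2 → W (fun y₁ => f (y₁, y)) x₁ t = 0 := by
      intro y hy
      unfold W
      have h3 : ∀ y₁, ph x₁ t y₁ * f (y₁, y) = 0 := by
        intro y₁
        rw [hfs (y₁, y) (fun h => hy h.2), mul_zero]
      simp only [h3, integral_zero]
    have h4 := triv h1 hq hFm hFs t
    simp only [EE_eq hq hf, hΦ]
    exact h4
  have hcon : ∀ t x₁, ENNReal.ofReal (2 * Real.pi) * (3 ^ (q - 2) * ∫⁻ y₂, Φ t x₁ y₂) =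
      (ENNReal.ofReal (2 * Real.pi) * 3 ^ (q - 2)) * ∫⁻ y₂, Φ t x₁ y₂ := fun t x₁ => by rw [mul_assoc]
  obtain ⟨K, hK⟩ : ∃ K : ℝ≥0∞, K = ENNReal.ofReal (2 * Real.pi) * 3 ^ (q - 2) := ⟨_, rfl⟩
  have hKtop : K ≠ ∞ := by
    rw [hK]
    refine ENNReal.mul_ne_top ENNReal.ofReal_ne_top ?_
    exact ENNReal.rpow_ne_top_of_nonneg (by linarith) (by simp)
  calc ∫⁻ t in Icc (-T) T, ∫⁻ x₁, ∫⁻ x₂, ‖EE f x₁ x₂ t‖ₑ ^ q
      ≤ ∫⁻ t in Icc (-T) T, ∫⁻ x₁, K * ∫⁻ y₂, Φ t x₁ y₂ := by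
        refine lintegral_mono fun t => lintegral_mono fun x₁ => ?_
        refine (hin t x₁).trans (le_of_eq ?_)
        rw [hcon, hK]
    _ = K * ∫⁻ t in Icc (-T) T, ∫⁻ x₁, ∫⁻ y₂, Φ t x₁ y₂ := by
        rw [← lintegral_const_mul' _ _ hKtop]
        refine lintegral_congr fun t => ?_
        rw [lintegral_const_mul' _ _ hKtop]
    _ = K * ∫⁻ t in Icc (-T) T, ∫⁻ y₂, ∫⁻ x₁, Φ t x₁ y₂ := by
        congr 1
        refine lintegral_congr fun t => ?_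
        refine lintegral_lintegral_swap ?_
        have h5 : Measurable fun p : ℝ × ℝ => Φ t p.1 p.2 :=
          hΦm.comp (f := fun p : ℝ × ℝ => (t, p.1, p.2)) (by fun_prop)
        exact h5.aemeasurable
    _ = K * ∫⁻ y₂, ∫⁻ t in Icc (-T) T, ∫⁻ x₁, Φ t x₁ y₂ := by
        congr 1
        refine lintegral_lintegral_swap ?_
        have h5 : Measurable fun p : (ℝ × ℝ) × ℝ => Φ p.1.1 p.2 p.1.2 :=
          hΦm.comp (f := fun p : (ℝ × ℝ) × ℝ => (p.1.1, p.2, p.1.2)) (by fun_prop)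
        exact (h5.lintegral_prod_right').aemeasurable
    _ ≤ K * ∫⁻ y₂, ENNReal.ofReal (C * D) * ∫⁻ y₁, ‖f (y₁, y₂)‖ₑ ^ q := by
        refine mul_le_mul_right (lintegral_mono fun y₂ => ?_) _
        have h6 := h2 T hT (fun y₁ => f (y₁, y₂)) (hfm.comp (by fun_prop)) (fun y₁ hy => by
          exact hfs (y₁, y₂) (fun h => hy h.1))
        rw [← hD] at h6
        rw [hΦ]
        exact h6
    _ = K * (ENNReal.ofReal (C * D) * ∫⁻ y₂, ∫⁻ y₁, ‖f (y₁, y₂)‖ₑ ^ q) := by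
        rw [lintegral_const_mul' _ _ ENNReal.ofReal_ne_top]
    _ = K * (ENNReal.ofReal (C * D) * ∫⁻ y₁, ∫⁻ y₂, ‖f (y₁, y₂)‖ₑ ^ q) := by
        congr 2
        refine lintegral_lintegral_swap ?_
        have h7 : Measurable fun p : ℝ × ℝ => ‖f (p.2, p.1)‖ₑ ^ q :=
          (hfm.comp (by fun_prop : Measurable fun p : ℝ × ℝ => (p.2, p.1))).enorm.pow_const q
        exact h7.aemeasurable
    _ = ENNReal.ofReal (2 * Real.pi * 3 ^ (q - 2) * C * D) * ∫⁻ y₁, ∫⁻ y₂, ‖f (y₁, y₂)‖ₑ ^ q := by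
        rw [← mul_assoc]
        congr 1
        have h8 : (3 : ℝ≥0∞) ^ (q - 2) = ENNReal.ofReal (3 ^ (q - 2)) := by
          rw [← ENNReal.ofReal_rpow_of_pos (by norm_num)]
          norm_num
        rw [hK, h8, ← ENNReal.ofReal_mul (by positivity), ← ENNReal.ofReal_mul (by positivity)]
        congr 1
        ring

end Pool.Agent.H243.RL
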