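import Pool.Agent.H243.RL.Stmt
set_option autoImplicit false

/-! Multipliers with integrable Fourier transform. -/

open MeasureTheory Set
open scoped ENNReal

namespace Pool.Agent.H243.RL.MULT

lemma norm_ph (x t y : ℝ) : ‖ph x t y‖ = 1 := by
  unfold ph
  have h : (-((x * y + t * y ^ 2 : ℝ) : ℂ) * Complex.I)
      = ((-(x * y + t * y ^ 2) : ℝ) : ℂ) * Complex.I := by push_cast; ring
  rw [h, Complex.norm_exp_ofReal_mul_I]

lemma exp_mul_ph (s x t y : ℝ) :
    Complex.exp (((s * y : ℝ) : ℂ) * Complex.I) * ph x t y = ph (x - s) t y := by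
  unfold ph
  rw [← Complex.exp_add]
  congr 1
  push_cast
  ring

lemma continuous_ph : Continuous (fun p : ℝ × ℝ × ℝ => ph p.1 p.2.1 p.2.2) := by
  unfold ph
  fun_prop

lemma continuous_W (h : ℝ → ℂ) (hh : Integrable h) (t : ℝ) :
    Continuous (fun x => W h x t) := by
  unfold W
  refine continuous_of_dominated (bound := fun y => ‖h y‖) ?_ ?_ hh.norm ?_
  · intro x
    refine AEStronglyMeasurable.mul ?_ hh.aestronglyMeasurable
    exact (continuous_ph.comp (by fun_prop : Continuous fun y : ℝ => (x, t, y))).aestronglyMeasurable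
  · intro x
    filter_upwards with y
    rw [norm_mul, norm_ph, one_mul]
  · filter_upwards with y
    exact (continuous_ph.comp (by fun_prop : Continuous fun x : ℝ => (x, t, y))).mul
      continuous_const

lemma W_conv (h ν : ℝ → ℂ) (hh : Integrable h) (hν : Integrable ν) (t x : ℝ) :
    W (fun y => (∫ s, Complex.exp (((s * y : ℝ) : ℂ) * Complex.I) * ν s) * h y) x t
      = ∫ s, ν s * W h (x - s) t := by
  have h1 : ∀ y, ph x t y *
      ((∫ s, Complex.exp (((s * y : ℝ) : ℂ) * Complex.I) * ν s) * h y)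
      = ∫ s, ν s * (ph (x - s) t y * h y) := by
    intro y
    rw [← integral_mul_const, ← integral_const_mul]
    refine integral_congr_ae ?_
    filter_upwards with s
    rw [← exp_mul_ph s x t y]
    ring
  have h2 : ∀ s, ν s * W h (x - s) t = ∫ y, ν s * (ph (x - s) t y * h y) := by
    intro s
    unfold W
    rw [integral_const_mul]
  unfold W at *
  simp_rw [h1, h2]
  refine integral_integral_swap ?_
  refine (hh.mul_prod hν).mono ?_ ?_
  · have e1 : AEStronglyMeasurable (fun p : ℝ × ℝ => ν p.2) (volume.prod volume) :=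
      hν.aestronglyMeasurable.comp_snd
    have e2 : AEStronglyMeasurable (fun p : ℝ × ℝ => h p.1) (volume.prod volume) :=
      hh.aestronglyMeasurable.comp_fst
    have e3 : AEStronglyMeasurable (fun p : ℝ × ℝ => ph (x - p.2) t p.1)
        (volume.prod volume) :=
      (continuous_ph.comp (by fun_prop :
        Continuous fun p : ℝ × ℝ => (x - p.2, t, p.1))).aestronglyMeasurable
    exact e1.mul (e3.mul e2)
  · filter_upwards with p
    simp only [Function.uncurry, norm_mul, norm_ph, one_mul]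
    rw [mul_comm]

/-- Jensen's inequality for a finite measure -/
lemma jensen (μ : Measure ℝ) (q : ℝ) (hq : 1 ≤ q) (f : ℝ → ℂ) (hf : AEStronglyMeasurable f μ) :
    (∫⁻ s, ‖f s‖ₑ ∂μ) ^ q ≤ (∫⁻ s, ‖f s‖ₑ ^ q ∂μ) * μ univ ^ (q - 1) := by
  have q0 : 0 < q := by linarith
  have h := eLpNorm'_le_eLpNorm'_mul_rpow_measure_univ (p := 1) (q := q) one_pos hq hf
  unfold eLpNorm' at h
  simp only [ENNReal.rpow_one, div_one] at h
  have h2 := ENNReal.rpow_le_rpow h q0.le
  rw [ENNReal.mul_rpow_of_nonneg _ _ q0.le, ← ENNReal.rpow_mul, ← ENNReal.rpow_mul] at h2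
  have e1 : 1 / q * q = 1 := by field_simp
  have e2 : (1 - 1 / q) * q = q - 1 := by field_simp
  rw [e1, e2, ENNReal.rpow_one] at h2
  exact h2

end Pool.Agent.H243.RL.MULT

namespace Pool.Agent.H243.RL

open MULT

theorem t_MULT : S_MULT := by
  intro q hq h ν hh hν t
  have q0 : 0 < q := by linarith
  have hW := continuous_W h hh t
  have mν : AEMeasurable (fun s => ‖ν s‖ₑ) volume := hν.aestronglyMeasurable.enorm
  set A : ℝ≥0∞ := ∫⁻ s, ‖ν s‖ₑ with hA
  set μ : Measure ℝ := volume.withDensity (fun s => ‖ν s‖ₑ) with hμ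
  have hμu : μ univ = A := by
    rw [hμ, withDensity_apply _ MeasurableSet.univ, Measure.restrict_univ]
  have key : ∀ x, ‖W (fun y => (∫ s, Complex.exp (((s * y : ℝ) : ℂ) * Complex.I) * ν s) * h y)
      x t‖ₑ ^ q ≤ (∫⁻ s, ‖ν s‖ₑ * ‖W h (x - s) t‖ₑ ^ q) * A ^ (q - 1) := by
    intro x
    rw [W_conv h ν hh hν t x]
    have hc : Continuous (fun s => W h (x - s) t) := hW.comp (by fun_prop)
    have b1 : ‖∫ s, ν s * W h (x - s) t‖ₑ ≤ ∫⁻ s, ‖W h (x - s) t‖ₑ ∂μ := by
      rw [hμ, lintegral_withDensity_eq_lintegral_mul₀ mν hc.enorm.measurable.aemeasurable]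
      refine (enorm_integral_le_lintegral_enorm _).trans (le_of_eq ?_)
      refine lintegral_congr fun s => ?_
      rw [Pi.mul_apply, enorm_mul]
    refine (ENNReal.rpow_le_rpow b1 q0.le).trans ?_
    refine (jensen μ q hq _ hc.aestronglyMeasurable).trans (le_of_eq ?_)
    rw [hμu, hμ, lintegral_withDensity_eq_lintegral_mul₀ mν
      (hc.enorm.measurable.pow_const q).aemeasurable]
    rfl
  refine (lintegral_mono key).trans ?_
  have mF : AEMeasurable (Function.uncurry fun x s : ℝ => ‖ν s‖ₑ * ‖W h (x - s) t‖ₑ ^ q)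
      (volume.prod volume) := by
    refine AEMeasurable.mul ?_ ?_
    · exact hν.aestronglyMeasurable.comp_snd.enorm
    · exact (((hW.comp (by fun_prop : Continuous fun p : ℝ × ℝ => p.1 - p.2)).enorm).measurable.pow_const
        q).aemeasurable
  have hAfin : A ≠ ∞ := hν.2.ne
  rw [lintegral_mul_const' _ _ (ENNReal.rpow_ne_top_of_nonneg (by linarith) hAfin),
    lintegral_lintegral_swap mF]
  have h3 : ∀ s : ℝ, ∫⁻ x : ℝ, ‖ν s‖ₑ * ‖W h (x - s) t‖ₑ ^ q
      = ‖ν s‖ₑ * ∫⁻ x, ‖W h x t‖ₑ ^ q := by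
    intro s
    rw [lintegral_const_mul' _ _ enorm_ne_top]
    congr 1
    exact lintegral_sub_right_eq_self (fun x => ‖W h x t‖ₑ ^ q) s
  simp_rw [h3]
  rw [lintegral_mul_const'' _ mν, ← hA]
  have h4 : A ^ q = A * A ^ (q - 1) := by
    conv_lhs => rw [show q = 1 + (q - 1) by ring]
    rw [ENNReal.rpow_add_of_nonneg _ _ zero_le_one (by linarith), ENNReal.rpow_one]
  rw [h4]
  exact le_of_eq (by ring)

end Pool.Agent.H243.RL
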