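import Pool.Agent.H243.RL.Stmt3

set_option autoImplicit false

open MeasureTheory Set
open scoped ENNReal

namespace Pool.Agent.H243.RL.MZ

theorem enorm_rpow (z : ℂ) {q : ℝ} (hq : 0 ≤ q) : ‖z‖ₑ ^ q = ENNReal.ofReal (‖z‖ ^ q) := by
  rw [← ofReal_norm, ENNReal.ofReal_rpow_of_nonneg (norm_nonneg _) hq]

theorem enorm_sq (z : ℂ) : ‖z‖ₑ ^ 2 = ENNReal.ofReal (‖z‖ ^ 2) := by
  rw [← ofReal_norm, ENNReal.ofReal_pow (norm_nonneg _)]

theorem adm_ind {F : ℝ → ℂ} (hF : Adm F) {B : Set ℝ} (hB : MeasurableSet B) : Adm (B.indicator F) := by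
  obtain ⟨h1, h2, h3⟩ := hF
  refine ⟨h1.indicator hB, ?_, ?_⟩
  · intro y hy
    by_cases h : y ∈ B
    · rw [indicator_of_mem h]; exact h2 y hy
    · rw [indicator_of_notMem h]
  · refine ne_top_of_le_ne_top h3 (lintegral_mono fun y => ?_)
    by_cases h : y ∈ B
    · rw [indicator_of_mem h]
    · rw [indicator_of_notMem h]
      simp

/-- the estimate at one level -/
theorem level {q : ℝ} {T : (ℝ → ℂ) → ℝ → ℂ} {M D : ℝ} (hM : 0 < M) (hD : 0 < D)
    (hT : ∀ F, Adm F → Measurable (T F))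
    (hadd : ∀ F G, Adm F → Adm G → ∀ x, ‖T (fun y => F y + G y) x‖ ≤ ‖T F x‖ + ‖T G x‖)
    (hinf : ∀ F (m : ℝ), Adm F → 0 ≤ m → (∀ y, ‖F y‖ ≤ m) → ∀ x, ‖T F x‖ ≤ M * m)
    (h2 : ∀ F, Adm F → ∫⁻ x, ‖T F x‖ₑ ^ 2 ≤ ENNReal.ofReal D * ∫⁻ y, ‖F y‖ₑ ^ 2)
    {F : ℝ → ℂ} (hF : Adm F) {t : ℝ} (ht : 0 < t) :
    volume {x | t < ‖T F x‖} * ENNReal.ofReal (t ^ (q - 1)) ≤
      ENNReal.ofReal (4 * D) * ((volume.withDensity fun y => ‖F y‖ₑ ^ 2) {y | t < 2 * M * ‖F y‖} *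
        ENNReal.ofReal (t ^ (q - 2 - 1))) := by
  set B : Set ℝ := {y | t < 2 * M * ‖F y‖} with hBdef
  have hB : MeasurableSet B := measurableSet_lt measurable_const (hF.1.norm.const_mul _)
  have hF1 := adm_ind hF hB.compl
  have hF2 := adm_ind hF hB
  have hsum : (fun y => Bᶜ.indicator F y + B.indicator F y) = F := by
    funext y
    by_cases h : y ∈ B
    · rw [indicator_of_mem h, indicator_of_notMem (by simpa using h), zero_add]
    · rw [indicator_of_notMem h, indicator_of_mem (by simpa using h), add_zero]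
  have hsub : {x | t < ‖T F x‖} ⊆ {x | ENNReal.ofReal (t ^ 2 / 4) ≤ ‖T (B.indicator F) x‖ₑ ^ 2} := by
    intro x hx
    have hx' : t < ‖T F x‖ := hx
    have h3 := hadd _ _ hF1 hF2 x
    rw [hsum] at h3
    have h4 := hinf _ (t / (2 * M)) hF1 (by positivity) (fun y => by
      by_cases h : y ∈ B
      · rw [indicator_of_notMem (by simpa using h), norm_zero]
        positivity
      · rw [indicator_of_mem (by simpa using h)]
        have h5 : ¬ t < 2 * M * ‖F y‖ := h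
        rw [le_div_iff₀ (by positivity)]
        linarith) x
    have h5 : M * (t / (2 * M)) = t / 2 := by
      field_simp
    rw [h5] at h4
    have h6 : t / 2 ≤ ‖T (B.indicator F) x‖ := by linarith
    change ENNReal.ofReal (t ^ 2 / 4) ≤ ‖T (B.indicator F) x‖ₑ ^ 2
    rw [enorm_sq]
    apply ENNReal.ofReal_le_ofReal
    nlinarith
  have hcheb := mul_meas_ge_le_lintegral (μ := volume) (f := fun x => ‖T (B.indicator F) x‖ₑ ^ 2)
    ((hT _ hF2).enorm.pow_const 2) (ENNReal.ofReal (t ^ 2 / 4))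
  have hint : ∫⁻ y, ‖B.indicator F y‖ₑ ^ 2 = (volume.withDensity fun y => ‖F y‖ₑ ^ 2) B := by
    rw [withDensity_apply _ hB, ← lintegral_indicator hB]
    refine lintegral_congr fun y => ?_
    by_cases h : y ∈ B
    · rw [indicator_of_mem h, indicator_of_mem h]
    · rw [indicator_of_notMem h, indicator_of_notMem h]
      simp
  have hmain : ENNReal.ofReal (t ^ 2 / 4) * volume {x | t < ‖T F x‖} ≤
      ENNReal.ofReal D * (volume.withDensity fun y => ‖F y‖ₑ ^ 2) B := by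
    rw [← hint]
    exact le_trans (mul_le_mul_right (measure_mono hsub) _) (le_trans hcheb (h2 _ hF2))
  have e1 : ENNReal.ofReal (t ^ (q - 1)) = ENNReal.ofReal (t ^ 2 / 4) * ENNReal.ofReal (4 * t ^ (q - 2 - 1)) := by
    rw [← ENNReal.ofReal_mul (by positivity)]
    congr 1
    have e2 : t ^ (q - 1) = t ^ (q - 2 - 1) * t ^ (2 : ℝ) := by
      rw [← Real.rpow_add ht]
      congr 1
      ring
    rw [e2, Real.rpow_two]
    ring
  rw [e1]
  calc volume {x | t < ‖T F x‖} * (ENNReal.ofReal (t ^ 2 / 4) * ENNReal.ofReal (4 * t ^ (q - 2 - 1)))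
      = (ENNReal.ofReal (t ^ 2 / 4) * volume {x | t < ‖T F x‖}) * ENNReal.ofReal (4 * t ^ (q - 2 - 1)) := by ring
    _ ≤ (ENNReal.ofReal D * (volume.withDensity fun y => ‖F y‖ₑ ^ 2) B) * ENNReal.ofReal (4 * t ^ (q - 2 - 1)) := by
        gcongr
    _ = ENNReal.ofReal (4 * D) * ((volume.withDensity fun y => ‖F y‖ₑ ^ 2) B *
        ENNReal.ofReal (t ^ (q - 2 - 1))) := by
        rw [ENNReal.ofReal_mul (by norm_num : (0 : ℝ) ≤ 4), ENNReal.ofReal_mul (by norm_num : (0 : ℝ) ≤ 4)]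
        ring

theorem pw {q M : ℝ} (hq : 2 < q) (hM : 0 < M) (z : ℂ) :
    ‖z‖ₑ ^ 2 * ENNReal.ofReal ((2 * M * ‖z‖) ^ (q - 2)) = ENNReal.ofReal ((2 * M) ^ (q - 2)) * ‖z‖ₑ ^ q := by
  rw [enorm_rpow z (by linarith), enorm_sq, ← ENNReal.ofReal_mul (by positivity), ← ENNReal.ofReal_mul (by positivity)]
  congr 1
  rw [Real.mul_rpow (by positivity) (norm_nonneg _)]
  rcases (norm_nonneg z).eq_or_lt with h | h
  · rw [← h, Real.zero_rpow (by linarith : q ≠ 0)]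
    ring
  · have e : ‖z‖ ^ q = ‖z‖ ^ (2 : ℝ) * ‖z‖ ^ (q - 2) := by
      rw [← Real.rpow_add h]
      congr 1
      ring
    rw [e, Real.rpow_two]
    ring

end Pool.Agent.H243.RL.MZ

namespace Pool.Agent.H243.RL

open MZ in
theorem t_MZ : S_MZ := by
  intro q hq
  refine ⟨4 * q * 2 ^ (q - 2) / (q - 2), ?_, ?_⟩
  · have : 0 < q - 2 := by linarith
    positivity
  intro T M D hM hD hT hadd hinf h2 F hF
  have hq2 : 0 < q - 2 := by linarith
  have e1 : ∫⁻ x, ‖T F x‖ₑ ^ q = ∫⁻ x, ENNReal.ofReal (‖T F x‖ ^ q) :=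
    lintegral_congr fun x => enorm_rpow _ (by linarith)
  rw [e1, lintegral_rpow_eq_lintegral_meas_lt_mul volume (Filter.Eventually.of_forall fun x => norm_nonneg _)
    (hT F hF).norm.aemeasurable (by linarith : 0 < q)]
  set ν : Measure ℝ := volume.withDensity fun y => ‖F y‖ₑ ^ 2 with hν
  set I : ℝ≥0∞ := ∫⁻ t in Ioi (0 : ℝ), ν {y | t < 2 * M * ‖F y‖} * ENNReal.ofReal (t ^ (q - 2 - 1)) with hI
  have hle : ∫⁻ t in Ioi (0 : ℝ), volume {x | t < ‖T F x‖} * ENNReal.ofReal (t ^ (q - 1)) ≤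
      ENNReal.ofReal (4 * D) * I := by
    rw [hI, ← lintegral_const_mul' _ _ ENNReal.ofReal_ne_top]
    refine setLIntegral_mono' measurableSet_Ioi fun t ht => ?_
    exact level hM hD hT hadd hinf h2 hF ht
  have hcake : ∫⁻ y, ENNReal.ofReal ((2 * M * ‖F y‖) ^ (q - 2)) ∂ν = ENNReal.ofReal (q - 2) * I :=
    lintegral_rpow_eq_lintegral_meas_lt_mul ν (Filter.Eventually.of_forall fun y => by positivity)
      (hF.1.norm.const_mul _).aemeasurable hq2
  have hden : ∫⁻ y, ENNReal.ofReal ((2 * M * ‖F y‖) ^ (q - 2)) ∂ν =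
      ENNReal.ofReal ((2 * M) ^ (q - 2)) * ∫⁻ y, ‖F y‖ₑ ^ q := by
    rw [hν, lintegral_withDensity_eq_lintegral_mul _ (hF.1.enorm.pow_const 2)
      ((hF.1.norm.const_mul _).pow_const _).ennreal_ofReal, ← lintegral_const_mul' _ _ ENNReal.ofReal_ne_top]
    refine lintegral_congr fun y => ?_
    rw [Pi.mul_apply]
    exact pw hq hM (F y)
  have hI2 : I = ENNReal.ofReal (1 / (q - 2)) * (ENNReal.ofReal ((2 * M) ^ (q - 2)) * ∫⁻ y, ‖F y‖ₑ ^ q) := by
    rw [← hden, hcake, ← mul_assoc, ← ENNReal.ofReal_mul (by positivity)]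
    have : 1 / (q - 2) * (q - 2) = 1 := by field_simp
    rw [this, ENNReal.ofReal_one, one_mul]
  calc ENNReal.ofReal q * ∫⁻ t in Ioi (0 : ℝ), volume {x | t < ‖T F x‖} * ENNReal.ofReal (t ^ (q - 1))
      ≤ ENNReal.ofReal q * (ENNReal.ofReal (4 * D) * I) := by gcongr
    _ = ENNReal.ofReal (4 * q * 2 ^ (q - 2) / (q - 2) * D * M ^ (q - 2)) * ∫⁻ y, ‖F y‖ₑ ^ q := by
        rw [hI2, ← mul_assoc, ← mul_assoc, ← mul_assoc, ← ENNReal.ofReal_mul (by linarith),
          ← ENNReal.ofReal_mul (by positivity), ← ENNReal.ofReal_mul (by positivity)]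
        congr 2
        rw [Real.mul_rpow (by norm_num) hM.le]
        ring

end Pool.Agent.H243.RL
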