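import Mathlib
import Pool.Agent.H243.RL.Stmt
import Pool.Agent.H243.RP.Q13
set_option autoImplicit false

open MeasureTheory Set
open scoped ENNReal

namespace Pool.Agent.H243.RL

theorem t_PL : S_PL := fun h h1 h2 => Pool.Agent.H243.RP.planch h h1 h2

theorem norm_ph (x t y : ℝ) : ‖ph x t y‖ = 1 := by
  unfold ph
  rw [← Complex.ofReal_neg, Complex.norm_exp_ofReal_mul_I]

theorem ph_mul (x t y : ℝ) : ph x t y =
    Complex.exp (-((x * y : ℝ) : ℂ) * Complex.I) * Complex.exp (-((t * y ^ 2 : ℝ) : ℂ) * Complex.I) := by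
  unfold ph
  rw [← Complex.exp_add]
  congr 1
  push_cast
  ring

theorem mod_meas {h : ℝ → ℂ} (t : ℝ) (hm : AEStronglyMeasurable h) :
    AEStronglyMeasurable fun y => Complex.exp (-((t * y ^ 2 : ℝ) : ℂ) * Complex.I) * h y := by
  apply AEStronglyMeasurable.mul _ hm
  apply Continuous.aestronglyMeasurable
  fun_prop

theorem norm_mod (h : ℝ → ℂ) (t y : ℝ) :
    ‖Complex.exp (-((t * y ^ 2 : ℝ) : ℂ) * Complex.I) * h y‖ = ‖h y‖ := by
  rw [norm_mul, ← Complex.ofReal_neg, Complex.norm_exp_ofReal_mul_I, one_mul]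

theorem W_two {h : ℝ → ℂ} (h1 : Integrable h) (h2 : MemLp h 2) (t : ℝ) :
    ∫⁻ x, ‖W h x t‖ₑ ^ 2 = ENNReal.ofReal (2 * Real.pi) * ∫⁻ y, ‖h y‖ₑ ^ 2 := by
  have k1 : Integrable fun y => Complex.exp (-((t * y ^ 2 : ℝ) : ℂ) * Complex.I) * h y :=
    h1.mono (mod_meas t h1.aestronglyMeasurable)
      (Filter.Eventually.of_forall fun y => (norm_mod h t y).le)
  have k2 : MemLp (fun y => Complex.exp (-((t * y ^ 2 : ℝ) : ℂ) * Complex.I) * h y) 2 :=
    h2.mono (mod_meas t h1.aestronglyMeasurable)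
      (Filter.Eventually.of_forall fun y => (norm_mod h t y).le)
  have := t_PL _ k1 k2
  have e1 : ∀ y, ‖Complex.exp (-((t * y ^ 2 : ℝ) : ℂ) * Complex.I) * h y‖ₑ = ‖h y‖ₑ := by
    intro y
    rw [← ofReal_norm, ← ofReal_norm, norm_mod]
  simp only [e1] at this
  rw [← this]
  refine lintegral_congr fun x => ?_
  unfold W
  congr 3
  funext y
  rw [ph_mul, mul_assoc]

theorem W_le {h : ℝ → ℂ} (x t : ℝ) : ‖W h x t‖ₑ ≤ ∫⁻ y, ‖h y‖ₑ := by
  unfold W
  refine (enorm_integral_le_lintegral_enorm _).trans (le_of_eq ?_)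
  refine lintegral_congr fun y => ?_
  rw [enorm_mul, ← ofReal_norm, norm_ph, ENNReal.ofReal_one, one_mul]

theorem t_TRIV : S_TRIV := by
  intro q hq h hm h1 h2 t
  set I : ℝ≥0∞ := ∫⁻ y, ‖h y‖ₑ with hI
  have hIf : I ≠ ∞ := h1.2.ne
  have hIq : I ^ (q - 2) ≠ ∞ := ENNReal.rpow_ne_top_of_nonneg (by linarith) hIf
  calc ∫⁻ x, ‖W h x t‖ₑ ^ q ≤ ∫⁻ x, I ^ (q - 2) * ‖W h x t‖ₑ ^ 2 := by
        refine lintegral_mono fun x => ?_
        have e : ‖W h x t‖ₑ ^ q = ‖W h x t‖ₑ ^ (q - 2) * ‖W h x t‖ₑ ^ 2 := by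
          rw [← ENNReal.rpow_natCast, ← ENNReal.rpow_add_of_nonneg _ _ (by linarith) (by norm_num)]
          congr 1
          push_cast
          ring
        rw [e]
        exact mul_le_mul' (ENNReal.rpow_le_rpow (W_le x t) (by linarith)) le_rfl
    _ = I ^ (q - 2) * (ENNReal.ofReal (2 * Real.pi) * ∫⁻ y, ‖h y‖ₑ ^ 2) := by
        rw [lintegral_const_mul' _ _ hIq, W_two h1 h2]
    _ = _ := by ring

theorem bdd_int {g : ℝ → ℂ} (hg : Measurable g) (hb : ∃ B : ℝ, ∀ y, ‖g y‖ ≤ B)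
    (h0 : ∀ y, y ∉ Icc (0 : ℝ) 1 → g y = 0) : Integrable g ∧ MemLp g 2 := by
  obtain ⟨B, hB⟩ := hb
  have hi : g = (Icc (0 : ℝ) 1).indicator g := by
    funext y
    by_cases hy : y ∈ Icc (0 : ℝ) 1
    · rw [indicator_of_mem hy]
    · rw [indicator_of_notMem hy, h0 y hy]
  have key : ∀ p : ℝ≥0∞, MemLp g p := by
    intro p
    rw [hi]
    rw [memLp_indicator_iff_restrict measurableSet_Icc]
    exact MemLp.of_bound hg.aestronglyMeasurable B (Filter.Eventually.of_forall hB)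
  exact ⟨memLp_one_iff_integrable.1 (key 1), key 2⟩

theorem t_TWO : S_TWO := by
  intro g hg hb h0 t
  obtain ⟨h1, h2⟩ := bdd_int hg hb h0
  exact (W_two h1 h2 t).le

end Pool.Agent.H243.RL
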