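import Mathlib
import Pool.Agent.H243.RL.PL
import Pool.Agent.H243.RP.Q10
set_option autoImplicit false

open MeasureTheory Set
open scoped ENNReal

namespace Pool.Agent.H243.RL

theorem ph_meas : Measurable fun p : (ℝ × ℝ) × ℝ => ph p.1.1 p.1.2 p.2 := by
  apply Continuous.measurable
  unfold ph
  fun_prop

theorem W_meas {g : ℝ → ℂ} (hg : Measurable g) : Measurable fun p : ℝ × ℝ => W g p.1 p.2 := by
  have h1 : StronglyMeasurable fun p : (ℝ × ℝ) × ℝ => ph p.1.1 p.1.2 p.2 * g p.2 :=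
    (ph_meas.mul (hg.comp measurable_snd)).stronglyMeasurable
  exact (StronglyMeasurable.integral_prod_right (ν := volume) h1).measurable

namespace PLANAR

open Pool.Agent.H243.RP (interp_op split_le lev)

/-- restriction to `[0,1]` -/
noncomputable def cut (g : ℝ → ℂ) : ℝ → ℂ := (Icc (0 : ℝ) 1).indicator g

theorem cut_meas {g : ℝ → ℂ} (hg : Measurable g) : Measurable (cut g) := hg.indicator measurableSet_Icc

theorem cut_le (g : ℝ → ℂ) (t : ℝ) : ‖cut g t‖ ≤ ‖g t‖ := by
  unfold cut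
  exact norm_indicator_le_norm_self _ _

theorem cut_zero (g : ℝ → ℂ) (t : ℝ) (ht : t ∉ Icc (0 : ℝ) 1) : cut g t = 0 :=
  indicator_of_notMem ht _

theorem W_cut (g : ℝ → ℂ) (x t : ℝ) : W (cut g) x t = ∫ y in Icc (0 : ℝ) 1, ph x t y * g y := by
  unfold W cut
  rw [← integral_indicator measurableSet_Icc]
  congr 1
  funext y
  by_cases hy : y ∈ Icc (0 : ℝ) 1
  · rw [indicator_of_mem hy, indicator_of_mem hy]
  · rw [indicator_of_notMem hy, indicator_of_notMem hy, mul_zero]

end PLANAR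

open PLANAR in
theorem t_PLANAR (h2 : S_TWO) (h4 : S_FOUR) : S_PLANAR := by
  intro q ε hq2 hq4 hε
  obtain ⟨Ci, hCi0, hCi⟩ := Pool.Agent.H243.RP.interp_op q hq2 hq4
  obtain ⟨C4, hC40, hC4⟩ := h4
  have hpi := Real.pi_pos
  refine ⟨Ci * (C4 * (1 + 1 / ε) + 4 * Real.pi), by positivity, ?_⟩
  intro T hT g hg h0
  have hT0 : 0 < T := by linarith
  set lam : ℝ := T ^ (-(1 / 2 : ℝ)) with hlam
  have hlam0 : 0 < lam := by positivity
  have hlog : 0 ≤ Real.log T := Real.log_nonneg hT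
  set A : (ℝ → ℂ) → ℝ × ℝ → ℝ≥0∞ := fun g p => ‖W (cut g) p.2 p.1‖ₑ with hA
  set τ : Measure (ℝ × ℝ) := (volume.restrict (Icc (-T) T)).prod volume with hτ
  have hiter : ∀ f : ℝ × ℝ → ℝ≥0∞, Measurable f →
      ∫⁻ p, f p ∂τ = ∫⁻ t in Icc (-T) T, ∫⁻ x : ℝ, f (t, x) := by
    intro f hf
    rw [hτ, lintegral_prod _ hf.aemeasurable]
  have hAm : ∀ g, Measurable g → Measurable (A g) := fun g hg =>
    ((W_meas (cut_meas hg)).comp measurable_swap).enorm
  have hmain := hCi ℝ (ℝ × ℝ) volume τ A (4 * Real.pi * T) (C4 * (1 + Real.log T)) lam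
    (by positivity) (by positivity) hlam0 hAm ?_ ?_ ?_ g hg
  · rw [hiter _ ((hAm g hg).pow_const q)] at hmain
    have hcg : cut g = g := by
      funext y
      by_cases hy : y ∈ Icc (0 : ℝ) 1
      · exact indicator_of_mem hy _
      · rw [cut_zero g y hy, h0 y hy]
    simp only [hA, hcg] at hmain
    refine hmain.trans ?_
    refine mul_le_mul' (ENNReal.ofReal_le_ofReal ?_) le_rfl
    have e1 : lam ^ (q - 4) = T ^ (2 - q / 2) := by
      rw [hlam, ← Real.rpow_mul hT0.le]
      congr 1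
      ring
    have e2 : lam ^ (q - 2) * T = T ^ (2 - q / 2) := by
      rw [hlam, ← Real.rpow_mul hT0.le]
      nth_rw 2 [← Real.rpow_one T]
      rw [← Real.rpow_add hT0]
      congr 1
      ring
    have e3 : 1 + Real.log T ≤ (1 + 1 / ε) * T ^ ε := by
      have k1 := Real.log_le_rpow_div hT0.le hε
      have k2 : 1 ≤ T ^ ε := Real.one_le_rpow hT hε.le
      have k3 : (1 + 1 / ε) * T ^ ε = T ^ ε + T ^ ε / ε := by ring
      rw [k3]
      linarith
    have e4 : (4 * Real.pi) ≤ 4 * Real.pi * T ^ ε := by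
      have k2 : 1 ≤ T ^ ε := Real.one_le_rpow hT hε.le
      nlinarith
    have e5 : lam ^ (q - 4) * (C4 * (1 + Real.log T)) + lam ^ (q - 2) * (4 * Real.pi * T) =
        T ^ (2 - q / 2) * (C4 * (1 + Real.log T) + 4 * Real.pi) := by
      rw [e1, show lam ^ (q - 2) * (4 * Real.pi * T) = 4 * Real.pi * (lam ^ (q - 2) * T) by ring, e2]
      ring
    rw [e5, Real.rpow_add hT0]
    calc Ci * (T ^ (2 - q / 2) * (C4 * (1 + Real.log T) + 4 * Real.pi))
        ≤ Ci * (T ^ (2 - q / 2) * (C4 * ((1 + 1 / ε) * T ^ ε) + 4 * Real.pi * T ^ ε)) := by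
          gcongr
      _ = _ := by ring
  · -- subadditivity
    intro g hg p
    have h1 := Pool.Agent.H243.RP.split_le (volume.restrict (Icc (0 : ℝ) 1)) hg (fun y => ph p.2 p.1 y)
    simp only [hA, W_cut]
    exact h1
  · rintro g hg ⟨B, hB⟩
    rw [hiter _ ((hAm g hg).pow_const 2)]
    calc ∫⁻ t in Icc (-T) T, ∫⁻ x : ℝ, A g (t, x) ^ 2
        ≤ ∫⁻ t in Icc (-T) T, ENNReal.ofReal (2 * Real.pi) * ∫⁻ y, ‖g y‖ₑ ^ 2 := by
          refine lintegral_mono fun t => ?_
          refine (h2 (cut g) (cut_meas hg) ⟨B, fun y => (cut_le g y).trans (hB y)⟩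
            (cut_zero g) t).trans ?_
          refine mul_le_mul' le_rfl (lintegral_mono fun y => ?_)
          apply pow_le_pow_left'
          rw [← ofReal_norm, ← ofReal_norm]
          exact ENNReal.ofReal_le_ofReal (cut_le g y)
      _ = _ := by
          rw [lintegral_const, Measure.restrict_apply_univ, Real.volume_Icc]
          rw [show T - -T = 2 * T by ring, mul_comm, ← mul_assoc,
            ← ENNReal.ofReal_mul (by positivity)]
          congr 2
          ring
  · rintro g hg ⟨B, hB⟩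
    rw [hiter _ ((hAm g hg).pow_const 4)]
    refine (hC4 T hT (cut g) (cut_meas hg) ⟨B, fun y => (cut_le g y).trans (hB y)⟩
      (cut_zero g)).trans ?_
    refine mul_le_mul' le_rfl (lintegral_mono fun t => ?_)
    apply pow_le_pow_left'
    rw [← ofReal_norm, ← ofReal_norm]
    exact ENNReal.ofReal_le_ofReal (cut_le g t)

end Pool.Agent.H243.RL
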