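import Pool.Agent.H243.RL.Stmt

set_option autoImplicit false

open MeasureTheory Set
open scoped ENNReal

namespace Pool.Agent.H243.RL

namespace SCHUR

theorem scale (f : ℝ → ℝ≥0∞) (hf : Measurable f) (u : ℝ) :
    ∫⁻ s : ℝ, f (s / 2 + u) = 2 * ∫⁻ y, f y := by
  have h1 : ∫⁻ s : ℝ, f (s / 2 + u) = ∫⁻ s : ℝ, (fun y => f (y + u)) ((1 / 2 : ℝ) * s) := by
    apply lintegral_congr
    intro s
    show f (s / 2 + u) = f (1 / 2 * s + u)
    have : s / 2 = 1 / 2 * s := by ring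
    rw [this]
  have hm : Measurable fun y : ℝ => f (y + u) := hf.comp (by fun_prop)
  have h2 := lintegral_map (μ := (volume : Measure ℝ)) (f := fun y : ℝ => f (y + u))
    (g := fun s : ℝ => (1 / 2 : ℝ) * s) hm (by fun_prop)
  rw [h1, ← h2, Real.map_volume_mul_left (by norm_num : (1 / 2 : ℝ) ≠ 0), lintegral_smul_measure,
    lintegral_add_right_eq_self]
  have h3 : ENNReal.ofReal |(1 / 2 : ℝ)⁻¹| = 2 := by
    have : |(1 / 2 : ℝ)⁻¹| = 2 := by norm_num
    rw [this]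
    norm_num
  rw [h3, smul_eq_mul]

theorem sq_le (x y : ℝ≥0∞) : (x * y) ^ 2 ≤ x ^ 4 + y ^ 4 := by
  rcases le_total x y with h | h
  · calc (x * y) ^ 2 ≤ (y * y) ^ 2 := by gcongr
      _ = y ^ 4 := by ring
      _ ≤ x ^ 4 + y ^ 4 := le_add_self
  · calc (x * y) ^ 2 ≤ (x * x) ^ 2 := by gcongr
      _ = x ^ 4 := by ring
      _ ≤ x ^ 4 + y ^ 4 := le_self_add

theorem kern (T : ℝ) (hT : 1 ≤ T) :
    ∫⁻ u in Icc (-(1 / 2) : ℝ) (1 / 2), ENNReal.ofReal ((|u| + 1 / T)⁻¹) ≤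
      ENNReal.ofReal (2 * (1 + Real.log T)) := by
  have hT0 : 0 < T := by linarith
  have hT1 : 0 < 1 / T := by positivity
  have hc : Continuous fun u : ℝ => (|u| + 1 / T)⁻¹ := by
    apply Continuous.inv₀ (by fun_prop)
    intro u
    have := abs_nonneg u
    positivity
  have hi : IntegrableOn (fun u : ℝ => (|u| + 1 / T)⁻¹) (Icc (-(1 / 2) : ℝ) (1 / 2)) :=
    hc.integrableOn_Icc
  have hnn : ∀ u : ℝ, 0 ≤ (|u| + 1 / T)⁻¹ := fun u => by
    have := abs_nonneg u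
    positivity
  rw [← ofReal_integral_eq_lintegral_ofReal hi (Filter.Eventually.of_forall hnn)]
  apply ENNReal.ofReal_le_ofReal
  have e1 : ∫ u in Icc (-(1 / 2) : ℝ) (1 / 2), (|u| + 1 / T)⁻¹ =
      ∫ u in (-(1 / 2) : ℝ)..(1 / 2), (|u| + 1 / T)⁻¹ := by
    rw [intervalIntegral.integral_of_le (by norm_num), integral_Icc_eq_integral_Ioc]
  have e2 : ∫ u in (0:ℝ)..(1 / 2), (|u| + 1 / T)⁻¹ = Real.log ((1 / 2 + 1 / T) / (0 + 1 / T)) := by
    have h1 : ∫ u in (0:ℝ)..(1 / 2), (|u| + 1 / T)⁻¹ = ∫ u in (0:ℝ)..(1 / 2), (u + 1 / T)⁻¹ := by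
      apply intervalIntegral.integral_congr
      intro u hu
      rw [uIcc_of_le (by norm_num)] at hu
      show (|u| + 1 / T)⁻¹ = (u + 1 / T)⁻¹
      rw [abs_of_nonneg hu.1]
    rw [h1, intervalIntegral.integral_comp_add_right (fun x : ℝ => x⁻¹),
      integral_inv_of_pos (by positivity) (by positivity)]
  have e3 : ∫ u in (-(1 / 2) : ℝ)..0, (|u| + 1 / T)⁻¹ = ∫ u in (0:ℝ)..(1 / 2), (|u| + 1 / T)⁻¹ := by
    have h1 := intervalIntegral.integral_comp_neg (a := -(1 / 2)) (b := 0)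
      (fun u : ℝ => (|u| + 1 / T)⁻¹)
    simp only [abs_neg, neg_zero, neg_neg] at h1
    exact h1
  have e4 : ∫ u in (-(1 / 2) : ℝ)..(1 / 2), (|u| + 1 / T)⁻¹ =
      (∫ u in (-(1 / 2) : ℝ)..0, (|u| + 1 / T)⁻¹) + ∫ u in (0:ℝ)..(1 / 2), (|u| + 1 / T)⁻¹ :=
    (intervalIntegral.integral_add_adjacent_intervals (hc.intervalIntegrable _ _)
      (hc.intervalIntegrable _ _)).symm
  have e5 : (1 / 2 + 1 / T) / (0 + 1 / T) = T / 2 + 1 := by
    field_simp
    ring
  rw [e1, e4, e3, e2, e5]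
  have h1 : Real.log (T / 2 + 1) ≤ 1 + Real.log T := by
    have h2 : T / 2 + 1 ≤ 3 / 2 * T := by linarith
    have h3 := Real.log_le_log (by positivity) h2
    rw [Real.log_mul (by norm_num) hT0.ne'] at h3
    have h4 := Real.log_le_sub_one_of_pos (show (0:ℝ) < 3 / 2 by norm_num)
    linarith
  linarith

end SCHUR

theorem t_SCHUR : S_SCHUR := by
  refine ⟨8, by norm_num, ?_⟩
  intro T hT g hg hsupp
  have hlog : 0 ≤ Real.log T := Real.log_nonneg hT
  set K : ℝ → ℝ≥0∞ := (Icc (-(1 / 2) : ℝ) (1 / 2)).indicator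
    (fun u => ENNReal.ofReal ((|u| + 1 / T)⁻¹)) with hK
  have hKm : Measurable K := by
    apply Measurable.indicator _ measurableSet_Icc
    exact ENNReal.measurable_ofReal.comp (by fun_prop)
  have hg4 : Measurable fun y => g y ^ 4 := hg.pow_const 4
  have hpt : ∀ s u : ℝ, ENNReal.ofReal ((|u| + 1 / T)⁻¹) * (g (s / 2 + u) * g (s / 2 - u)) ^ 2 ≤
      K u * (g (s / 2 + u) ^ 4 + g (s / 2 - u) ^ 4) := by
    intro s u
    by_cases h1 : s / 2 + u ∈ Icc (0:ℝ) 1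
    · by_cases h2 : s / 2 - u ∈ Icc (0:ℝ) 1
      · have hu : u ∈ Icc (-(1 / 2) : ℝ) (1 / 2) := by
          constructor
          · linarith [h1.1, h2.2]
          · linarith [h1.2, h2.1]
        rw [hK, indicator_of_mem hu]
        gcongr
        exact SCHUR.sq_le _ _
      · rw [hsupp _ h2]
        simp
    · rw [hsupp _ h1]
      simp
  have hmeas : Measurable fun p : ℝ × ℝ =>
      K p.2 * (g (p.1 / 2 + p.2) ^ 4 + g (p.1 / 2 - p.2) ^ 4) := by
    have e1 : Measurable fun p : ℝ × ℝ => g (p.1 / 2 + p.2) ^ 4 :=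
      hg4.comp (by fun_prop : Measurable fun p : ℝ × ℝ => p.1 / 2 + p.2)
    have e2 : Measurable fun p : ℝ × ℝ => g (p.1 / 2 - p.2) ^ 4 :=
      hg4.comp (by fun_prop : Measurable fun p : ℝ × ℝ => p.1 / 2 - p.2)
    exact (hKm.comp measurable_snd).mul (e1.add e2)
  calc ∫⁻ s, ∫⁻ u, ENNReal.ofReal ((|u| + 1 / T)⁻¹) * (g (s / 2 + u) * g (s / 2 - u)) ^ 2
      ≤ ∫⁻ s, ∫⁻ u, K u * (g (s / 2 + u) ^ 4 + g (s / 2 - u) ^ 4) :=
        lintegral_mono fun s => lintegral_mono fun u => hpt s u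
    _ = ∫⁻ u, ∫⁻ s, K u * (g (s / 2 + u) ^ 4 + g (s / 2 - u) ^ 4) :=
        lintegral_lintegral_swap hmeas.aemeasurable
    _ = ∫⁻ u, K u * (4 * ∫⁻ y, g y ^ 4) := by
        apply lintegral_congr
        intro u
        have m1 : Measurable fun s : ℝ => g (s / 2 + u) ^ 4 :=
          hg4.comp (by fun_prop : Measurable fun s : ℝ => s / 2 + u)
        have m2 : Measurable fun s : ℝ => g (s / 2 - u) ^ 4 :=
          hg4.comp (by fun_prop : Measurable fun s : ℝ => s / 2 - u)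
        have m3 : Measurable fun s : ℝ => g (s / 2 + u) ^ 4 + g (s / 2 - u) ^ 4 := m1.add m2
        rw [lintegral_const_mul _ m3, lintegral_add_left m1]
        have h1 := SCHUR.scale (fun y => g y ^ 4) hg4 u
        have h2 := SCHUR.scale (fun y => g y ^ 4) hg4 (-u)
        simp only [← sub_eq_add_neg] at h2
        rw [h1, h2]
        ring
    _ = (∫⁻ u, K u) * (4 * ∫⁻ y, g y ^ 4) := lintegral_mul_const _ hKm
    _ ≤ ENNReal.ofReal (2 * (1 + Real.log T)) * (4 * ∫⁻ y, g y ^ 4) := by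
        gcongr
        rw [hK, lintegral_indicator measurableSet_Icc]
        exact SCHUR.kern T hT
    _ = ENNReal.ofReal (8 * (1 + Real.log T)) * ∫⁻ y, g y ^ 4 := by
        rw [← mul_assoc]
        have h4 : (4 : ℝ≥0∞) = ENNReal.ofReal 4 := by norm_num
        rw [h4, ← ENNReal.ofReal_mul (by positivity)]
        have h5 : 2 * (1 + Real.log T) * 4 = 8 * (1 + Real.log T) := by ring
        rw [h5]

end Pool.Agent.H243.RL
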