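import Pool.Agent.H243.RL.Stmt

set_option autoImplicit false

/-! Summation over the blocks. -/

open MeasureTheory Set
open scoped ENNReal

namespace Pool.Agent.H243.RL.SUM

/-- the decay of the Gaussian and of its derivative -/
lemma exp_bound (α u : ℝ) (hα : 1 ≤ α) (hα2 : α ≤ 2) :
    |Real.exp (-(α * u ^ 2))| ≤ 4 / (1 + u ^ 2) ∧
    |-(2 * α * u) * Real.exp (-(α * u ^ 2))| ≤ 4 / (1 + u ^ 2) := by
  have hq : 1 + u ^ 2 + (u ^ 2) ^ 2 / 2 ≤ Real.exp (u ^ 2) :=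
    Real.quadratic_le_exp_of_nonneg (sq_nonneg u)
  have hle : Real.exp (-(α * u ^ 2)) ≤ Real.exp (-(u ^ 2)) :=
    Real.exp_le_exp.mpr (by nlinarith [sq_nonneg u])
  have hpos : 0 < Real.exp (u ^ 2) := Real.exp_pos _
  have h1 : 0 < 1 + u ^ 2 := by positivity
  have hle2 : Real.exp (-(α * u ^ 2)) ≤ 1 / Real.exp (u ^ 2) := by
    rw [one_div, ← Real.exp_neg]
    exact hle
  have hE : 0 < Real.exp (-(α * u ^ 2)) := Real.exp_pos _
  constructor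
  · rw [abs_of_pos hE]
    refine hle2.trans ?_
    rw [div_le_div_iff₀ hpos h1]
    nlinarith [sq_nonneg (u ^ 2)]
  · rw [abs_mul, abs_of_pos hE, abs_neg, abs_mul, abs_of_nonneg (by linarith : (0 : ℝ) ≤ 2 * α)]
    have hu : 0 ≤ |u| := abs_nonneg u
    have hu2 : |u| ^ 2 = u ^ 2 := sq_abs u
    have h2 : 2 * α * |u| ≤ 4 * |u| := by nlinarith
    calc 2 * α * |u| * Real.exp (-(α * u ^ 2)) ≤ 4 * |u| * (1 / Real.exp (u ^ 2)) :=
          mul_le_mul h2 hle2 hE.le (by positivity)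
      _ = (4 * |u|) / Real.exp (u ^ 2) := by ring
      _ ≤ 4 / (1 + u ^ 2) := by
        rw [div_le_div_iff₀ hpos h1]
        have h3 : |u| * (1 + u ^ 2) ≤ Real.exp (u ^ 2) := by
          have h4 : |u| ≤ (1 + u ^ 2) / 2 := by nlinarith [sq_nonneg (|u| - 1)]
          calc |u| * (1 + u ^ 2) ≤ (1 + u ^ 2) / 2 * (1 + u ^ 2) :=
                mul_le_mul_of_nonneg_right h4 h1.le
            _ ≤ 1 + u ^ 2 + (u ^ 2) ^ 2 / 2 := by nlinarith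
            _ ≤ Real.exp (u ^ 2) := hq
        nlinarith

/-- the weight -/
noncomputable def wt (m : ℤ) : ℝ := 12 / (1 + (m : ℝ) ^ 2)

lemma wt_pos (m : ℤ) : 0 < wt m := by unfold wt; positivity

/-- comparison with the weight -/
lemma le_wt {u : ℝ} {m : ℤ} (h : |u - m| ≤ 1) : 4 / (1 + u ^ 2) ≤ wt m := by
  unfold wt
  rw [div_le_div_iff₀ (by positivity) (by positivity)]
  have h1 := abs_le.mp h
  nlinarith [sq_nonneg (u + (u - m)), sq_nonneg (u - m), sq_nonneg u, h1.1, h1.2,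
    mul_nonneg (sub_nonneg.mpr h1.2) (by linarith [h1.1] : (0 : ℝ) ≤ (u - m) + 1)]

lemma summable_wt : Summable wt := by
  have h := (Real.summable_one_div_int_add_rpow (1 / 2) 2).mpr (by norm_num)
  refine Summable.of_nonneg_of_le (fun m => (wt_pos m).le) (fun m => ?_) (h.mul_left 24)
  unfold wt
  rw [Real.rpow_two, sq_abs, mul_one_div]
  have h0 : (m : ℝ) + 1 / 2 ≠ 0 := by
    have h2 : (2 * m + 1 : ℤ) ≠ 0 := by omega
    have h3 : (2 * (m : ℝ) + 1) ≠ 0 := by exact_mod_cast h2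
    intro h4
    apply h3
    linarith
  have h1 : 0 < ((m : ℝ) + 1 / 2) ^ 2 := by positivity
  rw [div_le_div_iff₀ (by positivity) h1]
  nlinarith [sq_nonneg ((m : ℝ) - 1)]

/-- the weight with values in `ℝ≥0∞` -/
noncomputable def we (m : ℤ) : ℝ≥0∞ := ENNReal.ofReal (wt m)

lemma we_ne_zero (m : ℤ) : we m ≠ 0 := by
  unfold we
  exact (ENNReal.ofReal_pos.mpr (wt_pos m)).ne'

lemma we_ne_top (m : ℤ) : we m ≠ ∞ := ENNReal.ofReal_ne_top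

/-- the inequality of Hölder with weights -/
lemma jensen (q : ℝ) (hq : 1 ≤ q) (s : Finset ℤ) (w f : ℤ → ℝ≥0∞) (hw0 : ∀ b, w b ≠ 0)
    (hwt : ∀ b, w b ≠ ∞) (V : ℝ≥0∞) (hV : ∑ b ∈ s, w b ≤ V) :
    (∑ b ∈ s, f b) ^ q ≤ V ^ (q - 1) * ∑ b ∈ s, w b ^ (1 - q) * f b ^ q := by
  have hq0 : 0 < q := by linarith
  have h1 := ENNReal.inner_le_weight_mul_Lp_of_nonneg s hq w (fun b => f b / w b)
  have e1 : ∑ b ∈ s, w b * (f b / w b) = ∑ b ∈ s, f b :=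
    Finset.sum_congr rfl fun b _ => ENNReal.mul_div_cancel (hw0 b) (hwt b)
  have e2 : ∑ b ∈ s, w b * (f b / w b) ^ q = ∑ b ∈ s, w b ^ (1 - q) * f b ^ q := by
    refine Finset.sum_congr rfl fun b _ => ?_
    rw [ENNReal.div_rpow_of_nonneg _ _ hq0.le, ENNReal.rpow_sub _ _ (hw0 b) (hwt b),
      ENNReal.rpow_one, div_eq_mul_inv, div_eq_mul_inv]
    ring
  rw [e1] at h1
  have e3 : ∑ i ∈ s, w i * ((fun b => f b / w b) i) ^ q = ∑ b ∈ s, w b ^ (1 - q) * f b ^ q := e2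
  rw [e3] at h1
  calc (∑ b ∈ s, f b) ^ q
      ≤ ((∑ b ∈ s, w b) ^ (1 - q⁻¹) * (∑ b ∈ s, w b ^ (1 - q) * f b ^ q) ^ q⁻¹) ^ q :=
        ENNReal.rpow_le_rpow h1 hq0.le
    _ = (∑ b ∈ s, w b) ^ (q - 1) * ∑ b ∈ s, w b ^ (1 - q) * f b ^ q := by
        rw [ENNReal.mul_rpow_of_nonneg _ _ hq0.le, ← ENNReal.rpow_mul, ← ENNReal.rpow_mul,
          inv_mul_cancel₀ hq0.ne', ENNReal.rpow_one, sub_mul, one_mul, inv_mul_cancel₀ hq0.ne']
    _ ≤ V ^ (q - 1) * ∑ b ∈ s, w b ^ (1 - q) * f b ^ q := by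
        gcongr

/-- superadditivity of the power -/
lemma sum_rpow_le (r : ℝ) (hr : 1 ≤ r) (s : Finset ℤ) (x : ℤ → ℝ≥0∞) :
    ∑ b ∈ s, x b ^ r ≤ (∑ b ∈ s, x b) ^ r := by
  classical
  induction s using Finset.induction_on with
  | empty => simp
  | insert b s hb ih =>
    rw [Finset.sum_insert hb, Finset.sum_insert hb]
    calc x b ^ r + ∑ b ∈ s, x b ^ r ≤ x b ^ r + (∑ b ∈ s, x b) ^ r := by gcongr
      _ ≤ (x b + ∑ b ∈ s, x b) ^ r := ENNReal.add_rpow_le_rpow_add _ _ hr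

/-- the hypothesis for one block -/
lemma block_hyp (q a B κ : ℝ) (L : Set ℤ) (hLam : Lam q a B L) (hq : 0 ≤ q) (ha : 0 ≤ a)
    (hB : 0 ≤ B) (hκ : κ ≠ 0) (hκ2 : |κ| ≤ 2) (S : Finset ℤ) (hS : ∀ k ∈ S, k ∈ L) (b : ℤ)
    (hb : ∀ k ∈ S, ⌊κ * k⌋ = b) (c : ℤ → ℂ) :
    ∫⁻ v in Icc (0 : ℝ) 1, ‖∑ k ∈ S, c k * ek k v‖ₑ ^ q ≤
      ENNReal.ofReal ((B * (3 / |κ|) ^ a) ^ q) * (∑ k ∈ S, ‖c k‖ₑ ^ 2) ^ (q / 2) := by
  have hκp : 0 < |κ| := abs_pos.mpr hκ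
  obtain ⟨m, hm⟩ : ∃ m : ℤ, ∀ k ∈ S, m ≤ k ∧ k < m + ((⌊1 / |κ|⌋₊ + 1 : ℕ) : ℤ) := by
    rcases S.eq_empty_or_nonempty with hSe | hSn
    · exact ⟨0, fun k hk => by rw [hSe] at hk; exact absurd hk (Finset.notMem_empty k)⟩
    · refine ⟨S.min' hSn, fun k hk => ?_⟩
      have hmin : S.min' hSn ≤ k := Finset.min'_le S k hk
      refine ⟨hmin, ?_⟩
      have hm0 : S.min' hSn ∈ S := Finset.min'_mem S hSn
      have h1 : |κ * (k : ℝ) - κ * ((S.min' hSn : ℤ) : ℝ)| < 1 :=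
        Int.abs_sub_lt_one_of_floor_eq_floor (by rw [hb k hk, hb _ hm0])
      rw [← mul_sub, abs_mul] at h1
      obtain ⟨d, hd⟩ := Int.eq_ofNat_of_zero_le (sub_nonneg.mpr hmin)
      have h2 : (k : ℝ) - ((S.min' hSn : ℤ) : ℝ) = (d : ℝ) := by exact_mod_cast hd
      rw [h2, abs_of_nonneg (Nat.cast_nonneg d : (0 : ℝ) ≤ (d : ℝ))] at h1
      have h3 : (d : ℝ) ≤ 1 / |κ| := by
        rw [le_div_iff₀ hκp]
        linarith
      have h4 : d ≤ ⌊1 / |κ|⌋₊ := Nat.le_floor h3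
      push_cast
      have h5 : (d : ℤ) ≤ (⌊1 / |κ|⌋₊ : ℤ) := by exact_mod_cast h4
      omega
  have h1 := hLam m (⌊1 / |κ|⌋₊ + 1) (by omega) S c fun k hk => ⟨hS k hk, hm k hk⟩
  refine h1.trans ?_
  have hN : ((⌊1 / |κ|⌋₊ + 1 : ℕ) : ℝ) ≤ 3 / |κ| := by
    push_cast
    have h2 : (⌊1 / |κ|⌋₊ : ℝ) ≤ 1 / |κ| := Nat.floor_le (by positivity)
    have h3 : 1 ≤ 2 / |κ| := by
      rw [le_div_iff₀ hκp]
      linarith
    have h4 : 3 / |κ| = 1 / |κ| + 2 / |κ| := by ring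
    linarith
  gcongr

/-- the functions of the blocks are measurable -/
lemma meas_block (q κ α : ℝ) (S : Finset ℤ) (c : ℤ → ℂ) :
    Measurable fun v : ℝ => ‖∑ k ∈ S, c k * ek k (-v) *
      (Real.exp (-(α * (v - κ * k) ^ 2)) : ℂ)‖ₑ ^ q := by
  have h : Continuous fun v : ℝ => ∑ k ∈ S, c k * ek k (-v) *
      (Real.exp (-(α * (v - κ * k) ^ 2)) : ℂ) := by
    unfold ek
    fun_prop
  exact h.measurable.enorm.pow_const q

lemma hasDeriv_phi (α u : ℝ) : HasDerivAt (fun u : ℝ => Real.exp (-(α * u ^ 2)))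
    (-(2 * α * u) * Real.exp (-(α * u ^ 2))) u := by
  have h1 : HasDerivAt (fun u : ℝ => -(α * u ^ 2)) (-(α * ((2 : ℕ) * u ^ (2 - 1)))) u :=
    ((hasDerivAt_pow 2 u).const_mul α).neg
  exact h1.exp.congr_deriv (by push_cast; ring)

lemma cont_phi (α : ℝ) : Continuous fun u : ℝ => -(2 * α * u) * Real.exp (-(α * u ^ 2)) := by
  fun_prop

/-- one block on one interval -/
lemma one_block (hBLK : S_BLK) (q a B κ α : ℝ) (L : Set ℤ) (hLam : Lam q a B L) (hq : 1 ≤ q)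
    (ha : 0 ≤ a) (hB : 0 ≤ B) (hα : 1 ≤ α) (hα2 : α ≤ 2) (hκ : κ ≠ 0) (hκ2 : |κ| ≤ 2)
    (S : Finset ℤ) (hS : ∀ k ∈ S, k ∈ L) (b : ℤ) (hb : ∀ k ∈ S, ⌊κ * k⌋ = b) (c : ℤ → ℂ)
    (j : ℤ) :
    we (j - b) ^ (1 - q) * ∫⁻ v in Icc (j : ℝ) (j + 1), ‖∑ k ∈ S, c k * ek k (-v) *
      (Real.exp (-(α * (v - κ * k) ^ 2)) : ℂ)‖ₑ ^ q ≤
    ENNReal.ofReal (2 ^ q * (B * (3 / |κ|) ^ a) ^ q) *
      (we (j - b) * (∑ k ∈ S, ‖c k‖ₑ ^ 2) ^ (q / 2)) := by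
  have hD : 0 ≤ (B * (3 / |κ|) ^ a) ^ q := by positivity
  have h1 := hBLK q ((B * (3 / |κ|) ^ a) ^ q) (wt (j - b)) hq hD (wt_pos _).le S
    (block_hyp q a B κ L hLam (by linarith) ha hB hκ hκ2 S hS b hb) κ j
    (fun u : ℝ => Real.exp (-(α * u ^ 2))) (fun u : ℝ => -(2 * α * u) * Real.exp (-(α * u ^ 2)))
    (hasDeriv_phi α) (cont_phi α) (by
      intro s hs k hk
      have hfl := hb k hk
      have h2 := Int.floor_le (κ * (k : ℝ))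
      have h3 := Int.lt_floor_add_one (κ * (k : ℝ))
      rw [hfl] at h2 h3
      have hw : 4 / (1 + (s - κ * k) ^ 2) ≤ wt (j - b) := by
        apply le_wt
        push_cast
        rw [abs_le]
        constructor
        · linarith [hs.1, hs.2]
        · linarith [hs.1, hs.2]
      exact ⟨(exp_bound α (s - κ * k) hα hα2).1.trans hw,
        (exp_bound α (s - κ * k) hα hα2).2.trans hw⟩) c
  have h2 : ENNReal.ofReal (2 ^ q * (B * (3 / |κ|) ^ a) ^ q * wt (j - b) ^ q) =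
      ENNReal.ofReal (2 ^ q * (B * (3 / |κ|) ^ a) ^ q) * we (j - b) ^ q := by
    rw [ENNReal.ofReal_mul (by positivity)]
    unfold we
    rw [ENNReal.ofReal_rpow_of_nonneg (wt_pos _).le (by linarith)]
  have h3 : we (j - b) ^ (1 - q) * we (j - b) ^ q = we (j - b) := by
    rw [← ENNReal.rpow_add _ _ (we_ne_zero _) (we_ne_top _), sub_add_cancel, ENNReal.rpow_one]
  calc we (j - b) ^ (1 - q) * ∫⁻ v in Icc (j : ℝ) (j + 1), ‖∑ k ∈ S, c k * ek k (-v) *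
        (Real.exp (-(α * (v - κ * k) ^ 2)) : ℂ)‖ₑ ^ q
      ≤ we (j - b) ^ (1 - q) *
        (ENNReal.ofReal (2 ^ q * (B * (3 / |κ|) ^ a) ^ q * wt (j - b) ^ q) *
          (∑ k ∈ S, ‖c k‖ₑ ^ 2) ^ (q / 2)) := by
        gcongr
    _ = ENNReal.ofReal (2 ^ q * (B * (3 / |κ|) ^ a) ^ q) *
        ((we (j - b) ^ (1 - q) * we (j - b) ^ q) * (∑ k ∈ S, ‖c k‖ₑ ^ 2) ^ (q / 2)) := by
        rw [h2]
        ring
    _ = ENNReal.ofReal (2 ^ q * (B * (3 / |κ|) ^ a) ^ q) *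
        (we (j - b) * (∑ k ∈ S, ‖c k‖ₑ ^ 2) ^ (q / 2)) := by rw [h3]

end Pool.Agent.H243.RL.SUM

namespace Pool.Agent.H243.RL

open SUM

theorem t_SUM (hB : S_BLK) : S_SUM := by
  classical
  intro q hq
  have hq1 : 1 ≤ q := by linarith
  have hq0 : 0 < q := by linarith
  -- the sum of the weights
  obtain ⟨V, hV0, hV⟩ : ∃ V : ℝ, 0 < V ∧ ∑' m, we m ≤ ENNReal.ofReal V := by
    have hfin : ∑' m, we m ≠ ∞ := summable_wt.tsum_ofReal_ne_top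
    refine ⟨(∑' m, we m).toReal + 1, by positivity, ?_⟩
    calc ∑' m, we m = ENNReal.ofReal (∑' m, we m).toReal := (ENNReal.ofReal_toReal hfin).symm
      _ ≤ ENNReal.ofReal ((∑' m, we m).toReal + 1) := ENNReal.ofReal_le_ofReal (by linarith)
  have hV1 : ∀ b : ℤ, ∑' j : ℤ, we (j - b) ≤ ENNReal.ofReal V := by
    intro b
    have h1 : ∑' j : ℤ, we (j - b) = ∑' m, we m := (Equiv.subRight b).tsum_eq we
    rw [h1]
    exact hV
  have hV2 : ∀ (j : ℤ) (s : Finset ℤ), ∑ b ∈ s, we (j - b) ≤ ENNReal.ofReal V := by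
    intro j s
    have h1 : ∑' b : ℤ, we (j - b) = ∑' m, we m := (Equiv.subLeft j).tsum_eq we
    calc ∑ b ∈ s, we (j - b) ≤ ∑' b : ℤ, we (j - b) := ENNReal.sum_le_tsum s
      _ = ∑' m, we m := h1
      _ ≤ ENNReal.ofReal V := hV
  refine ⟨2 ^ q * V ^ q, by positivity, ?_⟩
  intro a B L ha hB0 hLam α κ hα hα2 hκ hκ2 S c hS
  -- the blocks
  obtain ⟨T, hT⟩ : ∃ T : Finset ℤ, T = S.image fun k : ℤ => ⌊κ * (k : ℝ)⌋ := ⟨_, rfl⟩
  obtain ⟨Sb, hSb⟩ : ∃ Sb : ℤ → Finset ℤ,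
      Sb = fun b => S.filter fun k : ℤ => ⌊κ * (k : ℝ)⌋ = b := ⟨_, rfl⟩
  have hmaps : ∀ k ∈ S, ⌊κ * (k : ℝ)⌋ ∈ T := by
    intro k hk
    rw [hT]
    exact Finset.mem_image_of_mem _ hk
  have hdec : ∀ v : ℝ, ∑ k ∈ S, c k * ek k (-v) * (Real.exp (-(α * (v - κ * k) ^ 2)) : ℂ) =
      ∑ b ∈ T, ∑ k ∈ Sb b, c k * ek k (-v) * (Real.exp (-(α * (v - κ * k) ^ 2)) : ℂ) := by
    intro v
    rw [hSb]
    exact (Finset.sum_fiberwise_of_maps_to hmaps _).symm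
  have hdec2 : ∑ b ∈ T, ∑ k ∈ Sb b, ‖c k‖ₑ ^ 2 = ∑ k ∈ S, ‖c k‖ₑ ^ 2 := by
    rw [hSb]
    exact Finset.sum_fiberwise_of_maps_to hmaps _
  -- one interval
  have hint : ∀ j : ℤ, ∫⁻ v in Icc (j : ℝ) (j + 1),
      ‖∑ k ∈ S, c k * ek k (-v) * (Real.exp (-(α * (v - κ * k) ^ 2)) : ℂ)‖ₑ ^ q ≤
      ENNReal.ofReal V ^ (q - 1) * (ENNReal.ofReal (2 ^ q * (B * (3 / |κ|) ^ a) ^ q) *
        ∑ b ∈ T, we (j - b) * (∑ k ∈ Sb b, ‖c k‖ₑ ^ 2) ^ (q / 2)) := by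
    intro j
    have hpt : ∀ v : ℝ,
        ‖∑ k ∈ S, c k * ek k (-v) * (Real.exp (-(α * (v - κ * k) ^ 2)) : ℂ)‖ₑ ^ q ≤
        ENNReal.ofReal V ^ (q - 1) * ∑ b ∈ T, we (j - b) ^ (1 - q) *
          ‖∑ k ∈ Sb b, c k * ek k (-v) * (Real.exp (-(α * (v - κ * k) ^ 2)) : ℂ)‖ₑ ^ q := by
      intro v
      rw [hdec v]
      refine le_trans (ENNReal.rpow_le_rpow (enorm_sum_le T _) hq0.le) ?_
      exact jensen q hq1 T (fun b => we (j - b)) _ (fun b => we_ne_zero _)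
        (fun b => we_ne_top _) _ (hV2 j T)
    calc ∫⁻ v in Icc (j : ℝ) (j + 1),
          ‖∑ k ∈ S, c k * ek k (-v) * (Real.exp (-(α * (v - κ * k) ^ 2)) : ℂ)‖ₑ ^ q
        ≤ ∫⁻ v in Icc (j : ℝ) (j + 1), ENNReal.ofReal V ^ (q - 1) *
          ∑ b ∈ T, we (j - b) ^ (1 - q) *
          ‖∑ k ∈ Sb b, c k * ek k (-v) * (Real.exp (-(α * (v - κ * k) ^ 2)) : ℂ)‖ₑ ^ q :=
          lintegral_mono fun v => hpt v
      _ = ENNReal.ofReal V ^ (q - 1) * ∑ b ∈ T, we (j - b) ^ (1 - q) *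
          ∫⁻ v in Icc (j : ℝ) (j + 1),
          ‖∑ k ∈ Sb b, c k * ek k (-v) * (Real.exp (-(α * (v - κ * k) ^ 2)) : ℂ)‖ₑ ^ q := by
          rw [lintegral_const_mul]
          · congr 1
            rw [lintegral_finsetSum]
            · refine Finset.sum_congr rfl fun b _ => ?_
              rw [lintegral_const_mul]
              exact meas_block q κ α (Sb b) c
            · intro b _
              exact (meas_block q κ α (Sb b) c).const_mul _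
          · refine Finset.measurable_fun_sum T fun b _ => ?_
            exact (meas_block q κ α (Sb b) c).const_mul _
      _ ≤ ENNReal.ofReal V ^ (q - 1) * ∑ b ∈ T,
          ENNReal.ofReal (2 ^ q * (B * (3 / |κ|) ^ a) ^ q) *
            (we (j - b) * (∑ k ∈ Sb b, ‖c k‖ₑ ^ 2) ^ (q / 2)) := by
          refine mul_le_mul' le_rfl (Finset.sum_le_sum fun b _ => ?_)
          apply one_block hB q a B κ α L hLam hq1 ha hB0 hα hα2 hκ hκ2 (Sb b) ?_ b ?_ c j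
          · intro k hk
            rw [hSb] at hk
            exact hS k (Finset.mem_filter.mp hk).1
          · intro k hk
            rw [hSb] at hk
            exact (Finset.mem_filter.mp hk).2
      _ = ENNReal.ofReal V ^ (q - 1) * (ENNReal.ofReal (2 ^ q * (B * (3 / |κ|) ^ a) ^ q) *
          ∑ b ∈ T, we (j - b) * (∑ k ∈ Sb b, ‖c k‖ₑ ^ 2) ^ (q / 2)) := by
          congr 1
          rw [Finset.mul_sum]
  -- all intervals
  have hcover : (⋃ j : ℤ, Icc (j : ℝ) (j + 1)) = univ := by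
    refine eq_univ_of_forall fun v => ?_
    rw [mem_iUnion]
    exact ⟨⌊v⌋, Int.floor_le v, (Int.lt_floor_add_one v).le⟩
  have hVt : ENNReal.ofReal V ≠ ∞ := ENNReal.ofReal_ne_top
  have hV00 : ENNReal.ofReal V ≠ 0 := (ENNReal.ofReal_pos.mpr hV0).ne'
  calc ∫⁻ v, ‖∑ k ∈ S, c k * ek k (-v) * (Real.exp (-(α * (v - κ * k) ^ 2)) : ℂ)‖ₑ ^ q
      = ∫⁻ v in ⋃ j : ℤ, Icc (j : ℝ) (j + 1),
        ‖∑ k ∈ S, c k * ek k (-v) * (Real.exp (-(α * (v - κ * k) ^ 2)) : ℂ)‖ₑ ^ q := by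
        rw [hcover, Measure.restrict_univ]
    _ ≤ ∑' j : ℤ, ∫⁻ v in Icc (j : ℝ) (j + 1),
        ‖∑ k ∈ S, c k * ek k (-v) * (Real.exp (-(α * (v - κ * k) ^ 2)) : ℂ)‖ₑ ^ q :=
        lintegral_iUnion_le _ _
    _ ≤ ∑' j : ℤ, ENNReal.ofReal V ^ (q - 1) *
        (ENNReal.ofReal (2 ^ q * (B * (3 / |κ|) ^ a) ^ q) *
          ∑ b ∈ T, we (j - b) * (∑ k ∈ Sb b, ‖c k‖ₑ ^ 2) ^ (q / 2)) :=
        ENNReal.tsum_le_tsum hint
    _ = ENNReal.ofReal V ^ (q - 1) * (ENNReal.ofReal (2 ^ q * (B * (3 / |κ|) ^ a) ^ q) *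
          ∑ b ∈ T, (∑' j : ℤ, we (j - b)) * (∑ k ∈ Sb b, ‖c k‖ₑ ^ 2) ^ (q / 2)) := by
        rw [ENNReal.tsum_mul_left, ENNReal.tsum_mul_left,
          Summable.tsum_finsetSum (fun b _ => ENNReal.summable)]
        congr 2
        exact Finset.sum_congr rfl fun b _ => ENNReal.tsum_mul_right
    _ ≤ ENNReal.ofReal V ^ (q - 1) * (ENNReal.ofReal (2 ^ q * (B * (3 / |κ|) ^ a) ^ q) *
          ∑ b ∈ T, ENNReal.ofReal V * (∑ k ∈ Sb b, ‖c k‖ₑ ^ 2) ^ (q / 2)) := by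
        gcongr with b hb
        exact hV1 b
    _ = (ENNReal.ofReal V ^ (q - 1) * ENNReal.ofReal V) *
          ENNReal.ofReal (2 ^ q * (B * (3 / |κ|) ^ a) ^ q) *
          ∑ b ∈ T, (∑ k ∈ Sb b, ‖c k‖ₑ ^ 2) ^ (q / 2) := by
        rw [← Finset.mul_sum]
        ring
    _ ≤ (ENNReal.ofReal V ^ (q - 1) * ENNReal.ofReal V) *
          ENNReal.ofReal (2 ^ q * (B * (3 / |κ|) ^ a) ^ q) *
          (∑ k ∈ S, ‖c k‖ₑ ^ 2) ^ (q / 2) := by
        gcongr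
        rw [← hdec2]
        exact sum_rpow_le (q / 2) (by linarith) T _
    _ = ENNReal.ofReal (2 ^ q * V ^ q * (B * (3 / |κ|) ^ a) ^ q) *
          (∑ k ∈ S, ‖c k‖ₑ ^ 2) ^ (q / 2) := by
        congr 1
        have h1 : ENNReal.ofReal V ^ (q - 1) * ENNReal.ofReal V = ENNReal.ofReal (V ^ q) := by
          rw [← ENNReal.ofReal_rpow_of_nonneg hV0.le hq0.le]
          nth_rewrite 2 [← ENNReal.rpow_one (ENNReal.ofReal V)]
          rw [← ENNReal.rpow_add _ _ hV00 hVt, sub_add_cancel]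
        rw [h1, ← ENNReal.ofReal_mul (by positivity)]
        congr 1
        ring

end Pool.Agent.H243.RL
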