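import Pool.Agent.H243.RL.Stmt
set_option autoImplicit false

/-! Plancherel in time for the square -/

open MeasureTheory Set
open scoped ENNReal

namespace Pool.Agent.H243.RL

namespace TIME

/-- the oscillating factor -/
noncomputable def os (t u : ℝ) : ℂ := Complex.exp (-((2 * t * u ^ 2 : ℝ) : ℂ) * Complex.I)

theorem norm_e (r : ℝ) : ‖Complex.exp (-((r : ℝ) : ℂ) * Complex.I)‖ = 1 := by
  have h := Complex.norm_exp_ofReal_mul_I (-r)
  rw [Complex.ofReal_neg] at h
  exact h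

theorem norm_os (t u : ℝ) : ‖os t u‖ = 1 := norm_e _

theorem cont_os (t : ℝ) : Continuous (os t) := by
  unfold os
  fun_prop

/-- the weighted square integral -/
noncomputable def Phi (T : ℝ) (G : ℝ → ℂ) : ℝ≥0∞ :=
  ∫⁻ u, ENNReal.ofReal ((|u| + 1 / T)⁻¹) * ‖G u‖ₑ ^ 2

theorem enorm_sq (z : ℂ) : ‖z‖ₑ ^ 2 = ENNReal.ofReal (‖z‖ ^ 2) := by
  rw [← ofReal_norm, ENNReal.ofReal_pow (norm_nonneg z)]

theorem bdd_int {h : ℝ → ℂ} (hm : Measurable h) {B a b : ℝ} (hB : ∀ v, ‖h v‖ ≤ B)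
    (hs : ∀ v, v ∉ Icc a b → h v = 0) : Integrable h ∧ MemLp h 2 := by
  have h1 : (Icc a b).indicator h = h := by
    funext v
    by_cases hv : v ∈ Icc a b
    · rw [indicator_of_mem hv]
    · rw [indicator_of_notMem hv, hs v hv]
  have hf : IsFiniteMeasure (volume.restrict (Icc a b)) := by
    refine ⟨?_⟩
    rw [Measure.restrict_apply_univ, Real.volume_Icc]
    exact ENNReal.ofReal_lt_top
  constructor
  · rw [← h1, integrable_indicator_iff measurableSet_Icc]
    exact Integrable.of_bound hm.aestronglyMeasurable B (Filter.Eventually.of_forall hB)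
  · rw [← h1, memLp_indicator_iff_restrict measurableSet_Icc]
    exact MemLp.of_bound hm.aestronglyMeasurable B (Filter.Eventually.of_forall hB)

theorem image_sq {c : ℝ} (hc : 0 < c) :
    (fun u : ℝ => 2 * u ^ 2) '' Ici c = Ici (2 * c ^ 2) := by
  ext v
  simp only [mem_image, mem_Ici]
  constructor
  · rintro ⟨u, hu, rfl⟩
    have : c ^ 2 ≤ u ^ 2 := by gcongr
    linarith
  · intro hv
    have hv2 : c ^ 2 ≤ v / 2 := by linarith
    refine ⟨Real.sqrt (v / 2), ?_, ?_⟩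
    · exact Real.le_sqrt_of_sq_le hv2
    · have h0 : 0 ≤ v / 2 := le_trans (by positivity) hv2
      rw [Real.sq_sqrt h0]
      ring

theorem inj_sq {c : ℝ} (hc : 0 < c) : InjOn (fun u : ℝ => 2 * u ^ 2) (Ici c) := by
  intro u hu v hv huv
  have hu0 : 0 ≤ u := hc.le.trans hu
  have hv0 : 0 ≤ v := hc.le.trans hv
  have h1 : u ^ 2 = v ^ 2 := by
    have : 2 * u ^ 2 = 2 * v ^ 2 := huv
    linarith
  exact (pow_left_inj₀ hu0 hv0 two_ne_zero).1 h1

theorem deriv_sq (c x : ℝ) : HasDerivWithinAt (fun u : ℝ => 2 * u ^ 2) (4 * x) (Ici c) x := by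
  have h1 := ((hasDerivAt_pow 2 x).const_mul 2).hasDerivWithinAt (s := Ici c)
  have h2 : (2 : ℝ) * (((2 : ℕ) : ℝ) * x ^ (2 - 1)) = 4 * x := by
    norm_num
    ring
  rw [h2] at h1
  exact h1

/-- the function of `v = 2 u²` -/
noncomputable def g0 (G : ℝ → ℂ) (v : ℝ) : ℂ :=
  G (Real.sqrt (v / 2)) * (((4 * Real.sqrt (v / 2))⁻¹ : ℝ) : ℂ)

theorem g0_sq (G : ℝ → ℂ) {u : ℝ} (hu : 0 ≤ u) :
    g0 G (2 * u ^ 2) = G u * (((4 * u)⁻¹ : ℝ) : ℂ) := by
  have h : Real.sqrt (2 * u ^ 2 / 2) = u := by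
    rw [mul_div_cancel_left₀ _ (two_ne_zero), Real.sqrt_sq hu]
  unfold g0
  rw [h]

theorem part2 (hPL : S_PL) {T : ℝ} (hT : 1 ≤ T) {G : ℝ → ℂ} (hG : Measurable G) {B : ℝ}
    (hB : ∀ u, ‖G u‖ ≤ B) (hs : ∀ u, u ∉ Icc (-1 : ℝ) 1 → G u = 0) :
    ∫⁻ t : ℝ, ‖∫ u in Ici (1 / T), G u * os t u‖ₑ ^ 2 ≤ ENNReal.ofReal Real.pi * Phi T G := by
  obtain ⟨c, hc⟩ : ∃ c, c = 1 / T := ⟨_, rfl⟩
  have hc0 : 0 < c := by
    rw [hc]
    positivity
  have hB0 : 0 ≤ B := (norm_nonneg _).trans (hB 0)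
  rw [← hc]
  have hSm : MeasurableSet (Ici (2 * c ^ 2)) := measurableSet_Ici
  have hg0m : Measurable (g0 G) := by
    unfold g0
    refine (hG.comp (by fun_prop)).mul ?_
    exact Complex.measurable_ofReal.comp (by fun_prop)
  obtain ⟨h, hh⟩ : ∃ h : ℝ → ℂ, h = (Ici (2 * c ^ 2)).indicator (g0 G) := ⟨_, rfl⟩
  have hhm : Measurable h := by
    rw [hh]
    exact hg0m.indicator hSm
  have hhB : ∀ v, ‖h v‖ ≤ B * (4 * c)⁻¹ := by
    intro v
    rw [hh]
    by_cases hv : v ∈ Ici (2 * c ^ 2)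
    · rw [indicator_of_mem hv]
      unfold g0
      rw [norm_mul, Complex.norm_real, Real.norm_eq_abs, abs_of_nonneg (by positivity)]
      have h1 : c ≤ Real.sqrt (v / 2) := by
        refine Real.le_sqrt_of_sq_le ?_
        have : 2 * c ^ 2 ≤ v := hv
        linarith
      refine mul_le_mul (hB _) ?_ (by positivity) hB0
      exact inv_anti₀ (by positivity) (by linarith)
    · rw [indicator_of_notMem hv, norm_zero]
      positivity
  have hhs : ∀ v, v ∉ Icc (0 : ℝ) 2 → h v = 0 := by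
    intro v hv
    rw [hh]
    by_cases hv2 : v ∈ Ici (2 * c ^ 2)
    · rw [indicator_of_mem hv2]
      have h1 : 2 * c ^ 2 ≤ v := hv2
      have h2 : 2 < v := by
        by_contra h3
        rw [not_lt] at h3
        exact hv ⟨le_trans (by positivity) h1, h3⟩
      have h4 : 1 < Real.sqrt (v / 2) := by
        rw [Real.lt_sqrt (by norm_num)]
        linarith
      unfold g0
      rw [hs _ (fun h5 => absurd h5.2 (not_le_of_gt h4)), zero_mul]
    · rw [indicator_of_notMem hv2]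
  obtain ⟨hi, hi2⟩ := bdd_int hhm hhB hhs
  have hP := hPL h hi hi2
  -- the left side
  have hL : ∀ t : ℝ, ∫ v, Complex.exp (-((t * v : ℝ) : ℂ) * Complex.I) * h v =
      ∫ u in Ici c, G u * os t u := by
    intro t
    have h1 : (fun v => Complex.exp (-((t * v : ℝ) : ℂ) * Complex.I) * h v) =
        (Ici (2 * c ^ 2)).indicator
          (fun v => Complex.exp (-((t * v : ℝ) : ℂ) * Complex.I) * g0 G v) := by
      funext v
      rw [hh]
      by_cases hv : v ∈ Ici (2 * c ^ 2)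
      · rw [indicator_of_mem hv, indicator_of_mem hv]
      · rw [indicator_of_notMem hv, indicator_of_notMem hv, mul_zero]
    rw [h1, integral_indicator hSm, ← image_sq hc0,
      integral_image_eq_integral_abs_deriv_smul measurableSet_Ici (fun x _ => deriv_sq c x)
        (inj_sq hc0)]
    refine setIntegral_congr_fun measurableSet_Ici fun u hu => ?_
    have hu0 : 0 < u := hc0.trans_le hu
    rw [g0_sq G hu0.le, abs_of_pos (by positivity : (0 : ℝ) < 4 * u), Complex.real_smul]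
    unfold os
    have h2 : (t * (2 * u ^ 2) : ℝ) = 2 * t * u ^ 2 := by ring
    rw [h2]
    have h3 : ((4 * u : ℝ) : ℂ) * (((4 * u)⁻¹ : ℝ) : ℂ) = 1 := by
      rw [← Complex.ofReal_mul, mul_inv_cancel₀ (by positivity), Complex.ofReal_one]
    calc ((4 * u : ℝ) : ℂ) * (Complex.exp (-((2 * t * u ^ 2 : ℝ) : ℂ) * Complex.I) *
          (G u * (((4 * u)⁻¹ : ℝ) : ℂ))) =
        (((4 * u : ℝ) : ℂ) * (((4 * u)⁻¹ : ℝ) : ℂ)) *
          (G u * Complex.exp (-((2 * t * u ^ 2 : ℝ) : ℂ) * Complex.I)) := by ring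
      _ = _ := by rw [h3, one_mul]
  -- the right side
  have hR : ∫⁻ v, ‖h v‖ₑ ^ 2 ≤ ENNReal.ofReal (1 / 2) * Phi T G := by
    have h1 : (fun v => ‖h v‖ₑ ^ 2) = (Ici (2 * c ^ 2)).indicator (fun v => ‖g0 G v‖ₑ ^ 2) := by
      funext v
      rw [hh]
      by_cases hv : v ∈ Ici (2 * c ^ 2)
      · rw [indicator_of_mem hv, indicator_of_mem hv]
      · rw [indicator_of_notMem hv, indicator_of_notMem hv, enorm_zero,
          zero_pow two_ne_zero]
    rw [h1, lintegral_indicator hSm, ← image_sq hc0,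
      lintegral_image_eq_lintegral_abs_deriv_mul measurableSet_Ici (fun x _ => deriv_sq c x)
        (inj_sq hc0)]
    have hmeas : Measurable fun u : ℝ => ENNReal.ofReal ((|u| + 1 / T)⁻¹) * ‖G u‖ₑ ^ 2 := by
      refine Measurable.mul ?_ (hG.enorm.pow_const 2)
      exact ENNReal.measurable_ofReal.comp (by fun_prop)
    unfold Phi
    rw [← lintegral_const_mul _ hmeas]
    refine (setLIntegral_mono (hmeas.const_mul _) fun u hu => ?_).trans
      (setLIntegral_le_lintegral _ _)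
    have hu0 : 0 < u := hc0.trans_le hu
    have huc : c ≤ u := hu
    rw [g0_sq G hu0.le, enorm_sq, enorm_sq, ← ENNReal.ofReal_mul (abs_nonneg _),
      ← ENNReal.ofReal_mul (by positivity), ← ENNReal.ofReal_mul (by norm_num)]
    refine ENNReal.ofReal_le_ofReal ?_
    rw [norm_mul, Complex.norm_real, Real.norm_eq_abs, abs_of_pos (by positivity : (0 : ℝ) < 4 * u),
      abs_of_pos (by positivity : (0 : ℝ) < (4 * u)⁻¹), abs_of_pos hu0, ← hc]
    have h2 : 4 * u * (‖G u‖ * (4 * u)⁻¹) ^ 2 = (4 * u)⁻¹ * ‖G u‖ ^ 2 := by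
      field_simp
    rw [h2, ← mul_assoc]
    refine mul_le_mul_of_nonneg_right ?_ (by positivity)
    have h3 : (2 * u)⁻¹ ≤ (u + c)⁻¹ := inv_anti₀ (by positivity) (by linarith)
    have h4 : (4 * u)⁻¹ = 1 / 2 * (2 * u)⁻¹ := by
      field_simp
      norm_num
    rw [h4]
    exact mul_le_mul_of_nonneg_left h3 (by norm_num)
  have hL2 : ∫⁻ t : ℝ, ‖∫ u in Ici c, G u * os t u‖ₑ ^ 2 =
      ENNReal.ofReal (2 * Real.pi) * ∫⁻ v, ‖h v‖ₑ ^ 2 := by
    rw [← hP]
    refine lintegral_congr fun t => ?_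
    rw [← hL t]
  rw [hL2]
  refine (mul_le_mul_right hR _).trans (le_of_eq ?_)
  rw [← mul_assoc, ← ENNReal.ofReal_mul (by positivity)]
  congr 2
  ring

theorem cs {f : ℝ → ℝ≥0∞} (hf : Measurable f) (s : Set ℝ) :
    (∫⁻ u in s, f u) ^ 2 ≤ volume s * ∫⁻ u in s, f u ^ 2 := by
  have h := ENNReal.lintegral_mul_le_Lp_mul_Lq (volume.restrict s) Real.HolderConjugate.two_two
    (f := f) (g := fun _ => 1) hf.aemeasurable aemeasurable_const
  simp only [Pi.mul_apply, mul_one, ENNReal.one_rpow, lintegral_one, Measure.restrict_apply_univ]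
    at h
  have h2 := pow_le_pow_left' h 2
  refine h2.trans (le_of_eq ?_)
  rw [mul_pow, ← ENNReal.rpow_natCast, ← ENNReal.rpow_natCast, ← ENNReal.rpow_mul,
    ← ENNReal.rpow_mul]
  norm_num
  rw [mul_comm]

theorem part1 {T : ℝ} (hT : 1 ≤ T) {G : ℝ → ℂ} (hG : Measurable G) (t : ℝ) :
    ‖∫ u in Ioo (-(1 / T)) (1 / T), G u * os t u‖ₑ ^ 2 ≤
      ENNReal.ofReal (4 / T ^ 2) * Phi T G := by
  have hT0 : 0 < T := by linarith
  have h1 : ‖∫ u in Ioo (-(1 / T)) (1 / T), G u * os t u‖ₑ ≤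
      ∫⁻ u in Ioo (-(1 / T)) (1 / T), ‖G u‖ₑ := by
    refine (enorm_integral_le_lintegral_enorm _).trans (le_of_eq ?_)
    refine lintegral_congr fun u => ?_
    rw [enorm_mul, ← ofReal_norm (os t u), norm_os, ENNReal.ofReal_one, mul_one]
  refine (pow_le_pow_left' h1 2).trans ((cs hG.enorm _).trans ?_)
  rw [Real.volume_Ioo]
  have hmeas : Measurable fun u : ℝ => ENNReal.ofReal ((|u| + 1 / T)⁻¹) * ‖G u‖ₑ ^ 2 := by
    refine Measurable.mul ?_ (hG.enorm.pow_const 2)
    exact ENNReal.measurable_ofReal.comp (by fun_prop)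
  have h2 : ∫⁻ u in Ioo (-(1 / T)) (1 / T), ‖G u‖ₑ ^ 2 ≤ ENNReal.ofReal (2 / T) * Phi T G := by
    unfold Phi
    rw [← lintegral_const_mul _ hmeas]
    refine (setLIntegral_mono (hmeas.const_mul _) fun u hu => ?_).trans
      (setLIntegral_le_lintegral _ _)
    have hu1 : |u| < 1 / T := abs_lt.2 hu
    rw [enorm_sq, ← ENNReal.ofReal_mul (by positivity), ← ENNReal.ofReal_mul (by positivity)]
    refine ENNReal.ofReal_le_ofReal ?_
    have h3 : 0 < |u| + 1 / T := by positivity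
    have h4 : 1 ≤ 2 / T * (|u| + 1 / T)⁻¹ := by
      rw [← div_eq_mul_inv, le_div_iff₀ h3, one_mul]
      have : 2 / T = 1 / T + 1 / T := by ring
      linarith
    calc ‖G u‖ ^ 2 = 1 * ‖G u‖ ^ 2 := (one_mul _).symm
      _ ≤ (2 / T * (|u| + 1 / T)⁻¹) * ‖G u‖ ^ 2 := mul_le_mul_of_nonneg_right h4 (by positivity)
      _ = _ := by ring
  refine (mul_le_mul_right h2 _).trans (le_of_eq ?_)
  rw [← mul_assoc, ← ENNReal.ofReal_mul (by
    have : 0 < 1 / T := by positivity
    linarith)]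
  congr 2
  field_simp
  norm_num

theorem phi_neg (T : ℝ) (G : ℝ → ℂ) : Phi T (fun u => G (-u)) = Phi T G := by
  unfold Phi
  rw [← lintegral_neg_eq_self]
  refine lintegral_congr fun u => ?_
  simp only [neg_neg, abs_neg]

theorem three (a b c : ℂ) : ‖a + b + c‖ₑ ^ 2 ≤
    ENNReal.ofReal 3 * (‖a‖ₑ ^ 2 + ‖b‖ₑ ^ 2 + ‖c‖ₑ ^ 2) := by
  rw [enorm_sq, enorm_sq, enorm_sq, enorm_sq, ← ENNReal.ofReal_add (by positivity) (by positivity),
    ← ENNReal.ofReal_add (by positivity) (by positivity), ← ENNReal.ofReal_mul (by norm_num)]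
  refine ENNReal.ofReal_le_ofReal ?_
  have h1 : ‖a + b + c‖ ≤ ‖a‖ + ‖b‖ + ‖c‖ := norm_add₃_le
  have h2 : ‖a + b + c‖ ^ 2 ≤ (‖a‖ + ‖b‖ + ‖c‖) ^ 2 := by gcongr
  nlinarith [sq_nonneg (‖a‖ - ‖b‖), sq_nonneg (‖a‖ - ‖c‖), sq_nonneg (‖b‖ - ‖c‖)]

end TIME

open TIME in
theorem t_TIME (hPL : S_PL) : S_TIME := by
  refine ⟨3 * (8 + Real.pi + Real.pi), by positivity, fun T hT G hG ⟨B, hB⟩ hs => ?_⟩
  have hT0 : 0 < T := by linarith
  have hc0 : 0 < 1 / T := by positivity
  obtain ⟨hGi, -⟩ := bdd_int hG hB hs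
  have hint : ∀ t, Integrable fun u => G u * os t u := by
    intro t
    refine hGi.mul_bdd (c := 1) (cont_os t).aestronglyMeasurable
      (Filter.Eventually.of_forall fun u => ?_)
    exact (norm_os t u).le
  have hsplit : ∀ t, ∫ u, G u * os t u =
      (∫ u in Ioo (-(1 / T)) (1 / T), G u * os t u) + (∫ u in Ici (1 / T), G u * os t u) +
        ∫ u in Ici (1 / T), G (-u) * os t u := by
    intro t
    have h1 := integral_add_compl (measurableSet_Ici (a := 1 / T)) (hint t)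
    have h2 : (Ici (1 / T))ᶜ = Iic (-(1 / T)) ∪ Ioo (-(1 / T)) (1 / T) := by
      ext u
      simp only [mem_compl_iff, mem_Ici, not_le, mem_union, mem_Iic, mem_Ioo]
      constructor
      · intro h
        rcases le_or_gt u (-(1 / T)) with h3 | h3
        · exact Or.inl h3
        · exact Or.inr ⟨h3, h⟩
      · rintro (h | h)
        · linarith
        · exact h.2
    have h3 : Disjoint (Iic (-(1 / T))) (Ioo (-(1 / T)) (1 / T)) := by
      rw [Set.disjoint_left]
      intro u hu hu2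
      exact absurd hu2.1 (not_lt_of_ge hu)
    rw [h2, setIntegral_union h3 measurableSet_Ioo (hint t).integrableOn (hint t).integrableOn]
      at h1
    have h4 : ∫ u in Ici (1 / T), G (-u) * os t u = ∫ u in Iic (-(1 / T)), G u * os t u := by
      rw [integral_Ici_eq_integral_Ioi, ← integral_comp_neg_Ioi]
      refine setIntegral_congr_fun measurableSet_Ioi fun u _ => ?_
      unfold os
      rw [neg_sq]
    rw [h4, ← h1]
    ring
  have hp2 := part2 hPL hT hG hB hs
  have hp3 := part2 hPL hT (G := fun u => G (-u)) (hG.comp measurable_neg) (fun u => hB (-u))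
    (fun u hu => hs (-u) (fun h => hu ⟨by linarith [h.2], by linarith [h.1]⟩))
  rw [phi_neg] at hp3
  have hm : ∀ G' : ℝ → ℂ, Measurable G' →
      Measurable fun t : ℝ => ‖∫ u in Ici (1 / T), G' u * os t u‖ₑ ^ 2 := by
    intro G' hG'
    refine Measurable.pow_const (Measurable.enorm ?_) 2
    refine StronglyMeasurable.measurable ?_
    refine StronglyMeasurable.integral_prod_right (f := fun (t : ℝ) (u : ℝ) => G' u * os t u) ?_
    refine Measurable.stronglyMeasurable ?_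
    refine (hG'.comp measurable_snd).mul ?_
    have : Continuous fun p : ℝ × ℝ => os p.1 p.2 := by
      unfold os
      fun_prop
    exact this.measurable
  have hmain : ∫⁻ t in Icc (-T) T, ‖∫ u, G u * os t u‖ₑ ^ 2 ≤
      ∫⁻ t in Icc (-T) T, ENNReal.ofReal 3 * (ENNReal.ofReal (4 / T ^ 2) * Phi T G +
        ‖∫ u in Ici (1 / T), G u * os t u‖ₑ ^ 2 +
          ‖∫ u in Ici (1 / T), G (-u) * os t u‖ₑ ^ 2) := by
    refine lintegral_mono fun t => ?_
    rw [hsplit t]
    refine (three _ _ _).trans (mul_le_mul_right ?_ _)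
    exact add_le_add_left (add_le_add_left (part1 hT hG t) _) _
  refine hmain.trans ?_
  have hma := hm G hG
  have hmb := hm (fun u => G (-u)) (hG.comp measurable_neg)
  have hmm : Measurable fun t : ℝ => ENNReal.ofReal (4 / T ^ 2) * Phi T G +
      ‖∫ u in Ici (1 / T), G u * os t u‖ₑ ^ 2 + ‖∫ u in Ici (1 / T), G (-u) * os t u‖ₑ ^ 2 :=
    (measurable_const.add hma).add hmb
  rw [lintegral_const_mul _ hmm,
    lintegral_add_right _ hmb, lintegral_add_right _ hma, lintegral_const,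
    Measure.restrict_apply_univ, Real.volume_Icc]
  have e1 : ENNReal.ofReal (4 / T ^ 2) * Phi T G * ENNReal.ofReal (T - -T) ≤
      ENNReal.ofReal 8 * Phi T G := by
    rw [mul_right_comm, ← ENNReal.ofReal_mul (by positivity)]
    refine mul_le_mul_left (ENNReal.ofReal_le_ofReal ?_) _
    have : 4 / T ^ 2 * (T - -T) = 8 / T := by
      field_simp
      ring
    rw [this, div_le_iff₀ hT0]
    linarith
  have e2 := (setLIntegral_le_lintegral (Icc (-T) T)
    (fun t => ‖∫ u in Ici (1 / T), G u * os t u‖ₑ ^ 2)).trans hp2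
  have e3 := (setLIntegral_le_lintegral (Icc (-T) T)
    (fun t => ‖∫ u in Ici (1 / T), G (-u) * os t u‖ₑ ^ 2)).trans hp3
  refine (mul_le_mul_right (add_le_add (add_le_add e1 e2) e3) _).trans (le_of_eq ?_)
  rw [← add_mul, ← add_mul, ← ENNReal.ofReal_add (by norm_num) (by positivity),
    ← ENNReal.ofReal_add (by positivity) (by positivity), ← mul_assoc,
    ← ENNReal.ofReal_mul (by norm_num)]
  rfl

end Pool.Agent.H243.RL
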