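import Pool.Agent.H243.RL.Stmt
set_option autoImplicit false

/-! The trapezoid. -/

open MeasureTheory Set
open scoped ENNReal FourierTransform Convolution

namespace Pool.Agent.H243.RL

namespace TRAP

/-- a box -/
noncomputable def box (L c : ℝ) : ℝ → ℂ := (Icc (0 : ℝ) L).indicator (fun _ => (c : ℂ))

lemma box_integrable (L c : ℝ) : Integrable (box L c) := by
  unfold box
  rw [integrable_indicator_iff measurableSet_Icc]
  exact integrableOn_const (by simp)

/-- the trapezoid -/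
noncomputable def chi (δ : ℝ) (y : ℝ) : ℝ := max (min δ y - max 0 (y - (1 - δ))) 0 / δ

lemma chi_cont (δ : ℝ) : Continuous (chi δ) := by
  unfold chi
  fun_prop

lemma fourier_box (L c : ℝ) (hL : 0 ≤ L) (w : ℝ) :
    𝓕 (box L c) w = (∫ v in (0 : ℝ)..L, Complex.exp (((-2 * Real.pi * w : ℝ) : ℂ) * Complex.I * v)) * (c : ℂ) := by
  rw [Real.fourier_real_eq_integral_exp_smul]
  have h1 : ∀ v : ℝ, Complex.exp (((-2 * Real.pi * v * w : ℝ) : ℂ) * Complex.I) • box L c v
      = (Icc (0 : ℝ) L).indicator (fun v => Complex.exp (((-2 * Real.pi * w : ℝ) : ℂ) * Complex.I * v) * (c : ℂ)) v := by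
    intro v
    unfold box
    by_cases hv : v ∈ Icc (0 : ℝ) L
    · rw [indicator_of_mem hv, indicator_of_mem hv, smul_eq_mul]
      congr 2
      push_cast
      ring
    · rw [indicator_of_notMem hv, indicator_of_notMem hv, smul_zero]
  simp_rw [h1]
  rw [integral_indicator measurableSet_Icc, integral_Icc_eq_integral_Ioc,
    ← intervalIntegral.integral_of_le hL, intervalIntegral.integral_mul_const]

lemma norm_one (w v : ℝ) : ‖Complex.exp (((-2 * Real.pi * w : ℝ) : ℂ) * Complex.I * v)‖ = 1 := by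
  have : ((-2 * Real.pi * w : ℝ) : ℂ) * Complex.I * v = ((-2 * Real.pi * w * v : ℝ) : ℂ) * Complex.I := by
    push_cast; ring
  rw [this, Complex.norm_exp_ofReal_mul_I]

lemma box_bd1 (L c : ℝ) (hL : 0 ≤ L) (hc : 0 ≤ c) (w : ℝ) : ‖𝓕 (box L c) w‖ ≤ L * c := by
  rw [fourier_box L c hL w, norm_mul, Complex.norm_real, Real.norm_of_nonneg hc]
  apply mul_le_mul_of_nonneg_right _ hc
  have := intervalIntegral.norm_integral_le_of_norm_le_const (a := (0 : ℝ)) (b := L) (C := 1)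
    (f := fun v : ℝ => Complex.exp (((-2 * Real.pi * w : ℝ) : ℂ) * Complex.I * v))
    (fun v _ => (norm_one w v).le)
  rw [one_mul, sub_zero, abs_of_nonneg hL] at this
  exact this

lemma box_bd2 (L c : ℝ) (hL : 0 ≤ L) (hc : 0 ≤ c) (w : ℝ) (hw : w ≠ 0) :
    ‖𝓕 (box L c) w‖ ≤ c / (Real.pi * |w|) := by
  rw [fourier_box L c hL w, norm_mul, Complex.norm_real, Real.norm_of_nonneg hc]
  have hne : ((-2 * Real.pi * w : ℝ) : ℂ) * Complex.I ≠ 0 := by
    apply mul_ne_zero _ Complex.I_ne_zero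
    rw [Complex.ofReal_ne_zero]
    exact mul_ne_zero (mul_ne_zero (by norm_num) Real.pi_ne_zero) hw
  rw [integral_exp_mul_complex hne, norm_div]
  have h1 : ‖((-2 * Real.pi * w : ℝ) : ℂ) * Complex.I‖ = 2 * Real.pi * |w| := by
    rw [norm_mul, Complex.norm_I, mul_one, Complex.norm_real, Real.norm_eq_abs, abs_mul, abs_mul,
      abs_of_pos Real.pi_pos]
    norm_num
  have h2 : ‖Complex.exp (((-2 * Real.pi * w : ℝ) : ℂ) * Complex.I * (L : ℝ)) -
      Complex.exp (((-2 * Real.pi * w : ℝ) : ℂ) * Complex.I * ((0 : ℝ) : ℂ))‖ ≤ 2 := by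
    refine (norm_sub_le _ _).trans ?_
    rw [norm_one, norm_one]
    norm_num
  rw [h1]
  have hpos : 0 < Real.pi * |w| := mul_pos Real.pi_pos (abs_pos.2 hw)
  calc _ ≤ 2 / (2 * Real.pi * |w|) * c := by
        apply mul_le_mul_of_nonneg_right _ hc
        exact div_le_div_of_nonneg_right h2 (by positivity)
    _ = c / (Real.pi * |w|) := by
        field_simp

lemma conv_eq (δ : ℝ) (h0 : 0 < δ) (y : ℝ) :
    (box δ (1 / δ) ⋆[ContinuousLinearMap.lsmul ℂ ℂ, volume] box (1 - δ) 1) y = (chi δ y : ℂ) := by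
  rw [convolution_def]
  have h1 : ∀ t : ℝ, (ContinuousLinearMap.lsmul ℂ ℂ) (box δ (1 / δ) t) (box (1 - δ) 1 (y - t)) =
      (Icc (max 0 (y - (1 - δ))) (min δ y)).indicator (fun _ => ((1 / δ : ℝ) : ℂ)) t := by
    intro t
    simp only [ContinuousLinearMap.lsmul_apply, smul_eq_mul]
    unfold box
    by_cases ht : t ∈ Icc (max 0 (y - (1 - δ))) (min δ y)
    · have h := ht
      rw [mem_Icc, max_le_iff, le_min_iff] at h
      obtain ⟨⟨a1, a2⟩, a3, a4⟩ := h
      have b1 : t ∈ Icc (0 : ℝ) δ := ⟨a1, a3⟩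
      have b2 : y - t ∈ Icc (0 : ℝ) (1 - δ) := ⟨by linarith, by linarith⟩
      rw [indicator_of_mem ht, indicator_of_mem b1, indicator_of_mem b2]
      simp
    · rw [indicator_of_notMem ht]
      by_cases b1 : t ∈ Icc (0 : ℝ) δ
      · have b2 : y - t ∉ Icc (0 : ℝ) (1 - δ) := by
          intro b2
          apply ht
          rw [mem_Icc, max_le_iff, le_min_iff]
          exact ⟨⟨b1.1, by linarith [b2.2]⟩, b1.2, by linarith [b2.1]⟩
        rw [indicator_of_notMem b2, mul_zero]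
      · rw [indicator_of_notMem b1, zero_mul]
  simp_rw [h1]
  rw [integral_indicator_const _ measurableSet_Icc, Real.volume_real_Icc, chi]
  rw [Complex.real_smul]
  push_cast
  ring

lemma chi_conv (δ : ℝ) (h0 : 0 < δ) :
    (box δ (1 / δ) ⋆[ContinuousLinearMap.lsmul ℂ ℂ, volume] box (1 - δ) 1) = fun y => (chi δ y : ℂ) :=
  funext (conv_eq δ h0)

lemma fourier_chi (δ : ℝ) (h0 : 0 < δ) (w : ℝ) :
    𝓕 (fun y => (chi δ y : ℂ)) w = 𝓕 (box δ (1 / δ)) w * 𝓕 (box (1 - δ) 1) w := by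
  rw [← chi_conv δ h0]
  have := Real.fourier_smul_convolution_eq (box_integrable δ (1 / δ)) (box_integrable (1 - δ) 1) w
  rw [this, smul_eq_mul]

lemma chi_integrable (δ : ℝ) (h0 : 0 < δ) : Integrable (fun y => (chi δ y : ℂ)) := by
  rw [← chi_conv δ h0]
  exact (box_integrable δ (1 / δ)).integrable_convolution _ (box_integrable (1 - δ) 1)

/-- the transform -/
noncomputable def nu (δ : ℝ) (s : ℝ) : ℂ :=
  ((1 / (2 * Real.pi) : ℝ) : ℂ) * 𝓕 (fun y => (chi δ y : ℂ)) (s / (2 * Real.pi))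

lemma nu_bd0 (δ : ℝ) (h0 : 0 < δ) (h1 : δ < 1 / 2) (s : ℝ) : ‖nu δ s‖ ≤ 1 := by
  unfold nu
  rw [fourier_chi δ h0, norm_mul, norm_mul, Complex.norm_real, Real.norm_of_nonneg (by positivity)]
  have a1 := box_bd1 δ (1 / δ) h0.le (by positivity) (s / (2 * Real.pi))
  have a2 := box_bd1 (1 - δ) 1 (by linarith) (by norm_num) (s / (2 * Real.pi))
  rw [mul_one_div_cancel h0.ne'] at a1
  have a3 : 1 / (2 * Real.pi) ≤ 1 := by
    rw [div_le_one (by positivity)]
    linarith [Real.pi_gt_three]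
  have a4 : ‖𝓕 (box (1 - δ) 1) (s / (2 * Real.pi))‖ ≤ 1 := by linarith
  calc 1 / (2 * Real.pi) * (‖𝓕 (box δ (1 / δ)) (s / (2 * Real.pi))‖ *
        ‖𝓕 (box (1 - δ) 1) (s / (2 * Real.pi))‖) ≤ 1 * (1 * 1) := by gcongr
    _ = 1 := by norm_num

lemma nu_bd1 (δ : ℝ) (h0 : 0 < δ) (h1 : δ < 1 / 2) (s : ℝ) (hs : s ≠ 0) : ‖nu δ s‖ ≤ 1 / |s| := by
  unfold nu
  rw [fourier_chi δ h0, norm_mul, norm_mul, Complex.norm_real, Real.norm_of_nonneg (by positivity)]
  have hs' : s / (2 * Real.pi) ≠ 0 := div_ne_zero hs (by positivity)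
  have a1 := box_bd1 δ (1 / δ) h0.le (by positivity) (s / (2 * Real.pi))
  have a2 := box_bd2 (1 - δ) 1 (by linarith) (by norm_num) (s / (2 * Real.pi)) hs'
  rw [mul_one_div_cancel h0.ne'] at a1
  have hp : 0 < |s| := abs_pos.2 hs
  have e : |s / (2 * Real.pi)| = |s| / (2 * Real.pi) := by
    rw [abs_div, abs_of_pos (by positivity : (0 : ℝ) < 2 * Real.pi)]
  rw [e] at a2
  calc _ ≤ 1 / (2 * Real.pi) * (1 * (1 / (Real.pi * (|s| / (2 * Real.pi))))) := by gcongr
    _ = 1 / Real.pi * (1 / |s|) := by field_simp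
    _ ≤ 1 * (1 / |s|) := by
        gcongr
        rw [div_le_one Real.pi_pos]
        linarith [Real.pi_gt_three]
    _ = 1 / |s| := one_mul _

lemma nu_bd2 (δ : ℝ) (h0 : 0 < δ) (h1 : δ < 1 / 2) (s : ℝ) (hs : s ≠ 0) :
    ‖nu δ s‖ ≤ 1 / δ * (1 / |s| ^ 2) := by
  unfold nu
  rw [fourier_chi δ h0, norm_mul, norm_mul, Complex.norm_real, Real.norm_of_nonneg (by positivity)]
  have hs' : s / (2 * Real.pi) ≠ 0 := div_ne_zero hs (by positivity)
  have a1 := box_bd2 δ (1 / δ) h0.le (by positivity) (s / (2 * Real.pi)) hs'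
  have a2 := box_bd2 (1 - δ) 1 (by linarith) (by norm_num) (s / (2 * Real.pi)) hs'
  have hp : 0 < |s| := abs_pos.2 hs
  have e : |s / (2 * Real.pi)| = |s| / (2 * Real.pi) := by
    rw [abs_div, abs_of_pos (by positivity : (0 : ℝ) < 2 * Real.pi)]
  rw [e] at a1 a2
  calc _ ≤ 1 / (2 * Real.pi) * ((1 / δ / (Real.pi * (|s| / (2 * Real.pi)))) *
        (1 / (Real.pi * (|s| / (2 * Real.pi))))) := by gcongr
    _ = 2 / Real.pi * (1 / δ * (1 / |s| ^ 2)) := by field_simp
    _ ≤ 1 * (1 / δ * (1 / |s| ^ 2)) := by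
        gcongr
        rw [div_le_one Real.pi_pos]
        linarith [Real.pi_gt_three]
    _ = 1 / δ * (1 / |s| ^ 2) := one_mul _

lemma half (δ : ℝ) (h0 : 0 < δ) (h1 : δ < 1 / 2) (g : ℝ → ℝ) (g0 : ∀ s, 0 < s → g s ≤ 1)
    (g1 : ∀ s, 0 < s → g s ≤ 1 / s) (g2 : ∀ s, 0 < s → g s ≤ 1 / δ * (1 / s ^ 2)) :
    ∫⁻ s in Ioi (0 : ℝ), ENNReal.ofReal (g s) ≤ ENNReal.ofReal (2 + Real.log (1 / δ)) := by
  have hd : 1 < 1 / δ := by
    rw [lt_div_iff₀ h0]; linarith
  have hlog : 0 ≤ Real.log (1 / δ) := Real.log_nonneg hd.le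
  have hcov : Ioi (0 : ℝ) ⊆ (Ioc 0 1 ∪ Ioc 1 (1 / δ)) ∪ Ioi (1 / δ) := by
    intro s hs
    rcases le_or_gt s 1 with h | h
    · exact Or.inl (Or.inl ⟨hs, h⟩)
    · rcases le_or_gt s (1 / δ) with h' | h'
      · exact Or.inl (Or.inr ⟨h, h'⟩)
      · exact Or.inr h'
  have A : ∫⁻ s in Ioc (0 : ℝ) 1, ENNReal.ofReal (g s) ≤ ENNReal.ofReal 1 := by
    calc _ ≤ ∫⁻ s in Ioc (0 : ℝ) 1, ENNReal.ofReal 1 :=
          setLIntegral_mono' measurableSet_Ioc
            (fun s hs => ENNReal.ofReal_le_ofReal (g0 s hs.1))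
      _ = ENNReal.ofReal 1 := by
          rw [lintegral_const]; simp
  have B : ∫⁻ s in Ioc (1 : ℝ) (1 / δ), ENNReal.ofReal (g s) ≤ ENNReal.ofReal (Real.log (1 / δ)) := by
    have hint : IntegrableOn (fun s : ℝ => 1 / s) (Ioc 1 (1 / δ)) := by
      rw [← intervalIntegrable_iff_integrableOn_Ioc_of_le hd.le]
      apply intervalIntegral.intervalIntegrable_one_div
      · intro x hx
        rw [uIcc_of_le hd.le] at hx
        linarith [hx.1]
      · exact continuousOn_id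
    calc _ ≤ ∫⁻ s in Ioc (1 : ℝ) (1 / δ), ENNReal.ofReal (1 / s) :=
          setLIntegral_mono' measurableSet_Ioc
            (fun s hs => ENNReal.ofReal_le_ofReal (g1 s (by linarith [hs.1])))
      _ = ENNReal.ofReal (∫ s in Ioc (1 : ℝ) (1 / δ), 1 / s) := by
          rw [ofReal_integral_eq_lintegral_ofReal hint]
          filter_upwards [ae_restrict_mem measurableSet_Ioc] with s hs
          have : (0 : ℝ) < s := by linarith [hs.1]
          simp only [Pi.zero_apply]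
          positivity
      _ = ENNReal.ofReal (Real.log (1 / δ)) := by
          rw [← intervalIntegral.integral_of_le hd.le, integral_one_div_of_pos one_pos (by linarith)]
          simp
  have D : ∫⁻ s in Ioi (1 / δ), ENNReal.ofReal (g s) ≤ ENNReal.ofReal 1 := by
    have hpd : 0 < 1 / δ := by positivity
    have hint : IntegrableOn (fun s : ℝ => 1 / δ * s ^ (-2 : ℝ)) (Ioi (1 / δ)) :=
      (integrableOn_Ioi_rpow_of_lt (by norm_num : (-2 : ℝ) < -1) hpd).const_mul _
    calc _ ≤ ∫⁻ s in Ioi (1 / δ), ENNReal.ofReal (1 / δ * s ^ (-2 : ℝ)) := by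
          apply setLIntegral_mono' measurableSet_Ioi
          intro s hs
          have hs0 : (0 : ℝ) < s := hpd.trans hs
          apply ENNReal.ofReal_le_ofReal
          refine (g2 s hs0).trans (le_of_eq ?_)
          rw [Real.rpow_neg hs0.le, Real.rpow_two, one_div (s ^ 2)]
      _ = ENNReal.ofReal (∫ s in Ioi (1 / δ), 1 / δ * s ^ (-2 : ℝ)) := by
          rw [ofReal_integral_eq_lintegral_ofReal hint]
          filter_upwards [ae_restrict_mem measurableSet_Ioi] with s hs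
          have : (0 : ℝ) < s := hpd.trans hs
          simp only [Pi.zero_apply]
          positivity
      _ = ENNReal.ofReal 1 := by
          rw [integral_const_mul, integral_Ioi_rpow_of_lt (by norm_num : (-2 : ℝ) < -1) hpd]
          congr 1
          have : ((-2 : ℝ) + 1) = -1 := by norm_num
          rw [this, Real.rpow_neg_one]
          field_simp
  calc ∫⁻ s in Ioi (0 : ℝ), ENNReal.ofReal (g s)
      ≤ ∫⁻ s in (Ioc 0 1 ∪ Ioc 1 (1 / δ)) ∪ Ioi (1 / δ), ENNReal.ofReal (g s) :=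
        lintegral_mono_set hcov
    _ ≤ (∫⁻ s in (Ioc 0 1 ∪ Ioc 1 (1 / δ)), ENNReal.ofReal (g s)) +
        ∫⁻ s in Ioi (1 / δ), ENNReal.ofReal (g s) := lintegral_union_le _ _ _
    _ ≤ (∫⁻ s in Ioc 0 1, ENNReal.ofReal (g s)) + (∫⁻ s in Ioc 1 (1 / δ), ENNReal.ofReal (g s)) +
        ∫⁻ s in Ioi (1 / δ), ENNReal.ofReal (g s) := by
        gcongr
        exact lintegral_union_le _ _ _
    _ ≤ ENNReal.ofReal 1 + ENNReal.ofReal (Real.log (1 / δ)) + ENNReal.ofReal 1 := by gcongr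
    _ = ENNReal.ofReal (2 + Real.log (1 / δ)) := by
        rw [← ENNReal.ofReal_add (by norm_num) hlog, ← ENNReal.ofReal_add (by linarith) (by norm_num)]
        congr 1
        ring

lemma nu_lint (δ : ℝ) (h0 : 0 < δ) (h1 : δ < 1 / 2) :
    ∫⁻ s, ‖nu δ s‖ₑ ≤ ENNReal.ofReal (4 * (1 + Real.log (1 / δ))) := by
  have hd : 1 < 1 / δ := by
    rw [lt_div_iff₀ h0]; linarith
  have hlog : 0 ≤ Real.log (1 / δ) := Real.log_nonneg hd.le
  have P : ∫⁻ s in Ioi (0 : ℝ), ‖nu δ s‖ₑ ≤ ENNReal.ofReal (2 + Real.log (1 / δ)) := by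
    have := half δ h0 h1 (fun s => ‖nu δ s‖) (fun s _ => nu_bd0 δ h0 h1 s)
      (fun s hs => by
        have := nu_bd1 δ h0 h1 s hs.ne'
        rwa [abs_of_pos hs] at this)
      (fun s hs => by
        have := nu_bd2 δ h0 h1 s hs.ne'
        rwa [abs_of_pos hs] at this)
    simpa only [ofReal_norm] using this
  have N : ∫⁻ s in Iic (0 : ℝ), ‖nu δ s‖ₑ ≤ ENNReal.ofReal (2 + Real.log (1 / δ)) := by
    have h := half δ h0 h1 (fun s => ‖nu δ (-s)‖) (fun s _ => nu_bd0 δ h0 h1 (-s))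
      (fun s hs => by
        have := nu_bd1 δ h0 h1 (-s) (neg_ne_zero.2 hs.ne')
        rwa [abs_neg, abs_of_pos hs] at this)
      (fun s hs => by
        have := nu_bd2 δ h0 h1 (-s) (neg_ne_zero.2 hs.ne')
        rwa [abs_neg, abs_of_pos hs] at this)
    simp only [ofReal_norm] at h
    rw [setLIntegral_congr Ioi_ae_eq_Ici] at h
    have e := (Measure.measurePreserving_neg (volume : Measure ℝ)).setLIntegral_comp_preimage_emb
      (MeasurableEquiv.neg ℝ).measurableEmbedding (fun s => ‖nu δ s‖ₑ) (Iic (0 : ℝ))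
    have e2 : (Neg.neg ⁻¹' (Iic (0 : ℝ))) = Ici (0 : ℝ) := by
      ext x; simp
    have e3 : (fun a : ℝ => -a) ⁻¹' (Iic (0 : ℝ)) = Ici (0 : ℝ) := by
      ext x; simp
    rw [← e]
    first
      | rw [e2]; exact h
      | rw [e3]; exact h
  calc ∫⁻ s, ‖nu δ s‖ₑ = ∫⁻ s in Iic (0 : ℝ) ∪ Ioi 0, ‖nu δ s‖ₑ := by
        rw [Iic_union_Ioi, Measure.restrict_univ]
    _ ≤ _ + _ := lintegral_union_le _ _ _
    _ ≤ ENNReal.ofReal (2 + Real.log (1 / δ)) + ENNReal.ofReal (2 + Real.log (1 / δ)) :=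
        add_le_add N P
    _ = ENNReal.ofReal ((2 + Real.log (1 / δ)) + (2 + Real.log (1 / δ))) := by
        rw [ENNReal.ofReal_add (p := 2 + Real.log (1 / δ)) (q := 2 + Real.log (1 / δ)) (by linarith) (by linarith)]
    _ ≤ ENNReal.ofReal (4 * (1 + Real.log (1 / δ))) := by
        apply ENNReal.ofReal_le_ofReal
        linarith

lemma fourier_chi_cont (δ : ℝ) (h0 : 0 < δ) : Continuous (𝓕 (fun y => (chi δ y : ℂ))) :=
  VectorFourier.fourierIntegral_continuous Real.continuous_fourierChar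
    (by exact continuous_inner) (chi_integrable δ h0)

lemma nu_integrable (δ : ℝ) (h0 : 0 < δ) (h1 : δ < 1 / 2) : Integrable (nu δ) := by
  refine ⟨?_, ?_⟩
  · apply Continuous.aestronglyMeasurable
    unfold nu
    exact continuous_const.mul ((fourier_chi_cont δ h0).comp (by fun_prop))
  · exact (nu_lint δ h0 h1).trans_lt ENNReal.ofReal_lt_top

lemma fourier_integrable (δ : ℝ) (h0 : 0 < δ) (h1 : δ < 1 / 2) :
    Integrable (𝓕 (fun y => (chi δ y : ℂ))) := by
  have h := ((nu_integrable δ h0 h1).comp_mul_left' (R := 2 * Real.pi) (by positivity)).const_mul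
    ((2 * Real.pi : ℝ) : ℂ)
  refine h.congr (Filter.Eventually.of_forall fun w => ?_)
  simp only [nu]
  have hp : (2 * Real.pi) ≠ 0 := by positivity
  rw [mul_div_cancel_left₀ _ hp, ← mul_assoc, ← Complex.ofReal_mul, mul_one_div_cancel hp]
  simp

lemma nu_inv (δ : ℝ) (h0 : 0 < δ) (h1 : δ < 1 / 2) (y : ℝ) :
    ∫ s, Complex.exp (((s * y : ℝ) : ℂ) * Complex.I) * nu δ s = (chi δ y : ℂ) := by
  have hc : Continuous (fun y => (chi δ y : ℂ)) := Complex.continuous_ofReal.comp (chi_cont δ)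
  have h := hc.fourierInv_fourier_eq (chi_integrable δ h0) (fourier_integrable δ h0 h1)
  have h2 := congrFun h y
  rw [Real.fourierInv_eq'] at h2
  rw [← h2]
  have hp : (0 : ℝ) < 2 * Real.pi := by positivity
  set H : ℝ → ℂ := fun v => Complex.exp (((2 * Real.pi * inner ℝ v y : ℝ) : ℂ) * Complex.I) •
    𝓕 (fun y => (chi δ y : ℂ)) v with hH
  have e := MeasureTheory.Measure.integral_comp_div H (2 * Real.pi)
  rw [abs_of_pos hp] at e
  have e1 : ∫ v, H v = ((1 / (2 * Real.pi) : ℝ) : ℂ) * ∫ s, H (s / (2 * Real.pi)) := by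
    rw [e, Complex.real_smul, ← mul_assoc, ← Complex.ofReal_mul, one_div_mul_cancel hp.ne']
    simp
  rw [e1, ← integral_const_mul]
  apply integral_congr_ae
  refine Filter.Eventually.of_forall fun s => ?_
  simp only [nu, hH, smul_eq_mul]
  have e3 : 2 * Real.pi * inner ℝ (s / (2 * Real.pi)) y = s * y := by
    simp only [RCLike.inner_apply, conj_trivial]
    field_simp
  rw [e3]
  ring

end TRAP

open TRAP in
theorem t_TRAP : S_TRAP := by
  refine ⟨4, by norm_num, fun δ h0 h1 => ⟨chi δ, nu δ, (chi_cont δ).measurable, ?_, ?_, ?_,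
    nu_integrable δ h0 h1, nu_lint δ h0 h1, nu_inv δ h0 h1⟩⟩
  · intro y
    unfold chi
    refine ⟨div_nonneg (le_max_right _ _) h0.le, ?_⟩
    rw [div_le_one h0]
    apply max_le _ h0.le
    have := min_le_left δ y
    have := le_max_left 0 (y - (1 - δ))
    linarith
  · intro y hy
    unfold chi
    rw [min_eq_left hy.1, max_eq_left (by linarith [hy.2] : y - (1 - δ) ≤ 0), sub_zero,
      max_eq_left h0.le, div_self h0.ne']
  · intro y hy
    unfold chi
    have : min δ y - max 0 (y - (1 - δ)) ≤ 0 := by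
      rw [sub_nonpos]
      by_cases hy0 : 0 ≤ y
      · have : 1 < y := by
          by_contra hc
          exact hy ⟨hy0, not_lt.1 hc⟩
        refine (min_le_left _ _).trans (le_trans ?_ (le_max_right _ _))
        linarith
      · refine (min_le_right _ _).trans (le_trans ?_ (le_max_left _ _))
        linarith
    rw [max_eq_right this, zero_div]

end Pool.Agent.H243.RL
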