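import Mathlib
import Pool.Agent.H243.RL.PLANAR
import Pool.Agent.H243.RL.TR
import Pool.Agent.H243.RL.FOURFIX
import Pool.Agent.H243.RL.FOUR
import Pool.Agent.H243.RL.MULT
import Pool.Agent.H243.RL.GAUSS
import Pool.Agent.H243.RL.BLK
import Pool.Agent.H243.RL.FIXG
import Pool.Agent.H243.RL.TIME
import Pool.Agent.H243.RL.SCHUR
import Pool.Agent.H243.RL.GINV
import Pool.Agent.H243.RL.TRAP
import Pool.Agent.H243.RL.SUM
import Pool.Agent.H243.RL.DENS
import Pool.Agent.H243.RL.FIX
import Pool.Agent.H243.RL.BASE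
set_option autoImplicit false

open MeasureTheory Set
open scoped ENNReal

namespace Pool.Agent.H243.RL

theorem four : S_FOUR := t_FOUR (t_FOURFIX t_PL) (t_TIME t_PL) t_SCHUR

theorem planar : S_PLANAR := t_PLANAR t_TWO four

theorem fix : S_FIX := t_FIX (t_FIXG t_GAUSS (t_SUM t_BLK) t_DENS) t_TRIV t_MULT t_GINV t_TRAP

theorem base : S_BASE := t_BASE fix planar

end Pool.Agent.H243.RL
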