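import Pool.Agent.H243.RL.Stmt3
set_option autoImplicit false

/-! van der Corput bounds for the quadratic phase -/

open MeasureTheory Set
open scoped ENNReal

namespace Pool.Agent.H243.RL

namespace VDC

theorem norm_ph (x t y : ℝ) : ‖ph x t y‖ = 1 := by
  unfold ph
  have h : -((x * y + t * y ^ 2 : ℝ) : ℂ) * Complex.I =
      ((-(x * y + t * y ^ 2) : ℝ) : ℂ) * Complex.I := by
    rw [Complex.ofReal_neg]
  rw [h]
  exact Complex.norm_exp_ofReal_mul_I _

theorem cont_ph (x t : ℝ) : Continuous (ph x t) := by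
  unfold ph
  fun_prop

theorem ii_ph (x t a b : ℝ) : IntervalIntegrable (ph x t) volume a b :=
  (cont_ph x t).intervalIntegrable a b

theorem deriv_ph (t z : ℝ) :
    HasDerivAt (ph 0 t) (ph 0 t z * (-((2 * t * z : ℝ) : ℂ) * Complex.I)) z := by
  have h1 : HasDerivAt (fun y : ℝ => 0 * y + t * y ^ 2) (2 * t * z) z := by
    have h := ((hasDerivAt_id z).const_mul (0 : ℝ)).add (((hasDerivAt_id z).pow 2).const_mul t)
    refine (h.congr_deriv ?_).congr_of_eventuallyEq ?_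
    · simp only [id]
      push_cast
      ring
    · exact Filter.Eventually.of_forall (fun y => by simp)
  have h2 : HasDerivAt (fun y : ℝ => ((0 * y + t * y ^ 2 : ℝ) : ℂ)) ((2 * t * z : ℝ) : ℂ) z :=
    h1.ofReal_comp
  have h3 := (h2.neg.mul_const Complex.I).cexp
  exact h3

/-- the antiderivative up to the error -/
theorem deriv_G (t z : ℝ) (ht : t ≠ 0) (hz : z ≠ 0) :
    HasDerivAt (fun y : ℝ => ph 0 t y * (Complex.I / ((2 * t : ℝ) : ℂ) * ((y⁻¹ : ℝ) : ℂ)))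
      (ph 0 t z - ph 0 t z * (Complex.I / ((2 * t : ℝ) : ℂ) * (((z ^ 2)⁻¹ : ℝ) : ℂ))) z := by
  have h1 := deriv_ph t z
  have h2 : HasDerivAt (fun y : ℝ => ((y⁻¹ : ℝ) : ℂ)) ((-(z ^ 2)⁻¹ : ℝ) : ℂ) z :=
    (hasDerivAt_inv hz).ofReal_comp
  have h3 := h1.mul (h2.const_mul (Complex.I / ((2 * t : ℝ) : ℂ)))
  refine h3.congr_deriv ?_
  have ht' : ((t : ℝ) : ℂ) ≠ 0 := Complex.ofReal_ne_zero.mpr ht
  have hz' : ((z : ℝ) : ℂ) ≠ 0 := Complex.ofReal_ne_zero.mpr hz
  have hI : Complex.I ^ 2 = -1 := Complex.I_sq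
  push_cast
  field_simp
  linear_combination (-(2 : ℂ) * t * z ^ 2 * ph 0 t z) * hI

theorem core (t A B : ℝ) (ht : t ≠ 0) (hA : 0 < A) (hAB : A ≤ B) :
    ‖∫ z in A..B, ph 0 t z‖ ≤ 1 / (|t| * A) := by
  have hpos : ∀ z ∈ Set.uIcc A B, 0 < z := by
    intro z hz
    rw [Set.uIcc_of_le hAB] at hz
    exact lt_of_lt_of_le hA hz.1
  have htp : 0 < |t| := abs_pos.mpr ht
  have hcinv : ContinuousOn (fun z : ℝ => (((z ^ 2)⁻¹ : ℝ) : ℂ)) (Set.uIcc A B) := by
    apply Complex.continuous_ofReal.comp_continuousOn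
    apply ContinuousOn.inv₀ (by fun_prop)
    intro z hz
    exact pow_ne_zero 2 (hpos z hz).ne'
  have hii : IntervalIntegrable
      (fun z : ℝ => ph 0 t z * (Complex.I / ((2 * t : ℝ) : ℂ) * (((z ^ 2)⁻¹ : ℝ) : ℂ)))
      volume A B := by
    apply ContinuousOn.intervalIntegrable
    exact (cont_ph 0 t).continuousOn.mul (continuousOn_const.mul hcinv)
  have h1 : ∫ z in A..B, (ph 0 t z -
      ph 0 t z * (Complex.I / ((2 * t : ℝ) : ℂ) * (((z ^ 2)⁻¹ : ℝ) : ℂ))) =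
      ph 0 t B * (Complex.I / ((2 * t : ℝ) : ℂ) * ((B⁻¹ : ℝ) : ℂ)) -
        ph 0 t A * (Complex.I / ((2 * t : ℝ) : ℂ) * ((A⁻¹ : ℝ) : ℂ)) := by
    apply intervalIntegral.integral_eq_sub_of_hasDerivAt
      (f := fun y : ℝ => ph 0 t y * (Complex.I / ((2 * t : ℝ) : ℂ) * ((y⁻¹ : ℝ) : ℂ)))
    · intro z hz
      exact deriv_G t z ht (hpos z hz).ne'
    · exact (ii_ph 0 t A B).sub hii
  rw [intervalIntegral.integral_sub (ii_ph 0 t A B) hii] at h1
  have hcr : ContinuousOn (fun z : ℝ => 1 / (2 * |t|) * (z ^ 2)⁻¹) (Set.uIcc A B) := by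
    apply continuousOn_const.mul
    apply ContinuousOn.inv₀ (by fun_prop)
    intro z hz
    exact pow_ne_zero 2 (hpos z hz).ne'
  have h2 : ∫ z in A..B, 1 / (2 * |t|) * (z ^ 2)⁻¹ =
      1 / (2 * |t|) * (-B⁻¹) - 1 / (2 * |t|) * (-A⁻¹) := by
    apply intervalIntegral.integral_eq_sub_of_hasDerivAt
      (f := fun y : ℝ => 1 / (2 * |t|) * (-y⁻¹))
    · intro z hz
      have h := ((hasDerivAt_inv (hpos z hz).ne').neg).const_mul (1 / (2 * |t|))
      refine h.congr_deriv ?_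
      rw [neg_neg]
    · exact hcr.intervalIntegrable
  have hnI : ∀ r : ℝ, 0 ≤ r → ‖Complex.I / ((2 * t : ℝ) : ℂ) * ((r : ℝ) : ℂ)‖ = 1 / (2 * |t|) * r := by
    intro r hr
    rw [norm_mul, norm_div, Complex.norm_I, Complex.norm_real, Complex.norm_real, Real.norm_eq_abs,
      Real.norm_eq_abs, abs_of_nonneg hr, abs_mul, abs_two]
  have h3 : ‖∫ z in A..B, ph 0 t z * (Complex.I / ((2 * t : ℝ) : ℂ) * (((z ^ 2)⁻¹ : ℝ) : ℂ))‖ ≤
      ∫ z in A..B, 1 / (2 * |t|) * (z ^ 2)⁻¹ := by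
    apply intervalIntegral.norm_integral_le_of_norm_le hAB
    · apply Filter.Eventually.of_forall
      intro z _
      rw [norm_mul, norm_ph, one_mul, hnI _ (inv_nonneg.mpr (sq_nonneg z))]
    · exact hcr.intervalIntegrable
  have h4 : ∫ z in A..B, ph 0 t z =
      (ph 0 t B * (Complex.I / ((2 * t : ℝ) : ℂ) * ((B⁻¹ : ℝ) : ℂ)) -
        ph 0 t A * (Complex.I / ((2 * t : ℝ) : ℂ) * ((A⁻¹ : ℝ) : ℂ))) +
      ∫ z in A..B, ph 0 t z * (Complex.I / ((2 * t : ℝ) : ℂ) * (((z ^ 2)⁻¹ : ℝ) : ℂ)) := by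
    rw [← h1]
    ring
  rw [h4]
  have hB : 0 < B := lt_of_lt_of_le hA hAB
  have h5 : ‖ph 0 t B * (Complex.I / ((2 * t : ℝ) : ℂ) * ((B⁻¹ : ℝ) : ℂ))‖ =
      1 / (2 * |t|) * B⁻¹ := by
    rw [norm_mul, norm_ph, one_mul, hnI _ (inv_nonneg.mpr hB.le)]
  have h6 : ‖ph 0 t A * (Complex.I / ((2 * t : ℝ) : ℂ) * ((A⁻¹ : ℝ) : ℂ))‖ =
      1 / (2 * |t|) * A⁻¹ := by
    rw [norm_mul, norm_ph, one_mul, hnI _ (inv_nonneg.mpr hA.le)]
  have h7 : 1 / (|t| * A) = 1 / (2 * |t|) * A⁻¹ + 1 / (2 * |t|) * A⁻¹ := by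
    field_simp
    norm_num
  rw [h7]
  refine le_trans (norm_add_le _ _) ?_
  refine le_trans (add_le_add (norm_sub_le _ _) (h3.trans_eq h2)) ?_
  rw [h5, h6]
  linarith

theorem even_ph (t z : ℝ) : ph 0 t (-z) = ph 0 t z := by
  unfold ph
  have h : (0 * -z + t * (-z) ^ 2 : ℝ) = 0 * z + t * z ^ 2 := by ring
  rw [h]

theorem flip (t A B : ℝ) : ∫ z in A..B, ph 0 t z = ∫ z in -B..-A, ph 0 t z := by
  rw [← intervalIntegral.integral_comp_neg]
  apply intervalIntegral.integral_congr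
  intro z _
  exact (even_ph t z).symm

theorem near (t B : ℝ) (ht : t ≠ 0) (hB : 0 ≤ B) :
    ‖∫ z in (0 : ℝ)..B, ph 0 t z‖ ≤ 2 * |t| ^ (-(1 / 2 : ℝ)) := by
  have htp : 0 < |t| := abs_pos.mpr ht
  have hr : 0 < |t| ^ (-(1 / 2 : ℝ)) := Real.rpow_pos_of_pos htp _
  set r : ℝ := |t| ^ (-(1 / 2 : ℝ)) with hrdef
  have hrr : |t| * r * r = 1 := by
    have h1 : r * r = |t| ^ (-1 : ℝ) := by
      rw [hrdef, ← Real.rpow_add htp]
      norm_num
    rw [mul_assoc, h1, Real.rpow_neg_one, mul_inv_cancel₀ htp.ne']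
  have triv : ∀ s : ℝ, 0 ≤ s → ‖∫ z in (0 : ℝ)..s, ph 0 t z‖ ≤ s := by
    intro s hs
    have h := intervalIntegral.norm_integral_le_of_norm_le_const (a := 0) (b := s) (C := 1)
      (f := ph 0 t) (fun z _ => (norm_ph 0 t z).le)
    rw [one_mul, sub_zero, abs_of_nonneg hs] at h
    exact h
  rcases le_total B r with h | h
  · have h1 := triv B hB
    linarith
  · have h1 := triv r hr.le
    have h2 := core t r B ht hr h
    have h3 : 1 / (|t| * r) = r := by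
      rw [div_eq_iff (mul_pos htp hr).ne']
      linarith
    rw [h3] at h2
    have h4 : ∫ z in (0 : ℝ)..B, ph 0 t z =
        (∫ z in (0 : ℝ)..r, ph 0 t z) + ∫ z in r..B, ph 0 t z :=
      (intervalIntegral.integral_add_adjacent_intervals (ii_ph 0 t 0 r) (ii_ph 0 t r B)).symm
    rw [h4]
    refine le_trans (norm_add_le _ _) ?_
    linarith

theorem near' (t B : ℝ) (ht : t ≠ 0) :
    ‖∫ z in (0 : ℝ)..B, ph 0 t z‖ ≤ 2 * |t| ^ (-(1 / 2 : ℝ)) := by
  rcases le_total 0 B with h | h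
  · exact near t B ht h
  · rw [flip, neg_zero, intervalIntegral.integral_symm, norm_neg]
    exact near t (-B) ht (by linarith)

theorem all (t A B : ℝ) (ht : t ≠ 0) :
    ‖∫ z in A..B, ph 0 t z‖ ≤ 4 * |t| ^ (-(1 / 2 : ℝ)) := by
  have h : ∫ z in A..B, ph 0 t z = (∫ z in (0 : ℝ)..B, ph 0 t z) - ∫ z in (0 : ℝ)..A, ph 0 t z :=
    (intervalIntegral.integral_interval_sub_left (ii_ph 0 t 0 B) (ii_ph 0 t 0 A)).symm
  rw [h]
  refine le_trans (norm_sub_le _ _) ?_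
  have h1 := near' t A ht
  have h2 := near' t B ht
  linarith

theorem shift (x t a b : ℝ) (ht : t ≠ 0) :
    ‖∫ y in a..b, ph x t y‖ = ‖∫ z in (a + x / (2 * t))..(b + x / (2 * t)), ph 0 t z‖ := by
  have h1 : ∀ y : ℝ, ph x t y =
      Complex.exp (((x ^ 2 / (4 * t) : ℝ) : ℂ) * Complex.I) * ph 0 t (y + x / (2 * t)) := by
    intro y
    unfold ph
    rw [← Complex.exp_add]
    apply congrArg Complex.exp
    rw [← add_mul]
    apply congrArg (· * Complex.I)
    rw [← Complex.ofReal_neg, ← Complex.ofReal_neg, ← Complex.ofReal_add]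
    apply congrArg
    field_simp
    ring
  have h2 : ∫ y in a..b, ph x t y =
      Complex.exp (((x ^ 2 / (4 * t) : ℝ) : ℂ) * Complex.I) *
        ∫ y in a..b, ph 0 t (y + x / (2 * t)) := by
    rw [← intervalIntegral.integral_const_mul]
    apply intervalIntegral.integral_congr
    intro y _
    exact h1 y
  rw [h2, norm_mul, Complex.norm_exp_ofReal_mul_I, one_mul,
    intervalIntegral.integral_comp_add_right (fun z => ph 0 t z)]

end VDC

theorem t_VDC : S_VDC := by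
  refine ⟨4, by norm_num, ?_⟩
  intro x t a b ht hab
  refine ⟨?_, ?_⟩
  · rw [VDC.shift x t a b ht]
    exact VDC.all t _ _ ht
  · intro d hd hy
    rw [VDC.shift x t a b ht]
    have htp : 0 < |t| := abs_pos.mpr ht
    have hz : ∀ z, a + x / (2 * t) ≤ z → z ≤ b + x / (2 * t) → d ≤ |z| := by
      intro z h1 h2
      have h := hy (z - x / (2 * t)) ⟨by linarith, by linarith⟩
      rw [sub_add_cancel] at h
      exact h
    have hAB : a + x / (2 * t) ≤ b + x / (2 * t) := by linarith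
    generalize a + x / (2 * t) = A at *
    generalize b + x / (2 * t) = B at *
    have key : ∀ A' B' : ℝ, d ≤ A' → A' ≤ B' → ‖∫ z in A'..B', ph 0 t z‖ ≤ 4 / (|t| * d) := by
      intro A' B' h1 h2
      refine le_trans (VDC.core t A' B' ht (lt_of_lt_of_le hd h1) h2) ?_
      apply div_le_div₀ (by norm_num) (by norm_num) (mul_pos htp hd)
      exact mul_le_mul_of_nonneg_left h1 htp.le
    rcases le_or_gt A 0 with hA | hA
    · have hB : B < 0 := by
        by_contra hc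
        have h := hz 0 hA (not_lt.mp hc)
        rw [abs_zero] at h
        linarith
      have h1 := hz B hAB le_rfl
      rw [abs_of_neg hB] at h1
      rw [VDC.flip]
      exact key (-B) (-A) h1 (by linarith)
    · have h1 := hz A le_rfl hAB
      rw [abs_of_pos hA] at h1
      exact key A B h1 hAB

end Pool.Agent.H243.RL

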