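import Mathlib
import Pool.Agent.H243.RL.Main
import Pool.Agent.H243.RL.TR3
import Pool.Agent.H243.RL.VDC
import Pool.Agent.H243.RL.KB
import Pool.Agent.H243.RL.AV2
import Pool.Agent.H243.RL.MZ
import Pool.Agent.H243.RL.FX
import Pool.Agent.H243.RL.LOC
import Pool.Agent.H243.RL.LOC0
import Pool.Agent.H243.RL.DJ
import Pool.Agent.H243.RL.BLOCK
import Pool.Agent.H243.RL.BASE3
import Pool.Agent.H243.RL.BVREG
set_option autoImplicit false

open MeasureTheory Set
open scoped ENNReal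

namespace Pool.Agent.H243.RL

theorem w2 : S_W2 := fun _ h1 h2 t => W_two h1 h2 t

theorem fx : S_FX := t_FX (t_KB t_VDC) t_MZ (t_AV2 w2)

theorem loc : S_LOC := t_LOC fx planar

theorem loc0 : S_LOC0 := t_LOC0 t_TRIV planar

theorem base3 : S_BASE3 := t_BASE3 (t_BLOCK loc loc0 t_DJ) loc0

end Pool.Agent.H243.RL
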