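import Mathlib
import Pool.Agent.H243.RL.Stmt
set_option autoImplicit false

open MeasureTheory Set
open scoped ENNReal

namespace Pool.Agent.H243.RL

/-- in every interval of `N` integers, `L` has at most `B N^γ` representations of any integer as a
sum of two of its elements -/
def Rep (γ B : ℝ) (L : Set ℤ) : Prop := ∀ (m : ℤ) (N : ℕ), 1 ≤ N → ∀ n : ℤ,
  ({k : ℤ | k ∈ L ∧ n - k ∈ L ∧ m ≤ k ∧ k < m + N ∧ m ≤ n - k ∧ n - k < m + N}.ncard : ℝ) ≤
    B * (N : ℝ) ^ γ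

def S_REP : Prop := ∀ (q γ B : ℝ) (L : Set ℤ), 2 < q → q < 4 → 0 ≤ γ → 1 ≤ B → Rep γ B L →
  Lam q (γ * (1 / 2 - 1 / q)) B L

end Pool.Agent.H243.RL
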