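import Pool.Agent.H243.RL.Stmt6
set_option autoImplicit false

/-! Change of variables to the unit cube. -/

open MeasureTheory Set
open scoped ENNReal

namespace Pool.Agent.H243.RL

namespace TRN

/-- the new frequencies -/
noncomputable def XX {n : ℕ} (x : Fin n → ℝ) (t : ℝ) : Fin n → ℝ :=
  fun j => -(4 * Real.pi * x j - 8 * Real.pi * t)

lemma phase {n : ℕ} (x : Fin n → ℝ) (t : ℝ) (η : Fin n → ℝ) :
    Complex.exp (2 * Real.pi * Complex.I *
      ((∑ j, (2 * η j - 1) * x j + (∑ j, (2 * η j - 1) ^ 2) * t : ℝ) : ℂ)) =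
    Complex.exp (((∑ j : Fin n, (2 * Real.pi * (t - x j)) : ℝ) : ℂ) * Complex.I) *
      ∏ j, ph (XX x t j) (-(8 * Real.pi * t)) (η j) := by
  unfold ph
  rw [← Complex.exp_sum, ← Complex.exp_add]
  congr 1
  have h1 : ∑ j, -((XX x t j * η j + -(8 * Real.pi * t) * η j ^ 2 : ℝ) : ℂ) * Complex.I =
      ((∑ j, -(XX x t j * η j + -(8 * Real.pi * t) * η j ^ 2) : ℝ) : ℂ) * Complex.I := by
    rw [← Finset.sum_mul]
    push_cast
    rfl
  rw [h1, ← add_mul, ← Complex.ofReal_add]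
  have h2 : 2 * Real.pi * (∑ j, (2 * η j - 1) * x j + (∑ j, (2 * η j - 1) ^ 2) * t) =
      ∑ j : Fin n, (2 * Real.pi * (t - x j)) +
      ∑ j, -(XX x t j * η j + -(8 * Real.pi * t) * η j ^ 2) := by
    rw [Finset.sum_mul, ← Finset.sum_add_distrib, ← Finset.sum_add_distrib, Finset.mul_sum]
    refine Finset.sum_congr rfl fun j _ => ?_
    unfold XX
    ring
  rw [← h2]
  push_cast
  ring

lemma integrable_g {n : ℕ} (f : (Fin n → ℝ) → ℂ) (hf : Measurable f) (A : ℝ)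
    (hA : ∀ ξ, ‖f ξ‖ ≤ A) (x : Fin n → ℝ) (t : ℝ) :
    Integrable fun ξ : Fin n → ℝ =>
      Complex.exp (2 * Real.pi * Complex.I * ((∑ j, ξ j * x j + (∑ j, ξ j ^ 2) * t : ℝ) : ℂ)) *
        (Icc (-1 : Fin n → ℝ) 1).indicator f ξ := by
  have h1 : Integrable ((Icc (-1 : Fin n → ℝ) 1).indicator f) := by
    rw [integrable_indicator_iff measurableSet_Icc]
    refine Measure.integrableOn_of_bounded (M := A) ?_ hf.aestronglyMeasurable
      (Filter.Eventually.of_forall hA)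
    exact (isCompact_Icc.measure_lt_top).ne
  refine h1.bdd_mul (c := 1) ?_ (Filter.Eventually.of_forall fun ξ => ?_)
  · refine (Continuous.aestronglyMeasurable ?_)
    fun_prop
  · rw [show (2 * Real.pi * Complex.I * ((∑ j, ξ j * x j + (∑ j, ξ j ^ 2) * t : ℝ) : ℂ)) =
      ((2 * Real.pi * (∑ j, ξ j * x j + (∑ j, ξ j ^ 2) * t) : ℝ) : ℂ) * Complex.I by
        push_cast; ring]
    rw [Complex.norm_exp_ofReal_mul_I]

lemma cov {n : ℕ} (g : (Fin n → ℝ) → ℂ) :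
    ∫ ξ : Fin n → ℝ, g ξ = (2 ^ n : ℝ) • ∫ η : Fin n → ℝ, g (fun j => 2 * η j - 1) := by
  have h1 := Measure.integral_comp_smul (volume : Measure (Fin n → ℝ)) (fun ξ => g (ξ - 1)) (2 : ℝ)
  have h2 : (fun η : Fin n → ℝ => g ((2 : ℝ) • η - 1)) = fun η => g (fun j => 2 * η j - 1) := by
    funext η
    congr 1
  rw [h2, integral_sub_right_eq_self (fun ξ => g ξ) (1 : Fin n → ℝ)] at h1
  rw [h1, Module.finrank_fin_fun, smul_smul, abs_inv, abs_of_pos (by positivity : (0 : ℝ) < 2 ^ n),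
    mul_inv_cancel₀ (by positivity), one_smul]

lemma integrable_cov {n : ℕ} (g : (Fin n → ℝ) → ℂ) (hg : Integrable g) :
    Integrable fun η : Fin n → ℝ => g (fun j => 2 * η j - 1) := by
  have h1 : Integrable fun ξ : Fin n → ℝ => g (ξ - 1) := hg.comp_sub_right 1
  have h2 := h1.comp_smul (R := (2 : ℝ)) two_ne_zero
  exact h2

lemma split {m : ℕ} (i : Fin (m + 1)) (G : (Fin (m + 1) → ℝ) → ℂ) (hG : Integrable G) :
    ∫ η, G η = ∫ y₁ : ℝ, ∫ y' : Fin m → ℝ, G (i.insertNth (α := fun _ => ℝ) y₁ y') := by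
  have h1 := (volume_preserving_piFinSuccAbove (fun _ : Fin (m + 1) => ℝ) i).symm
  have h2 := h1.integral_comp' G
  have h3 := (h1.integrable_comp_emb (MeasurableEquiv.measurableEmbedding _)).2 hG
  rw [← h2]
  exact integral_prod _ h3

theorem pointwise {m : ℕ} (i : Fin (m + 1)) (f : (Fin (m + 1) → ℝ) → ℂ) (hf : Measurable f)
    (A : ℝ) (hA : ∀ ξ, ‖f ξ‖ ≤ A) (x : Fin (m + 1) → ℝ) (t : ℝ) :
    ‖extN f (x, t)‖ = 2 ^ (m + 1) *
      ‖EN (cube i f) (XX x t i) (fun j => XX x t (i.succAbove j)) (-(8 * Real.pi * t))‖ := by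
  have hint := integrable_g f hf A hA x t
  set g : (Fin (m + 1) → ℝ) → ℂ := fun ξ =>
    Complex.exp (2 * Real.pi * Complex.I * ((∑ j, ξ j * x j + (∑ j, ξ j ^ 2) * t : ℝ) : ℂ)) *
        (Icc (-1 : Fin (m + 1) → ℝ) 1).indicator f ξ with hg
  have e1 : extN f (x, t) = ∫ ξ, g ξ := by
    unfold extN
    rw [← integral_indicator measurableSet_Icc]
    refine integral_congr_ae (Filter.Eventually.of_forall fun ξ => ?_)
    simp only [hg]
    by_cases h : ξ ∈ Icc (-1 : Fin (m + 1) → ℝ) 1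
    · rw [indicator_of_mem h, indicator_of_mem h]
    · rw [indicator_of_notMem h, indicator_of_notMem h, mul_zero]
  have hint2 := integrable_cov g hint
  have e2 : ∀ η : Fin (m + 1) → ℝ, g (fun j => 2 * η j - 1) =
      Complex.exp (((∑ j : Fin (m + 1), (2 * Real.pi * (t - x j)) : ℝ) : ℂ) * Complex.I) *
      ((∏ j, ph (XX x t j) (-(8 * Real.pi * t)) (η j)) *
        (Icc (-1 : Fin (m + 1) → ℝ) 1).indicator f (fun j => 2 * η j - 1)) := by
    intro η
    simp only [hg]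
    rw [phase, mul_assoc]
  have e3 : EN (cube i f) (XX x t i) (fun j => XX x t (i.succAbove j)) (-(8 * Real.pi * t)) =
      ∫ η : Fin (m + 1) → ℝ, (∏ j, ph (XX x t j) (-(8 * Real.pi * t)) (η j)) *
        (Icc (-1 : Fin (m + 1) → ℝ) 1).indicator f (fun j => 2 * η j - 1) := by
    rw [split i]
    · unfold EN cube
      refine integral_congr_ae (Filter.Eventually.of_forall fun y₁ => ?_)
      refine integral_congr_ae (Filter.Eventually.of_forall fun y' => ?_)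
      simp only
      rw [Fin.prod_univ_succAbove _ i]
      simp only [Fin.insertNth_apply_same, Fin.insertNth_apply_succAbove]
      ring
    · have h4 := hint2.const_mul
        (Complex.exp (((∑ j : Fin (m + 1), (2 * Real.pi * (t - x j)) : ℝ) : ℂ) * Complex.I))⁻¹
      refine h4.congr (Filter.Eventually.of_forall fun η => ?_)
      simp only
      rw [e2 η, ← mul_assoc, inv_mul_cancel₀ (Complex.exp_ne_zero _), one_mul]
  rw [e1, cov g, norm_smul, Real.norm_of_nonneg (by positivity : (0 : ℝ) ≤ 2 ^ (m + 1)), e3]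
  congr 1
  simp only [e2]
  rw [integral_const_mul, norm_mul, Complex.norm_exp_ofReal_mul_I, one_mul]

lemma lint_smul {n : ℕ} (r : ℝ) (hr : r ≠ 0) (G : (Fin n → ℝ) → ℝ≥0∞) :
    ∫⁻ x : Fin n → ℝ, G (r • x) = ENNReal.ofReal |(r ^ n)⁻¹| * ∫⁻ x, G x := by
  have h1 := Measure.map_addHaar_smul (volume : Measure (Fin n → ℝ)) hr
  have h2 : MeasurableEmbedding (fun x : Fin n → ℝ => r • x) :=
    (Homeomorph.smulOfNeZero r hr).measurableEmbedding
  rw [← h2.lintegral_map, h1, lintegral_smul_measure, Module.finrank_fin_fun, smul_eq_mul]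

lemma lint_smul₁ (r : ℝ) (hr : r ≠ 0) (G : ℝ → ℝ≥0∞) :
    ∫⁻ x : ℝ, G (r * x) = ENNReal.ofReal |r⁻¹| * ∫⁻ x, G x := by
  have h1 := Real.map_volume_mul_left hr
  have h2 : MeasurableEmbedding (fun x : ℝ => r * x) :=
    (Homeomorph.mulLeft₀ r hr).measurableEmbedding
  rw [← h2.lintegral_map, h1, lintegral_smul_measure, smul_eq_mul]

lemma lint_XX {n : ℕ} (t : ℝ) (G : (Fin n → ℝ) → ℝ≥0∞) :
    ∫⁻ x : Fin n → ℝ, G (XX x t) =
      ENNReal.ofReal |((-(4 * Real.pi)) ^ n)⁻¹| * ∫⁻ x, G x := by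
  have h0 : (-(4 * Real.pi)) ≠ 0 := neg_ne_zero.2 (by positivity)
  have h1 := lint_smul (-(4 * Real.pi)) h0 (fun x => G (x + fun _ => 8 * Real.pi * t))
  rw [lintegral_add_right_eq_self (fun x => G x) (fun _ : Fin n => 8 * Real.pi * t)] at h1
  rw [← h1]
  refine lintegral_congr fun x => ?_
  congr 1
  funext j
  simp only [XX, Pi.add_apply, Pi.smul_apply, smul_eq_mul]
  ring

lemma lint_split {m : ℕ} (i : Fin (m + 1)) (G : (Fin (m + 1) → ℝ) → ℝ≥0∞) :
    ∫⁻ x, G x ≤ ∫⁻ x₁ : ℝ, ∫⁻ x' : Fin m → ℝ, G (i.insertNth (α := fun _ => ℝ) x₁ x') := by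
  have h1 := (volume_preserving_piFinSuccAbove (fun _ : Fin (m + 1) => ℝ) i).symm
  have h2 := h1.lintegral_comp_emb (MeasurableEquiv.measurableEmbedding _) G
  rw [← h2]
  exact lintegral_prod_le _

end TRN

open TRN in
/-- change of variables between the two operators -/
theorem t_TRN : S_TRN := by
  intro m q hq
  have hq0 : 0 ≤ q := by linarith
  have hc : 0 < |((-(4 * Real.pi)) ^ (m + 1))⁻¹| := by
    have : (-(4 * Real.pi)) ≠ 0 := neg_ne_zero.2 (by positivity)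
    positivity
  have hd : 0 < |(-(8 * Real.pi))⁻¹| := by
    have : (-(8 * Real.pi)) ≠ 0 := neg_ne_zero.2 (by positivity)
    positivity
  refine ⟨(2 ^ (m + 1)) ^ q * (|((-(4 * Real.pi)) ^ (m + 1))⁻¹| * |(-(8 * Real.pi))⁻¹|),
    by positivity, ?_⟩
  intro i f hf hA
  obtain ⟨A, hA⟩ := hA
  set G : ℝ → (Fin (m + 1) → ℝ) → ℝ≥0∞ := fun T X =>
    ‖EN (cube i f) (X i) (fun j => X (i.succAbove j)) T‖ₑ ^ q with hG
  have e1 : ∀ (t : ℝ) (x : Fin (m + 1) → ℝ), ‖extN f (x, t)‖ₑ ^ q =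
      ENNReal.ofReal ((2 ^ (m + 1)) ^ q) * G (-(8 * Real.pi * t)) (XX x t) := by
    intro t x
    have h := pointwise i f hf A hA x t
    rw [← ofReal_norm, h, ENNReal.ofReal_mul (by positivity),
      ENNReal.mul_rpow_of_nonneg _ _ hq0, ofReal_norm,
      ENNReal.ofReal_rpow_of_nonneg (by positivity) hq0]
  have e2 : ∫⁻ y : (Fin (m + 1) → ℝ) × ℝ, ‖extN f y‖ₑ ^ q ≤
      ∫⁻ t : ℝ, ∫⁻ x : Fin (m + 1) → ℝ, ‖extN f (x, t)‖ₑ ^ q := by
    have h1 := lintegral_prod_swap (μ := (volume : Measure (Fin (m + 1) → ℝ)))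
      (ν := (volume : Measure ℝ)) (fun y => ‖extN f y‖ₑ ^ q)
    calc ∫⁻ y : (Fin (m + 1) → ℝ) × ℝ, ‖extN f y‖ₑ ^ q
        = ∫⁻ z : ℝ × (Fin (m + 1) → ℝ), ‖extN f z.swap‖ₑ ^ q := h1.symm
      _ ≤ _ := lintegral_prod_le _
  refine e2.trans ?_
  have e3 : ∫⁻ t : ℝ, ∫⁻ x : Fin (m + 1) → ℝ, ‖extN f (x, t)‖ₑ ^ q =
      ENNReal.ofReal ((2 ^ (m + 1)) ^ q * (|((-(4 * Real.pi)) ^ (m + 1))⁻¹| *
        |(-(8 * Real.pi))⁻¹|)) * ∫⁻ T : ℝ, ∫⁻ X : Fin (m + 1) → ℝ, G T X := by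
    have h1 : ∀ t : ℝ, ∫⁻ x : Fin (m + 1) → ℝ, ‖extN f (x, t)‖ₑ ^ q =
        (ENNReal.ofReal ((2 ^ (m + 1)) ^ q) * ENNReal.ofReal |((-(4 * Real.pi)) ^ (m + 1))⁻¹|) *
          ∫⁻ X : Fin (m + 1) → ℝ, G (-(8 * Real.pi) * t) X := by
      intro t
      simp only [e1]
      rw [lintegral_const_mul' _ _ ENNReal.ofReal_ne_top, lint_XX, ← mul_assoc,
        show -(8 * Real.pi * t) = -(8 * Real.pi) * t by ring]
    simp only [h1]
    rw [lintegral_const_mul' _ _ (ENNReal.mul_ne_top ENNReal.ofReal_ne_top ENNReal.ofReal_ne_top),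
      lint_smul₁ (-(8 * Real.pi)) (neg_ne_zero.2 (by positivity))
        (fun T => ∫⁻ X : Fin (m + 1) → ℝ, G T X),
      ENNReal.ofReal_mul (by positivity), ENNReal.ofReal_mul hc.le]
    ring
  rw [e3]
  gcongr with T
  refine (lint_split i (G T)).trans (le_of_eq ?_)
  refine lintegral_congr fun x₁ => lintegral_congr fun x' => ?_
  simp only [hG, Fin.insertNth_apply_same, Fin.insertNth_apply_succAbove]

end Pool.Agent.H243.RL
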